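import Mathlib

/-!
Derivatives of norms and of normalised vectors; summation by parts.
-/

set_option autoImplicit false

open Set Filter Topology
open scoped InnerProductSpace

namespace Pool.Agent.V7H61.IV

variable {E : Type*} [NormedAddCommGroup E] [InnerProductSpace ℝ E]

theorem hasDerivAt_norm' {f : ℝ → E} {f' : E} {t : ℝ} (h : HasDerivAt f f' t) (h0 : f t ≠ 0) :
    HasDerivAt (fun t => ‖f t‖) (⟪f t, f'⟫_ℝ / ‖f t‖) t := by
  have h1 := h.norm_sq
  have h2 : ‖f t‖ ^ 2 ≠ 0 := pow_ne_zero 2 (norm_ne_zero_iff.2 h0)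
  have h3 := h1.sqrt h2
  have h4 : (fun t => √(‖f t‖ ^ 2)) = fun t => ‖f t‖ := by
    funext t; exact Real.sqrt_sq (norm_nonneg _)
  rw [h4, Real.sqrt_sq (norm_nonneg _)] at h3
  convert h3 using 1
  rw [mul_div_mul_left _ _ (two_ne_zero)]

/-- The derivative of a normalised vector is orthogonal to it. -/
theorem hasDerivAt_unit {f : ℝ → E} {f' : E} {t : ℝ} (h : HasDerivAt f f' t) (h0 : f t ≠ 0) :
    ∃ w' : E, HasDerivAt (fun t => ‖f t‖⁻¹ • f t) w' t ∧ ⟪w', f t⟫_ℝ = 0 := by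
  have hn : ‖f t‖ ≠ 0 := norm_ne_zero_iff.2 h0
  have h1 := ((hasDerivAt_norm' h h0).inv hn).smul h
  refine ⟨_, h1, ?_⟩
  rw [inner_add_left, real_inner_smul_left, real_inner_smul_left, real_inner_self_eq_norm_sq,
    real_inner_comm (f t) f']
  simp only [Pi.inv_apply]
  field_simp
  ring

/-- Summation by parts. -/
theorem sum_parts (w Y : ℕ → E) (c : ℕ) (h0 : Y 0 = 0) (hc : Y c = 0)
    (h : ∀ k, 1 ≤ k → k < c → ⟪w (k - 1) - w k, Y k⟫_ℝ = 0) :
    ∑ k ∈ Finset.range c, ⟪w k, Y (k + 1) - Y k⟫_ℝ = 0 := by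
  have key : ∀ m, m + 1 ≤ c → ∑ k ∈ Finset.range (m + 1), ⟪w k, Y (k + 1) - Y k⟫_ℝ =
      ⟪w m, Y (m + 1)⟫_ℝ := by
    intro m
    induction m with
    | zero =>
      intro _
      simp [h0]
    | succ m ih =>
      intro hm
      rw [Finset.sum_range_succ, ih (by omega)]
      have h1 := h (m + 1) (by omega) (by omega)
      rw [Nat.add_sub_cancel, inner_sub_left] at h1
      rw [inner_sub_right]
      linarith
  rcases Nat.eq_zero_or_pos c with rfl | hpos
  · simp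
  · obtain ⟨m, rfl⟩ : ∃ m, c = m + 1 := ⟨c - 1, by omega⟩
    rw [key m le_rfl, hc, inner_zero_right]

end Pool.Agent.V7H61.IV
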