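import Mathlib

/-!
Dimension of sets which locally satisfy an equation with nonzero derivative.
-/

set_option autoImplicit false

open Set Filter Topology MeasureTheory
open scoped NNReal ENNReal InnerProductSpace

namespace Pool.Agent.V7H61.IV

/-- A set all of whose points have a neighbourhood with low dimensional projection has a low
dimensional projection. -/
theorem dim_of_locally {X Y : Type*} [TopologicalSpace X] [SecondCountableTopology X]
    [EMetricSpace Y] (r : ℝ≥0∞) (π : X → Y) (W : Set X)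
    (h : ∀ w ∈ W, ∃ Z : Set Y, dimH Z ≤ r ∧ ∀ᶠ w' in 𝓝 w, w' ∈ W → π w' ∈ Z) :
    dimH (π '' W) ≤ r := by
  classical
  choose! Z hZ hZ' using h
  obtain ⟨t, htW, htc, hcov⟩ := TopologicalSpace.countable_cover_nhdsWithin
    (f := fun w => {w' | w' ∈ W → π w' ∈ Z w}) (s := W)
    (fun w hw => mem_nhdsWithin_of_mem_nhds (hZ' w hw))
  refine (dimH_mono (t := ⋃ w ∈ t, Z w) ?_).trans ?_
  · rintro _ ⟨w, hw, rfl⟩
    obtain ⟨w0, hw0, h1⟩ := mem_iUnion₂.1 (hcov hw)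
    exact mem_iUnion₂.2 ⟨w0, hw0, h1 hw⟩
  · rw [dimH_bUnion htc]
    exact iSup₂_le fun w hw => hZ w (htW hw)

/-- A subset of a `(D + 1)`-dimensional space which satisfies near each of its points an equation with
nonzero derivative has dimension at most `D`. -/
theorem dim_hyper {Z : Type*} [NormedAddCommGroup Z] [NormedSpace ℝ Z] [FiniteDimensional ℝ Z]
    {D : ℕ} (hD : Module.finrank ℝ Z = D + 1) (A : Set Z)
    (h : ∀ z ∈ A, ∃ ψ : Z → ℝ, ContDiffAt ℝ 1 ψ z ∧ fderiv ℝ ψ z ≠ 0 ∧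
      ∀ᶠ z' in 𝓝 z, z' ∈ A → ψ z' = 0) :
    dimH A ≤ (D : ℝ≥0∞) := by
  have hcomp : CompleteSpace Z := FiniteDimensional.complete ℝ Z
  rw [← image_id A]
  refine dim_of_locally _ id A fun z hz => ?_
  obtain ⟨ψ, hψ, hd, hA⟩ := h z hz
  obtain ⟨f', hf'⟩ : ∃ f' : Z →L[ℝ] ℝ, f' = fderiv ℝ ψ z := ⟨_, rfl⟩
  rw [← hf'] at hd
  have hs : HasStrictFDerivAt ψ f' z := by
    rw [hf']
    exact hψ.hasStrictFDerivAt one_ne_zero
  obtain ⟨v, hv⟩ : ∃ v, f' v = 1 := by
    obtain ⟨w, hw⟩ : ∃ w, f' w ≠ 0 := by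
      by_contra hcon
      push Not at hcon
      exact hd (ContinuousLinearMap.ext hcon)
    exact ⟨(f' w)⁻¹ • w, by rw [map_smul, smul_eq_mul, inv_mul_cancel₀ hw]⟩
  obtain ⟨W, hW⟩ : ∃ W : Submodule ℝ Z, W = LinearMap.ker (f' : Z →ₗ[ℝ] ℝ) := ⟨_, rfl⟩
  have hWm : ∀ x, x ∈ W ↔ f' x = 0 := by
    intro x; rw [hW, LinearMap.mem_ker]; rfl
  have hWf : Module.finrank ℝ W = D := by
    have h1 := LinearMap.finrank_range_add_finrank_ker (f' : Z →ₗ[ℝ] ℝ)
    have h2 : LinearMap.range (f' : Z →ₗ[ℝ] ℝ) = ⊤ := by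
      rw [LinearMap.range_eq_top]
      intro r
      exact ⟨r • v, by change f' (r • v) = r; rw [map_smul, hv, smul_eq_mul, mul_one]⟩
    rw [h2, finrank_top, Module.finrank_self, hD, ← hW] at h1
    omega
  obtain ⟨π, hπ⟩ : ∃ π : Z →L[ℝ] W, ∀ x, ((π x : W) : Z) = x - f' x • v := by
    refine ⟨((ContinuousLinearMap.id ℝ Z) - f'.smulRight v).codRestrict W (fun x => ?_),
      fun x => rfl⟩
    rw [hWm]
    change f' (x - f' x • v) = 0
    rw [map_sub, map_smul, hv, smul_eq_mul, mul_one, sub_self]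
  obtain ⟨ι, hι⟩ : ∃ ι : (ℝ × W) →L[ℝ] Z, ∀ y, ι y = y.1 • v + (y.2 : Z) := by
    refine ⟨(ContinuousLinearMap.fst ℝ ℝ W).smulRight v +
      W.subtypeL.comp (ContinuousLinearMap.snd ℝ ℝ W), fun y => rfl⟩
  obtain ⟨e, he⟩ : ∃ e : Z ≃L[ℝ] (ℝ × W), ∀ x, e x = (f' x, π x) := by
    refine ⟨ContinuousLinearEquiv.equivOfInverse (f'.prod π) ι (fun x => ?_) (fun y => ?_),
      fun x => rfl⟩
    · rw [hι]
      change f' x • v + ((π x : W) : Z) = x
      rw [hπ]; abel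
    · have hy : f' (y.2 : Z) = 0 := (hWm _).1 y.2.2
      rw [hι]
      change (f' (y.1 • v + (y.2 : Z)), π (y.1 • v + (y.2 : Z))) = y
      have h1 : f' (y.1 • v + (y.2 : Z)) = y.1 := by
        rw [map_add, map_smul, hv, hy, smul_eq_mul, mul_one, add_zero]
      refine Prod.ext h1 (Subtype.ext ?_)
      simp only
      rw [hπ, h1]; abel
  have hΦ : HasStrictFDerivAt (fun x => (ψ x, π x)) (e : Z →L[ℝ] (ℝ × W)) z := by
    have h1 := hs.prodMk π.hasStrictFDerivAt (x := z)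
    have h2 : (e : Z →L[ℝ] (ℝ × W)) = f'.prod π := by
      ext x
      · change (e x).1 = f' x; rw [he]
      · change ((e x).2 : Z) = π x; rw [he]
    rw [h2]
    exact h1
  have hg := hΦ.to_localInverse
  obtain ⟨K, s, hs1, hK⟩ := hg.exists_lipschitzOnWith
  refine ⟨hΦ.localInverse (fun x => (ψ x, π x)) e z '' (s ∩ ({0} ×ˢ univ)), ?_, ?_⟩
  · refine (hK.mono inter_subset_left).dimH_image_le.trans ?_
    refine (dimH_mono inter_subset_right).trans ?_
    have h1 : (({0} : Set ℝ) ×ˢ (univ : Set W)) = (fun w : W => ((0 : ℝ), w)) '' univ := by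
      ext y
      constructor
      · rintro ⟨hy, -⟩
        exact ⟨y.2, mem_univ _, Prod.ext (mem_singleton_iff.1 hy).symm rfl⟩
      · rintro ⟨w, -, rfl⟩
        exact ⟨mem_singleton _, mem_univ _⟩
    rw [h1]
    have h2 : LipschitzWith 1 (fun w : W => ((0 : ℝ), w)) := by
      refine LipschitzWith.of_dist_le_mul fun x y => ?_
      simp [Prod.dist_eq]
    refine (h2.dimH_image_le _).trans ?_
    rw [Real.dimH_univ_eq_finrank, hWf]
  · have h1 : Tendsto (fun x => (ψ x, π x)) (𝓝 z) (𝓝 (ψ z, π z)) :=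
      hΦ.continuousAt
    filter_upwards [hA, h1.eventually hs1, hΦ.eventually_left_inverse] with x hx1 hx2 hx3 hxA
    exact ⟨(ψ x, π x), ⟨hx2, ⟨mem_singleton_iff.2 (hx1 hxA), mem_univ _⟩⟩, hx3⟩

end Pool.Agent.V7H61.IV
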