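import Pool.Agent.V7H61.IV.SplitMain

/-!
The local reflection map of a mirror, and sequences of bounces at moved and scaled mirrors.
-/

set_option autoImplicit false

open MeasureTheory Set Filter Topology
open scoped InnerProductSpace ENNReal
open Pool.Agent.H721R2.Quart Pool.Agent.H721R2.Ivrii Pool.Agent.TH746

namespace Pool.Agent.V7H61.IV

variable {E : Type*} [NormedAddCommGroup E] [InnerProductSpace ℝ E] [FiniteDimensional ℝ E]

/-- The local reflection map of a mirror. -/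
theorem exists_bounce {Ω : Set E} {F : E → ℝ} {q v : E} {τ : ℝ}
    (hF : LocalDef Ω (q + τ • v) F) (ht : ⟪gradient F (q + τ • v), v⟫_ℝ ≠ 0) :
    ∃ R : E × E → E × E, R (q, v) = (q + τ • v, rf (dir (gradient F (q + τ • v))) v) ∧
      (∀ᶠ z in 𝓝 (q, v), ContinuousAt R z) ∧
      (∀ᶠ y : (E × E) × ℝ in 𝓝 ((q, v), 0), R (y.1.1 - y.2 • y.1.2, y.1.2) = R y.1) ∧
      ∀ᶠ y : (E × E) × ℝ in 𝓝 ((q, v), τ), ∀ F' : E → ℝ, LocalDef Ω (y.1.1 + y.2 • y.1.2) F' →
        R y.1 = (y.1.1 + y.2 • y.1.2, rf (dir (gradient F' (y.1.1 + y.2 • y.1.2))) y.1.2) := by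
  obtain ⟨T, hT1, hT2, hT3, hT4⟩ := exists_hit hF.smooth hF.zero (by rw [G4_fderiv_eq]; exact ht)
  have hTc : ContinuousAt T (q, v) := hT1.continuousAt
  have hx : Tendsto (fun z : E × E => z.1 + T z • z.2) (𝓝 (q, v)) (𝓝 (q + τ • v)) := by
    have h1 : ContinuousAt (fun z : E × E => z.1 + T z • z.2) (q, v) :=
      continuousAt_fst.add (hTc.smul continuousAt_snd)
    have h2 := h1.tendsto
    simp only [hT2] at h2
    exact h2
  refine ⟨fun z => (z.1 + T z • z.2, rf (dir (gradient F (z.1 + T z • z.2))) z.2), ?_, ?_, ?_, ?_⟩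
  · simp only [hT2]
  · have h1 : ∀ᶠ z in 𝓝 (q, v), ContDiffAt ℝ 3 T z := hT1.eventually (by simp)
    have h2 : ∀ᶠ x in 𝓝 (q + τ • v), ContinuousAt (gradient F) x ∧ gradient F x ≠ 0 := by
      have h3 : ∀ᶠ x in 𝓝 (q + τ • v), ContDiffAt ℝ 3 F x := hF.smooth.eventually (by simp)
      have h4 : ∀ x, ContDiffAt ℝ 3 F x → ContinuousAt (gradient F) x := by
        intro x hx
        have h1 : ContinuousAt (fderiv ℝ F) x :=
          (hx.fderiv_right (m := 2) (by norm_num)).continuousAt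
        exact (InnerProductSpace.toDual ℝ E).symm.continuous.continuousAt.comp h1
      have h5 := (h4 _ hF.smooth).eventually_ne hF.grad
      filter_upwards [h3, h5] with x hx1 hx2
      exact ⟨h4 x hx1, hx2⟩
    filter_upwards [h1, hx.eventually h2] with z hz1 hz2
    have c1 : ContinuousAt T z := hz1.continuousAt
    have c2 : ContinuousAt (fun z : E × E => z.1 + T z • z.2) z :=
      continuousAt_fst.add (c1.smul continuousAt_snd)
    have c3 : ContinuousAt (fun z : E × E => gradient F (z.1 + T z • z.2)) z :=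
      ContinuousAt.comp (g := gradient F) (f := fun z : E × E => z.1 + T z • z.2) hz2.1 c2
    have c4 : ContinuousAt (fun z : E × E => dir (gradient F (z.1 + T z • z.2))) z := by
      unfold dir
      exact (c3.norm.inv₀ (norm_ne_zero_iff.2 hz2.2)).smul c3
    refine c2.prodMk ?_
    unfold rf
    exact continuousAt_snd.sub (((c4.inner continuousAt_snd).const_mul 2).smul c4)
  · have hφ : Tendsto (fun y : (E × E) × ℝ => ((y.1.1 - y.2 • y.1.2, y.1.2), T y.1 + y.2))
        (𝓝 ((q, v), 0)) (𝓝 ((q, v), τ)) := by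
      have c1 : ContinuousAt (fun y : (E × E) × ℝ => T y.1) ((q, v), (0 : ℝ)) :=
        ContinuousAt.comp (g := T) (f := fun y : (E × E) × ℝ => y.1) hTc continuousAt_fst
      have c2 : ContinuousAt
          (fun y : (E × E) × ℝ => ((y.1.1 - y.2 • y.1.2, y.1.2), T y.1 + y.2)) ((q, v), (0 : ℝ)) :=
        (ContinuousAt.prodMk (by fun_prop) (by fun_prop)).prodMk (c1.add continuousAt_snd)
      have h2 := c2.tendsto
      simp only [hT2, zero_smul, sub_zero, add_zero] at h2
      exact h2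
    filter_upwards [hφ.eventually hT4,
      (continuousAt_fst.tendsto (x := (((q, v), (0 : ℝ)) : (E × E) × ℝ))).eventually hT3] with y h1 h2
    have h3 : T (y.1.1 - y.2 • y.1.2, y.1.2) = T y.1 + y.2 := by
      refine (h1 ?_).symm
      rw [show y.1.1 - y.2 • y.1.2 + (T y.1 + y.2) • y.1.2 = y.1.1 + T y.1 • y.1.2 by module]
      exact h2
    simp only [h3]
    rw [show y.1.1 - y.2 • y.1.2 + (T y.1 + y.2) • y.1.2 = y.1.1 + T y.1 • y.1.2 by module]
  · have hφ : Tendsto (fun y : (E × E) × ℝ => y.1.1 + y.2 • y.1.2)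
        (𝓝 ((q, v), τ)) (𝓝 (q + τ • v)) := by
      have c1 : Continuous (fun y : (E × E) × ℝ => y.1.1 + y.2 • y.1.2) := by fun_prop
      exact c1.tendsto ((q, v), τ)
    filter_upwards [hT4, hφ.eventually (localDef_near hF)] with y h1 h2 F' hF'
    have h3 := h2 F' hF'
    have h4 := h1 h3.zero
    obtain ⟨l, hl, hl2⟩ := grad_parallel h3 hF'
    simp only [← h4, hl2, rf_dir_smul _ hl]

theorem gradient_homothety {F : E → ℝ} {s : ℝ} {a x : E}
    (hF : DifferentiableAt ℝ F (s • x + a)) :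
    gradient (fun y => F (s • y + a)) x = s • gradient F (s • x + a) := by
  have h1 : HasFDerivAt (fun y : E => s • y + a) (s • ContinuousLinearMap.id ℝ E) x :=
    ((hasFDerivAt_id x).const_smul s).add_const a
  have h2 : HasFDerivAt (fun y => F (s • y + a))
      ((fderiv ℝ F (s • x + a)).comp (s • ContinuousLinearMap.id ℝ E)) x :=
    hF.hasFDerivAt.comp x h1
  refine ext_inner_right ℝ fun v => ?_
  rw [← G4_fderiv_eq, h2.fderiv, inner_smul_left, ← G4_fderiv_eq]
  simp only [ContinuousLinearMap.comp_apply, smul_apply,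
    ContinuousLinearMap.id_apply, map_smul, smul_eq_mul, conj_trivial]

/-- A local defining function of a moved and scaled table. -/
theorem localDef_homothety {Ω Ω' : Set E} {a q : E} {s : ℝ} (hs : s ≠ 0) {F : E → ℝ}
    (h : ∀ᶠ x in 𝓝 q, (x ∈ Ω ↔ s⁻¹ • (x - a) ∈ Ω')) (hF : LocalDef Ω q F) :
    LocalDef Ω' (s⁻¹ • (q - a)) (fun y => F (s • y + a)) ∧
      gradient (fun y => F (s • y + a)) (s⁻¹ • (q - a)) = s • gradient F q := by
  have e : s • s⁻¹ • (q - a) + a = q := by
    rw [smul_inv_smul₀ hs, sub_add_cancel]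
  have hc : Tendsto (fun y : E => s • y + a) (𝓝 (s⁻¹ • (q - a))) (𝓝 q) := by
    have h1 : Continuous fun y : E => s • y + a := by fun_prop
    have h2 := h1.tendsto (s⁻¹ • (q - a))
    rwa [e] at h2
  have hg : gradient (fun y => F (s • y + a)) (s⁻¹ • (q - a)) = s • gradient F q := by
    have h1 := gradient_homothety (F := F) (s := s) (a := a) (x := s⁻¹ • (q - a))
      (by rw [e]; exact hF.smooth.differentiableAt (by norm_num))
    rw [h1, e]
  refine ⟨⟨?_, ?_, ?_, ?_⟩, hg⟩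
  · refine ContDiffAt.comp (g := F) (f := fun y : E => s • y + a) (s⁻¹ • (q - a)) ?_ (by fun_prop)
    rw [e]
    exact hF.smooth
  · simp only [e]
    exact hF.zero
  · rw [hg]
    exact smul_ne_zero hs hF.grad
  · filter_upwards [hc.eventually h, hc.eventually hF.mem] with y h1 h2
    rw [add_sub_cancel_right, inv_smul_smul₀ hs] at h1
    rw [← h1, h2]

/-- One bounce at the mirror `Ω'`, scaled by `s` and moved by the vector `a`. -/
def Bounce (Ω' : Set E) (a : E) (s : ℝ) (q v q' v' : E) : Prop :=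
  ∃ τ : ℝ, 0 < τ ∧ q' = q + τ • v ∧ ∃ F : E → ℝ, LocalDef Ω' (s⁻¹ • (q' - a)) F ∧
    ⟪gradient F (s⁻¹ • (q' - a)), v⟫_ℝ ≠ 0 ∧ v' = rf (dir (gradient F (s⁻¹ • (q' - a)))) v

theorem bounce_of_step {Ω Ω' : Set E} {a q v q' v' : E} {s : ℝ} (hs : s ≠ 0)
    (h : Step Ω q v q' v') (hn : ∀ᶠ x in 𝓝 q', (x ∈ Ω ↔ s⁻¹ • (x - a) ∈ Ω')) :
    Bounce Ω' a s q v q' v' := by
  obtain ⟨τ, hτ, hq, -, F, hF, h1, h2⟩ := h
  obtain ⟨h3, h4⟩ := localDef_homothety hs hn hF
  refine ⟨τ, hτ, hq, _, h3, ?_, ?_⟩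
  · rw [h4, inner_smul_left, real_inner_comm]
    exact mul_ne_zero hs h1
  · rw [h4, rf_dir_smul _ hs, rf_dir]
    exact h2

theorem bounce_unit {Ω' : Set E} {a q v q' v' : E} {s : ℝ} (h : Bounce Ω' a s q v q' v')
    (hv : ‖v‖ = 1) : ‖v'‖ = 1 := by
  obtain ⟨τ, -, -, F, hF, -, h2⟩ := h
  have h1 : ⟪v', v'⟫_ℝ = ⟪v, v⟫_ℝ := by
    rw [h2, G3_rf_inner (dir_unit hF.grad)]
  rw [real_inner_self_eq_norm_sq, real_inner_self_eq_norm_sq, hv] at h1
  nlinarith [norm_nonneg v']

variable {ι : Type*}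

/-- The orbits with `n` bounces at moved and scaled mirrors, the bounce `k + 1` being at the part
`i k`, scaled by `(y (i k)).2` and moved by `(y (i k)).1 + c k`, which close up modulo the
isometry `g`. -/
def Clo (Ωs : ι → Set E) (i : ℕ → ι) (c : ℕ → E) (g : E ≃ᵃⁱ[ℝ] E) (n : ℕ) :
    Set ((ι → E × ℝ) × ((ℕ → E) × (ℕ → E))) :=
  {y | (∀ k < n, Bounce (Ωs (i k)) ((y.1 (i k)).1 + c k) (y.1 (i k)).2 (y.2.1 k) (y.2.2 k)
      (y.2.1 (k + 1)) (y.2.2 (k + 1))) ∧ (∀ k < n, (y.1 (i k)).2 ≠ 0) ∧ ‖y.2.2 0‖ = 1 ∧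
    y.2.1 n = g (y.2.1 0) ∧ y.2.2 n = g.linearIsometryEquiv (y.2.2 0)}

theorem clo_unit {Ωs : ι → Set E} {i : ℕ → ι} {c : ℕ → E} {g : E ≃ᵃⁱ[ℝ] E} {n : ℕ}
    {y : (ι → E × ℝ) × ((ℕ → E) × (ℕ → E))} (hy : y ∈ Clo Ωs i c g n) {k : ℕ} (hk : k ≤ n) :
    ‖y.2.2 k‖ = 1 := by
  induction k with
  | zero => exact hy.2.2.1
  | succ k ih => exact bounce_unit (hy.1 k (by omega)) (ih (by omega))

/-- The argument of the reflection map `k`, in the coordinates of the mirror. -/
noncomputable def rel (i : ℕ → ι) (c : ℕ → E) (k : ℕ) (y : (ι → E × ℝ) × (E × E)) (z : E × E) : E × E :=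
  ((y.1 (i k)).2⁻¹ • (z.1 - ((y.1 (i k)).1 + c k)), z.2)

/-- Back to the original coordinates. -/
noncomputable def unrel (i : ℕ → ι) (c : ℕ → E) (k : ℕ) (y : (ι → E × ℝ) × (E × E)) (z : E × E) : E × E :=
  ((y.1 (i k)).2 • z.1 + ((y.1 (i k)).1 + c k), z.2)

/-- The composition of the reflection maps. -/
noncomputable def st (R : ℕ → E × E → E × E) (i : ℕ → ι) (c : ℕ → E) : ℕ → (ι → E × ℝ) × (E × E) → E × E
  | 0, y => y.2
  | k + 1, y => unrel i c k y (R k (rel i c k y (st R i c k y)))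

omit [FiniteDimensional ℝ E] in
theorem st_indep (R : ℕ → E × E → E × E) (i : ℕ → ι) (c : ℕ → E) (J : Set ι)
    {y y' : (ι → E × ℝ) × (E × E)} (h2 : y.2 = y'.2) (h1 : ∀ l, l ∉ J → y.1 l = y'.1 l) (r : ℕ)
    (hr : ∀ k < r, i k ∉ J) : ∀ k ≤ r, st R i c k y = st R i c k y' := by
  intro k
  induction k with
  | zero => intro _; exact h2
  | succ k ih =>
    intro hk
    simp only [st, rel, unrel, ih (by omega), h1 (i k) (hr k (by omega))]

omit [FiniteDimensional ℝ E] in
/-- Moving all parts of a cluster along the incoming ray. -/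
theorem st_shift (R : ℕ → E × E → E × E) (i : ℕ → ι) (c : ℕ → E) (J : Set ι)
    {y y' : (ι → E × ℝ) × (E × E)} (h2 : y.2 = y'.2) (h1 : ∀ l, l ∉ J → y.1 l = y'.1 l) (n r : ℕ)
    (hr : ∀ k < r, i k ∉ J) (hr' : ∀ k, r ≤ k → k < n → i k ∈ J) (s : ℝ)
    (hs : ∀ l ∈ J, y'.1 l = ((y.1 l).1 + s • (st R i c r y).2, (y.1 l).2))
    (hsl : R r ((rel i c r y (st R i c r y)).1 - ((y.1 (i r)).2⁻¹ * s) • (st R i c r y).2,
      (st R i c r y).2) = R r (rel i c r y (st R i c r y))) :
    ∀ k, r < k → k ≤ n → st R i c k y' = ((st R i c k y).1 + s • (st R i c r y).2,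
      (st R i c k y).2) := by
  intro k
  induction k with
  | zero => intro h; omega
  | succ k ih =>
    intro hrk hkn
    have hik : i k ∈ J := hr' k (by omega) (by omega)
    rcases eq_or_lt_of_le (Nat.lt_succ_iff.1 hrk) with h | h
    · subst h
      have e1 := st_indep R i c J h2 h1 r hr r le_rfl
      have e2 : rel i c r y' (st R i c r y) =
          ((rel i c r y (st R i c r y)).1 - ((y.1 (i r)).2⁻¹ * s) • (st R i c r y).2,
            (st R i c r y).2) := by
        simp only [rel, hs _ hik]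
        refine Prod.ext ?_ rfl
        simp only
        rw [mul_smul, ← smul_sub]
        congr 1
        abel
      simp only [st]
      rw [← e1, e2, hsl]
      simp only [unrel, hs _ hik]
      refine Prod.ext ?_ rfl
      simp only
      abel
    · have e1 := ih h (by omega)
      have e2 : rel i c k y' ((st R i c k y).1 + s • (st R i c r y).2, (st R i c k y).2) =
          rel i c k y (st R i c k y) := by
        simp only [rel, hs _ hik]
        refine Prod.ext ?_ rfl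
        simp only
        congr 1
        abel
      simp only [st]
      rw [e1, e2]
      simp only [unrel, hs _ hik]
      refine Prod.ext ?_ rfl
      simp only
      abel

omit [FiniteDimensional ℝ E] in
/-- A homothety of a cluster with centre on the incoming ray. -/
theorem st_homothety (R : ℕ → E × E → E × E) (i : ℕ → ι) (c : ℕ → E) (J : Set ι)
    {y y' : (ι → E × ℝ) × (E × E)} (h2 : y.2 = y'.2) (h1 : ∀ l, l ∉ J → y.1 l = y'.1 l) (n r : ℕ)
    (hr : ∀ k < r, i k ∉ J) (hr' : ∀ k, r ≤ k → k < n → i k ∈ J) {c0 : E}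
    (hc : ∀ k, r ≤ k → k < n → c k = c0) {ρ : ℝ} (hρ : ρ ≠ 0) (α : ℝ) {o : E}
    (ho : o = (st R i c r y).1 + α • (st R i c r y).2)
    (hs : ∀ l ∈ J, y'.1 l = ((o - c0) + ρ • ((y.1 l).1 - (o - c0)), ρ * (y.1 l).2))
    (hsl : R r ((rel i c r y (st R i c r y)).1 -
      (((ρ * (y.1 (i r)).2)⁻¹ - (y.1 (i r)).2⁻¹) * α) • (st R i c r y).2,
      (st R i c r y).2) = R r (rel i c r y (st R i c r y))) :
    ∀ k, r < k → k ≤ n → st R i c k y' = (o + ρ • ((st R i c k y).1 - o), (st R i c k y).2) := by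
  intro k
  induction k with
  | zero => intro h; omega
  | succ k ih =>
    intro hrk hkn
    have hik : i k ∈ J := hr' k (by omega) (by omega)
    have hck : c k = c0 := hc k (by omega) (by omega)
    have hun : ∀ z : E × E, unrel i c k y' z =
        (o + ρ • ((unrel i c k y z).1 - o), (unrel i c k y z).2) := by
      intro z
      simp only [unrel, hs _ hik, hck]
      refine Prod.ext ?_ rfl
      simp only
      module
    rcases eq_or_lt_of_le (Nat.lt_succ_iff.1 hrk) with h | h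
    · subst h
      have e1 := st_indep R i c J h2 h1 r hr r le_rfl
      have e2 : rel i c r y' (st R i c r y) =
          ((rel i c r y (st R i c r y)).1 -
            (((ρ * (y.1 (i r)).2)⁻¹ - (y.1 (i r)).2⁻¹) * α) • (st R i c r y).2,
            (st R i c r y).2) := by
        have e3 : (st R i c r y).1 = o - α • (st R i c r y).2 := by rw [ho]; abel
        simp only [rel, hs _ hik, hck]
        refine Prod.ext ?_ rfl
        simp only
        rw [e3, mul_inv]
        have e4 : ρ⁻¹ * ρ = 1 := inv_mul_cancel₀ hρ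
        obtain ⟨t, ht⟩ : ∃ t, t = (y.1 (i r)).1 := ⟨_, rfl⟩
        obtain ⟨w, hw⟩ : ∃ w, w = (st R i c r y).2 := ⟨_, rfl⟩
        obtain ⟨μ, hμ⟩ : ∃ μ, μ = (y.1 (i r)).2⁻¹ := ⟨_, rfl⟩
        rw [← ht, ← hw, ← hμ]
        have e5 : (ρ⁻¹ * μ) • (o - α • w - (o - c0 + ρ • (t - (o - c0)) + c0)) =
            (ρ⁻¹ * μ) • (- α • w) + (ρ⁻¹ * ρ * μ) • (-(t - (o - c0))) := by
          module
        rw [e5, e4]
        module
      simp only [st]
      rw [← e1, e2, hsl, hun]
    · have e1 := ih h (by omega)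
      have e2 : rel i c k y' (o + ρ • ((st R i c k y).1 - o), (st R i c k y).2) =
          rel i c k y (st R i c k y) := by
        simp only [rel, hs _ hik, hck]
        refine Prod.ext ?_ rfl
        simp only
        rw [mul_inv]
        have e4 : ρ⁻¹ * ρ = 1 := inv_mul_cancel₀ hρ
        obtain ⟨t, ht⟩ : ∃ t, t = (y.1 (i k)).1 := ⟨_, rfl⟩
        obtain ⟨μ, hμ⟩ : ∃ μ, μ = (y.1 (i k)).2⁻¹ := ⟨_, rfl⟩
        obtain ⟨x, hx⟩ : ∃ x, x = (st R i c k y).1 := ⟨_, rfl⟩
        rw [← ht, ← hx, ← hμ]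
        have e5 : (ρ⁻¹ * μ) • (o + ρ • (x - o) - (o - c0 + ρ • (t - (o - c0)) + c0)) =
            (ρ⁻¹ * ρ * μ) • (x - (t + c0)) := by
          module
        rw [e5, e4, one_mul]
      simp only [st]
      rw [e1, e2, hun]

end Pool.Agent.V7H61.IV
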