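import Pool.Agent.V7H61.IV.Mv1

/-!
The composition of the local reflection maps near an orbit with bounces at moved and scaled mirrors.
-/

set_option autoImplicit false

open MeasureTheory Set Filter Topology
open scoped InnerProductSpace ENNReal
open Pool.Agent.H721R2.Quart Pool.Agent.H721R2.Ivrii Pool.Agent.TH746

namespace Pool.Agent.V7H61.IV

variable {E : Type*} [NormedAddCommGroup E] [InnerProductSpace ℝ E] [FiniteDimensional ℝ E]
variable {ι : Type*}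

/-- One at zero, and zero elsewhere. -/
def dl (k : ℕ) : ℝ := if k = 0 then 1 else 0

theorem dl_zero : dl 0 = 1 := rfl

theorem dl_succ (k : ℕ) : dl (k + 1) = 0 := by simp [dl]

/-- The local reflection maps along an orbit with bounces at moved and scaled mirrors. -/
theorem exists_R {Ωs : ι → Set E} {i : ℕ → ι} {c : ℕ → E} {g : E ≃ᵃⁱ[ℝ] E} {n : ℕ}
    {t0 : ι → E × ℝ} {p u : ℕ → E} (h0 : (t0, (p, u)) ∈ Clo Ωs i c g n) :
    ∃ R : ℕ → E × E → E × E, ∀ k < n,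
      R k ((t0 (i k)).2⁻¹ • (p k - ((t0 (i k)).1 + c k)), u k) =
        ((t0 (i k)).2⁻¹ • (p (k + 1) - ((t0 (i k)).1 + c k)), u (k + 1)) ∧
      (∀ᶠ z in 𝓝 ((t0 (i k)).2⁻¹ • (p k - ((t0 (i k)).1 + c k)), u k), ContinuousAt (R k) z) ∧
      (∀ᶠ y : (E × E) × ℝ in 𝓝 (((t0 (i k)).2⁻¹ • (p k - ((t0 (i k)).1 + c k)), u k), 0),
        R k (y.1.1 - y.2 • y.1.2, y.1.2) = R k y.1) ∧
      ∀ᶠ y : (E × E) × ℝ in 𝓝 (((t0 (i k)).2⁻¹ • (p k - ((t0 (i k)).1 + c k)), u k),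
          (t0 (i k)).2⁻¹ * ‖p (k + 1) - p k‖),
        ∀ F' : E → ℝ, LocalDef (Ωs (i k)) (y.1.1 + y.2 • y.1.2) F' →
          R k y.1 = (y.1.1 + y.2 • y.1.2,
            rf (dir (gradient F' (y.1.1 + y.2 • y.1.2))) y.1.2) := by
  have hR : ∀ k, ∃ Rk : E × E → E × E, k < n →
      Rk ((t0 (i k)).2⁻¹ • (p k - ((t0 (i k)).1 + c k)), u k) =
        ((t0 (i k)).2⁻¹ • (p (k + 1) - ((t0 (i k)).1 + c k)), u (k + 1)) ∧
      (∀ᶠ z in 𝓝 ((t0 (i k)).2⁻¹ • (p k - ((t0 (i k)).1 + c k)), u k), ContinuousAt Rk z) ∧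
      (∀ᶠ y : (E × E) × ℝ in 𝓝 (((t0 (i k)).2⁻¹ • (p k - ((t0 (i k)).1 + c k)), u k), 0),
        Rk (y.1.1 - y.2 • y.1.2, y.1.2) = Rk y.1) ∧
      ∀ᶠ y : (E × E) × ℝ in 𝓝 (((t0 (i k)).2⁻¹ • (p k - ((t0 (i k)).1 + c k)), u k),
          (t0 (i k)).2⁻¹ * ‖p (k + 1) - p k‖),
        ∀ F' : E → ℝ, LocalDef (Ωs (i k)) (y.1.1 + y.2 • y.1.2) F' →
          Rk y.1 = (y.1.1 + y.2 • y.1.2,
            rf (dir (gradient F' (y.1.1 + y.2 • y.1.2))) y.1.2) := by
    intro k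
    by_cases hk : k < n
    · obtain ⟨τ, hτ, hq, F, hF, hne, hv⟩ := h0.1 k hk
      simp only at hq hF hne hv
      have hu : ‖u k‖ = 1 := clo_unit h0 hk.le
      have e : (t0 (i k)).2⁻¹ • (p k - ((t0 (i k)).1 + c k)) + ((t0 (i k)).2⁻¹ * τ) • u k =
          (t0 (i k)).2⁻¹ • (p (k + 1) - ((t0 (i k)).1 + c k)) := by
        rw [hq, mul_smul, ← smul_add]
        congr 1
        abel
      have e2 : ‖p (k + 1) - p k‖ = τ := by
        rw [hq, add_sub_cancel_left, norm_smul, hu, mul_one, Real.norm_eq_abs, abs_of_pos hτ]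
      rw [← e] at hF hne
      obtain ⟨Rk, h1, h2, h3, h4⟩ := exists_bounce hF hne
      refine ⟨Rk, fun _ => ⟨?_, h2, h3, ?_⟩⟩
      · rw [h1, e, hv]
      · rw [e2]; exact h4
    · exact ⟨id, fun h => absurd h hk⟩
  choose R hR using hR
  exact ⟨R, fun k hk => hR k hk⟩

/-- The composition of the local reflection maps near an orbit. -/
theorem exists_st {Ωs : ι → Set E} {i : ℕ → ι} {c : ℕ → E} {g : E ≃ᵃⁱ[ℝ] E} {n r : ℕ}
    (hrn : r < n) {t0 : ι → E × ℝ} {p u : ℕ → E} (h0 : (t0, (p, u)) ∈ Clo Ωs i c g n) :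
    ∃ R : ℕ → E × E → E × E,
      (∀ k ≤ n, st R i c k (t0, (p 0, u 0)) = (p k, u k)) ∧
      (∀ k ≤ n, ∀ᶠ y in 𝓝 (t0, (p 0, u 0)), ContinuousAt (st R i c k) y) ∧
      (∀ᶠ x : ((ι → E × ℝ) × (E × E)) × ℝ in 𝓝 ((t0, (p 0, u 0)), 0),
        R r ((rel i c r x.1 (st R i c r x.1)).1 - x.2 • (st R i c r x.1).2,
          (st R i c r x.1).2) = R r (rel i c r x.1 (st R i c r x.1))) ∧
      (∀ k ≤ n, ∀ᶠ x : ((ι → E × ℝ) × ((ℕ → E) × (ℕ → E))) × (ℝ × ℝ) in
        𝓝 ((t0, (p, u)), ((0 : ℝ), (1 : ℝ))), x.1 ∈ Clo Ωs i c g n →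
          st R i c k (x.1.1, (x.1.2.1 0 + x.2.1 • x.1.2.2 0, x.2.2 • x.1.2.2 0)) =
            (x.1.2.1 k + (dl k * x.2.1) • x.1.2.2 k, x.2.2 • x.1.2.2 k)) := by
  obtain ⟨R, hR⟩ := exists_R h0
  have hs0 : ∀ k < n, (t0 (i k)).2 ≠ 0 := h0.2.1
  have hb : ∀ k ≤ n, st R i c k (t0, (p 0, u 0)) = (p k, u k) := by
    intro k
    induction k with
    | zero => intro _; rfl
    | succ k ih =>
      intro hk
      simp only [st, rel, unrel, ih (by omega), (hR k (by omega)).1,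
        smul_inv_smul₀ (hs0 k (by omega)), sub_add_cancel]
  -- the argument of the next reflection
  have harg : ∀ k < n, ∀ y : (ι → E × ℝ) × (E × E), (y.1 (i k)).2 ≠ 0 →
      ContinuousAt (st R i c k) y →
      ContinuousAt (fun y : (ι → E × ℝ) × (E × E) => rel i c k y (st R i c k y)) y := by
    intro k hk y hy hc
    have c1 : ContinuousAt (fun y : (ι → E × ℝ) × (E × E) => (y.1 (i k)).2⁻¹) y := by
      refine ContinuousAt.inv₀ ?_ hy
      fun_prop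
    exact (c1.smul (hc.fst.sub (by fun_prop))).prodMk hc.snd
  have hargT : ∀ k < n, ContinuousAt (st R i c k) (t0, (p 0, u 0)) →
      Tendsto (fun y : (ι → E × ℝ) × (E × E) => rel i c k y (st R i c k y))
        (𝓝 (t0, (p 0, u 0))) (𝓝 ((t0 (i k)).2⁻¹ • (p k - ((t0 (i k)).1 + c k)), u k)) := by
    intro k hk hc
    have h2 := (harg k hk (t0, (p 0, u 0)) (hs0 k hk) hc).tendsto
    simp only [hb k hk.le] at h2
    exact h2
  have hne : ∀ k < n, ∀ᶠ y : (ι → E × ℝ) × (E × E) in 𝓝 (t0, (p 0, u 0)),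
      (y.1 (i k)).2 ≠ 0 := by
    intro k hk
    have c1 : ContinuousAt (fun y : (ι → E × ℝ) × (E × E) => (y.1 (i k)).2)
      (t0, (p 0, u 0)) := by fun_prop
    exact c1.eventually_ne (hs0 k hk)
  have hc : ∀ k ≤ n, ∀ᶠ y in 𝓝 (t0, (p 0, u 0)), ContinuousAt (st R i c k) y := by
    intro k
    induction k with
    | zero =>
      intro _
      exact Eventually.of_forall fun y => continuousAt_snd
    | succ k ih =>
      intro hk
      have h1 := ih (by omega)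
      have h2 := hargT k (by omega) h1.self_of_nhds
      filter_upwards [h1, h2.eventually (hR k (by omega)).2.1, hne k (by omega)]
        with y hy1 hy2 hy3
      have c1 := harg k (by omega) y hy3 hy1
      have c2 : ContinuousAt (fun y : (ι → E × ℝ) × (E × E) =>
          R k (rel i c k y (st R i c k y))) y :=
        ContinuousAt.comp (g := R k) (f := fun y : (ι → E × ℝ) × (E × E) =>
          rel i c k y (st R i c k y)) hy2 c1
      have c3 : ContinuousAt (fun y : (ι → E × ℝ) × (E × E) => (y.1 (i k)).2) y := by fun_prop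
      exact ((c3.smul c2.fst).add (by fun_prop)).prodMk c2.snd
  refine ⟨R, hb, hc, ?_, ?_⟩
  · have h1 := hargT r hrn (hc r hrn.le).self_of_nhds
    have h2 : Tendsto (fun x : ((ι → E × ℝ) × (E × E)) × ℝ =>
        (rel i c r x.1 (st R i c r x.1), x.2))
        (𝓝 ((t0, (p 0, u 0)), 0))
        (𝓝 (((t0 (i r)).2⁻¹ • (p r - ((t0 (i r)).1 + c r)), u r), 0)) := by
      refine Tendsto.prodMk_nhds (h1.comp ?_) ?_
      · exact continuous_fst.tendsto (((t0, (p 0, u 0)), 0) : ((ι → E × ℝ) × (E × E)) × ℝ)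
      · exact continuous_snd.tendsto (((t0, (p 0, u 0)), 0) : ((ι → E × ℝ) × (E × E)) × ℝ)
    exact h2.eventually (hR r hrn).2.2.1
  · intro k
    induction k with
    | zero =>
      intro _
      refine Eventually.of_forall fun x _ => ?_
      simp only [st, dl_zero, one_mul]
    | succ k ih =>
      intro hk
      have hkn : k < n := by omega
      have hsc : ContinuousAt (fun x : ((ι → E × ℝ) × ((ℕ → E) × (ℕ → E))) × (ℝ × ℝ) =>
          (x.1.1 (i k)).2⁻¹) ((t0, (p, u)), ((0 : ℝ), (1 : ℝ))) := by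
        refine ContinuousAt.inv₀ (by fun_prop) ?_
        exact hs0 k hkn
      have hφ : Tendsto (fun x : ((ι → E × ℝ) × ((ℕ → E) × (ℕ → E))) × (ℝ × ℝ) =>
          (((x.1.1 (i k)).2⁻¹ • (x.1.2.1 k + (dl k * x.2.1) • x.1.2.2 k -
            ((x.1.1 (i k)).1 + c k)), x.2.2 • x.1.2.2 k),
            (x.1.1 (i k)).2⁻¹ * ((‖x.1.2.1 (k + 1) - x.1.2.1 k‖ - dl k * x.2.1) / x.2.2)))
          (𝓝 ((t0, (p, u)), ((0 : ℝ), (1 : ℝ))))
          (𝓝 (((t0 (i k)).2⁻¹ • (p k - ((t0 (i k)).1 + c k)), u k),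
            (t0 (i k)).2⁻¹ * ‖p (k + 1) - p k‖)) := by
        have c1 : ContinuousAt (fun x : ((ι → E × ℝ) × ((ℕ → E) × (ℕ → E))) × (ℝ × ℝ) =>
          (((x.1.1 (i k)).2⁻¹ • (x.1.2.1 k + (dl k * x.2.1) • x.1.2.2 k -
            ((x.1.1 (i k)).1 + c k)), x.2.2 • x.1.2.2 k),
            (x.1.1 (i k)).2⁻¹ * ((‖x.1.2.1 (k + 1) - x.1.2.1 k‖ - dl k * x.2.1) / x.2.2)))
            ((t0, (p, u)), ((0 : ℝ), (1 : ℝ))) := by
          refine ContinuousAt.prodMk (ContinuousAt.prodMk (hsc.smul (by fun_prop))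
            (by fun_prop)) (hsc.mul ?_)
          refine ContinuousAt.div (by fun_prop) (by fun_prop) ?_
          simp only
          exact one_ne_zero
        have c2 := c1.tendsto
        simp only [mul_zero, zero_smul, add_zero, one_smul, sub_zero, div_one] at c2
        exact c2
      have hcne : ∀ᶠ x : ((ι → E × ℝ) × ((ℕ → E) × (ℕ → E))) × (ℝ × ℝ) in
          𝓝 ((t0, (p, u)), ((0 : ℝ), (1 : ℝ))), x.2.2 ≠ 0 := by
        have c1 : ContinuousAt (fun x : ((ι → E × ℝ) × ((ℕ → E) × (ℕ → E))) × (ℝ × ℝ) => x.2.2)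
          ((t0, (p, u)), ((0 : ℝ), (1 : ℝ))) := by fun_prop
        exact c1.eventually_ne one_ne_zero
      filter_upwards [ih (by omega), hφ.eventually (hR k hkn).2.2.2, hcne] with x h1 h2 h3 hx
      obtain ⟨τ, hτ, hq, F, hF, hne', hv⟩ := hx.1 k hkn
      have hsk : (x.1.1 (i k)).2 ≠ 0 := hx.2.1 k hkn
      have hu : ‖x.1.2.2 k‖ = 1 := clo_unit hx hkn.le
      have e2 : ‖x.1.2.1 (k + 1) - x.1.2.1 k‖ = τ := by
        rw [hq, add_sub_cancel_left, norm_smul, hu, mul_one, Real.norm_eq_abs, abs_of_pos hτ]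
      have e3 : (x.1.1 (i k)).2⁻¹ • (x.1.2.1 k + (dl k * x.2.1) • x.1.2.2 k -
            ((x.1.1 (i k)).1 + c k)) +
          ((x.1.1 (i k)).2⁻¹ * ((‖x.1.2.1 (k + 1) - x.1.2.1 k‖ - dl k * x.2.1) / x.2.2)) •
            x.2.2 • x.1.2.2 k =
          (x.1.1 (i k)).2⁻¹ • (x.1.2.1 (k + 1) - ((x.1.1 (i k)).1 + c k)) := by
        have e6 : ((x.1.1 (i k)).2⁻¹ * ((τ - dl k * x.2.1) / x.2.2)) • x.2.2 • x.1.2.2 k =
            (x.1.1 (i k)).2⁻¹ • ((τ - dl k * x.2.1) • x.1.2.2 k) := by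
          rw [smul_smul, smul_smul, mul_assoc, div_mul_cancel₀ _ h3]
        rw [e2, e6, hq, ← smul_add]
        congr 1
        module
      simp only [e3] at h2
      have h4 := h2 F hF
      rw [G3_rf_smul, ← hv] at h4
      have h5 : rel i c k (x.1.1, (x.1.2.1 0 + x.2.1 • x.1.2.2 0, x.2.2 • x.1.2.2 0))
          (x.1.2.1 k + (dl k * x.2.1) • x.1.2.2 k, x.2.2 • x.1.2.2 k) =
          ((x.1.1 (i k)).2⁻¹ • (x.1.2.1 k + (dl k * x.2.1) • x.1.2.2 k -
            ((x.1.1 (i k)).1 + c k)), x.2.2 • x.1.2.2 k) := rfl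
      simp only [st]
      rw [h1 hx, h5, h4]
      simp only [unrel, smul_inv_smul₀ hsk, sub_add_cancel, dl_succ, zero_mul, zero_smul,
        add_zero]

end Pool.Agent.V7H61.IV
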