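import Pool.Agent.V7H61.IV.Mv2

/-!
Sets of parameters which meet the orbits of a translation or of a homothety in one point.
-/

set_option autoImplicit false

open MeasureTheory Set Filter Topology Function
open scoped InnerProductSpace ENNReal

namespace Pool.Agent.V7H61.IV

/-- Fubini's theorem for a group of coordinates. -/
theorem null_slices {ι F : Type*} [Fintype ι] [DecidableEq ι] [MeasureSpace F]
    [SigmaFinite (volume : Measure F)] [Nonempty F] {A : Set (ι → F)} (hA : MeasurableSet A)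
    (J : Finset ι) (h : ∀ t : ι → F, volume {y : J → F | updateFinset t J y ∈ A} = 0) :
    volume A = 0 := by
  have hJ : J ∪ (Finset.univ \ J) = Finset.univ := by simp
  rw [← lintegral_indicator_one hA, volume_pi,
    lintegral_eq_lmarginal_univ (fun _ => Classical.arbitrary F), ← hJ,
    lmarginal_union' (fun _ : ι => (volume : Measure F)) _ (measurable_one.indicator hA)
      Finset.disjoint_sdiff]
  have h2 : (∫⋯∫⁻_J, A.indicator (1 : (ι → F) → ℝ≥0∞) ∂fun _ => (volume : Measure F)) = 0 := by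
    funext t
    have h4 : MeasurableSet {y : J → F | updateFinset t J y ∈ A} := measurable_updateFinset hA
    have h3 : (fun y : J → F => (A.indicator (1 : (ι → F) → ℝ≥0∞)) (updateFinset t J y)) =
        ({y : J → F | updateFinset t J y ∈ A}).indicator 1 := by
      funext y
      by_cases hy : updateFinset t J y ∈ A
      · rw [indicator_of_mem hy, indicator_of_mem (by exact hy)]; rfl
      · rw [indicator_of_notMem hy, indicator_of_notMem (by exact hy)]
    have h5 : (∫⋯∫⁻_J, A.indicator (1 : (ι → F) → ℝ≥0∞) ∂fun _ => (volume : Measure F)) t =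
        ∫⁻ y : J → F, (A.indicator (1 : (ι → F) → ℝ≥0∞)) (updateFinset t J y) := rfl
    rw [h5, h3, lintegral_indicator_one h4]
    exact h t
  rw [h2]
  simp [lmarginal]

/-- A set which meets every line of a given direction in at most one point. -/
theorem null_of_line {F : Type*} [NormedAddCommGroup F] [NormedSpace ℝ F]
    [FiniteDimensional ℝ F] [MeasurableSpace F] [BorelSpace F] (μ : Measure F)
    [μ.IsAddHaarMeasure] {Y : Set F} (hY : MeasurableSet Y) (v : F)
    (h : ∀ y ∈ Y, ∀ s : ℝ, y + s • v ∈ Y → s = 0) : μ Y = 0 := by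
  refine Measure.addHaar_eq_zero_of_disjoint_translates μ
    (fun m : ℕ => (1 / ((m : ℝ) + 1)) • v) ?_ ?_ hY
  · refine Bornology.IsBounded.subset (Metric.isBounded_closedBall (x := (0 : F)) (r := ‖v‖)) ?_
    rintro _ ⟨m, rfl⟩
    rw [mem_closedBall_zero_iff, norm_smul]
    have h2 : ‖(1 / ((m : ℝ) + 1))‖ ≤ 1 := by
      rw [Real.norm_eq_abs, abs_of_nonneg (by positivity)]
      rw [div_le_one (by positivity)]
      have : (0 : ℝ) ≤ m := by positivity
      linarith
    calc ‖(1 / ((m : ℝ) + 1))‖ * ‖v‖ ≤ 1 * ‖v‖ := by gcongr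
      _ = ‖v‖ := one_mul _
  · intro a b hab
    refine Set.disjoint_left.2 ?_
    rintro x ⟨xa, hxa, y, hy, hxy⟩ ⟨xb, hxb, y', hy', hxy'⟩
    rw [mem_singleton_iff] at hxa hxb
    simp only at hxy hxy'
    subst hxa hxb
    have h3 : y' = y + ((1 / ((a : ℝ) + 1)) - (1 / ((b : ℝ) + 1))) • v := by
      have : y' = x - (1 / ((b : ℝ) + 1)) • v := by rw [← hxy']; abel
      rw [this, ← hxy]; module
    rw [h3] at hy'
    have h4 := h y hy _ hy'
    apply hab
    have h5 : (1 / ((a : ℝ) + 1)) = (1 / ((b : ℝ) + 1)) := sub_eq_zero.1 h4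
    rw [one_div, one_div, inv_inj] at h5
    exact_mod_cast add_right_cancel h5

/-- A bounded set which meets every ray from the point `C` in at most one point. -/
theorem null_of_ray {F : Type*} [NormedAddCommGroup F] [NormedSpace ℝ F]
    [FiniteDimensional ℝ F] [MeasurableSpace F] [BorelSpace F] (μ : Measure F)
    [μ.IsAddHaarMeasure] {Y : Set F} (hY : MeasurableSet Y) (hb : Bornology.IsBounded Y) (C : F)
    (h : ∀ y ∈ Y, ∀ ρ : ℝ, 0 < ρ → C + ρ • (y - C) ∈ Y → ρ = 1) : μ Y = 0 := by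
  have hpF : ProperSpace F := FiniteDimensional.proper ℝ F
  obtain ⟨r, hr⟩ := hb.subset_closedBall C
  obtain ⟨ρ, hρ⟩ : ∃ ρ : ℕ → ℝ, ∀ m, ρ m = 1 + 1 / ((m : ℝ) + 1) := ⟨_, fun _ => rfl⟩
  have hρ1 : ∀ m, 1 ≤ ρ m := fun m => by
    rw [hρ]
    have : (0 : ℝ) ≤ 1 / ((m : ℝ) + 1) := by positivity
    linarith
  have hρ2 : ∀ m, ρ m ≤ 2 := fun m => by
    rw [hρ]
    have h1 : 1 / ((m : ℝ) + 1) ≤ 1 := by
      rw [div_le_one (by positivity)]
      have : (0 : ℝ) ≤ m := by positivity
      linarith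
    linarith
  have hinj : ∀ a b, ρ a = ρ b → a = b := by
    intro a b hab
    rw [hρ, hρ] at hab
    have h5 : (1 / ((a : ℝ) + 1)) = (1 / ((b : ℝ) + 1)) := add_left_cancel hab
    rw [one_div, one_div, inv_inj] at h5
    exact_mod_cast add_right_cancel h5
  obtain ⟨S, hS⟩ : ∃ S : ℕ → Set F, ∀ m, S m = AffineMap.homothety C (ρ m) '' Y :=
    ⟨_, fun _ => rfl⟩
  have hmem : ∀ m x, x ∈ S m ↔ C + (ρ m)⁻¹ • (x - C) ∈ Y := by
    intro m x
    have h0 : ρ m ≠ 0 := by have := hρ1 m; positivity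
    rw [hS]
    constructor
    · rintro ⟨y, hy, rfl⟩
      simp only [AffineMap.homothety_apply, vsub_eq_sub, vadd_eq_add, add_sub_cancel_right,
        inv_smul_smul₀ h0, add_sub_cancel]
      exact hy
    · intro hx
      refine ⟨_, hx, ?_⟩
      simp only [AffineMap.homothety_apply, vsub_eq_sub, vadd_eq_add, add_sub_cancel_left,
        smul_inv_smul₀ h0, sub_add_cancel]
  have hSm : ∀ m, MeasurableSet (S m) := by
    intro m
    have h1 : S m = (fun x => C + (ρ m)⁻¹ • (x - C)) ⁻¹' Y := by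
      ext x; exact hmem m x
    rw [h1]
    have h2 : Continuous fun x : F => C + (ρ m)⁻¹ • (x - C) := by fun_prop
    exact h2.measurable hY
  have hdisj : Pairwise (Disjoint on S) := by
    intro a b hab
    refine Set.disjoint_left.2 ?_
    intro x hxa hxb
    rw [hmem] at hxa hxb
    have h0 : ρ a ≠ 0 := by have := hρ1 a; positivity
    have h0' : 0 < ρ a := lt_of_lt_of_le one_pos (hρ1 a)
    have h0'' : 0 < ρ b := lt_of_lt_of_le one_pos (hρ1 b)
    have h1 := h _ hxa ((ρ b)⁻¹ * ρ a) (by positivity) (by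
      rw [add_sub_cancel_left, mul_smul, smul_inv_smul₀ h0]
      exact hxb)
    apply hab
    apply hinj
    field_simp at h1
    exact h1
  have hle : ∀ m, μ Y ≤ μ (S m) := by
    intro m
    rw [hS, Measure.addHaar_image_homothety]
    have h1 : (1 : ℝ≥0∞) ≤ ENNReal.ofReal |ρ m ^ Module.finrank ℝ F| := by
      rw [ENNReal.one_le_ofReal]
      rw [abs_of_nonneg (by have := hρ1 m; positivity)]
      exact one_le_pow₀ (hρ1 m)
    calc μ Y = 1 * μ Y := (one_mul _).symm
      _ ≤ _ := by gcongr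
  have hsub : ⋃ m, S m ⊆ Metric.closedBall C (2 * |r|) := by
    refine iUnion_subset fun m => ?_
    intro x hx
    rw [hmem] at hx
    have h1 := hr hx
    have h0 : ρ m ≠ 0 := by have := hρ1 m; positivity
    have h0' : 0 < ρ m := lt_of_lt_of_le one_pos (hρ1 m)
    rw [mem_closedBall_iff_norm, add_sub_cancel_left, norm_smul, Real.norm_eq_abs,
      abs_of_pos (by positivity)] at h1
    rw [mem_closedBall_iff_norm]
    have h2 : ‖x - C‖ = ρ m * ((ρ m)⁻¹ * ‖x - C‖) := by field_simp
    rw [h2]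
    have h3 : (ρ m)⁻¹ * ‖x - C‖ ≤ |r| := h1.trans (le_abs_self r)
    have h4 : 0 ≤ (ρ m)⁻¹ * ‖x - C‖ := by positivity
    exact mul_le_mul (hρ2 m) h3 h4 (by norm_num)
  have hfin : μ (⋃ m, S m) < ⊤ :=
    (measure_mono hsub).trans_lt (isCompact_closedBall C (2 * |r|)).measure_lt_top
  rw [measure_iUnion hdisj hSm] at hfin
  by_contra hne
  have h1 : ∑' _ : ℕ, μ Y = ⊤ := ENNReal.tsum_const_eq_top_of_ne_zero hne
  have h2 : ∑' _ : ℕ, μ Y ≤ ∑' m : ℕ, μ (S m) := ENNReal.tsum_le_tsum hle
  rw [h1] at h2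
  exact absurd hfin (not_lt.2 h2)

end Pool.Agent.V7H61.IV
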