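import Pool.Agent.V7H61.IV.Mv3

/-!
The exceptional positions (and sizes): null sets of pairs (parameters, rays).
-/

set_option autoImplicit false

open MeasureTheory Set Filter Topology
open scoped InnerProductSpace ENNReal
open Pool.Agent.H721R2.Quart Pool.Agent.H721R2.Ivrii Pool.Agent.TH746

namespace Pool.Agent.V7H61.IV

variable {E : Type*} [NormedAddCommGroup E] [InnerProductSpace ℝ E] [FiniteDimensional ℝ E]
  {ι : Type*} [Fintype ι]

/-- `x` is parallel to `v`, as an equation. -/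
def Par (v x : E) : Prop := ‖v‖ ^ 2 • x = ⟪v, x⟫_ℝ • v

omit [FiniteDimensional ℝ E] in
theorem par_smul {v x : E} (s : ℝ) (hs : s ≠ 0) (h : Par v (s • x)) : Par v x := by
  unfold Par at h ⊢
  rw [inner_smul_right, smul_comm, mul_smul] at h
  exact smul_right_injective E hs h

omit [FiniteDimensional ℝ E] in
theorem par_sub {v x y : E} (h : Par v x) (h' : Par v y) : Par v (x - y) := by
  unfold Par at h h' ⊢
  rw [smul_sub, h, h', inner_sub_right, sub_smul]

omit [FiniteDimensional ℝ E] in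
theorem par_self_smul (v : E) (s : ℝ) : Par v (s • v) := by
  unfold Par
  rw [inner_smul_right, real_inner_self_eq_norm_sq]
  module

/-- The closed set of all parameters and rays near an orbit for which the trajectory closes up. -/
theorem exists_core {Ωs : ι → Set E} {i : ℕ → ι} {c : ℕ → E} {g : E ≃ᵃⁱ[ℝ] E} {n r : ℕ}
    (hrn : r < n) {t0 : ι → E × ℝ} {p u : ℕ → E} (h0 : (t0, (p, u)) ∈ Clo Ωs i c g n) :
    ∃ (R : ℕ → E × E → E × E) (ε : ℝ), 0 < ε ∧
      (∀ k ≤ n, st R i c k (t0, (p 0, u 0)) = (p k, u k)) ∧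
      (∀ k ≤ n, ContinuousAt (st R i c k) (t0, (p 0, u 0))) ∧
      ∀ (P : (ι → E × ℝ) × (E × E) → Prop), (∀ᶠ y in 𝓝 (t0, (p 0, u 0)), P y) → ∀ δ > 0,
        ∃ N : Set ((ι → E × ℝ) × (E × E)), IsClosed N ∧
          (∀ y ∈ N, ∀ y' ∈ N, dist y y' ≤ δ) ∧
          (∀ y ∈ N, P y ∧
            Par (g.linearIsometryEquiv y.2.2) ((st R i c n y).1 - g y.2.1) ∧
            (st R i c n y).2 = g.linearIsometryEquiv y.2.2 ∧
            ∀ s : ℝ, |s| ≤ ε →
              R r ((rel i c r y (st R i c r y)).1 - s • (st R i c r y).2, (st R i c r y).2) =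
                R r (rel i c r y (st R i c r y))) ∧
          ∀ᶠ y in 𝓝 (t0, (p, u)), y ∈ Clo Ωs i c g n →
            ∀ᶠ σ : ℝ × ℝ in 𝓝 ((0 : ℝ), (1 : ℝ)),
              (y.1, (y.2.1 0 + σ.1 • y.2.2 0, σ.2 • y.2.2 0)) ∈ N := by
  obtain ⟨R, hb, hc, hsl, horb⟩ := exists_st hrn h0
  obtain ⟨Y0, hY0⟩ : ∃ Y0 : (ι → E × ℝ) × (E × E), Y0 = (t0, (p 0, u 0)) := ⟨_, rfl⟩
  rw [← hY0] at hb hc hsl
  obtain ⟨G, hG⟩ : ∃ G : E ≃ₗᵢ[ℝ] E, G = g.linearIsometryEquiv := ⟨_, rfl⟩
  obtain ⟨ε2, hε2, hball2⟩ := Metric.nhds_basis_closedBall.eventually_iff.1 hsl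
  rw [← hY0, ← hG]
  refine ⟨R, ε2, hε2, hb, fun k hk => (hc k hk).self_of_nhds, ?_⟩
  intro P hP δ hδ
  obtain ⟨ε1, hε1, hball1⟩ := Metric.nhds_basis_closedBall.eventually_iff.1
    (hP.and (hc n le_rfl))
  obtain ⟨ε, hε⟩ : ∃ ε, ε = min (min ε1 ε2) (δ / 2) := ⟨_, rfl⟩
  have hεpos : 0 < ε := by rw [hε]; positivity
  have hεa : ε ≤ ε1 := by rw [hε]; exact (min_le_left _ _).trans (min_le_left _ _)
  have hεb : ε ≤ ε2 := by rw [hε]; exact (min_le_left _ _).trans (min_le_right _ _)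
  have hεc : ε ≤ δ / 2 := by rw [hε]; exact min_le_right _ _
  have hD : ∀ y ∈ Metric.closedBall Y0 ε, P y ∧ ContinuousAt (st R i c n) y := fun y hy =>
    hball1 (Metric.closedBall_subset_closedBall hεa hy)
  have hDs : ∀ y ∈ Metric.closedBall Y0 ε, ∀ s : ℝ, |s| ≤ ε2 →
      R r ((rel i c r y (st R i c r y)).1 - s • (st R i c r y).2, (st R i c r y).2) =
        R r (rel i c r y (st R i c r y)) := by
    intro y hy s hs
    have h1 : ((y, s) : ((ι → E × ℝ) × (E × E)) × ℝ) ∈ Metric.closedBall (Y0, (0 : ℝ)) ε2 := by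
      rw [Metric.mem_closedBall, Prod.dist_eq]
      refine max_le ?_ ?_
      · have h2 : dist y Y0 ≤ ε := hy
        simp only
        linarith
      · simp only [dist_zero_right, Real.norm_eq_abs]
        exact hs
    exact hball2 h1
  -- the set
  obtain ⟨K, hK⟩ : ∃ K : Set (((ι → E × ℝ) × (E × E)) × (E × E)), K =
      {q | q.2.2 = G q.1.2.2 ∧ Par (G q.1.2.2) (q.2.1 - g q.1.2.1)} := ⟨_, rfl⟩
  have hKc : IsClosed K := by
    have hg : Continuous g := g.continuous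
    have hGc : Continuous G := G.continuous
    rw [hK]
    refine (isClosed_eq (by fun_prop) (by fun_prop)).inter ?_
    refine isClosed_eq ?_ ?_
    · exact ((hGc.comp (by fun_prop)).norm.pow 2).smul (by fun_prop)
    · exact ((hGc.comp (by fun_prop)).inner (by fun_prop)).smul (hGc.comp (by fun_prop))
  refine ⟨Metric.closedBall Y0 ε ∩ (fun y => (y, st R i c n y)) ⁻¹' K, ?_, ?_, ?_, ?_⟩
  · refine ContinuousOn.preimage_isClosed_of_isClosed ?_ Metric.isClosed_closedBall hKc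
    intro y hy
    exact (continuousAt_id.prodMk (hD y hy).2).continuousWithinAt
  · rintro y ⟨hy, -⟩ y' ⟨hy', -⟩
    have h2 := dist_triangle_right y y' Y0
    have h3 : dist y Y0 ≤ ε := hy
    have h4 : dist y' Y0 ≤ ε := hy'
    linarith
  · rintro y ⟨hy, hyK⟩
    rw [hK] at hyK
    exact ⟨(hD y hy).1, hyK.2, hyK.1, hDs y hy⟩
  · have h1 := horb n le_rfl
    have h2 : Tendsto (fun x : ((ι → E × ℝ) × ((ℕ → E) × (ℕ → E))) × (ℝ × ℝ) =>
        ((x.1.1, (x.1.2.1 0 + x.2.1 • x.1.2.2 0, x.2.2 • x.1.2.2 0)) :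
          (ι → E × ℝ) × (E × E)))
        (𝓝 ((t0, (p, u)), ((0 : ℝ), (1 : ℝ)))) (𝓝 Y0) := by
      have c1 : Continuous (fun x : ((ι → E × ℝ) × ((ℕ → E) × (ℕ → E))) × (ℝ × ℝ) =>
        ((x.1.1, (x.1.2.1 0 + x.2.1 • x.1.2.2 0, x.2.2 • x.1.2.2 0)) :
          (ι → E × ℝ) × (E × E))) := by
        fun_prop
      have c2 := c1.tendsto ((t0, (p, u)), ((0 : ℝ), (1 : ℝ)))
      simp only [zero_smul, add_zero, one_smul] at c2
      rw [hY0]
      exact c2
    have h3 := h1.and (h2.eventually (Metric.closedBall_mem_nhds Y0 hεpos))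
    filter_upwards [h3.curry_nhds] with y hy hyC
    filter_upwards [hy] with σ hσ
    refine ⟨hσ.2, ?_⟩
    have h4 := hσ.1 hyC
    obtain ⟨m, rfl⟩ : ∃ m, n = m + 1 := ⟨n - 1, by omega⟩
    rw [dl_succ, zero_mul, zero_smul, add_zero] at h4
    have hp : y.2.1 (m + 1) = g (y.2.1 0) := hyC.2.2.2.1
    have hu : y.2.2 (m + 1) = G (y.2.2 0) := by rw [hG]; exact hyC.2.2.2.2
    rw [hK]
    simp only [mem_preimage, mem_ofPred_eq]
    rw [h4]
    simp only
    rw [hp, hu]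
    have hg : g (y.2.1 0 + σ.1 • y.2.2 0) = g (y.2.1 0) + σ.1 • G (y.2.2 0) := by
      rw [isom_eq g (y.2.1 0 + σ.1 • y.2.2 0), isom_eq g (y.2.1 0), map_add, map_smul, hG]
      abel
    rw [hg, map_smul]
    refine ⟨rfl, ?_⟩
    unfold Par
    rw [sub_add_cancel_left, inner_neg_right, inner_smul_right, inner_smul_left,
      real_inner_self_eq_norm_sq, norm_smul, mul_pow, Real.norm_eq_abs, sq_abs]
    simp only [conj_trivial]
    module

variable [MeasurableSpace E] [BorelSpace E]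

/-- Fixed sizes: the positions for which a trajectory near a given one closes up form a null set, if
the cluster is visited once and the directions before and after the visit are not parallel. -/
theorem exists_null1 {Ωs : ι → Set E} {i : ℕ → ι} {c : ℕ → E} {g : E ≃ᵃⁱ[ℝ] E} {n r : ℕ}
    (hrn : r < n) {J : Set ι} (hr : ∀ k < r, i k ∉ J) (hr' : ∀ k, r ≤ k → k < n → i k ∈ J)
    (sz : ι → ℝ) {t0 : ι → E} {p u : ℕ → E}
    (h0 : ((fun l => (t0 l, sz l)), (p, u)) ∈ Clo Ωs i c g n) (hpar : ⟪u r, u n⟫_ℝ ^ 2 ≠ 1) :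
    ∃ N : Set ((ι → E) × (E × E)), IsClosed N ∧
      (∀ z : E × E, volume {t : ι → E | (t, z) ∈ N} = 0) ∧
      ∀ᶠ y : (ι → E) × ((ℕ → E) × (ℕ → E)) in 𝓝 (t0, (p, u)),
        ((fun l => (y.1 l, sz l)), y.2) ∈ Clo Ωs i c g n →
          ∀ᶠ σ : ℝ × ℝ in 𝓝 ((0 : ℝ), (1 : ℝ)),
            (y.1, (y.2.1 0 + σ.1 • y.2.2 0, σ.2 • y.2.2 0)) ∈ N := by
  classical
  obtain ⟨R, ε, hε, hb, hc, hcore⟩ := exists_core hrn h0
  obtain ⟨Y0, hY0⟩ : ∃ Y0 : (ι → E × ℝ) × (E × E),
    Y0 = ((fun l => (t0 l, sz l)), (p 0, u 0)) := ⟨_, rfl⟩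
  rw [← hY0] at hb hc hcore
  obtain ⟨G, hG⟩ : ∃ G : E ≃ₗᵢ[ℝ] E, G = g.linearIsometryEquiv := ⟨_, rfl⟩
  have hur : ‖u r‖ = 1 := clo_unit h0 hrn.le
  have hun : ‖u n‖ = 1 := clo_unit h0 le_rfl
  have hcl : u n = G (u 0) := by rw [hG]; exact h0.2.2.2.2
  have hs0 : sz (i r) ≠ 0 := h0.2.1 r hrn
  -- open conditions
  have hcr := hc r hrn.le
  have ev1 : ∀ᶠ y in 𝓝 Y0, ⟪(st R i c r y).2, G y.2.2⟫_ℝ ^ 2 ≠
      ‖(st R i c r y).2‖ ^ 2 * ‖y.2.2‖ ^ 2 := by
    have c1 : ContinuousAt (fun y : (ι → E × ℝ) × (E × E) => ⟪(st R i c r y).2, G y.2.2⟫_ℝ ^ 2 -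
        ‖(st R i c r y).2‖ ^ 2 * ‖y.2.2‖ ^ 2) Y0 := by
      refine ContinuousAt.sub ?_ ?_
      · refine (ContinuousAt.inner hcr.snd ?_).pow 2
        exact (G.continuous.comp (continuous_snd.comp continuous_snd)).continuousAt
      · exact (hcr.snd.norm.pow 2).mul (by fun_prop)
    have h1 : ⟪(st R i c r Y0).2, G Y0.2.2⟫_ℝ ^ 2 -
        ‖(st R i c r Y0).2‖ ^ 2 * ‖Y0.2.2‖ ^ 2 ≠ 0 := by
      rw [hb r hrn.le, hY0]
      simp only
      rw [← hcl, hur, h0.2.2.1]
      intro h2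
      apply hpar
      linarith
    filter_upwards [c1.eventually_ne h1] with y hy h2
    apply hy
    rw [h2, sub_self]
  have ev2 : ∀ᶠ y in 𝓝 Y0, 1 / 2 < ‖(st R i c r y).2‖ := by
    have c1 : ContinuousAt (fun y : (ι → E × ℝ) × (E × E) => ‖(st R i c r y).2‖) Y0 :=
      hcr.snd.norm
    refine c1.eventually_const_lt ?_
    simp only
    rw [hb r hrn.le]
    simp only
    rw [hur]
    norm_num
  obtain ⟨N, hN1, hN2, hN3, hN4⟩ := hcore _ (ev1.and ev2) (ε * |sz (i r)| / 2) (by positivity)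
  have hemb : Continuous fun y : (ι → E) × (E × E) =>
      (((fun l => (y.1 l, sz l)), y.2) : (ι → E × ℝ) × (E × E)) := by
    fun_prop
  refine ⟨(fun y : (ι → E) × (E × E) => (((fun l => (y.1 l, sz l)), y.2) :
    (ι → E × ℝ) × (E × E))) ⁻¹' N, hN1.preimage hemb, ?_, ?_⟩
  · intro z
    have hcz : Continuous fun t : ι → E => ((t, z) : (ι → E) × (E × E)) := by fun_prop
    have hA : MeasurableSet {t : ι → E | ((fun l => (t l, sz l)), z) ∈ N} :=
      ((hN1.preimage hemb).preimage hcz).measurableSet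
    obtain ⟨J', hJ'⟩ : ∃ J' : Finset ι, J' = J.toFinset := ⟨_, rfl⟩
    have hmem : ∀ l, l ∈ J' ↔ l ∈ J := fun l => by rw [hJ', Set.mem_toFinset]
    refine null_slices hA J' fun t => ?_
    change volume {y : J' → E | Function.updateFinset t J' y ∈
      {t : ι → E | ((fun l => (t l, sz l)), z) ∈ N}} = 0
    rcases Set.eq_empty_or_nonempty {y : J' → E | Function.updateFinset t J' y ∈
      {t : ι → E | ((fun l => (t l, sz l)), z) ∈ N}} with he | ⟨y0, hy0⟩
    · rw [he]; exact measure_empty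
    obtain ⟨V, hV⟩ : ∃ V : (J' → E) → (ι → E × ℝ) × (E × E),
      ∀ y, V y = ((fun l => (Function.updateFinset t J' y l, sz l)), z) := ⟨_, fun _ => rfl⟩
    obtain ⟨w, hw⟩ : ∃ w, w = (st R i c r (V y0)).2 := ⟨_, rfl⟩
    have hVout : ∀ y y' : J' → E, ∀ l, l ∉ J → (V y).1 l = (V y').1 l := by
      intro y y' l hl
      have hl' : l ∉ J' := fun h => hl ((hmem l).1 h)
      simp only [hV, Function.updateFinset, dif_neg hl']
    have hst : ∀ y, st R i c r (V y) = st R i c r (V y0) := by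
      intro y
      exact st_indep R i c J (by rw [hV, hV]) (hVout y y0) r hr r le_rfl
    have hmeas : MeasurableSet {y : J' → E | Function.updateFinset t J' y ∈
      {t : ι → E | ((fun l => (t l, sz l)), z) ∈ N}} := measurable_updateFinset hA
    refine null_of_line volume hmeas (fun _ => w) ?_
    intro y hy s hys
    have hy' : V y ∈ N := by rw [hV]; exact hy
    have hys' : V (y + s • fun _ => w) ∈ N := by rw [hV]; exact hys
    by_contra hs
    obtain ⟨⟨h1, h2⟩, h3, -, h5⟩ := hN3 _ hy'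
    obtain ⟨-, h3', -, -⟩ := hN3 _ hys'
    have hJr : i r ∈ J := hr' r le_rfl hrn
    have hJr' : i r ∈ J' := (hmem _).2 hJr
    have hw2 : 1 / 2 < ‖w‖ := by rw [hw, ← hst y]; exact h2
    have hdist := hN2 _ hys' _ hy'
    have hsw : ‖s • w‖ ≤ ε * |sz (i r)| / 2 := by
      refine le_trans ?_ hdist
      have h6 : dist ((V (y + s • fun _ => w)).1 (i r)).1 ((V y).1 (i r)).1 ≤
          dist (V (y + s • fun _ => w)) (V y) := by
        refine le_trans ?_ (le_max_left _ _)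
        refine le_trans ?_ (dist_le_pi_dist _ _ (i r))
        exact le_max_left _ _
      refine le_trans (le_of_eq ?_) h6
      simp only [hV, Function.updateFinset, dif_pos hJr', Pi.add_apply, Pi.smul_apply]
      rw [dist_eq_norm, add_sub_cancel_left]
    have hsl : |(sz (i r))⁻¹ * s| ≤ ε := by
      rw [norm_smul, Real.norm_eq_abs] at hsw
      have h6 : |s| * (1 / 2) ≤ |s| * ‖w‖ := mul_le_mul_of_nonneg_left hw2.le (abs_nonneg s)
      have h7 : |s| ≤ ε * |sz (i r)| := by linarith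
      rw [abs_mul, abs_inv]
      have h8 : 0 < |sz (i r)| := abs_pos.2 hs0
      rw [inv_mul_le_iff₀ h8]
      linarith
    have hshift := st_shift R i c J (y := V y) (y' := V (y + s • fun _ => w))
      (by rw [hV, hV]) (hVout _ _) n r hr hr' s (by
        intro l hl
        have hl' : l ∈ J' := (hmem l).2 hl
        rw [hst y, ← hw]
        simp only [hV, Function.updateFinset, dif_pos hl', Pi.add_apply, Pi.smul_apply]) (by
        have h6 : ((V y).1 (i r)).2 = sz (i r) := by rw [hV]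
        rw [h6]
        exact h5 _ hsl) n hrn le_rfl
    rw [hst y, ← hw] at hshift
    rw [hshift] at h3'
    have hz2 : (V y).2 = z := by rw [hV]
    have hz2' : (V (y + s • fun _ => w)).2 = z := by rw [hV]
    rw [hz2'] at h3'
    rw [hz2] at h3
    have h6 := par_sub h3' h3
    have h7 : (st R i c n (V y)).1 + s • w - g z.1 - ((st R i c n (V y)).1 - g z.1) = s • w := by
      abel
    simp only at h6
    rw [h7] at h6
    have h8 := par_smul s hs h6
    unfold Par at h8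
    have h9 := congrArg (fun x => ⟪w, x⟫_ℝ) h8
    simp only [inner_smul_right, real_inner_self_eq_norm_sq] at h9
    apply h1
    rw [hst y, ← hw, hz2, hG]
    rw [real_inner_comm, LinearIsometryEquiv.norm_map] at h9
    nlinarith [h9]
  · have h1 : Tendsto (fun y : (ι → E) × ((ℕ → E) × (ℕ → E)) =>
        (((fun l => (y.1 l, sz l)), y.2) : (ι → E × ℝ) × ((ℕ → E) × (ℕ → E))))
        (𝓝 (t0, (p, u))) (𝓝 ((fun l => (t0 l, sz l)), (p, u))) := by
      have c1 : Continuous (fun y : (ι → E) × ((ℕ → E) × (ℕ → E)) =>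
        (((fun l => (y.1 l, sz l)), y.2) : (ι → E × ℝ) × ((ℕ → E) × (ℕ → E)))) := by fun_prop
      exact c1.tendsto (t0, (p, u))
    filter_upwards [h1.eventually hN4] with y hy hyC
    filter_upwards [hy hyC] with σ hσ
    exact hσ

end Pool.Agent.V7H61.IV
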