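import Pool.Agent.V7H61.IV.Mv4

/-!
The exceptional positions and sizes: homotheties of a cluster.
-/

set_option autoImplicit false

open MeasureTheory Set Filter Topology
open scoped InnerProductSpace ENNReal
open Pool.Agent.H721R2.Quart Pool.Agent.H721R2.Ivrii Pool.Agent.TH746

namespace Pool.Agent.V7H61.IV

variable {E : Type*} [NormedAddCommGroup E] [InnerProductSpace ℝ E] [FiniteDimensional ℝ E]
  {ι : Type*} [Fintype ι] [MeasurableSpace E] [BorelSpace E]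

/-- Variable sizes: the positions and sizes for which a trajectory near a given one closes up form a
null set, if the cluster is visited once and the lines before and after the visit are different. -/
theorem exists_null2 {Ωs : ι → Set E} {i : ℕ → ι} {c : ℕ → E} {g : E ≃ᵃⁱ[ℝ] E} {n r : ℕ}
    (hrn : r < n) {J : Set ι} (hr : ∀ k < r, i k ∉ J) (hr' : ∀ k, r ≤ k → k < n → i k ∈ J)
    {c0 : E} (hc0 : ∀ k, r ≤ k → k < n → c k = c0)
    {t0 : ι → E × ℝ} {p u : ℕ → E} (h0 : (t0, (p, u)) ∈ Clo Ωs i c g n)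
    (hline : ∃ α : ℝ, ∀ κ : ℝ, p r + α • u r ≠ p n + κ • u n) :
    ∃ N : Set ((ι → E × ℝ) × (E × E)), IsClosed N ∧
      (∀ z : E × E, volume {t : ι → E × ℝ | (t, z) ∈ N} = 0) ∧
      ∀ᶠ y : (ι → E × ℝ) × ((ℕ → E) × (ℕ → E)) in 𝓝 (t0, (p, u)), y ∈ Clo Ωs i c g n →
          ∀ᶠ σ : ℝ × ℝ in 𝓝 ((0 : ℝ), (1 : ℝ)),
            (y.1, (y.2.1 0 + σ.1 • y.2.2 0, σ.2 • y.2.2 0)) ∈ N := by
  classical
  have hpE : ProperSpace E := FiniteDimensional.proper ℝ E
  obtain ⟨R, ε, hε, hb, hc, hcore⟩ := exists_core hrn h0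
  obtain ⟨α, hα⟩ := hline
  obtain ⟨Y0, hY0⟩ : ∃ Y0 : (ι → E × ℝ) × (E × E), Y0 = (t0, (p 0, u 0)) := ⟨_, rfl⟩
  rw [← hY0] at hb hc hcore
  have hun : ‖u n‖ = 1 := clo_unit h0 le_rfl
  have hs0 : (t0 (i r)).2 ≠ 0 := h0.2.1 r hrn
  -- open conditions
  have hcr := hc r hrn.le
  have hcn := hc n le_rfl
  have ev1 : ∀ᶠ y in 𝓝 Y0, ¬ Par (st R i c n y).2
      ((st R i c r y).1 + α • (st R i c r y).2 - (st R i c n y).1) := by
    have c0 : ContinuousAt (fun y : (ι → E × ℝ) × (E × E) =>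
        (st R i c r y).1 + α • (st R i c r y).2 - (st R i c n y).1) Y0 :=
      (hcr.fst.add (hcr.snd.const_smul α)).sub hcn.fst
    have c1 : ContinuousAt (fun y : (ι → E × ℝ) × (E × E) =>
        ‖(st R i c n y).2‖ ^ 2 • ((st R i c r y).1 + α • (st R i c r y).2 - (st R i c n y).1) -
        ⟪(st R i c n y).2, (st R i c r y).1 + α • (st R i c r y).2 - (st R i c n y).1⟫_ℝ •
          (st R i c n y).2) Y0 :=
      ((hcn.snd.norm.pow 2).smul c0).sub ((hcn.snd.inner c0).smul hcn.snd)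
    have h1 : ‖(st R i c n Y0).2‖ ^ 2 •
        ((st R i c r Y0).1 + α • (st R i c r Y0).2 - (st R i c n Y0).1) -
        ⟪(st R i c n Y0).2, (st R i c r Y0).1 + α • (st R i c r Y0).2 - (st R i c n Y0).1⟫_ℝ •
          (st R i c n Y0).2 ≠ 0 := by
      rw [hb r hrn.le, hb n le_rfl]
      simp only
      rw [hun, one_pow, one_smul, sub_ne_zero]
      intro h2
      apply hα ⟪u n, p r + α • u r - p n⟫_ℝ
      rw [← h2]
      abel
    filter_upwards [c1.eventually_ne h1] with y hy h2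
    apply hy
    rw [h2, sub_self]
  have ev2 : ∀ᶠ y in 𝓝 Y0, |(t0 (i r)).2| / 2 < |(y.1 (i r)).2| := by
    have c1 : ContinuousAt (fun y : (ι → E × ℝ) × (E × E) => |(y.1 (i r)).2|) Y0 := by
      fun_prop
    refine c1.eventually_const_lt ?_
    simp only [hY0]
    have := abs_pos.2 hs0
    linarith
  obtain ⟨m, hm⟩ : ∃ m, m = |(t0 (i r)).2| / 2 := ⟨_, rfl⟩
  have hmpos : 0 < m := by
    have := abs_pos.2 hs0
    rw [hm]; linarith
  rw [← hm] at ev2
  obtain ⟨N, hN1, hN2, hN3, hN4⟩ := hcore _ (ev1.and ev2) (ε * m ^ 2 / (|α| + 1)) (by positivity)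
  refine ⟨N, hN1, ?_, hN4⟩
  intro z
  have hcz : Continuous fun t : ι → E × ℝ => ((t, z) : (ι → E × ℝ) × (E × E)) := by fun_prop
  have hA : MeasurableSet {t : ι → E × ℝ | (t, z) ∈ N} := (hN1.preimage hcz).measurableSet
  obtain ⟨J', hJ'⟩ : ∃ J' : Finset ι, J' = J.toFinset := ⟨_, rfl⟩
  have hmem : ∀ l, l ∈ J' ↔ l ∈ J := fun l => by rw [hJ', Set.mem_toFinset]
  refine null_slices hA J' fun t => ?_
  rcases Set.eq_empty_or_nonempty {y : J' → E × ℝ | Function.updateFinset t J' y ∈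
    {t : ι → E × ℝ | (t, z) ∈ N}} with he | ⟨y0, hy0⟩
  · rw [he]; exact measure_empty
  obtain ⟨V, hV⟩ : ∃ V : (J' → E × ℝ) → (ι → E × ℝ) × (E × E),
    ∀ y, V y = (Function.updateFinset t J' y, z) := ⟨_, fun _ => rfl⟩
  obtain ⟨o, ho⟩ : ∃ o, o = (st R i c r (V y0)).1 + α • (st R i c r (V y0)).2 := ⟨_, rfl⟩
  have hVout : ∀ y y' : J' → E × ℝ, ∀ l, l ∉ J → (V y).1 l = (V y').1 l := by
    intro y y' l hl
    have hl' : l ∉ J' := fun h => hl ((hmem l).1 h)
    simp only [hV, Function.updateFinset, dif_neg hl']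
  have hst : ∀ y, st R i c r (V y) = st R i c r (V y0) := by
    intro y
    exact st_indep R i c J (by rw [hV, hV]) (hVout y y0) r hr r le_rfl
  have hmeas : MeasurableSet {y : J' → E × ℝ | Function.updateFinset t J' y ∈
    {t : ι → E × ℝ | (t, z) ∈ N}} := measurable_updateFinset hA
  have hJr : i r ∈ J := hr' r le_rfl hrn
  have hJr' : i r ∈ J' := (hmem _).2 hJr
  have hvol : (volume : Measure (E × ℝ)).IsAddHaarMeasure := by
    rw [Measure.volume_eq_prod]; infer_instance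
  have hvol' : (volume : Measure (J' → E × ℝ)).IsAddHaarMeasure := by
    rw [volume_pi]; infer_instance
  have hdist : ∀ y y' : J' → E × ℝ, V y ∈ N → V y' ∈ N → ∀ l : J', dist (y l) (y' l) ≤
      ε * m ^ 2 / (|α| + 1) := by
    intro y y' hy hy' l
    refine le_trans ?_ (hN2 _ hy _ hy')
    refine le_trans ?_ (le_max_left _ _)
    refine le_trans ?_ (dist_le_pi_dist _ _ (l : ι))
    apply le_of_eq
    simp only [hV, Function.updateFinset, dif_pos l.2]
  refine null_of_ray volume hmeas ?_ (fun _ => (o - c0, (0 : ℝ))) ?_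
  · rw [Metric.isBounded_iff]
    refine ⟨ε * m ^ 2 / (|α| + 1), fun y hy y' hy' => ?_⟩
    rw [dist_pi_le_iff (by positivity)]
    intro l
    exact hdist y y' (by rw [hV]; exact hy) (by rw [hV]; exact hy') l
  intro y hy ρ hρ hyρ
  obtain ⟨y', hy'd⟩ : ∃ y' : J' → E × ℝ,
    y' = (fun _ => (o - c0, (0 : ℝ))) + ρ • (y - fun _ => (o - c0, (0 : ℝ))) := ⟨_, rfl⟩
  rw [← hy'd] at hyρ
  have hy1 : V y ∈ N := by rw [hV]; exact hy
  have hy1' : V y' ∈ N := by rw [hV]; exact hyρ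
  by_contra hs
  obtain ⟨⟨h1, h2⟩, h3, h4, h5⟩ := hN3 _ hy1
  obtain ⟨⟨-, h2'⟩, h3', -, -⟩ := hN3 _ hy1'
  have hval : ∀ l ∈ J, (V y').1 l =
      ((o - c0) + ρ • (((V y).1 l).1 - (o - c0)), ρ * ((V y).1 l).2) := by
    intro l hl
    have hl' : l ∈ J' := (hmem l).2 hl
    simp only [hV, Function.updateFinset, dif_pos hl', hy'd, Pi.add_apply, Pi.smul_apply,
      Pi.sub_apply]
    refine Prod.ext ?_ ?_
    · simp only [Prod.fst_add, Prod.smul_fst, Prod.fst_sub]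
    · simp only [Prod.snd_add, Prod.smul_snd, Prod.snd_sub, sub_zero, zero_add, smul_eq_mul]
  obtain ⟨s, hsd⟩ : ∃ s, s = ((V y).1 (i r)).2 := ⟨_, rfl⟩
  have hs' : ((V y').1 (i r)).2 = ρ * s := by rw [hval _ hJr, hsd]
  rw [← hsd] at h2
  rw [hs'] at h2'
  have hsne : s ≠ 0 := by
    intro h
    rw [h, abs_zero] at h2
    linarith
  have hρs : ρ * s ≠ 0 := mul_ne_zero hρ.ne' hsne
  have hsl : |((ρ * s)⁻¹ - s⁻¹) * α| ≤ ε := by
    have h6 := hdist y' y hy1' hy1 ⟨i r, hJr'⟩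
    have h7 : |ρ * s - s| ≤ ε * m ^ 2 / (|α| + 1) := by
      refine le_trans ?_ h6
      have h8 : dist (y' ⟨i r, hJr'⟩).2 (y ⟨i r, hJr'⟩).2 ≤
        dist (y' ⟨i r, hJr'⟩) (y ⟨i r, hJr'⟩) := le_max_right _ _
      have h9 : (y ⟨i r, hJr'⟩).2 = s := by
        rw [hsd, hV]
        simp only [Function.updateFinset, dif_pos hJr']
      have h10 : (y' ⟨i r, hJr'⟩).2 = ρ * s := by
        rw [← hs', hV]
        simp only [Function.updateFinset, dif_pos hJr']
      rw [h9, h10, Real.dist_eq] at h8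
      exact h8
    have h8 : (ρ * s)⁻¹ - s⁻¹ = (s - ρ * s) / ((ρ * s) * s) := by
      field_simp
    rw [h8, abs_mul, abs_div, abs_mul (ρ * s) s, abs_sub_comm]
    have h9 : m ^ 2 ≤ |ρ * s| * |s| := by
      rw [pow_two]
      exact mul_le_mul h2'.le h2.le hmpos.le (abs_nonneg _)
    have h10 : |ρ * s - s| / (|ρ * s| * |s|) ≤ (ε * m ^ 2 / (|α| + 1)) / m ^ 2 := by
      gcongr
    have h11 : (ε * m ^ 2 / (|α| + 1)) / m ^ 2 = ε / (|α| + 1) := by
      field_simp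
    rw [h11] at h10
    calc |ρ * s - s| / (|ρ * s| * |s|) * |α| ≤ ε / (|α| + 1) * |α| := by gcongr
      _ ≤ ε / (|α| + 1) * (|α| + 1) := by
        apply mul_le_mul_of_nonneg_left (by linarith) (by positivity)
      _ = ε := by field_simp
  have hhom := st_homothety R i c J (y := V y) (y' := V y') (by rw [hV, hV]) (hVout _ _) n r hr
    hr' hc0 hρ.ne' α (o := o) (by rw [hst y, ho]) hval (by
      rw [← hsd]
      exact h5 _ hsl) n hrn le_rfl
  rw [hhom] at h3'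
  have hz2 : (V y).2 = z := by rw [hV]
  have hz2' : (V y').2 = z := by rw [hV]
  rw [hz2'] at h3'
  rw [hz2] at h3 h4
  simp only at h3'
  have h6 := par_sub h3' h3
  have h7 : o + ρ • ((st R i c n (V y)).1 - o) - g z.1 - ((st R i c n (V y)).1 - g z.1) =
      (1 - ρ) • (o - (st R i c n (V y)).1) := by
    module
  rw [h7] at h6
  have h8 := par_smul (1 - ρ) (sub_ne_zero.2 (Ne.symm hs)) h6
  apply h1
  rw [h4, hst y, ← ho]
  exact h8

end Pool.Agent.V7H61.IV
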