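import Pool.Agent.V7H61.IV.Mv5

/-!
Universal exceptional sets of parameters and rays.
-/

set_option autoImplicit false

open MeasureTheory Set Filter Topology
open scoped InnerProductSpace ENNReal NNReal
open Pool.Agent.H721R2.Quart Pool.Agent.H721R2.Ivrii Pool.Agent.TH746

namespace Pool.Agent.V7H61.IV

variable {E : Type*} [NormedAddCommGroup E] [InnerProductSpace ℝ E] [FiniteDimensional ℝ E]
  [MeasurableSpace E] [BorelSpace E]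

/-- Rays near the initial ray of an orbit. -/
def NearRays {V : Type*} (N : Set (V × (E × E))) (t : V) (w : (ℕ → E) × (ℕ → E)) : Prop :=
  ∀ᶠ σ : ℝ × ℝ in 𝓝 ((0 : ℝ), (1 : ℝ)), (t, (w.1 0 + σ.1 • w.2 0, σ.2 • w.2 0)) ∈ N

/-- Exceptional sets near the points of a set can be glued together. -/
theorem glue {V : Type*} [TopologicalSpace V] [SecondCountableTopology V] [MeasureSpace V]
    [OpensMeasurableSpace V] (W : Set (V × ((ℕ → E) × (ℕ → E))))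
    (h : ∀ y ∈ W, ∃ N : Set (V × (E × E)), IsClosed N ∧
      (∀ z : E × E, volume {t : V | (t, z) ∈ N} = 0) ∧
      ∀ᶠ y' in 𝓝 y, y' ∈ W → NearRays N y'.1 y'.2) :
    ∃ N : Set (V × (E × E)), MeasurableSet N ∧
      (∀ z : E × E, volume {t : V | (t, z) ∈ N} = 0) ∧
      ∀ y ∈ W, NearRays N y.1 y.2 := by
  classical
  have hpE : ProperSpace E := FiniteDimensional.proper ℝ E
  choose! N hN1 hN2 hN3 using h
  obtain ⟨t, htW, htc, hcov⟩ := TopologicalSpace.countable_cover_nhdsWithin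
    (f := fun y => {y' | y' ∈ W → NearRays (N y) y'.1 y'.2}) (s := W)
    (fun y hy => mem_nhdsWithin_of_mem_nhds (hN3 y hy))
  refine ⟨⋃ y ∈ t, N y, ?_, ?_, ?_⟩
  · exact MeasurableSet.biUnion htc fun y hy => (hN1 y (htW hy)).measurableSet
  · intro z
    have h1 : {t' : V | (t', z) ∈ ⋃ y ∈ t, N y} = ⋃ y ∈ t, {t' | (t', z) ∈ N y} := by
      ext t'
      simp only [mem_ofPred_eq, mem_iUnion]
    rw [h1, measure_biUnion_null_iff htc]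
    exact fun y hy => hN2 y (htW hy) z
  · intro y hy
    obtain ⟨y0, hy0, h1⟩ := mem_iUnion₂.1 (hcov hy)
    filter_upwards [h1 hy] with σ hσ
    exact mem_iUnion₂.2 ⟨y0, hy0, hσ⟩

omit [FiniteDimensional ℝ E] [BorelSpace E] in
/-- Countable unions of exceptional sets. -/
theorem glue_count {V K : Type*} [MeasureSpace V] [Countable K]
    (Q : K → Set (V × ((ℕ → E) × (ℕ → E))))
    (h : ∀ κ, ∃ N : Set (V × (E × E)), MeasurableSet N ∧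
      (∀ z : E × E, volume {t : V | (t, z) ∈ N} = 0) ∧ ∀ y ∈ Q κ, NearRays N y.1 y.2) :
    ∃ N : Set (V × (E × E)), MeasurableSet N ∧
      (∀ z : E × E, volume {t : V | (t, z) ∈ N} = 0) ∧ ∀ κ, ∀ y ∈ Q κ, NearRays N y.1 y.2 := by
  choose N hN1 hN2 hN3 using h
  refine ⟨⋃ κ, N κ, MeasurableSet.iUnion hN1, ?_, ?_⟩
  · intro z
    have h1 : {t : V | (t, z) ∈ ⋃ κ, N κ} = ⋃ κ, {t | (t, z) ∈ N κ} := by
      ext t
      simp only [mem_ofPred_eq, mem_iUnion]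
    rw [h1, measure_iUnion_null_iff]
    exact fun κ => hN2 κ z
  · intro κ y hy
    filter_upwards [hN3 κ y hy] with σ hσ
    exact mem_iUnion.2 ⟨κ, hσ⟩

variable {ι : Type*} [Fintype ι]

omit [MeasurableSpace E] [BorelSpace E] [Fintype ι] in
theorem clo_congr {Ωs : ι → Set E} {i i' : ℕ → ι} {c c' : ℕ → E} {g : E ≃ᵃⁱ[ℝ] E} {n : ℕ}
    (hi : ∀ k < n, i k = i' k) (hc : ∀ k < n, c k = c' k) :
    Clo Ωs i c g n ⊆ Clo Ωs i' c' g n := by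
  rintro y ⟨h1, h2, h3⟩
  refine ⟨fun k hk => ?_, fun k hk => ?_, h3⟩
  · rw [← hi k hk, ← hc k hk]
    exact h1 k hk
  · rw [← hi k hk]
    exact h2 k hk

/-- The closed orbits with a cut between the bounces `r` and `r + 1`, the cluster `J` being visited
after it, with not parallel directions before and after the visit; fixed sizes. -/
def Cut1 (Ωs : ι → Set E) (sz : ι → ℝ) (i : ℕ → ι) (c : ℕ → E) (g : E ≃ᵃⁱ[ℝ] E) (n r : ℕ)
    (J : Set ι) : Set ((ι → E) × ((ℕ → E) × (ℕ → E))) :=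
  {y | r < n ∧ (∀ k < r, i k ∉ J) ∧ (∀ k, r ≤ k → k < n → i k ∈ J) ∧
    ((fun l => (y.1 l, sz l)), y.2) ∈ Clo Ωs i c g n ∧ ⟪y.2.2 r, y.2.2 n⟫_ℝ ^ 2 ≠ 1}

/-- The closed orbits with a cut between the bounces `r` and `r + 1`, the cluster `J` being visited
after it, in one copy, with different lines before and after the visit; variable sizes. -/
def Cut2 (Ωs : ι → Set E) (i : ℕ → ι) (c : ℕ → E) (g : E ≃ᵃⁱ[ℝ] E) (n r : ℕ)
    (J : Set ι) : Set ((ι → E × ℝ) × ((ℕ → E) × (ℕ → E))) :=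
  {y | r < n ∧ (∀ k < r, i k ∉ J) ∧ (∀ k, r ≤ k → k < n → i k ∈ J) ∧
    (∀ k, r ≤ k → k < n → c k = c r) ∧ y ∈ Clo Ωs i c g n ∧
    ∃ α : ℝ, ∀ κ : ℝ, y.2.1 r + α • y.2.2 r ≠ y.2.1 n + κ • y.2.2 n}

theorem cut1_null (Ωs : ι → Set E) (sz : ι → ℝ) (i : ℕ → ι) (c : ℕ → E) (g : E ≃ᵃⁱ[ℝ] E)
    (n r : ℕ) (J : Set ι) :
    ∃ N : Set ((ι → E) × (E × E)), MeasurableSet N ∧
      (∀ z : E × E, volume {t : ι → E | (t, z) ∈ N} = 0) ∧
      ∀ y ∈ Cut1 Ωs sz i c g n r J, NearRays N y.1 y.2 := by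
  have hpE : ProperSpace E := FiniteDimensional.proper ℝ E
  refine glue _ ?_
  rintro ⟨t0, p, u⟩ ⟨hrn, hr, hr', h0, hpar⟩
  obtain ⟨N, h1, h2, h3⟩ := exists_null1 hrn hr hr' sz h0 hpar
  refine ⟨N, h1, h2, ?_⟩
  filter_upwards [h3] with y hy hyC
  exact hy hyC.2.2.2.1

theorem cut2_null (Ωs : ι → Set E) (i : ℕ → ι) (c : ℕ → E) (g : E ≃ᵃⁱ[ℝ] E)
    (n r : ℕ) (J : Set ι) :
    ∃ N : Set ((ι → E × ℝ) × (E × E)), MeasurableSet N ∧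
      (∀ z : E × E, volume {t : ι → E × ℝ | (t, z) ∈ N} = 0) ∧
      ∀ y ∈ Cut2 Ωs i c g n r J, NearRays N y.1 y.2 := by
  have hpE : ProperSpace E := FiniteDimensional.proper ℝ E
  refine glue _ ?_
  rintro ⟨t0, p, u⟩ ⟨hrn, hr, hr', hc0, h0, hline⟩
  obtain ⟨N, h1, h2, h3⟩ := exists_null2 hrn hr hr' hc0 h0 hline
  refine ⟨N, h1, h2, ?_⟩
  filter_upwards [h3] with y hy hyC
  exact hy hyC.2.2.2.2.1

/-- The discrete data of a cut. -/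
abbrev Dat (ι : Type*) (Γ : Set (E ≃ᵃⁱ[ℝ] E)) (Λ : Set E) : Type _ :=
  Γ × (ℕ × Set ι) × (Σ n : ℕ, (Fin n → ι × Λ))

/-- The sequence of parts. -/
def Dat.i {Γ : Set (E ≃ᵃⁱ[ℝ] E)} {Λ : Set E} (j : ι) (κ : Dat ι Γ Λ) (k : ℕ) : ι :=
  if hk : k < κ.2.2.1 then (κ.2.2.2 ⟨k, hk⟩).1 else j

/-- The sequence of copies. -/
def Dat.c {Γ : Set (E ≃ᵃⁱ[ℝ] E)} {Λ : Set E} (κ : Dat ι Γ Λ) (k : ℕ) : E :=
  if hk : k < κ.2.2.1 then ((κ.2.2.2 ⟨k, hk⟩).2 : E) else 0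

/-- A universal exceptional set, for fixed sizes. -/
theorem exists_univ1 (Ωs : ι → Set E) (sz : ι → ℝ) {Γ : Set (E ≃ᵃⁱ[ℝ] E)} (hΓ : Γ.Countable)
    {Λ : Set E} (hΛ : Λ.Countable) :
    ∃ N : Set ((ι → E) × (E × E)), MeasurableSet N ∧
      (∀ z : E × E, volume {t : ι → E | (t, z) ∈ N} = 0) ∧
      ∀ g ∈ Γ, ∀ (n r : ℕ) (J : Set ι) (i : ℕ → ι) (c : ℕ → E), (∀ k < n, c k ∈ Λ) →
        ∀ y ∈ Cut1 Ωs sz i c g n r J, NearRays N y.1 y.2 := by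
  classical
  have hΓ' : Countable Γ := hΓ.to_subtype
  have hΛ' : Countable Λ := hΛ.to_subtype
  rcases isEmpty_or_nonempty ι with hι | ⟨⟨j⟩⟩
  · refine ⟨∅, MeasurableSet.empty, fun z => by simp, fun g _ n r J i => (hι.false (i 0)).elim⟩
  obtain ⟨N, hN1, hN2, hN3⟩ := glue_count (K := Dat ι Γ Λ)
    (fun κ => Cut1 Ωs sz (κ.i j) κ.c κ.1 κ.2.2.1 κ.2.1.1 κ.2.1.2)
    (fun κ => cut1_null Ωs sz _ _ _ _ _ _)
  refine ⟨N, hN1, hN2, fun g hg n r J i c hc y hy => ?_⟩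
  refine hN3 (⟨g, hg⟩, (r, J), ⟨n, fun k => (i k, ⟨c k, hc k k.2⟩)⟩) y ?_
  obtain ⟨hrn, hr, hr', h0, hpar⟩ := hy
  have e1 : ∀ k < n, Dat.i j ((⟨g, hg⟩, (r, J), ⟨n, fun k => (i k, ⟨c k, hc k k.2⟩)⟩) :
      Dat ι Γ Λ) k = i k := by
    intro k hk
    simp only [Dat.i, dif_pos hk]
  have e2 : ∀ k < n, Dat.c ((⟨g, hg⟩, (r, J), ⟨n, fun k => (i k, ⟨c k, hc k k.2⟩)⟩) :
      Dat ι Γ Λ) k = c k := by
    intro k hk
    simp only [Dat.c, dif_pos hk]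
  refine ⟨hrn, fun k hk => ?_, fun k hk hkn => ?_, ?_, hpar⟩
  · rw [e1 k (hk.trans hrn)]; exact hr k hk
  · rw [e1 k hkn]; exact hr' k hk hkn
  · exact clo_congr (fun k hk => (e1 k hk).symm) (fun k hk => (e2 k hk).symm) h0

/-- A universal exceptional set, for variable sizes. -/
theorem exists_univ2 (Ωs : ι → Set E) {Γ : Set (E ≃ᵃⁱ[ℝ] E)} (hΓ : Γ.Countable)
    {Λ : Set E} (hΛ : Λ.Countable) :
    ∃ N : Set ((ι → E × ℝ) × (E × E)), MeasurableSet N ∧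
      (∀ z : E × E, volume {t : ι → E × ℝ | (t, z) ∈ N} = 0) ∧
      ∀ g ∈ Γ, ∀ (n r : ℕ) (J : Set ι) (i : ℕ → ι) (c : ℕ → E), (∀ k < n, c k ∈ Λ) →
        ∀ y ∈ Cut2 Ωs i c g n r J, NearRays N y.1 y.2 := by
  classical
  have hΓ' : Countable Γ := hΓ.to_subtype
  have hΛ' : Countable Λ := hΛ.to_subtype
  rcases isEmpty_or_nonempty ι with hι | ⟨⟨j⟩⟩
  · refine ⟨∅, MeasurableSet.empty, fun z => by simp, fun g _ n r J i => (hι.false (i 0)).elim⟩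
  obtain ⟨N, hN1, hN2, hN3⟩ := glue_count (K := Dat ι Γ Λ)
    (fun κ => Cut2 Ωs (κ.i j) κ.c κ.1 κ.2.2.1 κ.2.1.1 κ.2.1.2)
    (fun κ => cut2_null Ωs _ _ _ _ _ _)
  refine ⟨N, hN1, hN2, fun g hg n r J i c hc y hy => ?_⟩
  refine hN3 (⟨g, hg⟩, (r, J), ⟨n, fun k => (i k, ⟨c k, hc k k.2⟩)⟩) y ?_
  obtain ⟨hrn, hr, hr', hc0, h0, hline⟩ := hy
  have e1 : ∀ k < n, Dat.i j ((⟨g, hg⟩, (r, J), ⟨n, fun k => (i k, ⟨c k, hc k k.2⟩)⟩) :
      Dat ι Γ Λ) k = i k := by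
    intro k hk
    simp only [Dat.i, dif_pos hk]
  have e2 : ∀ k < n, Dat.c ((⟨g, hg⟩, (r, J), ⟨n, fun k => (i k, ⟨c k, hc k k.2⟩)⟩) :
      Dat ι Γ Λ) k = c k := by
    intro k hk
    simp only [Dat.c, dif_pos hk]
  refine ⟨hrn, fun k hk => ?_, fun k hk hkn => ?_, fun k hk hkn => ?_, ?_, hline⟩
  · rw [e1 k (hk.trans hrn)]; exact hr k hk
  · rw [e1 k hkn]; exact hr' k hk hkn
  · rw [e2 k hkn, e2 r hrn]; exact hc0 k hk hkn
  · exact clo_congr (fun k hk => (e1 k hk).symm) (fun k hk => (e2 k hk).symm) h0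

end Pool.Agent.V7H61.IV
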