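import Pool.Agent.V7H61.IV.SplitMain

/-!
Null sets of rays and null sets of orbits.
-/

set_option autoImplicit false

open MeasureTheory Set Filter Topology
open scoped InnerProductSpace ENNReal NNReal
open Pool.Agent.H721R2.Quart Pool.Agent.H721R2.Ivrii Pool.Agent.TH746

namespace Pool.Agent.V7H61.IV

/-- A set is null if its points have neighbourhoods with null projections. -/
theorem null_of_locally {X Y : Type*} [TopologicalSpace X] [SecondCountableTopology X]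
    {mY : MeasurableSpace Y} (μ : Measure Y) (π : X → Y) (W : Set X)
    (h : ∀ w ∈ W, ∃ Z : Set Y, μ Z = 0 ∧ ∀ᶠ w' in 𝓝 w, w' ∈ W → π w' ∈ Z) :
    μ (π '' W) = 0 := by
  classical
  choose! Z hZ hZ' using h
  obtain ⟨t, htW, htc, hcov⟩ := TopologicalSpace.countable_cover_nhdsWithin
    (f := fun w => {w' | w' ∈ W → π w' ∈ Z w}) (s := W)
    (fun w hw => mem_nhdsWithin_of_mem_nhds (hZ' w hw))
  refine measure_mono_null (t := ⋃ w ∈ t, Z w) ?_ ?_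
  · rintro _ ⟨w, hw, rfl⟩
    obtain ⟨w0, hw0, h1⟩ := mem_iUnion₂.1 (hcov hw)
    exact mem_iUnion₂.2 ⟨w0, hw0, h1 hw⟩
  · rw [measure_biUnion_null_iff htc]
    exact fun w hw => hZ w (htW hw)

theorem haar_null {F : Type*} [NormedAddCommGroup F] [NormedSpace ℝ F] [FiniteDimensional ℝ F]
    [MeasurableSpace F] [BorelSpace F] (μ ν : Measure F) [μ.IsAddHaarMeasure]
    [ν.IsAddHaarMeasure] {N : Set F} (h : ν N = 0) : μ N = 0 := by
  have : ProperSpace F := FiniteDimensional.proper ℝ F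
  exact Measure.absolutelyContinuous_isAddHaarMeasure μ ν h

variable {E : Type*} [NormedAddCommGroup E] [InnerProductSpace ℝ E] [FiniteDimensional ℝ E]
  [MeasurableSpace E] [BorelSpace E]

/-- If almost no ray near the rays of a family of trajectories is in a null set then the family is a
null set. -/
theorem chn_null {Z : Type*} [NormedAddCommGroup Z] [NormedSpace ℝ Z] [FiniteDimensional ℝ Z]
    [MeasurableSpace Z] [BorelSpace Z] {d : ℕ} (hE : Module.finrank ℝ E = d + 2)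
    (hZ : Module.finrank ℝ Z = 2 * d + 2) {C : Chn E Z} (hC : IsC1 C) {N : Set (E × E)}
    (hN : volume N = 0) :
    μH[((2 * d + 2 : ℕ) : ℝ)] {z | z ∈ C.U ∧ ∀ᶠ σ : ℝ × ℝ in 𝓝 ((0 : ℝ), (1 : ℝ)),
      (C.x 0 z + σ.1 • C.e 0 z, σ.2 • C.e 0 z) ∈ N} = 0 := by
  have hcZ : CompleteSpace Z := FiniteDimensional.complete ℝ Z
  have hcE : CompleteSpace E := FiniteDimensional.complete ℝ E
  have hpZ : ProperSpace Z := FiniteDimensional.proper ℝ Z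
  have hpE : ProperSpace E := FiniteDimensional.proper ℝ E
  rw [← hZ]
  refine measure_null_of_locally_null _ fun z hz => ?_
  obtain ⟨hzU, -⟩ := hz
  obtain ⟨Φ, hΦd⟩ : ∃ Φ : Z × (ℝ × ℝ) → E × E,
      Φ = fun y => (C.x 0 y.1 + y.2.1 • C.e 0 y.1, y.2.2 • C.e 0 y.1) := ⟨_, rfl⟩
  obtain ⟨hx, he⟩ := hC 0 (Nat.zero_le _) z hzU
  obtain ⟨y0, hy0⟩ : ∃ y0 : Z × (ℝ × ℝ), y0 = (z, ((0 : ℝ), (1 : ℝ))) := ⟨_, rfl⟩
  have hy01 : y0.1 = z := by rw [hy0]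
  -- the derivative
  have hΦc : ContDiffAt ℝ 1 Φ y0 := by
    have c1 : ContDiffAt ℝ 1 (fun y : Z × (ℝ × ℝ) => C.x 0 y.1) y0 :=
      ContDiffAt.comp (g := C.x 0) (f := fun y : Z × (ℝ × ℝ) => y.1) y0
        (by rw [hy01]; exact hx) contDiffAt_fst
    have c2 : ContDiffAt ℝ 1 (fun y : Z × (ℝ × ℝ) => C.e 0 y.1) y0 :=
      ContDiffAt.comp (g := C.e 0) (f := fun y : Z × (ℝ × ℝ) => y.1) y0
        (by rw [hy01]; exact he) contDiffAt_fst
    rw [hΦd]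
    exact (c1.add (ContDiffAt.smul (by fun_prop) c2)).prodMk (ContDiffAt.smul (by fun_prop) c2)
  have hder : ∀ (ζ : Z) (s c : ℝ), fderiv ℝ Φ y0 (ζ, (s, c)) =
      (fderiv ℝ (C.x 0) z ζ + s • C.e 0 z, c • C.e 0 z + fderiv ℝ (C.e 0) z ζ) := by
    intro ζ s c
    have h1 := line_deriv (hx.differentiableAt one_ne_zero) ζ
    have h2 := line_deriv (he.differentiableAt one_ne_zero) ζ
    have h3 : HasDerivAt (fun t : ℝ => (0 : ℝ) + t * s) s 0 := by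
      simpa using ((hasDerivAt_id (0 : ℝ)).mul_const s).const_add 0
    have h4 : HasDerivAt (fun t : ℝ => (1 : ℝ) + t * c) c 0 := by
      simpa using ((hasDerivAt_id (0 : ℝ)).mul_const c).const_add 1
    have h5 := (h1.add (h3.smul h2)).prodMk (h4.smul h2)
    have h8 : HasDerivAt (fun t : ℝ => Φ (y0 + t • (ζ, (s, c))))
        (fderiv ℝ (C.x 0) z ζ + s • C.e 0 z, c • C.e 0 z + fderiv ℝ (C.e 0) z ζ) 0 := by
      have h7 : (fun t : ℝ => Φ (y0 + t • (ζ, (s, c)))) = fun t : ℝ =>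
          (C.x 0 (z + t • ζ) + (0 + t * s) • C.e 0 (z + t • ζ),
            (1 + t * c) • C.e 0 (z + t • ζ)) := by
        funext t
        rw [hΦd, hy0]
        simp only [Prod.smul_mk, Prod.mk_add_mk, smul_eq_mul]
      rw [h7]
      refine h5.congr_deriv ?_
      simp only [zero_smul, add_zero, zero_mul, one_smul, zero_add]
      rw [add_comm (c • C.e 0 z)]
    exact line_fderiv (hΦc.differentiableAt one_ne_zero) (ζ, (s, c)) h8
  have hsurj : Function.Surjective (fderiv ℝ Φ y0) := by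
    rintro ⟨X, Y⟩
    have hee : ⟪C.e 0 z, C.e 0 z⟫_ℝ = 1 := C.ee 0 C.hN z hzU
    have hne : ⟪C.n 0 z, C.e 0 z⟫_ℝ ≠ 0 := C.tr 0 C.hN z hzU
    obtain ⟨s, hs⟩ : ∃ s, s = ⟪C.n 0 z, X⟫_ℝ / ⟪C.n 0 z, C.e 0 z⟫_ℝ := ⟨_, rfl⟩
    obtain ⟨ζ, h1, h2⟩ := C.surj z hzU (X - s • C.e 0 z) (Y - ⟪C.e 0 z, Y⟫_ℝ • C.e 0 z)
      (by rw [inner_sub_right, inner_smul_right, hs, div_mul_cancel₀ _ hne, sub_self])
      (by rw [inner_sub_right, inner_smul_right, hee, mul_one, sub_self])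
    refine ⟨(ζ, (s, ⟪C.e 0 z, Y⟫_ℝ)), ?_⟩
    rw [hder, h1, h2]
    refine Prod.ext ?_ ?_
    · simp only; abel
    · simp only; abel
  have hfr : Module.finrank ℝ (Z × (ℝ × ℝ)) = 2 * d + 4 := by
    rw [Module.finrank_prod, Module.finrank_prod, hZ, Module.finrank_self]
  have hfr' : Module.finrank ℝ (E × E) = 2 * d + 4 := by
    rw [Module.finrank_prod, hE]; omega
  have hinj : Function.Injective (fderiv ℝ Φ y0) := by
    have h1 := (LinearMap.injective_iff_surjective_of_finrank_eq_finrank (hfr.trans hfr'.symm)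
      (f := (fderiv ℝ Φ y0 : Z × (ℝ × ℝ) →ₗ[ℝ] E × E))).2 hsurj
    exact h1
  obtain ⟨e, he'⟩ : ∃ e : (Z × (ℝ × ℝ)) ≃L[ℝ] (E × E),
      (e : Z × (ℝ × ℝ) →L[ℝ] E × E) = fderiv ℝ Φ y0 :=
    ⟨ContinuousLinearEquiv.ofBijective (fderiv ℝ Φ y0) (LinearMap.ker_eq_bot.2 hinj)
      (LinearMap.range_eq_top.2 hsurj), ContinuousLinearEquiv.coe_ofBijective _ _ _⟩
  have hstr : HasStrictFDerivAt Φ (e : Z × (ℝ × ℝ) →L[ℝ] E × E) y0 := by
    rw [he']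
    exact hΦc.hasStrictFDerivAt one_ne_zero
  have hg := hstr.to_localInverse
  obtain ⟨K, S, hS, hK⟩ := hg.exists_lipschitzOnWith
  obtain ⟨Ψ, hΨ⟩ : ∃ Ψ, Ψ = hstr.localInverse Φ e y0 := ⟨_, rfl⟩
  rw [← hΨ] at hK
  obtain ⟨B, hB⟩ : ∃ B : Set (Z × (ℝ × ℝ)), B = {y | Φ y ∈ S ∧ Ψ (Φ y) = y ∧ Φ y ∈ N} :=
    ⟨_, rfl⟩
  have hBsub : B ⊆ Ψ '' (S ∩ N) := by
    intro y hy
    rw [hB] at hy
    exact ⟨Φ y, ⟨hy.1, hy.2.2⟩, hy.2.1⟩
  have hvol : (volume : Measure (E × E)).IsAddHaarMeasure := by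
    rw [Measure.volume_eq_prod]; infer_instance
  have hN' : μH[(Module.finrank ℝ (E × E) : ℝ)] N = 0 := haar_null _ volume hN
  have hB0 : μH[(Module.finrank ℝ (Z × (ℝ × ℝ)) : ℝ)] B = 0 := by
    refine measure_mono_null hBsub ?_
    have h1 := (hK.mono (inter_subset_left (s := S) (t := N))).hausdorffMeasure_image_le
      (d := (Module.finrank ℝ (Z × (ℝ × ℝ)) : ℝ)) (by positivity)
    have h2 : μH[(Module.finrank ℝ (Z × (ℝ × ℝ)) : ℝ)] (S ∩ N) = 0 := by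
      rw [hfr, ← hfr']
      exact measure_mono_null inter_subset_right hN'
    rw [h2, mul_zero] at h1
    exact nonpos_iff_eq_zero.1 h1
  obtain ⟨μ, hμ⟩ : ∃ μ : Measure Z, μ = μH[(Module.finrank ℝ Z : ℝ)] := ⟨_, rfl⟩
  have hμh : μ.IsAddHaarMeasure := by rw [hμ]; infer_instance
  have hB1 : (μ.prod (volume : Measure (ℝ × ℝ))) B = 0 := haar_null _ _ hB0
  have hB2 := Measure.measure_ae_null_of_prod_null hB1
  rw [Filter.EventuallyEq, ae_iff] at hB2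
  have hnear : ∀ᶠ y in 𝓝 y0, Φ y ∈ S ∧ Ψ (Φ y) = y := by
    have h1 : Tendsto Φ (𝓝 y0) (𝓝 (Φ y0)) := hΦc.continuousAt
    have h2 := hstr.eventually_left_inverse
    rw [← hΨ] at h2
    exact (h1.eventually hS).and h2
  rw [hy0] at hnear
  have hcur := hnear.curry_nhds
  refine ⟨{z | z ∈ C.U ∧ ∀ᶠ σ : ℝ × ℝ in 𝓝 ((0 : ℝ), (1 : ℝ)),
      (C.x 0 z + σ.1 • C.e 0 z, σ.2 • C.e 0 z) ∈ N} ∩
      {ζ | ∀ᶠ σ in 𝓝 ((0 : ℝ), (1 : ℝ)), Φ (ζ, σ) ∈ S ∧ Ψ (Φ (ζ, σ)) = (ζ, σ)},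
    Filter.inter_mem self_mem_nhdsWithin (mem_nhdsWithin_of_mem_nhds hcur), ?_⟩
  rw [← hμ]
  refine measure_mono_null ?_ hB2
  rintro ζ ⟨⟨-, h1⟩, h2⟩ h3
  have h4 : Prod.mk ζ ⁻¹' B ∈ 𝓝 ((0 : ℝ), (1 : ℝ)) := by
    filter_upwards [h1, h2] with σ hσ1 hσ2
    rw [hB]
    refine ⟨hσ2.1, hσ2.2, ?_⟩
    rw [hΦd]
    exact hσ1
  have h5 := Measure.measure_pos_of_mem_nhds (volume : Measure (ℝ × ℝ)) h4
  exact h5.ne' h3

/-- The orbits all rays near the initial ray of which are in a null set form a null set. -/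
theorem orbit_null {d : ℕ} (hE : Module.finrank ℝ E = d + 2) {Ω : Set E} {g : E ≃ᵃⁱ[ℝ] E}
    (hg : g ⁻¹' Ω = Ω) {n l : ℕ} (hl : l ≤ n) {N : Set (E × E)} (hN : volume N = 0) :
    μH[((2 * d + 2 : ℕ) : ℝ)] ((fun w : (ℕ → E) × (ℕ → E) => (w.1 l, w.2 l)) ''
      {w | OrbitMod Ω g n w.1 w.2 ∧ ∀ᶠ σ : ℝ × ℝ in 𝓝 ((0 : ℝ), (1 : ℝ)),
        (w.1 0 + σ.1 • w.2 0, σ.2 • w.2 0) ∈ N}) = 0 := by
  have hpE : ProperSpace E := FiniteDimensional.proper ℝ E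
  refine null_of_locally _ _ _ ?_
  rintro ⟨p, u⟩ ⟨hor, -⟩
  obtain ⟨a, b, C, ha, hb, hCN, hCg, hlip, hC1, hev⟩ := exists_chn2 hg hor
  have hfr : Module.finrank ℝ ((ℝ ∙ a)ᗮ × (ℝ ∙ b)ᗮ) = 2 * d + 2 := by
    have h1 := Submodule.finrank_add_finrank_orthogonal (ℝ ∙ a)
    have h2 := Submodule.finrank_add_finrank_orthogonal (ℝ ∙ b)
    rw [finrank_span_singleton ha, hE] at h1
    rw [finrank_span_singleton hb, hE] at h2
    rw [Module.finrank_prod]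
    omega
  have hIs : IsC1 C := fun m hm z hz => hC1 m (by omega) z hz
  have h0 := chn_null hE hfr hIs hN
  obtain ⟨K, hK⟩ := hlip l hl
  refine ⟨(fun z => (C.x l z, C.e l z)) '' {z | z ∈ C.U ∧ ∀ᶠ σ : ℝ × ℝ in 𝓝 ((0 : ℝ), (1 : ℝ)),
      (C.x 0 z + σ.1 • C.e 0 z, σ.2 • C.e 0 z) ∈ N}, ?_, ?_⟩
  · have hK' := (hK.mono (s := {z | z ∈ C.U ∧ ∀ᶠ σ : ℝ × ℝ in 𝓝 ((0 : ℝ), (1 : ℝ)),
      (C.x 0 z + σ.1 • C.e 0 z, σ.2 • C.e 0 z) ∈ N}) fun z hz => hz.1).hausdorffMeasure_image_le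
      (d := ((2 * d + 2 : ℕ) : ℝ)) (by positivity)
    rw [h0, mul_zero] at hK'
    exact nonpos_iff_eq_zero.1 hK'
  · filter_upwards [hev] with w hw hor'
    obtain ⟨z, hzU, hz, -, -⟩ := hw hor'.1
    refine ⟨z, ⟨hzU, ?_⟩, Prod.ext (hz l hl).1 (hz l hl).2⟩
    rw [(hz 0 (Nat.zero_le _)).1, (hz 0 (Nat.zero_le _)).2]
    exact hor'.2

/-- Pulling back a null set by an isometry. -/
theorem pull_null (g : E ≃ᵃⁱ[ℝ] E) {s : ℝ} (hs : 0 ≤ s) {Z : Set (E × E)} (hZ : μH[s] Z = 0) :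
    μH[s] {z : E × E | (g z.1, g.linearIsometryEquiv z.2) ∈ Z} = 0 := by
  have hpE : ProperSpace E := FiniteDimensional.proper ℝ E
  have hlip : LipschitzWith 1
      (fun z : E × E => (g.symm z.1, g.linearIsometryEquiv.symm z.2)) := by
    refine LipschitzWith.of_dist_le_mul fun x y => ?_
    simp only [Prod.dist_eq, LinearIsometryEquiv.dist_map, AffineIsometryEquiv.dist_map,
      NNReal.coe_one, one_mul]
    exact le_rfl
  refine measure_mono_null (t := (fun z : E × E =>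
    (g.symm z.1, g.linearIsometryEquiv.symm z.2)) '' Z) ?_ ?_
  · intro z hz
    exact ⟨_, hz, by simp⟩
  · have h1 := hlip.hausdorffMeasure_image_le hs Z
    rw [hZ, mul_zero] at h1
    exact nonpos_iff_eq_zero.1 h1

end Pool.Agent.V7H61.IV
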