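import Pool.Agent.V7H61.IV.PolarMain

/-!
Trajectories which have two sides on one line, traversed in opposite directions.
-/

set_option autoImplicit false

open MeasureTheory Set Filter Topology
open scoped InnerProductSpace ENNReal
open Pool.Agent.H721R2.Quart Pool.Agent.H721R2.Ivrii Pool.Agent.TH746

namespace Pool.Agent.V7H61.IV

section Chart

variable {E Z : Type*} [NormedAddCommGroup E] [InnerProductSpace ℝ E]
  [NormedAddCommGroup Z] [NormedSpace ℝ Z] {C : Chn E Z}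

theorem e_orth {k : ℕ} (hk : k < C.N) {z : Z} (hz : z ∈ C.U) (ζ : Z) :
    ⟪C.e k z, fderiv ℝ (C.e k) z ζ⟫_ℝ = 0 := by
  have he := line_deriv (C.de k hk.le z hz) ζ
  have h1 := he.inner ℝ he
  have h2 : (fun t : ℝ => ⟪C.e k (z + t • ζ), C.e k (z + t • ζ)⟫_ℝ) =ᶠ[𝓝 0] fun _ => 1 := by
    have h3 : Tendsto (fun t : ℝ => z + t • ζ) (𝓝 0) (𝓝 z) := by
      have h4 : Continuous fun t : ℝ => z + t • ζ := by fun_prop
      have h5 := h4.tendsto 0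
      simpa using h5
    filter_upwards [h3.eventually (C.hU.mem_nhds hz)] with t ht
    exact C.ee k hk _ ht
  have h3 := (hasDerivAt_const (0 : ℝ) (1 : ℝ)).congr_of_eventuallyEq h2
  have h4 := h1.unique h3
  rw [zero_smul, add_zero, real_inner_comm (C.e k z) (fderiv ℝ (C.e k) z ζ)] at h4
  linarith

/-- The symplectic form is conserved. -/
theorem omega_step {k : ℕ} (hk : k + 1 < C.N) {z : Z} (hz : z ∈ C.U) (ζ η : Z) :
    ⟪fderiv ℝ (C.x (k + 1)) z ζ, fderiv ℝ (C.e (k + 1)) z η⟫_ℝ -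
      ⟪fderiv ℝ (C.x (k + 1)) z η, fderiv ℝ (C.e (k + 1)) z ζ⟫_ℝ =
    ⟪fderiv ℝ (C.x k) z ζ, fderiv ℝ (C.e k) z η⟫_ℝ -
      ⟪fderiv ℝ (C.x k) z η, fderiv ℝ (C.e k) z ζ⟫_ℝ := by
  have hk0 : k < C.N := by omega
  have hX : ∀ ζ, fderiv ℝ (C.x (k + 1)) z ζ = fderiv ℝ (C.x k) z ζ +
      (C.L k z • fderiv ℝ (C.e k) z ζ + fderiv ℝ (C.L k) z ζ • C.e k z) := by
    intro ζ
    refine line_fderiv (C.dx (k + 1) hk.le z hz) ζ ?_
    have h1 := (line_deriv (C.dx k hk0.le z hz) ζ).add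
      ((line_deriv (C.dL k hk0 z hz) ζ).smul (line_deriv (C.de k hk0.le z hz) ζ))
    have h2 : (fun t : ℝ => C.x (k + 1) (z + t • ζ)) = fun t : ℝ => C.x k (z + t • ζ) +
        C.L k (z + t • ζ) • C.e k (z + t • ζ) := by
      funext t
      exact C.step k hk0 _
    rw [h2]
    refine h1.congr_deriv ?_
    rw [zero_smul, add_zero]
  have hD : ∀ ζ, fderiv ℝ (C.e (k + 1)) z ζ = fderiv ℝ (C.e k) z ζ -
      ((2 * ⟪C.n (k + 1) z, C.e k z⟫_ℝ) • fderiv ℝ (C.n (k + 1)) z ζ +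
        (2 * (⟪C.n (k + 1) z, fderiv ℝ (C.e k) z ζ⟫_ℝ +
          ⟪fderiv ℝ (C.n (k + 1)) z ζ, C.e k z⟫_ℝ)) • C.n (k + 1) z) := by
    intro ζ
    refine line_fderiv (C.de (k + 1) hk.le z hz) ζ ?_
    have hn := line_deriv (C.dn (k + 1) hk.le z hz) ζ
    have he := line_deriv (C.de k hk0.le z hz) ζ
    have h1 := he.sub (((hn.inner ℝ he).const_mul 2).smul hn)
    have h2 : (fun t : ℝ => C.e (k + 1) (z + t • ζ)) = fun t : ℝ => C.e k (z + t • ζ) -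
        (2 * ⟪C.n (k + 1) (z + t • ζ), C.e k (z + t • ζ)⟫_ℝ) • C.n (k + 1) (z + t • ζ) := by
      funext t
      exact C.refl k hk0 _
    rw [h2]
    refine h1.congr_deriv ?_
    rw [zero_smul, add_zero]
  have ht : ∀ ζ, ⟪fderiv ℝ (C.x (k + 1)) z ζ, C.n (k + 1) z⟫_ℝ = 0 := by
    intro ζ
    rw [real_inner_comm]
    exact C.tan (k + 1) hk z hz ζ
  have key : ∀ ζ η, ⟪fderiv ℝ (C.x (k + 1)) z ζ, fderiv ℝ (C.e (k + 1)) z η⟫_ℝ =
      ⟪fderiv ℝ (C.x k) z ζ, fderiv ℝ (C.e k) z η⟫_ℝ +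
      C.L k z * ⟪fderiv ℝ (C.e k) z ζ, fderiv ℝ (C.e k) z η⟫_ℝ +
      (2 * ⟪C.n (k + 1) z, C.e k z⟫_ℝ) *
        ⟪fderiv ℝ (C.x (k + 1)) z ζ, C.S (k + 1) z (fderiv ℝ (C.x (k + 1)) z η)⟫_ℝ := by
    intro ζ η
    rw [hD η, inner_sub_right, inner_add_right, inner_smul_right, inner_smul_right, ht ζ,
      C.njac (k + 1) hk z hz η, inner_neg_right, mul_zero, add_zero]
    have h1 : ⟪fderiv ℝ (C.x (k + 1)) z ζ, fderiv ℝ (C.e k) z η⟫_ℝ =
        ⟪fderiv ℝ (C.x k) z ζ, fderiv ℝ (C.e k) z η⟫_ℝ +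
        C.L k z * ⟪fderiv ℝ (C.e k) z ζ, fderiv ℝ (C.e k) z η⟫_ℝ := by
      rw [hX ζ, inner_add_left, inner_add_left, real_inner_smul_left, real_inner_smul_left,
        e_orth hk0 hz η, mul_zero, add_zero]
    rw [h1]
    ring
  rw [key ζ η, key η ζ, ← C.sym (k + 1) hk z hz (fderiv ℝ (C.x (k + 1)) z η),
    real_inner_comm (C.S (k + 1) z (fderiv ℝ (C.x (k + 1)) z η)) (fderiv ℝ (C.x (k + 1)) z ζ),
    real_inner_comm (fderiv ℝ (C.e k) z ζ) (fderiv ℝ (C.e k) z η)]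
  ring

theorem omega_eq {m : ℕ} (hm : m < C.N) {z : Z} (hz : z ∈ C.U) (ζ η : Z) :
    ⟪fderiv ℝ (C.x m) z ζ, fderiv ℝ (C.e m) z η⟫_ℝ -
      ⟪fderiv ℝ (C.x m) z η, fderiv ℝ (C.e m) z ζ⟫_ℝ =
    ⟪fderiv ℝ (C.x 0) z ζ, fderiv ℝ (C.e 0) z η⟫_ℝ -
      ⟪fderiv ℝ (C.x 0) z η, fderiv ℝ (C.e 0) z ζ⟫_ℝ := by
  induction m with
  | zero => rfl
  | succ m ih => rw [omega_step hm hz, ih (by omega)]

/-- The trajectories whose side `m` is on the line of the side `0`, in the opposite direction. -/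
def RA (C : Chn E Z) (m : ℕ) : Set Z :=
  {z | z ∈ C.U ∧ C.e m z = -C.e 0 z ∧ ∃ κ : ℝ, C.x m z = C.x 0 z + κ • C.e 0 z}

theorem RA_dim [FiniteDimensional ℝ E] [FiniteDimensional ℝ Z] {d' m : ℕ}
    (hE : 2 ≤ Module.finrank ℝ E) (hd : Module.finrank ℝ Z = d' + 1) (hC : IsC1 C)
    (hm : m < C.N) : dimH (RA C m) ≤ (d' : ℝ≥0∞) := by
  refine dim_hyper hd _ fun z hz => ?_
  obtain ⟨hzU, he, κ, hx⟩ := hz
  have hx0 := (hC 0 (Nat.zero_le _) z hzU).1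
  have he0 := (hC 0 (Nat.zero_le _) z hzU).2
  have hxm := (hC m hm.le z hzU).1
  have hem := (hC m hm.le z hzU).2
  have c1 : ∀ f : E, ContDiffAt ℝ 1 (fun z => ⟪C.e m z + C.e 0 z, f⟫_ℝ) z := fun f =>
    (hem.add he0).inner ℝ contDiffAt_const
  have c2 : ∀ f : E, ContDiffAt ℝ 1 (fun z => ⟪(C.x m z - C.x 0 z) -
      ⟪C.e 0 z, C.x m z - C.x 0 z⟫_ℝ • C.e 0 z, f⟫_ℝ) z := fun f =>
    ((hxm.sub hx0).sub ((he0.inner ℝ (hxm.sub hx0)).smul he0)).inner ℝ contDiffAt_const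
  by_contra hcon
  have z1 : ∀ f : E, fderiv ℝ (fun z => ⟪C.e m z + C.e 0 z, f⟫_ℝ) z = 0 := by
    intro f
    by_contra hne
    refine hcon ⟨_, c1 f, hne, Eventually.of_forall fun z' hz' => ?_⟩
    rw [hz'.2.1, neg_add_cancel, inner_zero_left]
  have z2 : ∀ f : E, fderiv ℝ (fun z => ⟪(C.x m z - C.x 0 z) -
      ⟪C.e 0 z, C.x m z - C.x 0 z⟫_ℝ • C.e 0 z, f⟫_ℝ) z = 0 := by
    intro f
    by_contra hne
    refine hcon ⟨_, c2 f, hne, Eventually.of_forall fun z' hz' => ?_⟩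
    obtain ⟨h1, h2, κ', h3⟩ := hz'
    rw [h3, add_sub_cancel_left, inner_smul_right, C.ee 0 C.hN z' h1, mul_one, sub_self,
      inner_zero_left]
  have y1 : ∀ ζ, fderiv ℝ (C.e m) z ζ + fderiv ℝ (C.e 0) z ζ = 0 := by
    intro ζ
    refine ext_inner_right ℝ fun f => ?_
    have h1 := (line_deriv (hem.differentiableAt one_ne_zero) ζ).add
      (line_deriv (he0.differentiableAt one_ne_zero) ζ)
    have h2 := h1.inner ℝ (hasDerivAt_const (0 : ℝ) f)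
    have h3 := line_fderiv ((c1 f).differentiableAt one_ne_zero) ζ h2
    rw [z1 f, _root_.zero_apply, inner_zero_right, zero_add] at h3
    rw [← h3, inner_zero_left]
  have y2 : ∀ ζ, ∃ a : ℝ, fderiv ℝ (C.x m) z ζ - fderiv ℝ (C.x 0) z ζ =
      a • C.e 0 z + ⟪C.e 0 z, C.x m z - C.x 0 z⟫_ℝ • fderiv ℝ (C.e 0) z ζ := by
    intro ζ
    have h0 := (line_deriv (hxm.differentiableAt one_ne_zero) ζ).sub
      (line_deriv (hx0.differentiableAt one_ne_zero) ζ)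
    have h00 := line_deriv (he0.differentiableAt one_ne_zero) ζ
    have h1 := h0.sub ((h00.inner ℝ h0).smul h00)
    simp only [zero_smul, add_zero] at h1
    refine ⟨⟪C.e 0 z, fderiv ℝ (C.x m) z ζ - fderiv ℝ (C.x 0) z ζ⟫_ℝ +
      ⟪fderiv ℝ (C.e 0) z ζ, C.x m z - C.x 0 z⟫_ℝ, ?_⟩
    rw [← sub_eq_zero]
    refine ext_inner_right ℝ fun f => ?_
    have h2 := h1.inner ℝ (hasDerivAt_const (0 : ℝ) f)
    have h3 := line_fderiv ((c2 f).differentiableAt one_ne_zero) ζ h2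
    rw [z2 f, _root_.zero_apply, inner_zero_right, zero_add] at h3
    simp only [Pi.sub_apply, zero_smul, add_zero] at h3
    rw [inner_zero_left, h3, add_comm (_ • C.e 0 z)]
  -- the symplectic form
  obtain ⟨Y, hY0, hYn⟩ := exists_perp hE (C.n 0 z)
  have hee : ⟪C.e 0 z, C.e 0 z⟫_ℝ = 1 := C.ee 0 C.hN z hzU
  obtain ⟨δ, hδ⟩ : ∃ δ, δ = Y - ⟪C.e 0 z, Y⟫_ℝ • C.e 0 z := ⟨_, rfl⟩
  have hδe : ⟪C.e 0 z, δ⟫_ℝ = 0 := by
    rw [hδ, inner_sub_right, inner_smul_right, hee, mul_one, sub_self]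
  obtain ⟨ζ, hζ1, hζ2⟩ := C.surj z hzU Y 0 hYn (inner_zero_right _)
  obtain ⟨η, hη1, hη2⟩ := C.surj z hzU 0 δ (inner_zero_right _) hδe
  have hω := omega_eq hm hzU ζ η
  have a1 : fderiv ℝ (C.e m) z η = -δ := by
    have := y1 η
    rw [hη2] at this
    exact eq_neg_of_add_eq_zero_left this
  have a2 : fderiv ℝ (C.e m) z ζ = 0 := by
    have := y1 ζ
    rwa [hζ2, add_zero] at this
  obtain ⟨a, ha⟩ := y2 ζ
  rw [hζ1, hζ2, smul_zero, add_zero, sub_eq_iff_eq_add] at ha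
  rw [a1, a2, ha, hζ1, hζ2, hη2, inner_zero_right, inner_zero_right, sub_zero, sub_zero,
    inner_neg_right, inner_add_left, real_inner_smul_left, hδe, mul_zero, zero_add] at hω
  have h1 : ⟪Y, δ⟫_ℝ = 0 := by linarith
  have h2 : ⟪δ, δ⟫_ℝ = 0 := by
    nth_rewrite 1 [hδ]
    rw [inner_sub_left, real_inner_smul_left, hδe, h1, mul_zero, sub_zero]
  have h3 : δ = 0 := inner_self_eq_zero.1 h2
  rw [h3] at hδ
  have h4 : Y = ⟪C.e 0 z, Y⟫_ℝ • C.e 0 z := (sub_eq_zero.1 hδ.symm)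
  rw [h4, inner_smul_right] at hYn
  have h5 := (mul_eq_zero.1 hYn).resolve_right (C.tr 0 C.hN z hzU)
  rw [h5, zero_smul] at h4
  exact hY0 h4

end Chart

variable {E : Type*} [NormedAddCommGroup E] [InnerProductSpace ℝ E] [FiniteDimensional ℝ E]

omit [FiniteDimensional ℝ E] in
/-- Two periods. -/
theorem orbit_double [CompleteSpace E] {Ω : Set E} {g : E ≃ᵃⁱ[ℝ] E} {n : ℕ} {p u : ℕ → E}
    (h : OrbitMod Ω g n p u) : OrbitMod Ω (g.trans g) (2 * n) p u := by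
  refine ⟨by have := h.pos; omega, h.unit, fun k => ?_, fun k => ?_, h.step⟩
  · rw [show k + 2 * n = k + n + n by ring, h.perp, h.perp]
    rfl
  · rw [show k + 2 * n = k + n + n by ring, h.peru, h.peru]
    rfl

omit [FiniteDimensional ℝ E] in
theorem pre_double {Ω : Set E} {g : E ≃ᵃⁱ[ℝ] E} (hg : g ⁻¹' Ω = Ω) :
    (g.trans g) ⁻¹' Ω = Ω := by
  have h1 : (g.trans g) ⁻¹' Ω = g ⁻¹' (g ⁻¹' Ω) := rfl
  rw [h1, hg, hg]

/-- The phase points whose orbit is periodic modulo `Γ` and has, within a period, two sides on one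
line which are traversed in opposite directions. -/
def RetroSet (Γ : Set (E ≃ᵃⁱ[ℝ] E)) (Ω : Set E) : Set (E × E) :=
  {z | ∃ g ∈ Γ, ∃ (n : ℕ) (p u : ℕ → E), OrbitMod Ω g n p u ∧ (p 0, u 0) = z ∧
    ∃ b m : ℕ, b ≤ 2 * n ∧ 1 ≤ m ∧ m ≤ n ∧ u (b + m) = -u b ∧
      ∃ κ : ℝ, p (b + m) = p b + κ • u b}

theorem retro_dim {d : ℕ} (hE : Module.finrank ℝ E = d + 2) {Γ : Set (E ≃ᵃⁱ[ℝ] E)} {Ω : Set E}
    (hΓ : Γ.Countable) (hinv : ∀ g ∈ Γ, g ⁻¹' Ω = Ω) :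
    dimH (RetroSet Γ Ω) ≤ ((2 * d + 1 : ℕ) : ℝ≥0∞) := by
  refine (dimH_mono (t := ⋃ g ∈ Γ, ⋃ n : ℕ, ⋃ l : ℕ, ⋃ m : ℕ, ⋃ (_ : l ≤ 2 * n ∧ m < 2 * n),
    {z : E × E | ((g.trans g) z.1, (g.trans g).linearIsometryEquiv z.2) ∈
      (fun w : (ℕ → E) × (ℕ → E) => (w.1 l, w.2 l)) ''
      {w | OrbitMod Ω (g.trans g) (2 * n) w.1 w.2 ∧ w.2 m = -w.2 0 ∧
        ∃ κ : ℝ, w.1 m = w.1 0 + κ • w.2 0}}) ?_).trans ?_
  · rintro z ⟨g, hgΓ, n, p, u, hor, rfl, b, m, hb, hm1, hm2, hu, κ, hp⟩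
    have hd := orbit_double hor
    refine mem_iUnion₂.2 ⟨g, hgΓ, mem_iUnion.2 ⟨n, mem_iUnion.2 ⟨2 * n - b, mem_iUnion.2 ⟨m,
      mem_iUnion.2 ⟨⟨Nat.sub_le _ _, by omega⟩, ?_⟩⟩⟩⟩⟩
    refine ⟨(fun k => p (k + b), fun k => u (k + b)), ⟨shift_orbit hd b, ?_, κ, ?_⟩, ?_⟩
    · simp only
      rw [zero_add, add_comm m b, hu]
    · simp only
      rw [zero_add, add_comm m b, hp]
    · simp only
      have h1 : 2 * n - b + b = 0 + 2 * n := by omega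
      rw [h1, hd.perp, hd.peru]
  · rw [dimH_bUnion hΓ]
    refine iSup₂_le fun g hg => ?_
    rw [dimH_iUnion]
    refine iSup_le fun n => ?_
    rw [dimH_iUnion]
    refine iSup_le fun l => ?_
    rw [dimH_iUnion]
    refine iSup_le fun m => ?_
    rw [dimH_iUnion]
    refine iSup_le fun hlm => ?_
    refine (pull_dim (g.trans g) _).trans ?_
    apply dim_of_locally
    rintro ⟨p, u⟩ ⟨hor, -⟩
    obtain ⟨a, b, C, ha, hb, hCN, hCg, hlip, hC1, hev⟩ := exists_chn2 (pre_double (hinv g hg)) hor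
    have hfr : Module.finrank ℝ ((ℝ ∙ a)ᗮ × (ℝ ∙ b)ᗮ) = (2 * d + 1) + 1 := by
      have h1 := Submodule.finrank_add_finrank_orthogonal (ℝ ∙ a)
      have h2 := Submodule.finrank_add_finrank_orthogonal (ℝ ∙ b)
      rw [finrank_span_singleton ha, hE] at h1
      rw [finrank_span_singleton hb, hE] at h2
      rw [Module.finrank_prod]
      omega
    have hIs : IsC1 C := fun m hm z hz => hC1 m (by omega) z hz
    have hdim := RA_dim (C := C) (m := m) (by omega) hfr hIs (by omega)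
    obtain ⟨K, hK⟩ := hlip l hlm.1
    refine ⟨(fun z => (C.x l z, C.e l z)) '' RA C m, ?_, ?_⟩
    · have hK' : LipschitzOnWith K (fun z => (C.x l z, C.e l z)) (RA C m) :=
        hK.mono fun z hz => hz.1
      exact hK'.dimH_image_le.trans hdim
    · filter_upwards [hev] with w hw hor'
      obtain ⟨z, hzU, hz, -, -⟩ := hw hor'.1
      refine ⟨z, ⟨hzU, ?_, ?_⟩, Prod.ext (hz l hlm.1).1 (hz l hlm.1).2⟩
      · rw [(hz m hlm.2.le).2, (hz 0 (Nat.zero_le _)).2]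
        exact hor'.2.1
      · obtain ⟨κ, hκ⟩ := hor'.2.2
        exact ⟨κ, by rw [(hz m hlm.2.le).1, (hz 0 (Nat.zero_le _)).1, (hz 0 (Nat.zero_le _)).2, hκ]⟩

end Pool.Agent.V7H61.IV
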