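import Pool.Agent.V7H61.IV.Mv6
import Pool.Agent.V7H61.IV.NullSets
import Pool.Agent.V7H61.IV.Retro

/-!
Periodic orbits with a cut, for almost every position (and size) of the parts of the table.
-/

set_option autoImplicit false

open MeasureTheory Set Filter Topology
open scoped InnerProductSpace ENNReal NNReal
open Pool.Agent.H721R2.Quart Pool.Agent.H721R2.Ivrii Pool.Agent.TH746

namespace Pool.Agent.V7H61.IV

variable {E : Type*} [NormedAddCommGroup E] [InnerProductSpace ℝ E] [FiniteDimensional ℝ E]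
  [MeasurableSpace E] [BorelSpace E] {ι : Type*}

/-- Near `q` the table `Ω` coincides with the part `Ω'`, scaled by `s` and moved by `a`. -/
def PartAt (Ω' : Set E) (a : E) (s : ℝ) (Ω : Set E) (q : E) : Prop :=
  ∀ᶠ x in 𝓝 q, (x ∈ Ω ↔ s⁻¹ • (x - a) ∈ Ω')

/-- The phase points whose orbit is periodic modulo `Γ` and has a cut: there are a set `J` of parts
and a period, the bounces `a + 1, …, a + n`, such that those up to `b` are at parts not in `J`, and
those after `b` are at parts in `J`. The directions of the sides `b` and `a + n` before and after the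
visit of the cluster `J` are not parallel, or the two sides are on one line and are traversed in
opposite directions. -/
def CutSet (Γ : Set (E ≃ᵃⁱ[ℝ] E)) (Λ : Set E) (Ωs : ι → Set E) (t : ι → E) (s : ι → ℝ)
    (Ω : Set E) : Set (E × E) :=
  {z | ∃ g ∈ Γ, ∃ (n : ℕ) (p u : ℕ → E), OrbitMod Ω g n p u ∧ (p 0, u 0) = z ∧
    ∃ (J : Set ι) (a b : ℕ), a < n ∧ a ≤ b ∧ b < a + n ∧
      (∀ k, a < k → k ≤ b → ∃ i ∉ J, ∃ c ∈ Λ, PartAt (Ωs i) (t i + c) (s i) Ω (p k)) ∧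
      (∀ k, b < k → k ≤ a + n → ∃ i ∈ J, ∃ c ∈ Λ, PartAt (Ωs i) (t i + c) (s i) Ω (p k)) ∧
      ((u (a + n) ≠ u b ∧ u (a + n) ≠ -u b) ∨
        (u (a + n) = -u b ∧ ∃ κ : ℝ, p (a + n) = p b + κ • u b))}

/-- The phase points whose orbit is periodic modulo `Γ` and has a cut, the cluster `J` being visited
in one copy, such that the sides `b` and `a + n` before and after the visit are not on one line
traversed in the same direction. -/
def LineCutSet (Γ : Set (E ≃ᵃⁱ[ℝ] E)) (Λ : Set E) (Ωs : ι → Set E) (t : ι → E) (s : ι → ℝ)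
    (Ω : Set E) : Set (E × E) :=
  {z | ∃ g ∈ Γ, ∃ (n : ℕ) (p u : ℕ → E), OrbitMod Ω g n p u ∧ (p 0, u 0) = z ∧
    ∃ (J : Set ι) (a b : ℕ), a < n ∧ a ≤ b ∧ b < a + n ∧
      (∀ k, a < k → k ≤ b → ∃ i ∉ J, ∃ c ∈ Λ, PartAt (Ωs i) (t i + c) (s i) Ω (p k)) ∧
      (∃ c ∈ Λ, ∀ k, b < k → k ≤ a + n → ∃ i ∈ J, PartAt (Ωs i) (t i + c) (s i) Ω (p k)) ∧
      ¬ (u (a + n) = u b ∧ ∃ κ : ℝ, p (a + n) = p b + κ • u b)}

omit [FiniteDimensional ℝ E] [MeasurableSpace E] [BorelSpace E] in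
theorem inner_sq_ne {v w : E} (hv : ‖v‖ = 1) (hw : ‖w‖ = 1) (h1 : w ≠ v) (h2 : w ≠ -v) :
    ⟪v, w⟫_ℝ ^ 2 ≠ 1 := by
  intro h
  have h3 : (⟪v, w⟫_ℝ - 1) * (⟪v, w⟫_ℝ + 1) = 0 := by linarith
  rcases mul_eq_zero.1 h3 with h4 | h4
  · apply h1
    have h5 := norm_sub_sq_real w v
    rw [hv, hw, real_inner_comm, sub_eq_zero.1 h4] at h5
    have h6 : ‖w - v‖ ^ 2 = 0 := by rw [h5]; norm_num
    exact sub_eq_zero.1 (norm_eq_zero.1 (pow_eq_zero_iff two_ne_zero |>.1 h6))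
  · apply h2
    have h5 := norm_add_sq_real w v
    rw [hv, hw, real_inner_comm, eq_neg_of_add_eq_zero_left h4] at h5
    have h6 : ‖w + v‖ ^ 2 = 0 := by rw [h5]; norm_num
    exact eq_neg_of_add_eq_zero_left (norm_eq_zero.1 (pow_eq_zero_iff two_ne_zero |>.1 h6))

omit [FiniteDimensional ℝ E] [MeasurableSpace E] [BorelSpace E] in
/-- Two different lines. -/
theorem exists_off {p q v w : E} (hv : ‖v‖ = 1) (hw : ‖w‖ = 1)
    (h1 : ¬ (w = v ∧ ∃ κ : ℝ, q = p + κ • v)) (h2 : ¬ (w = -v ∧ ∃ κ : ℝ, q = p + κ • v)) :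
    ∃ α : ℝ, ∀ κ : ℝ, p + α • v ≠ q + κ • w := by
  by_contra hcon
  push Not at hcon
  obtain ⟨k0, hk0⟩ := hcon 0
  obtain ⟨k1, hk1⟩ := hcon 1
  rw [zero_smul, add_zero] at hk0
  rw [one_smul, hk0] at hk1
  have h3 : v = (k1 - k0) • w := by
    have h4 : q + k0 • w + v - (q + k0 • w) = q + k1 • w - (q + k0 • w) := by rw [hk1]
    rw [add_sub_cancel_left] at h4
    rw [h4]; module
  have h4 : |k1 - k0| = 1 := by
    have h5 := congrArg norm h3
    rw [norm_smul, hv, hw, mul_one, Real.norm_eq_abs] at h5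
    exact h5.symm
  rcases (abs_eq zero_le_one).1 h4 with h5 | h5
  · rw [h5, one_smul] at h3
    refine h1 ⟨h3.symm, -k0, ?_⟩
    rw [hk0, h3]; module
  · rw [h5] at h3
    have h6 : w = -v := by rw [h3]; module
    refine h2 ⟨h6, k0, ?_⟩
    rw [hk0, h6]; module

/-- The orbits to which the exceptional set applies. -/
def Shifted (Γ : Set (E ≃ᵃⁱ[ℝ] E)) (Ω : Set E) (N : Set (E × E)) : Set (E × E) :=
  {z | ∃ g ∈ Γ, ∃ (n : ℕ) (p u : ℕ → E), OrbitMod Ω g n p u ∧ (p 0, u 0) = z ∧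
    ∃ a < n, ∀ᶠ σ : ℝ × ℝ in 𝓝 ((0 : ℝ), (1 : ℝ)), (p a + σ.1 • u a, σ.2 • u a) ∈ N}

theorem shifted_null {d : ℕ} (hE : Module.finrank ℝ E = d + 2) {Γ : Set (E ≃ᵃⁱ[ℝ] E)}
    (hΓ : Γ.Countable) {Ω : Set E} (hinv : ∀ g ∈ Γ, g ⁻¹' Ω = Ω) {N : Set (E × E)}
    (hN : volume N = 0) : μH[((2 * d + 2 : ℕ) : ℝ)] (Shifted Γ Ω N) = 0 := by
  refine measure_mono_null (t := ⋃ g ∈ Γ, ⋃ n : ℕ, ⋃ l : ℕ, ⋃ (_ : l ≤ n),
    {z : E × E | (g z.1, g.linearIsometryEquiv z.2) ∈
      (fun w : (ℕ → E) × (ℕ → E) => (w.1 l, w.2 l)) ''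
      {w | OrbitMod Ω g n w.1 w.2 ∧ ∀ᶠ σ : ℝ × ℝ in 𝓝 ((0 : ℝ), (1 : ℝ)),
        (w.1 0 + σ.1 • w.2 0, σ.2 • w.2 0) ∈ N}}) ?_ ?_
  · rintro z ⟨g, hgΓ, n, p, u, hor, rfl, a, han, hz⟩
    refine mem_iUnion₂.2 ⟨g, hgΓ, mem_iUnion.2 ⟨n, mem_iUnion.2 ⟨n - a,
      mem_iUnion.2 ⟨Nat.sub_le _ _, ?_⟩⟩⟩⟩
    refine ⟨(fun m => p (m + a), fun m => u (m + a)), ⟨shift_orbit hor a, ?_⟩, ?_⟩
    · simp only [zero_add]
      exact hz
    · simp only
      rw [show n - a + a = 0 + n by omega, hor.perp, hor.peru]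
  · rw [measure_biUnion_null_iff hΓ]
    intro g hg
    rw [measure_iUnion_null_iff]
    intro n
    rw [measure_iUnion_null_iff]
    intro l
    rw [measure_iUnion_null_iff]
    intro hl
    exact pull_null g (by positivity) (orbit_null hE (hinv g hg) hl hN)

theorem retro_null {d : ℕ} (hE : Module.finrank ℝ E = d + 2) {Γ : Set (E ≃ᵃⁱ[ℝ] E)} {Ω : Set E}
    (hΓ : Γ.Countable) (hinv : ∀ g ∈ Γ, g ⁻¹' Ω = Ω) :
    μH[((2 * d + 2 : ℕ) : ℝ)] (RetroSet Γ Ω) = 0 := by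
  have hpE : ProperSpace E := FiniteDimensional.proper ℝ E
  exact null_of_dim' (retro_dim hE hΓ hinv)

/-- Almost all parameters are good, by Fubini's theorem. -/
theorem ae_good {V : Type*} [MeasureSpace V] [SigmaFinite (volume : Measure V)]
    {N : Set (V × (E × E))} (hNm : MeasurableSet N)
    (hN0 : ∀ z : E × E, volume {t : V | (t, z) ∈ N} = 0) :
    ∀ᵐ t : V, volume {z : E × E | (t, z) ∈ N} = 0 := by
  have hpE : ProperSpace E := FiniteDimensional.proper ℝ E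
  have h1 : ((volume : Measure V).prod (volume : Measure (E × E))) N = 0 := by
    rw [Measure.prod_apply_symm hNm]
    have h2 : (fun z : E × E => volume ((fun t : V => (t, z)) ⁻¹' N)) = 0 := by
      funext z
      exact hN0 z
    rw [h2]
    exact lintegral_zero
  exact Measure.measure_ae_null_of_prod_null h1

omit [MeasurableSpace E] [BorelSpace E] in
/-- The labelled orbit, starting at the bounce `a`. -/
theorem clo_of_orbit {Ωs : ι → Set E} {Ω : Set E} {g : E ≃ᵃⁱ[ℝ] E} {n a : ℕ}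
    {p u : ℕ → E} (hor : OrbitMod Ω g n p u) {i : ℕ → ι} {c : ℕ → E} {t : ι → E × ℝ}
    (hs : ∀ l, (t l).2 ≠ 0)
    (h : ∀ k < n, PartAt (Ωs (i k)) ((t (i k)).1 + c k) (t (i k)).2 Ω (p (k + 1 + a))) :
    (t, ((fun m => p (m + a)), fun m => u (m + a))) ∈ Clo Ωs i c g n := by
  have hun : ‖u a‖ = 1 := by
    have h3 := unit_steps hor.step hor.unit a
    rw [real_inner_self_eq_norm_sq] at h3
    nlinarith [norm_nonneg (u a)]
  refine ⟨fun k hk => ?_, fun k hk => hs _, ?_, ?_, ?_⟩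
  · have h3 := hor.step (k + a)
    rw [show k + a + 1 = k + 1 + a by ring] at h3
    exact bounce_of_step (hs _) h3 (h k hk)
  · simp only [zero_add]
    exact hun
  · simp only [zero_add]
    rw [add_comm n a]
    exact hor.perp a
  · simp only [zero_add]
    rw [add_comm n a]
    exact hor.peru a

variable [Fintype ι]

/-- **Almost every position of the parts.** -/
theorem cut_null {d : ℕ} (hE : Module.finrank ℝ E = d + 2) (Ωs : ι → Set E)
    {Γ : Set (E ≃ᵃⁱ[ℝ] E)} (hΓ : Γ.Countable) {Λ : Set E} (hΛ : Λ.Countable) (s : ι → ℝ)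
    (hs : ∀ i, s i ≠ 0) :
    ∀ᵐ t : ι → E, ∀ Ω : Set E, (∀ g ∈ Γ, g ⁻¹' Ω = Ω) →
      μH[((2 * d + 2 : ℕ) : ℝ)] (CutSet Γ Λ Ωs t s Ω) = 0 := by
  have hpE : ProperSpace E := FiniteDimensional.proper ℝ E
  obtain ⟨N, hNm, hN0, hN⟩ := exists_univ1 Ωs s hΓ hΛ
  filter_upwards [ae_good hNm hN0] with t ht Ω hinv
  refine measure_mono_null (t := RetroSet Γ Ω ∪ Shifted Γ Ω {z : E × E | (t, z) ∈ N}) ?_
    (measure_union_null (retro_null hE hΓ hinv) (shifted_null hE hΓ hinv ht))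
  rintro z ⟨g, hgΓ, n, p, u, hor, rfl, J, a, b, han, hab, hbn, hout, hin, hcase⟩
  have hun : ∀ k, ‖u k‖ = 1 := by
    intro k
    have h3 := unit_steps hor.step hor.unit k
    rw [real_inner_self_eq_norm_sq] at h3
    nlinarith [norm_nonneg (u k)]
  rcases hcase with ⟨hne1, hne2⟩ | ⟨hret, κ, hκ⟩
  · right
    refine ⟨g, hgΓ, n, p, u, hor, rfl, a, han, ?_⟩
    have hlab : ∀ k, ∃ (i : ι) (c : E), k < n → c ∈ Λ ∧ (k < b - a → i ∉ J) ∧
        (b - a ≤ k → i ∈ J) ∧ PartAt (Ωs i) (t i + c) (s i) Ω (p (k + 1 + a)) := by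
      intro k
      by_cases hk : k < n
      · by_cases hkb : k < b - a
        · obtain ⟨i, hij, c, hc, h3⟩ := hout (k + 1 + a) (by omega) (by omega)
          exact ⟨i, c, fun _ => ⟨hc, fun _ => hij, fun h4 => by omega, h3⟩⟩
        · obtain ⟨i, hij, c, hc, h3⟩ := hin (k + 1 + a) (by omega) (by omega)
          exact ⟨i, c, fun _ => ⟨hc, fun h4 => absurd h4 hkb, fun _ => hij, h3⟩⟩
      · obtain ⟨i, -, -⟩ := hin (a + n) hbn le_rfl
        exact ⟨i, 0, fun h3 => absurd h3 hk⟩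
    choose i c hic using hlab
    have h5 := hN g hgΓ n (b - a) J i c (fun k hk => (hic k hk).1)
      (t, ((fun m => p (m + a)), fun m => u (m + a))) ⟨by omega,
        fun k hk => (hic k (by omega)).2.1 hk, fun k hk hkn => (hic k hkn).2.2.1 hk,
        clo_of_orbit hor (t := fun l => (t l, s l)) hs (fun k hk => (hic k hk).2.2.2), by
          simp only
          rw [show b - a + a = b by omega, add_comm n a]
          exact inner_sq_ne (hun b) (hun (a + n)) hne1 hne2⟩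
    unfold NearRays at h5
    simp only [zero_add] at h5
    exact h5
  · left
    refine ⟨g, hgΓ, n, p, u, hor, rfl, b, a + n - b, by omega, by omega, by omega, ?_, κ, ?_⟩
    · rw [show b + (a + n - b) = a + n by omega]; exact hret
    · rw [show b + (a + n - b) = a + n by omega]; exact hκ

/-- **Almost every position and size of the parts.** -/
theorem line_cut_null {d : ℕ} (hE : Module.finrank ℝ E = d + 2) (Ωs : ι → Set E)
    {Γ : Set (E ≃ᵃⁱ[ℝ] E)} (hΓ : Γ.Countable) {Λ : Set E} (hΛ : Λ.Countable) :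
    ∀ᵐ y : ι → E × ℝ, ∀ Ω : Set E, (∀ g ∈ Γ, g ⁻¹' Ω = Ω) →
      μH[((2 * d + 2 : ℕ) : ℝ)]
        (LineCutSet Γ Λ Ωs (fun i => (y i).1) (fun i => (y i).2) Ω) = 0 := by
  have hpE : ProperSpace E := FiniteDimensional.proper ℝ E
  obtain ⟨N, hNm, hN0, hN⟩ := exists_univ2 Ωs hΓ hΛ
  have hsz : ∀ᵐ y : ι → E × ℝ, ∀ i, (y i).2 ≠ 0 := by
    rw [ae_all_iff]
    intro i
    have h1 : ∀ᵐ x : E × ℝ, x.2 ≠ 0 := by
      rw [Measure.volume_eq_prod]
      have h2 : ∀ᵐ x : ℝ, x ≠ 0 := by simp [ae_iff]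
      exact Measure.quasiMeasurePreserving_snd.ae h2
    have h2 : Measure.QuasiMeasurePreserving (fun y : ι → E × ℝ => y i) volume volume :=
      Measure.quasiMeasurePreserving_eval (fun _ : ι => (volume : Measure (E × ℝ))) i
    exact h2.ae h1
  filter_upwards [ae_good hNm hN0, hsz] with y ht hs Ω hinv
  refine measure_mono_null (t := RetroSet Γ Ω ∪ Shifted Γ Ω {z : E × E | (y, z) ∈ N}) ?_
    (measure_union_null (retro_null hE hΓ hinv) (shifted_null hE hΓ hinv ht))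
  rintro z ⟨g, hgΓ, n, p, u, hor, rfl, J, a, b, han, hab, hbn, hout, ⟨c0, hc0Λ, hin⟩, hcase⟩
  have hun : ∀ k, ‖u k‖ = 1 := by
    intro k
    have h3 := unit_steps hor.step hor.unit k
    rw [real_inner_self_eq_norm_sq] at h3
    nlinarith [norm_nonneg (u k)]
  by_cases hret : u (a + n) = -u b ∧ ∃ κ : ℝ, p (a + n) = p b + κ • u b
  · left
    obtain ⟨hret, κ, hκ⟩ := hret
    refine ⟨g, hgΓ, n, p, u, hor, rfl, b, a + n - b, by omega, by omega, by omega, ?_, κ, ?_⟩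
    · rw [show b + (a + n - b) = a + n by omega]; exact hret
    · rw [show b + (a + n - b) = a + n by omega]; exact hκ
  · right
    refine ⟨g, hgΓ, n, p, u, hor, rfl, a, han, ?_⟩
    have hlab : ∀ k, ∃ (i : ι) (c : E), k < n → c ∈ Λ ∧ (k < b - a → i ∉ J) ∧
        (b - a ≤ k → i ∈ J ∧ c = c0) ∧
        PartAt (Ωs i) ((y i).1 + c) (y i).2 Ω (p (k + 1 + a)) := by
      intro k
      by_cases hk : k < n
      · by_cases hkb : k < b - a
        · obtain ⟨i, hij, c, hc, h3⟩ := hout (k + 1 + a) (by omega) (by omega)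
          exact ⟨i, c, fun _ => ⟨hc, fun _ => hij, fun h4 => by omega, h3⟩⟩
        · obtain ⟨i, hij, h3⟩ := hin (k + 1 + a) (by omega) (by omega)
          exact ⟨i, c0, fun _ => ⟨hc0Λ, fun h4 => absurd h4 hkb, fun _ => ⟨hij, rfl⟩, h3⟩⟩
      · obtain ⟨i, -, -⟩ := hin (a + n) hbn le_rfl
        exact ⟨i, 0, fun h3 => absurd h3 hk⟩
    choose i c hic using hlab
    have h5 := hN g hgΓ n (b - a) J i c (fun k hk => (hic k hk).1)
      (y, ((fun m => p (m + a)), fun m => u (m + a))) ⟨by omega,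
        fun k hk => (hic k (by omega)).2.1 hk, fun k hk hkn => ((hic k hkn).2.2.1 hk).1,
        fun k hk hkn => by
          rw [((hic k hkn).2.2.1 hk).2, ((hic (b - a) (by omega)).2.2.1 le_rfl).2],
        clo_of_orbit hor hs (fun k hk => (hic k hk).2.2.2), by
          simp only
          rw [show b - a + a = b by omega, add_comm n a]
          exact exists_off (hun b) (hun (a + n)) hcase hret⟩
    unfold NearRays at h5
    simp only [zero_add] at h5
    exact h5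

end Pool.Agent.V7H61.IV
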