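import Pool.Agent.V7H61.IV.Split2

/-!
Loops of billiard trajectories all of whose mirrors are radial or tangential with respect to a point.
-/

set_option autoImplicit false

open MeasureTheory Set Filter Topology
open scoped InnerProductSpace ENNReal
open Pool.Agent.H721R2.Quart Pool.Agent.H721R2.Ivrii Pool.Agent.TH746

namespace Pool.Agent.V7H61.IV

/-- If all the higher power sums vanish, so does the first one. -/
theorem vander (I : Finset ℕ) (a s : ℕ → ℝ) (hs : ∀ k ∈ I, 0 < s k)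
    (h : ∀ j : ℕ, 1 ≤ j → ∑ k ∈ I, a k * s k ^ ((1 : ℝ) / 2 - j) = 0) :
    ∑ k ∈ I, a k * s k ^ ((1 : ℝ) / 2) = 0 := by
  classical
  obtain ⟨V, hV⟩ : ∃ V : Finset ℝ, V = I.image (fun k => (s k)⁻¹) := ⟨_, rfl⟩
  obtain ⟨p, hp⟩ : ∃ p : Polynomial ℝ, ∀ v ∈ V, p.eval v = v⁻¹ := by
    refine ⟨Lagrange.interpolate V id (fun v => v⁻¹), fun v hv => ?_⟩
    have h1 := Lagrange.eval_interpolate_at_node (s := V) (v := id) (fun v : ℝ => v⁻¹)
      (fun x _ y _ hxy => hxy) hv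
    simpa using h1
  have h1 : ∀ k ∈ I, a k * s k ^ ((1 : ℝ) / 2) =
      ∑ m ∈ Finset.range (p.natDegree + 1),
        p.coeff m * (a k * s k ^ ((1 : ℝ) / 2 - ((m + 1 : ℕ) : ℝ))) := by
    intro k hk
    have hsk := hs k hk
    have h2 : p.eval (s k)⁻¹ = s k := by
      rw [hp _ (by rw [hV]; exact Finset.mem_image_of_mem _ hk), inv_inv]
    have h3 : ∀ m : ℕ, s k ^ ((1 : ℝ) / 2 - ((m + 1 : ℕ) : ℝ)) =
        s k ^ ((1 : ℝ) / 2 - 1) * (s k)⁻¹ ^ m := by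
      intro m
      rw [← Real.rpow_natCast, ← Real.rpow_neg_one, ← Real.rpow_mul hsk.le, ← Real.rpow_add hsk]
      congr 1
      push_cast
      ring
    have h4 : s k ^ ((1 : ℝ) / 2) = s k ^ ((1 : ℝ) / 2 - 1) * s k := by
      nth_rewrite 3 [← Real.rpow_one (s k)]
      rw [← Real.rpow_add hsk]
      congr 1
      ring
    rw [h4]
    nth_rewrite 2 [← h2]
    rw [Polynomial.eval_eq_sum_range, Finset.mul_sum, Finset.mul_sum]
    refine Finset.sum_congr rfl fun m _ => ?_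
    rw [h3 m]
    ring
  rw [Finset.sum_congr rfl h1, Finset.sum_comm]
  refine Finset.sum_eq_zero fun m _ => ?_
  rw [← Finset.mul_sum, h (m + 1) (by omega), mul_zero]

/-- The identity as a projection. -/
noncomputable def idProj (E : Type*) [NormedAddCommGroup E] [InnerProductSpace ℝ E] : Proj E where
  P := ContinuousLinearMap.id ℝ E
  idem _ := rfl
  symm _ _ := rfl

variable {E Z : Type*} [NormedAddCommGroup E] [InnerProductSpace ℝ E]
  [NormedAddCommGroup Z] [NormedSpace ℝ Z]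

/-- The trajectories of the family which come back to the initial point modulo `h` after `c` bounces,
with all mirrors in between radial or tangential with respect to `o`. -/
def PA (C : Chn E Z) (o : E) (h : E ≃ᵃⁱ[ℝ] E) (c : ℕ) : Set Z :=
  {z | z ∈ C.U ∧ C.x c z = h (C.x 0 z) ∧ ∀ k, 1 ≤ k → k < c →
    ((∃ l : ℝ, C.x k z - o = l • (C.e k z - C.e (k - 1) z)) ∨
      ⟪C.x k z - o, C.e k z - C.e (k - 1) z⟫_ℝ = 0)}

theorem PA_sub {C : Chn E Z} {o : E} {h : E ≃ᵃⁱ[ℝ] E} {c : ℕ} {z : Z} (hz : z ∈ PA C o h c) :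
    z ∈ SA C (idProj E) h c := by
  refine ⟨hz.1, hz.2.1, fun k _ _ => Or.inr ?_⟩
  rw [Proj.compl_apply]
  change C.e k z - C.e (k - 1) z - (C.e k z - C.e (k - 1) z) = 0
  rw [sub_self]

/-- The square of the angular momentum. -/
noncomputable def tq (C : Chn E Z) (o : E) (z : Z) : ℝ :=
  ‖C.x 0 z - o‖ ^ 2 - ⟪C.x 0 z - o, C.e 0 z⟫_ℝ ^ 2

/-- The square of the radial velocity times the radius. -/
noncomputable def qq (C : Chn E Z) (o : E) (k : ℕ) (z : Z) : ℝ :=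
  ‖C.x k z - o‖ ^ 2 - tq C o z

/-- The coefficients. -/
noncomputable def af (P : Finset ℕ) (b : ℤ) (k : ℕ) : ℝ :=
  if k = 0 then (b : ℝ) else if k ∈ P then 2 else -2

/-- The power sums. -/
noncomputable def Sj (C : Chn E Z) (o : E) (I P : Finset ℕ) (b : ℤ) (j : ℕ) (z : Z) : ℝ :=
  ∑ k ∈ I, af P b k * qq C o k z ^ ((1 : ℝ) / 2 - j)

variable {C : Chn E Z} {o : E} {h : E ≃ᵃⁱ[ℝ] E} {c : ℕ}

/-- Conservation of the angular momentum. -/
theorem consv (hcN : c ≤ C.N) {z : Z} (hz : z ∈ PA C o h c) {k : ℕ} (hk : k < c) :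
    ‖C.x k z - o‖ ^ 2 - ⟪C.x k z - o, C.e k z⟫_ℝ ^ 2 = tq C o z ∧
    ‖C.x (k + 1) z - o‖ ^ 2 - ⟪C.x (k + 1) z - o, C.e k z⟫_ℝ ^ 2 = tq C o z := by
  have hmove : ∀ j, j < c → ‖C.x (j + 1) z - o‖ ^ 2 - ⟪C.x (j + 1) z - o, C.e j z⟫_ℝ ^ 2 =
      ‖C.x j z - o‖ ^ 2 - ⟪C.x j z - o, C.e j z⟫_ℝ ^ 2 := by
    intro j hj
    have h1 := C.step j (by omega) z
    have h2 : C.x (j + 1) z - o = (C.x j z - o) + C.L j z • C.e j z := by rw [h1]; abel
    have he := C.ee j (by omega) z hz.1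
    rw [h2, ← real_inner_self_eq_norm_sq, ← real_inner_self_eq_norm_sq]
    simp only [inner_add_left, inner_add_right, real_inner_smul_left, inner_smul_right, he,
      real_inner_comm (C.x j z - o) (C.e j z)]
    ring
  induction k with
  | zero => exact ⟨rfl, hmove 0 hk⟩
  | succ k ih =>
    have ih' := (ih (by omega)).2
    have h1 : ⟪C.x (k + 1) z - o, C.e (k + 1) z⟫_ℝ ^ 2 = ⟪C.x (k + 1) z - o, C.e k z⟫_ℝ ^ 2 := by
      rcases hz.2.2 (k + 1) (by omega) hk with ⟨l, hl⟩ | h0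
      · rw [Nat.add_sub_cancel] at hl
        have e1 := C.ee k (by omega) z hz.1
        have e2 := C.ee (k + 1) (by omega) z hz.1
        rw [hl, real_inner_smul_left, real_inner_smul_left, inner_sub_left, inner_sub_left, e1, e2,
          real_inner_comm (C.e k z) (C.e (k + 1) z)]
        ring
      · rw [Nat.add_sub_cancel, inner_sub_right, sub_eq_zero] at h0
        rw [h0]
    have h2 : ‖C.x (k + 1) z - o‖ ^ 2 - ⟪C.x (k + 1) z - o, C.e (k + 1) z⟫_ℝ ^ 2 = tq C o z := by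
      rw [h1]; exact ih'
    exact ⟨h2, (hmove (k + 1) hk).trans h2⟩

/-- The length as a telescoping sum. -/
theorem TL_tel (hcN : c ≤ C.N) {z : Z} (hz : z ∈ C.U) (hc : 1 ≤ c) :
    TL C c z = ⟪C.x c z - o, C.e (c - 1) z⟫_ℝ - ⟪C.x 0 z - o, C.e 0 z⟫_ℝ +
      ∑ k ∈ Finset.Ico 1 c, (⟪C.x k z - o, C.e (k - 1) z⟫_ℝ - ⟪C.x k z - o, C.e k z⟫_ℝ) := by
  have hL : ∀ j, j < c → C.L j z = ⟪C.x (j + 1) z - o, C.e j z⟫_ℝ - ⟪C.x j z - o, C.e j z⟫_ℝ := by
    intro j hj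
    have h1 := C.step j (by omega) z
    have h2 : C.x (j + 1) z - o = (C.x j z - o) + C.L j z • C.e j z := by rw [h1]; abel
    rw [h2, inner_add_left, real_inner_smul_left, C.ee j (by omega) z hz]
    ring
  have key : ∀ m, m + 1 ≤ c → ∑ k ∈ Finset.range (m + 1), C.L k z =
      ⟪C.x (m + 1) z - o, C.e m z⟫_ℝ - ⟪C.x 0 z - o, C.e 0 z⟫_ℝ +
      ∑ k ∈ Finset.Ico 1 (m + 1), (⟪C.x k z - o, C.e (k - 1) z⟫_ℝ -
        ⟪C.x k z - o, C.e k z⟫_ℝ) := by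
    intro m
    induction m with
    | zero =>
      intro _
      rw [Finset.sum_range_one, hL 0 (by omega)]
      simp
    | succ m ih =>
      intro hm
      rw [Finset.sum_range_succ, ih (by omega), hL (m + 1) (by omega),
        Finset.sum_Ico_succ_top (show 1 ≤ m + 1 by omega), Nat.add_sub_cancel]
      ring
  unfold TL
  obtain ⟨m, rfl⟩ : ∃ m, c = m + 1 := ⟨c - 1, by omega⟩
  rw [key m le_rfl, Nat.add_sub_cancel]

/-- One of the pieces of the set of the loops. -/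
def St (C : Chn E Z) (o : E) (h : E ≃ᵃⁱ[ℝ] E) (c : ℕ) (I P : Finset ℕ) (b : ℤ) (m : ℕ) : Set Z :=
  {z | z ∈ PA C o h c ∧ tq C o z ≠ 0 ∧ ⟪C.x 0 z - o, C.e 0 z⟫_ℝ ≠ 0 ∧ (∀ k ∈ I, 0 < qq C o k z) ∧
    (∀ k ∈ I, k ≠ 0 → k < c ∧ ∃ l : ℝ, C.x k z - o = l • (C.e k z - C.e (k - 1) z)) ∧
    TL C c z = Sj C o I P b 0 z ∧ (∀ j : ℕ, 1 ≤ j → j ≤ m → Sj C o I P b j z = 0) ∧
    Sj C o I P b (m + 1) z ≠ 0}

theorem tq_cd (hC : IsC1 C) {z : Z} (hz : z ∈ C.U) : ContDiffAt ℝ 1 (tq C o) z := by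
  have h0 := hC 0 (Nat.zero_le _) z hz
  have h1 : ContDiffAt ℝ 1 (fun z => C.x 0 z - o) z := h0.1.sub contDiffAt_const
  exact (h1.norm_sq ℝ).sub ((h1.inner ℝ h0.2).pow 2)

theorem qq_cd (hC : IsC1 C) {z : Z} (hz : z ∈ C.U) {k : ℕ} (hk : k ≤ C.N) :
    ContDiffAt ℝ 1 (qq C o k) z := by
  have h0 := hC k hk z hz
  have h1 : ContDiffAt ℝ 1 (fun z => C.x k z - o) z := h0.1.sub contDiffAt_const
  exact (h1.norm_sq ℝ).sub (tq_cd hC hz)

theorem Sj_cd (hC : IsC1 C) {z : Z} (hz : z ∈ C.U) {I P : Finset ℕ} {b : ℤ} (j : ℕ)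
    (hI : ∀ k ∈ I, k ≤ C.N ∧ 0 < qq C o k z) : ContDiffAt ℝ 1 (Sj C o I P b j) z := by
  unfold Sj
  refine ContDiffAt.sum fun k hk => ?_
  exact contDiffAt_const.mul ((qq_cd hC hz (hI k hk).1).rpow_const_of_ne (hI k hk).2.ne')

/-- The derivative of the square of the angular momentum. -/
theorem tq_deriv (hC : IsC1 C) {z : Z} (hz : z ∈ C.U) {ζ : Z}
    (hζ : fderiv ℝ (C.x 0) z ζ = 0) :
    HasDerivAt (fun t : ℝ => tq C o (z + t • ζ))
      (-(2 * ⟪C.x 0 z - o, C.e 0 z⟫_ℝ * ⟪C.x 0 z - o, fderiv ℝ (C.e 0) z ζ⟫_ℝ)) 0 := by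
  have h0 := hC 0 (Nat.zero_le _) z hz
  have h1 := line_deriv (h0.1.differentiableAt one_ne_zero) ζ
  have h2 := line_deriv (h0.2.differentiableAt one_ne_zero) ζ
  rw [hζ] at h1
  have h3 : HasDerivAt (fun t : ℝ => C.x 0 (z + t • ζ) - o) 0 0 := h1.sub_const o
  have h4 := (h3.norm_sq).sub ((h3.inner ℝ h2).pow 2)
  have heq : 2 * ⟪C.x 0 (z + (0 : ℝ) • ζ) - o, (0 : E)⟫_ℝ -
      ((2 : ℕ) : ℝ) * ⟪C.x 0 (z + (0 : ℝ) • ζ) - o, C.e 0 (z + (0 : ℝ) • ζ)⟫_ℝ ^ (2 - 1) *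
        (⟪C.x 0 (z + (0 : ℝ) • ζ) - o, fderiv ℝ (C.e 0) z ζ⟫_ℝ +
          ⟪(0 : E), C.e 0 (z + (0 : ℝ) • ζ)⟫_ℝ) =
      -(2 * ⟪C.x 0 z - o, C.e 0 z⟫_ℝ * ⟪C.x 0 z - o, fderiv ℝ (C.e 0) z ζ⟫_ℝ) := by
    rw [zero_smul, add_zero, inner_zero_right, inner_zero_left]
    norm_num
  rw [heq] at h4
  exact h4

/-- The derivative of the power sums. -/
theorem Sj_deriv (hC : IsC1 C) (hcN : c ≤ C.N) {z : Z} (hz : z ∈ PA C o h c) {I P : Finset ℕ}
    {b : ℤ} (j : ℕ) (hI : ∀ k ∈ I, k ≠ 0 → k < c ∧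
      ∃ l : ℝ, C.x k z - o = l • (C.e k z - C.e (k - 1) z))
    (hpos : ∀ k ∈ I, 0 < qq C o k z) {ζ : Z} (hζ : fderiv ℝ (C.x 0) z ζ = 0) {T : ℝ}
    (hT : HasDerivAt (fun t : ℝ => tq C o (z + t • ζ)) T 0) :
    HasDerivAt (fun t : ℝ => Sj C o I P b j (z + t • ζ))
      (-((1 : ℝ) / 2 - j) * T * Sj C o I P b (j + 1) z) 0 := by
  have hq : ∀ k ∈ I, HasDerivAt (fun t : ℝ => qq C o k (z + t • ζ)) (-T) 0 := by
    intro k hk
    have hkN : k ≤ C.N := by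
      rcases eq_or_ne k 0 with rfl | h0
      · exact Nat.zero_le _
      · have := (hI k hk h0).1; omega
    have h1 := line_deriv ((hC k hkN z hz.1).1.differentiableAt one_ne_zero) ζ
    have h3 : HasDerivAt (fun t : ℝ => C.x k (z + t • ζ) - o) (fderiv ℝ (C.x k) z ζ) 0 :=
      h1.sub_const o
    have h4 := h3.norm_sq.sub hT
    have h5 : ⟪C.x k z - o, fderiv ℝ (C.x k) z ζ⟫_ℝ = 0 := by
      rcases eq_or_ne k 0 with rfl | h0
      · rw [hζ, inner_zero_right]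
      · obtain ⟨hkc, l, hl⟩ := hI k hk h0
        have h6 := e_sub_par hcN z hkc (by omega)
        have h7 := C.tan k (by omega) z hz.1 ζ
        rw [hl, ← neg_sub (C.e (k - 1) z), h6, real_inner_smul_left, inner_neg_left,
          real_inner_smul_left, h7]
        ring
    have heq : 2 * ⟪C.x k (z + (0 : ℝ) • ζ) - o, fderiv ℝ (C.x k) z ζ⟫_ℝ - T = -T := by
      rw [zero_smul, add_zero, h5]; ring
    rw [heq] at h4
    exact h4
  have h1 : HasDerivAt (fun t : ℝ => Sj C o I P b j (z + t • ζ))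
      (∑ k ∈ I, af P b k * (-T * ((1 : ℝ) / 2 - j) *
        qq C o k (z + (0 : ℝ) • ζ) ^ ((1 : ℝ) / 2 - j - 1))) 0 := by
    unfold Sj
    refine HasDerivAt.fun_sum fun k hk => ?_
    refine HasDerivAt.const_mul (af P b k) ?_
    refine (hq k hk).rpow_const (Or.inl ?_)
    rw [zero_smul, add_zero]
    exact (hpos k hk).ne'
  have heq : (∑ k ∈ I, af P b k * (-T * ((1 : ℝ) / 2 - j) *
        qq C o k (z + (0 : ℝ) • ζ) ^ ((1 : ℝ) / 2 - j - 1))) =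
      -((1 : ℝ) / 2 - j) * T * Sj C o I P b (j + 1) z := by
    unfold Sj
    rw [Finset.mul_sum]
    refine Finset.sum_congr rfl fun k _ => ?_
    rw [zero_smul, add_zero]
    have : ((1 : ℝ) / 2 - j - 1) = (1 : ℝ) / 2 - ((j + 1 : ℕ) : ℝ) := by push_cast; ring
    rw [this]
    ring
  rw [heq] at h1
  exact h1

/-- Each of the pieces is locally contained in a hypersurface. -/
theorem St_dim [FiniteDimensional ℝ Z] {d' : ℕ} (hd : Module.finrank ℝ Z = d' + 1) (hC : IsC1 C)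
    (hc : 1 ≤ c) (hcN : c ≤ C.N) (I P : Finset ℕ) (b : ℤ) (m : ℕ) :
    dimH (St C o h c I P b m) ≤ (d' : ℝ≥0∞) := by
  refine dim_hyper hd _ fun z hz => ?_
  obtain ⟨hzA, ht, hτ, hpos, hI, hTL, hS, hSm⟩ := hz
  have hIN : ∀ k ∈ I, k ≤ C.N ∧ 0 < qq C o k z := by
    intro k hk
    refine ⟨?_, hpos k hk⟩
    rcases eq_or_ne k 0 with rfl | h0
    · exact Nat.zero_le _
    · have := (hI k hk h0).1; omega
  obtain ⟨δ, hδ⟩ : ∃ δ, δ = (C.x 0 z - o) - ⟪C.x 0 z - o, C.e 0 z⟫_ℝ • C.e 0 z := ⟨_, rfl⟩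
  have hee := C.ee 0 (by omega) z hzA.1
  have hδ1 : ⟪C.e 0 z, δ⟫_ℝ = 0 := by
    rw [hδ, inner_sub_right, inner_smul_right, hee, real_inner_comm]; ring
  have hδ2 : ⟪C.x 0 z - o, δ⟫_ℝ = tq C o z := by
    rw [hδ, inner_sub_right, inner_smul_right, real_inner_self_eq_norm_sq]
    unfold tq
    ring
  obtain ⟨ζ, hζ1, hζ2⟩ := C.surj z hzA.1 0 δ (inner_zero_right _) hδ1
  have hT := tq_deriv (o := o) hC hzA.1 hζ1
  rw [hζ2, hδ2] at hT
  obtain ⟨T, hTe⟩ : ∃ T, T = -(2 * ⟪C.x 0 z - o, C.e 0 z⟫_ℝ * tq C o z) := ⟨_, rfl⟩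
  rw [← hTe] at hT
  have hT0 : T ≠ 0 := by
    rw [hTe]
    exact neg_ne_zero.2 (mul_ne_zero (mul_ne_zero two_ne_zero hτ) ht)
  have hzS := PA_sub hzA
  have hId : ∀ v : E, (idProj E).P v = v := fun _ => rfl
  have hne : (idProj E).P (C.e 0 z) ≠ 0 := by
    rw [hId]
    intro h0
    rw [h0, inner_zero_left] at hee
    exact zero_ne_one hee
  rcases Nat.eq_zero_or_pos m with rfl | hm
  · refine ⟨fun z => SP C (idProj E) h c z - Sj C o I P b 0 z, ?_, ?_, ?_⟩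
    · exact (SP_cd h _ hC hcN hzA.1 (fun k hk => P_ne hcN hzS hne hk)).sub (Sj_cd hC hzA.1 0 hIN)
    · intro hcon
      have h1 := SP_cd h _ hC hcN hzA.1 (fun k hk => P_ne hcN hzS hne hk)
      have h2 := line_deriv (h1.differentiableAt one_ne_zero) ζ
      rw [SP_deriv hC hc hcN hzS hne hζ1] at h2
      have h3 := h2.sub (Sj_deriv hC hcN hzA 0 hI hpos hζ1 hT (P := P) (b := b))
      have h4 := line_fderiv ((h1.sub (Sj_cd (P := P) (b := b) hC hzA.1 0 hIN)).differentiableAt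
        one_ne_zero) ζ h3
      rw [hcon, _root_.zero_apply] at h4
      have h6 : (0 : ℝ) = (1 / 2) * T * Sj C o I P b (0 + 1) z := by
        rw [h4]; push_cast; ring
      exact (mul_ne_zero (mul_ne_zero (by norm_num) hT0) hSm) h6.symm
    · refine Eventually.of_forall fun z' hz' => ?_
      change SP C (idProj E) h c z' - Sj C o I P b 0 z' = 0
      rw [SP_eq hcN (PA_sub hz'.1), hId, e_norm hcN hz'.1.1 (by omega), one_mul,
        hz'.2.2.2.2.2.1, sub_self]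
  · refine ⟨Sj C o I P b m, Sj_cd hC hzA.1 m hIN, ?_, ?_⟩
    · intro hcon
      have h3 := Sj_deriv hC hcN hzA m hI hpos hζ1 hT (P := P) (b := b)
      have h4 := line_fderiv ((Sj_cd (P := P) (b := b) hC hzA.1 m hIN).differentiableAt
        one_ne_zero) ζ h3
      rw [hcon, _root_.zero_apply] at h4
      have h5 : -((1 : ℝ) / 2 - m) ≠ 0 := by
        have : (1 : ℝ) ≤ m := by exact_mod_cast hm
        intro h0
        linarith
      exact (mul_ne_zero (mul_ne_zero h5 hT0) hSm) h4.symm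
    · exact Eventually.of_forall fun z' hz' => hz'.2.2.2.2.2.2.1 m hm le_rfl

end Pool.Agent.V7H61.IV
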