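import Pool.Agent.V7H61.IV.Polar

/-!
The loops with radial or tangential mirrors form a set of codimension one.
-/

set_option autoImplicit false

open MeasureTheory Set Filter Topology
open scoped InnerProductSpace ENNReal
open Pool.Agent.H721R2.Quart Pool.Agent.H721R2.Ivrii Pool.Agent.TH746

namespace Pool.Agent.V7H61.IV

variable {E Z : Type*} [NormedAddCommGroup E] [InnerProductSpace ℝ E]
  [NormedAddCommGroup Z] [NormedSpace ℝ Z]

variable {C : Chn E Z} {o : E} {h : E ≃ᵃⁱ[ℝ] E} {c : ℕ}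

theorem exists_perp [FiniteDimensional ℝ E] (hE : 2 ≤ Module.finrank ℝ E) (v : E) :
    ∃ f : E, f ≠ 0 ∧ ⟪v, f⟫_ℝ = 0 := by
  have h1 : Module.finrank ℝ (ℝ ∙ v) ≤ 1 := by
    rcases eq_or_ne v 0 with rfl | hv
    · rw [Submodule.span_zero_singleton, finrank_bot]; exact Nat.zero_le _
    · rw [finrank_span_singleton hv]
  have h2 := Submodule.finrank_add_finrank_orthogonal (ℝ ∙ v)
  have h3 : (ℝ ∙ v)ᗮ ≠ ⊥ := by
    intro h0
    rw [h0, finrank_bot] at h2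
    omega
  obtain ⟨f, hf, hf0⟩ := Submodule.exists_mem_ne_zero_of_ne_bot h3
  exact ⟨f, hf0, Submodule.mem_orthogonal_singleton_iff_inner_right.1 hf⟩

/-- The trajectories which start at the point `o`. -/
theorem D1_dim [FiniteDimensional ℝ E] (hE : 2 ≤ Module.finrank ℝ E) [FiniteDimensional ℝ Z]
    {d' : ℕ} (hd : Module.finrank ℝ Z = d' + 1) (hC : IsC1 C) :
    dimH {z | z ∈ C.U ∧ C.x 0 z = o} ≤ (d' : ℝ≥0∞) := by
  refine dim_hyper hd _ fun z hz => ?_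
  obtain ⟨f, hf0, hf⟩ := exists_perp hE (C.n 0 z)
  have x0 := (hC 0 (Nat.zero_le _) z hz.1).1
  have h1 : ContDiffAt ℝ 1 (fun z => ⟪C.x 0 z - o, f⟫_ℝ) z :=
    (x0.sub contDiffAt_const).inner ℝ contDiffAt_const
  refine ⟨_, h1, ?_, Eventually.of_forall fun z' hz' => ?_⟩
  · obtain ⟨ζ, hζ1, -⟩ := C.surj z hz.1 f 0 hf (inner_zero_right _)
    have hX := line_deriv (x0.differentiableAt one_ne_zero) ζ
    rw [hζ1] at hX
    have h2 := (hX.sub_const o).inner ℝ (hasDerivAt_const (0 : ℝ) f)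
    intro hcon
    have h3 := line_fderiv (h1.differentiableAt one_ne_zero) ζ h2
    rw [hcon, _root_.zero_apply, inner_zero_right, zero_add,
      real_inner_self_eq_norm_sq] at h3
    exact hf0 (norm_eq_zero.1 (pow_eq_zero_iff two_ne_zero |>.1 h3.symm))
  · rw [hz'.2, sub_self, inner_zero_left]

/-- The trajectories which start orthogonally to the radius. -/
theorem D2_dim [FiniteDimensional ℝ Z] {d' : ℕ} (hd : Module.finrank ℝ Z = d' + 1) (hC : IsC1 C) :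
    dimH {z | z ∈ C.U ∧ C.x 0 z ≠ o ∧ ⟪C.x 0 z - o, C.e 0 z⟫_ℝ = 0} ≤ (d' : ℝ≥0∞) := by
  refine dim_hyper hd _ fun z hz => ?_
  have x0 := (hC 0 (Nat.zero_le _) z hz.1).1
  have e0 := (hC 0 (Nat.zero_le _) z hz.1).2
  have h1 : ContDiffAt ℝ 1 (fun z => ⟪C.x 0 z - o, C.e 0 z⟫_ℝ) z :=
    (x0.sub contDiffAt_const).inner ℝ e0
  refine ⟨_, h1, ?_, Eventually.of_forall fun z' hz' => hz'.2.2⟩
  obtain ⟨ζ, hζ1, hζ2⟩ := C.surj z hz.1 0 (C.x 0 z - o) (inner_zero_right _)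
    (by rw [real_inner_comm]; exact hz.2.2)
  have hX := line_deriv (x0.differentiableAt one_ne_zero) ζ
  have hE := line_deriv (e0.differentiableAt one_ne_zero) ζ
  rw [hζ1] at hX
  rw [hζ2] at hE
  have h2 := (hX.sub_const o).inner ℝ hE
  intro hcon
  have h3 := line_fderiv (h1.differentiableAt one_ne_zero) ζ h2
  rw [hcon, _root_.zero_apply, inner_zero_left, add_zero, zero_smul, add_zero,
    real_inner_self_eq_norm_sq] at h3
  exact hz.2.1 (sub_eq_zero.1 (norm_eq_zero.1 (pow_eq_zero_iff two_ne_zero |>.1 h3.symm)))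

theorem norm_sub_proj (y e : E) (he : ⟪e, e⟫_ℝ = 1) :
    ‖y - ⟪y, e⟫_ℝ • e‖ ^ 2 = ‖y‖ ^ 2 - ⟪y, e⟫_ℝ ^ 2 := by
  rw [← real_inner_self_eq_norm_sq, ← real_inner_self_eq_norm_sq, inner_sub_left,
    inner_sub_right, inner_sub_right, real_inner_smul_left, real_inner_smul_left,
    inner_smul_right, inner_smul_right, he, real_inner_comm y e]
  ring

/-- The trajectories on a line through `o`. -/
theorem D3_dim [FiniteDimensional ℝ E] (hE : 2 ≤ Module.finrank ℝ E) [FiniteDimensional ℝ Z]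
    {d' : ℕ} (hd : Module.finrank ℝ Z = d' + 1) (hC : IsC1 C) (hN : 0 < C.N) :
    dimH {z | z ∈ C.U ∧ C.x 0 z ≠ o ∧ tq C o z = 0} ≤ (d' : ℝ≥0∞) := by
  have hpar : ∀ z ∈ C.U, tq C o z = 0 →
      C.x 0 z - o = ⟪C.x 0 z - o, C.e 0 z⟫_ℝ • C.e 0 z := by
    intro z hz h0
    have he := C.ee 0 hN z hz
    have h1 : ‖(C.x 0 z - o) - ⟪C.x 0 z - o, C.e 0 z⟫_ℝ • C.e 0 z‖ ^ 2 = tq C o z :=
      norm_sub_proj _ _ he
    rw [h0] at h1
    exact sub_eq_zero.1 (norm_eq_zero.1 (pow_eq_zero_iff two_ne_zero |>.1 h1))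
  refine dim_hyper hd _ fun z hz => ?_
  obtain ⟨f, hf0, hf⟩ := exists_perp hE (C.e 0 z)
  have x0 := (hC 0 (Nat.zero_le _) z hz.1).1
  have e0 := (hC 0 (Nat.zero_le _) z hz.1).2
  have y0 : ContDiffAt ℝ 1 (fun z => C.x 0 z - o) z := x0.sub contDiffAt_const
  have h1 : ContDiffAt ℝ 1 (fun z => ‖C.x 0 z - o‖ ^ 2 * ⟪C.e 0 z, f⟫_ℝ -
      ⟪C.x 0 z - o, C.e 0 z⟫_ℝ * ⟪C.x 0 z - o, f⟫_ℝ) z :=
    ((y0.norm_sq ℝ).mul (e0.inner ℝ contDiffAt_const)).sub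
      ((y0.inner ℝ e0).mul (y0.inner ℝ contDiffAt_const))
  refine ⟨_, h1, ?_, Eventually.of_forall fun z' hz' => ?_⟩
  · obtain ⟨ζ, hζ1, hζ2⟩ := C.surj z hz.1 0 f (inner_zero_right _) hf
    have hX := (line_deriv (x0.differentiableAt one_ne_zero) ζ).sub_const o
    have hE := line_deriv (e0.differentiableAt one_ne_zero) ζ
    rw [hζ1] at hX
    rw [hζ2] at hE
    have h2 := (hX.norm_sq.mul (hE.inner ℝ (hasDerivAt_const (0 : ℝ) f))).sub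
      ((hX.inner ℝ hE).mul (hX.inner ℝ (hasDerivAt_const (0 : ℝ) f)))
    intro hcon
    have h3 := line_fderiv (h1.differentiableAt one_ne_zero) ζ h2
    rw [hcon, _root_.zero_apply] at h3
    have h4 : ⟪C.x 0 z - o, f⟫_ℝ = 0 := by
      rw [hpar z hz.1 hz.2.2, real_inner_smul_left, hf, mul_zero]
    simp only [zero_smul, add_zero, inner_zero_right, inner_zero_left, mul_zero, zero_mul, zero_add,
      h4, sub_zero] at h3
    have h5 : ‖C.x 0 z - o‖ ^ 2 * ⟪f, f⟫_ℝ ≠ 0 := by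
      rw [real_inner_self_eq_norm_sq]
      exact mul_ne_zero (pow_ne_zero 2 (norm_ne_zero_iff.2 (sub_ne_zero.2 hz.2.1)))
        (pow_ne_zero 2 (norm_ne_zero_iff.2 hf0))
    exact h5 h3.symm
  · have h4 := hpar z' hz'.1 hz'.2.2
    have h5 : ⟪C.x 0 z' - o, f⟫_ℝ = ⟪C.x 0 z' - o, C.e 0 z'⟫_ℝ * ⟪C.e 0 z', f⟫_ℝ := by
      nth_rewrite 1 [h4]
      rw [real_inner_smul_left]
    have h6 := hz'.2.2
    unfold tq at h6
    rw [h5]
    linear_combination ⟪C.e 0 z', f⟫_ℝ * h6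

theorem sgn_abs (x : ℝ) (hx : x ≠ 0) : ∃ b : ℤ, (b : ℝ) * |x| = x := by
  rcases lt_or_gt_of_ne hx with h | h
  · exact ⟨-1, by rw [abs_of_neg h]; push_cast; ring⟩
  · exact ⟨1, by rw [abs_of_pos h]; push_cast; ring⟩

/-- The main part of the set of loops is covered by the pieces. -/
theorem St_cover (hc : 1 ≤ c) (hcN : c ≤ C.N) (ho : h o = o) {z : Z} (hz : z ∈ PA C o h c)
    (ht : tq C o z ≠ 0) (hτ : ⟪C.x 0 z - o, C.e 0 z⟫_ℝ ≠ 0) :
    ∃ (I P : Finset ℕ) (b : ℤ) (m : ℕ), z ∈ St C o h c I P b m := by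
  classical
  obtain ⟨I0, hI0⟩ : ∃ I0 : Finset ℕ, I0 = (Finset.Ico 1 c).filter
    (fun k => ⟪C.x k z - o, C.e k z - C.e (k - 1) z⟫_ℝ ≠ 0) := ⟨_, rfl⟩
  have hmem : ∀ k, k ∈ I0 ↔ (1 ≤ k ∧ k < c) ∧ ⟪C.x k z - o, C.e k z - C.e (k - 1) z⟫_ℝ ≠ 0 := by
    intro k
    rw [hI0, Finset.mem_filter, Finset.mem_Ico]
  have h0I : 0 ∉ I0 := by
    intro h0
    have := ((hmem 0).1 h0).1.1
    omega
  obtain ⟨P, hP⟩ : ∃ P : Finset ℕ, P = I0.filter (fun k => 0 < ⟪C.x k z - o, C.e (k - 1) z⟫_ℝ) :=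
    ⟨_, rfl⟩
  have hR : ∀ k ∈ I0, (∃ l : ℝ, C.x k z - o = l • (C.e k z - C.e (k - 1) z)) ∧
      ⟪C.x k z - o, C.e k z⟫_ℝ = -⟪C.x k z - o, C.e (k - 1) z⟫_ℝ ∧
      ⟪C.x k z - o, C.e (k - 1) z⟫_ℝ ≠ 0 := by
    intro k hk
    obtain ⟨⟨hk1, hk2⟩, hk3⟩ := (hmem k).1 hk
    have h1 : ∃ l : ℝ, C.x k z - o = l • (C.e k z - C.e (k - 1) z) := by
      rcases hz.2.2 k hk1 hk2 with h1 | h1
      · exact h1
      · exact absurd h1 hk3
    have h2 : ⟪C.x k z - o, C.e k z⟫_ℝ = -⟪C.x k z - o, C.e (k - 1) z⟫_ℝ := by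
      obtain ⟨l, hl⟩ := h1
      have e1 := C.ee (k - 1) (by omega) z hz.1
      have e2 := C.ee k (by omega) z hz.1
      rw [hl, real_inner_smul_left, real_inner_smul_left, inner_sub_left, inner_sub_left, e1, e2,
        real_inner_comm (C.e (k - 1) z) (C.e k z)]
      ring
    refine ⟨h1, h2, fun h3 => hk3 ?_⟩
    rw [inner_sub_right, h2, h3]
    simp
  have hq : ∀ k, 1 ≤ k → k ≤ c → qq C o k z = ⟪C.x k z - o, C.e (k - 1) z⟫_ℝ ^ 2 := by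
    intro k hk1 hk2
    have h1 := (consv hcN hz (show k - 1 < c by omega)).2
    rw [Nat.sub_add_cancel hk1] at h1
    unfold qq
    rw [← h1]; ring
  have hq0 : qq C o 0 z = ⟪C.x 0 z - o, C.e 0 z⟫_ℝ ^ 2 := by
    unfold qq tq; ring
  have hend : |⟪C.x c z - o, C.e (c - 1) z⟫_ℝ| = |⟪C.x 0 z - o, C.e 0 z⟫_ℝ| := by
    have h1 := hq c hc le_rfl
    have h2 : ‖C.x c z - o‖ = ‖C.x 0 z - o‖ := by
      rw [hz.2.1]
      nth_rewrite 1 [← ho]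
      rw [← dist_eq_norm, h.dist_map, dist_eq_norm]
    unfold qq at h1 hq0
    rw [h2] at h1
    have h3 : ⟪C.x c z - o, C.e (c - 1) z⟫_ℝ ^ 2 = ⟪C.x 0 z - o, C.e 0 z⟫_ℝ ^ 2 := by
      rw [← h1, ← hq0]
    exact (sq_eq_sq_iff_abs_eq_abs _ _).1 h3
  have hend0 : ⟪C.x c z - o, C.e (c - 1) z⟫_ℝ ≠ 0 := by
    intro h0
    rw [h0, abs_zero] at hend
    exact hτ (abs_eq_zero.1 hend.symm)
  obtain ⟨b1, hb1⟩ := sgn_abs _ hend0
  obtain ⟨b0, hb0⟩ := sgn_abs _ hτ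
  obtain ⟨I, hI⟩ : ∃ I : Finset ℕ, I = insert 0 I0 := ⟨_, rfl⟩
  have hsq : ∀ x : ℝ, (x ^ 2) ^ ((1 : ℝ) / 2) = |x| := by
    intro x
    rw [← Real.sqrt_eq_rpow, Real.sqrt_sq_eq_abs]
  have hTL : TL C c z = Sj C o I P (b1 - b0) 0 z := by
    rw [TL_tel hcN hz.1 hc (o := o)]
    unfold Sj
    rw [hI, Finset.sum_insert h0I]
    have h1 : af P (b1 - b0) 0 * qq C o 0 z ^ ((1 : ℝ) / 2 - ((0 : ℕ) : ℝ)) =
        ⟪C.x c z - o, C.e (c - 1) z⟫_ℝ - ⟪C.x 0 z - o, C.e 0 z⟫_ℝ := by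
      unfold af
      rw [if_pos rfl, Nat.cast_zero, sub_zero, hq0, hsq]
      push_cast
      rw [sub_mul, hb0, ← hend, hb1]
    rw [h1]
    congr 1
    have h2 : ∑ k ∈ Finset.Ico 1 c, (⟪C.x k z - o, C.e (k - 1) z⟫_ℝ - ⟪C.x k z - o, C.e k z⟫_ℝ) =
        ∑ k ∈ I0, (⟪C.x k z - o, C.e (k - 1) z⟫_ℝ - ⟪C.x k z - o, C.e k z⟫_ℝ) := by
      rw [hI0]
      refine (Finset.sum_filter_of_ne
        (p := fun k => ⟪C.x k z - o, C.e k z - C.e (k - 1) z⟫_ℝ ≠ 0) fun k _ hne h0 => hne ?_).symm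
      rw [inner_sub_right, sub_eq_zero] at h0
      rw [h0, sub_self]
    rw [h2]
    refine Finset.sum_congr rfl fun k hk => ?_
    obtain ⟨⟨hk1, hk2⟩, -⟩ := (hmem k).1 hk
    obtain ⟨-, h3, h4⟩ := hR k hk
    unfold af
    rw [if_neg (by omega), Nat.cast_zero, sub_zero, hq k hk1 hk2.le, hsq, h3]
    by_cases h5 : 0 < ⟪C.x k z - o, C.e (k - 1) z⟫_ℝ
    · rw [if_pos (by rw [hP, Finset.mem_filter]; exact ⟨hk, h5⟩), abs_of_pos h5]
      ring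
    · rw [if_neg (by rw [hP, Finset.mem_filter]; exact fun h6 => h5 h6.2),
        abs_of_neg (lt_of_le_of_ne (not_lt.1 h5) h4)]
      ring
  have hpos : ∀ k ∈ I, 0 < qq C o k z := by
    intro k hk
    rw [hI, Finset.mem_insert] at hk
    rcases hk with rfl | hk
    · rw [hq0]; exact pow_pos_of_ne hτ
    · obtain ⟨⟨hk1, hk2⟩, -⟩ := (hmem k).1 hk
      rw [hq k hk1 hk2.le]
      exact pow_pos_of_ne (hR k hk).2.2
  have hex : ∃ j : ℕ, 1 ≤ j ∧ Sj C o I P (b1 - b0) j z ≠ 0 := by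
    by_contra hcon
    push Not at hcon
    have h1 := vander I (af P (b1 - b0)) (fun k => qq C o k z) hpos hcon
    have h2 : Sj C o I P (b1 - b0) 0 z = 0 := by
      unfold Sj
      rw [Nat.cast_zero, sub_zero]
      exact h1
    have h3 := TL_pos hc hcN hz.1
    rw [hTL, h2] at h3
    exact lt_irrefl _ h3
  obtain ⟨hj1, hj2⟩ := Nat.find_spec hex
  refine ⟨I, P, b1 - b0, Nat.find hex - 1, hz, ht, hτ, hpos, ?_, hTL, ?_, ?_⟩
  · intro k hk hk0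
    rw [hI, Finset.mem_insert] at hk
    rcases hk with rfl | hk
    · exact absurd rfl hk0
    · exact ⟨((hmem k).1 hk).1.2, (hR k hk).1⟩
  · intro j h1 h2
    have h3 := Nat.find_min hex (m := j) (by omega)
    push Not at h3
    exact h3 h1
  · rw [Nat.sub_add_cancel hj1]
    exact hj2
where
  pow_pos_of_ne {x : ℝ} (hx : x ≠ 0) : 0 < x ^ 2 := by positivity

/-- **The loops with radial or tangential mirrors form a set of codimension one.** -/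
theorem PA_dim [FiniteDimensional ℝ E] (hE : 2 ≤ Module.finrank ℝ E) [FiniteDimensional ℝ Z]
    {d' : ℕ} (hd : Module.finrank ℝ Z = d' + 1) (hC : IsC1 C) (hc : 1 ≤ c) (hcN : c ≤ C.N)
    (ho : h o = o) : dimH (PA C o h c) ≤ (d' : ℝ≥0∞) := by
  have hcov : PA C o h c ⊆ ({z | z ∈ C.U ∧ C.x 0 z = o} ∪
      ({z | z ∈ C.U ∧ C.x 0 z ≠ o ∧ ⟪C.x 0 z - o, C.e 0 z⟫_ℝ = 0} ∪
        {z | z ∈ C.U ∧ C.x 0 z ≠ o ∧ tq C o z = 0})) ∪
      ⋃ (I : Finset ℕ), ⋃ (P : Finset ℕ), ⋃ (b : ℤ), ⋃ (m : ℕ), St C o h c I P b m := by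
    intro z hz
    by_cases h1 : C.x 0 z = o
    · exact Or.inl (Or.inl ⟨hz.1, h1⟩)
    by_cases h2 : ⟪C.x 0 z - o, C.e 0 z⟫_ℝ = 0
    · exact Or.inl (Or.inr (Or.inl ⟨hz.1, h1, h2⟩))
    by_cases h3 : tq C o z = 0
    · exact Or.inl (Or.inr (Or.inr ⟨hz.1, h1, h3⟩))
    right
    obtain ⟨I, P, b, m, h4⟩ := St_cover hc hcN ho hz h3 h2
    simp only [mem_iUnion]
    exact ⟨I, P, b, m, h4⟩
  refine (dimH_mono hcov).trans ?_
  rw [dimH_union, dimH_union, dimH_union]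
  refine max_le (max_le (D1_dim hE hd hC) (max_le (D2_dim hd hC)
    (D3_dim hE hd hC (by omega)))) ?_
  rw [dimH_iUnion]
  refine iSup_le fun I => ?_
  rw [dimH_iUnion]
  refine iSup_le fun P => ?_
  rw [dimH_iUnion]
  refine iSup_le fun b => ?_
  rw [dimH_iUnion]
  refine iSup_le fun m => ?_
  exact St_dim hd hC hc hcN I P b m

end Pool.Agent.V7H61.IV
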