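import Pool.Agent.V7H61.IV.Split2

/-!
Ivrii's conjecture for orbits with a loop all the mirrors of which are split, and for tables which
are locally finite unions of products.
-/

set_option autoImplicit false

open MeasureTheory Set Filter Topology
open scoped InnerProductSpace ENNReal
open Pool.Agent.H721R2.Quart Pool.Agent.H721R2.Ivrii Pool.Agent.TH746

namespace Pool.Agent.V7H61.IV

variable {E : Type*} [NormedAddCommGroup E] [InnerProductSpace ℝ E] [FiniteDimensional ℝ E]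

/-- The orthogonal projection onto a subspace. -/
noncomputable def ofSub (F : Submodule ℝ E) : Proj E where
  P := F.starProjection
  idem v := by
    have h := F.isIdempotentElem_starProjection
    exact congrArg (fun T : E →L[ℝ] E => T v) h
  symm v w := F.inner_starProjection_left_eq_right v w

theorem ofSub_mem {F : Submodule ℝ E} {v : E} (h : v ∈ F) : (ofSub F).compl.P v = 0 := by
  rw [Proj.compl_apply, sub_eq_zero]
  exact (F.starProjection_eq_self_iff.2 h).symm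

theorem ofSub_orth {F : Submodule ℝ E} {v : E} (h : v ∈ Fᗮ) : (ofSub F).P v = 0 :=
  F.starProjection_apply_eq_zero_iff.2 h

theorem shift_orbit {Ω : Set E} {g : E ≃ᵃⁱ[ℝ] E} {n : ℕ} {p u : ℕ → E}
    (h : OrbitMod Ω g n p u) (s : ℕ) :
    OrbitMod Ω g n (fun k => p (k + s)) (fun k => u (k + s)) := by
  refine ⟨h.pos, ?_, fun k => ?_, fun k => ?_, fun k => ?_⟩
  · have h1 := unit_steps h.step h.unit (0 + s)
    rw [real_inner_self_eq_norm_sq] at h1
    nlinarith [norm_nonneg (u (0 + s))]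
  · have := h.perp (k + s)
    rw [← this]; congr 1; ring
  · have := h.peru (k + s)
    rw [← this]; congr 1; ring
  · have := h.step (k + s)
    rw [show k + 1 + s = k + s + 1 by ring]
    exact this

/-- Pulling back by an isometry does not raise the dimension. -/
theorem pull_dim (g : E ≃ᵃⁱ[ℝ] E) (Z : Set (E × E)) :
    dimH {z : E × E | (g z.1, g.linearIsometryEquiv z.2) ∈ Z} ≤ dimH Z := by
  have hlip : LipschitzWith 1
      (fun z : E × E => (g.symm z.1, g.linearIsometryEquiv.symm z.2)) := by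
    refine LipschitzWith.of_dist_le_mul fun x y => ?_
    simp only [Prod.dist_eq, LinearIsometryEquiv.dist_map, AffineIsometryEquiv.dist_map,
      NNReal.coe_one, one_mul]
    exact le_rfl
  refine (dimH_mono ?_).trans (hlip.dimH_image_le Z)
  intro z hz
  exact ⟨_, hz, by simp⟩

/-- The orbits with a loop satisfying the condition `S` at the interior bounces. -/
def Lp (Ω : Set E) (g h : E ≃ᵃⁱ[ℝ] E) (n c l : ℕ) (S : E → Prop) : Set (E × E) :=
  (fun w : (ℕ → E) × (ℕ → E) => (w.1 l, w.2 l)) ''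
    {w | OrbitMod Ω g n w.1 w.2 ∧ w.1 c = h (w.1 0) ∧ ∀ k, 1 ≤ k → k < c → S (w.1 k)}

/-- The phase points whose orbit is periodic modulo `Γ` and has a loop modulo `Γ`, all the bounces
inside the loop satisfying `S`. -/
def LoopSet (Γ : Set (E ≃ᵃⁱ[ℝ] E)) (Ω : Set E) (S : E → Prop) : Set (E × E) :=
  {z | ∃ g ∈ Γ, ∃ (n : ℕ) (p u : ℕ → E), OrbitMod Ω g n p u ∧ (p 0, u 0) = z ∧
    ∃ a b : ℕ, a < n ∧ a < b ∧ b ≤ a + n ∧ (∃ h ∈ Γ, p b = h (p a)) ∧
      ∀ k, a < k → k < b → S (p k)}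

theorem loopSet_dim {r : ℝ≥0∞} {Γ : Set (E ≃ᵃⁱ[ℝ] E)} {Ω : Set E} {S : E → Prop}
    (hΓ : Γ.Countable)
    (H : ∀ g ∈ Γ, ∀ h ∈ Γ, ∀ n c l : ℕ, 1 ≤ c → c ≤ n → l ≤ n → dimH (Lp Ω g h n c l S) ≤ r) :
    dimH (LoopSet Γ Ω S) ≤ r := by
  refine (dimH_mono (t := ⋃ g ∈ Γ, ⋃ h ∈ Γ, ⋃ n : ℕ, ⋃ c : ℕ, ⋃ l : ℕ,
    ⋃ (_ : 1 ≤ c ∧ c ≤ n ∧ l ≤ n),
    {z : E × E | (g z.1, g.linearIsometryEquiv z.2) ∈ Lp Ω g h n c l S}) ?_).trans ?_
  · rintro z ⟨g, hgΓ, n, p, u, hor, rfl, a, b, han, hab, hbn, ⟨h, hhΓ, hpb⟩, ha⟩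
    refine mem_iUnion₂.2 ⟨g, hgΓ, mem_iUnion₂.2 ⟨h, hhΓ, mem_iUnion.2 ⟨n, mem_iUnion.2 ⟨b - a,
      mem_iUnion.2 ⟨n - a, mem_iUnion.2 ⟨⟨by omega, by omega, Nat.sub_le _ _⟩, ?_⟩⟩⟩⟩⟩⟩
    refine ⟨(fun k => p (k + a), fun k => u (k + a)), ⟨shift_orbit hor a, ?_, ?_⟩, ?_⟩
    · simp only
      rw [show b - a + a = b by omega, hpb, zero_add]
    · intro k hk1 hk
      exact ha (k + a) (by omega) (by omega)
    · simp only
      have h1 : n - a + a = 0 + n := by omega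
      rw [h1, hor.perp, hor.peru]
  · rw [dimH_bUnion hΓ]
    refine iSup₂_le fun g hg => ?_
    rw [dimH_bUnion hΓ]
    refine iSup₂_le fun h hh => ?_
    rw [dimH_iUnion]
    refine iSup_le fun n => ?_
    rw [dimH_iUnion]
    refine iSup_le fun c => ?_
    rw [dimH_iUnion]
    refine iSup_le fun l => ?_
    rw [dimH_iUnion]
    refine iSup_le fun hc => ?_
    exact (pull_dim g _).trans (H g hg h hh n c l hc.1 hc.2.1 hc.2.2)

/-- If the boundary of `Ω` is regular of class `C³` at `q`, then its normal at `q` is in the subspace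
`F` or orthogonal to `F`. -/
def SplitAt (F : Submodule ℝ E) (Ω : Set E) (q : E) : Prop :=
  ∀ f : E → ℝ, LocalDef Ω q f → (gradient f q ∈ F ∨ gradient f q ∈ Fᗮ)

theorem split_step {F : Submodule ℝ E} {Ω : Set E} {q v q' v' : E} (h : Step Ω q v q' v')
    (hs : SplitAt F Ω q') :
    (ofSub F).P (v' - v) = 0 ∨ (ofSub F).compl.P (v' - v) = 0 := by
  obtain ⟨t, -, -, -, f, hf, -, hv⟩ := h
  have h1 : v' - v = (-(2 * ⟪v, gradient f q'⟫_ℝ / ‖gradient f q'‖ ^ 2)) • gradient f q' := by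
    rw [hv, neg_smul]; abel
  rw [h1]
  rcases hs f hf with h2 | h2
  · right; rw [map_smul, ofSub_mem h2, smul_zero]
  · left; rw [map_smul, ofSub_orth h2, smul_zero]

theorem split_lp {d : ℕ} (hd : Module.finrank ℝ E = d + 2) {F : Submodule ℝ E} (hF0 : F ≠ ⊥)
    (hF1 : F ≠ ⊤) {Ω : Set E} {g h : E ≃ᵃⁱ[ℝ] E} (hg : g ⁻¹' Ω = Ω) {n c l : ℕ} (hc : 1 ≤ c)
    (hcn : c ≤ n) (hl : l ≤ n) :
    dimH (Lp Ω g h n c l (SplitAt F Ω)) ≤ ((2 * d + 1 : ℕ) : ℝ≥0∞) := by
  apply dim_of_locally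
  rintro ⟨p, u⟩ ⟨hor, -⟩
  obtain ⟨a, b, C, ha, hb, hCN, hCg, hlip, hC1, hev⟩ := exists_chn2 hg hor
  have hP : ∃ v, (ofSub F).P v ≠ 0 := by
    obtain ⟨v, hv, hv0⟩ := F.ne_bot_iff.1 hF0
    refine ⟨v, ?_⟩
    change F.starProjection v ≠ 0
    rw [F.starProjection_eq_self_iff.2 hv]
    exact hv0
  have hQ : ∃ v, (ofSub F).compl.P v ≠ 0 := by
    by_contra hcon
    push Not at hcon
    apply hF1
    rw [Submodule.eq_top_iff']
    intro v
    have h1 := hcon v
    rw [Proj.compl_apply, sub_eq_zero] at h1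
    exact F.starProjection_eq_self_iff.1 h1.symm
  have hfr : Module.finrank ℝ ((ℝ ∙ a)ᗮ × (ℝ ∙ b)ᗮ) = (2 * d + 1) + 1 := by
    have h1 := Submodule.finrank_add_finrank_orthogonal (ℝ ∙ a)
    have h2 := Submodule.finrank_add_finrank_orthogonal (ℝ ∙ b)
    rw [finrank_span_singleton ha, hd] at h1
    rw [finrank_span_singleton hb, hd] at h2
    rw [Module.finrank_prod]
    omega
  have hIs : IsC1 C := fun m hm z hz => hC1 m (by omega) z hz
  have hdim := SA_dim (C := C) (D := ofSub F) (h := h) (c := c) hfr hIs hc (by omega) hP hQ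
  obtain ⟨K, hK⟩ := hlip l hl
  refine ⟨(fun z => (C.x l z, C.e l z)) '' SA C (ofSub F) h c, ?_, ?_⟩
  · have hK' : LipschitzOnWith K (fun z => (C.x l z, C.e l z)) (SA C (ofSub F) h c) :=
      hK.mono fun z hz => hz.1
    exact hK'.dimH_image_le.trans hdim
  · filter_upwards [hev] with w hw hor'
    obtain ⟨z, hzU, hz, -, -⟩ := hw hor'.1
    refine ⟨z, ⟨hzU, ?_, ?_⟩, Prod.ext (hz l hl).1 (hz l hl).2⟩
    · rw [(hz c hcn).1, (hz 0 (Nat.zero_le _)).1]
      exact hor'.2.1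
    · intro k hk1 hk
      rw [(hz k (by omega)).2, (hz (k - 1) (by omega)).2]
      have h1 := hor'.1.step (k - 1)
      rw [Nat.sub_add_cancel hk1] at h1
      exact split_step h1 (hor'.2.2 k hk1 hk)

/-- **Orbits with a loop the mirrors of which are split.** -/
theorem split_dim {d : ℕ} (hd : Module.finrank ℝ E = d + 2) {F : Submodule ℝ E} (hF0 : F ≠ ⊥)
    (hF1 : F ≠ ⊤) {Γ : Set (E ≃ᵃⁱ[ℝ] E)} {Ω : Set E} (hΓ : Γ.Countable)
    (hinv : ∀ g ∈ Γ, g ⁻¹' Ω = Ω) :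
    dimH (LoopSet Γ Ω (SplitAt F Ω)) ≤ ((2 * d + 1 : ℕ) : ℝ≥0∞) :=
  loopSet_dim hΓ fun g hg _ _ _ _ _ h1 h2 h3 => split_lp hd hF0 hF1 (hinv g hg) h1 h2 h3

/-! ### Unions of products -/

/-- Near a point the sign of the defining function on rays. -/
theorem ray_in {Ω : Set E} {q : E} {f : E → ℝ} (hf : LocalDef Ω q f) {w : E}
    (hw : ⟪gradient f q, w⟫_ℝ < 0) : ∀ᶠ t in 𝓝[>] (0 : ℝ), q + t • w ∈ Ω := by
  have hd : DifferentiableAt ℝ f q := hf.smooth.differentiableAt (by norm_num)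
  have h1 := line_deriv hd w
  have h2 : fderiv ℝ f q w = ⟪gradient f q, w⟫_ℝ := by
    rw [inner_gradient_left]
  rw [h2] at h1
  have h3 : ∀ᶠ t in 𝓝[>] (0 : ℝ), f (q + t • w) < 0 := by
    have h4 := h1.hasDerivWithinAt (s := Ioi 0)
    rw [hasDerivWithinAt_iff_tendsto_slope' (by simp)] at h4
    have h5 := h4.eventually (gt_mem_nhds hw)
    filter_upwards [h5, self_mem_nhdsWithin] with t ht htpos
    rw [mem_Ioi] at htpos
    rw [slope_def_field] at ht
    simp only [zero_smul, add_zero, sub_zero, hf.zero] at ht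
    by_contra hcon
    push Not at hcon
    have := div_nonneg hcon htpos.le
    linarith
  have h6 : Tendsto (fun t : ℝ => q + t • w) (𝓝[>] 0) (𝓝 q) := by
    have h7 : Continuous fun t : ℝ => q + t • w := by fun_prop
    have h8 := (h7.tendsto 0).mono_left (nhdsWithin_le_nhds (s := Ioi 0))
    simpa using h8
  filter_upwards [h3, h6.eventually hf.mem] with t ht1 ht2
  exact ht2.2 ht1

theorem ray_out {Ω : Set E} {q : E} {f : E → ℝ} (hf : LocalDef Ω q f) {w : E}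
    (hw : 0 < ⟪gradient f q, w⟫_ℝ) : ∀ᶠ t in 𝓝[>] (0 : ℝ), q + t • w ∉ Ω := by
  have hd : DifferentiableAt ℝ f q := hf.smooth.differentiableAt (by norm_num)
  have h1 := line_deriv hd w
  have h2 : fderiv ℝ f q w = ⟪gradient f q, w⟫_ℝ := by
    rw [inner_gradient_left]
  rw [h2] at h1
  have h3 : ∀ᶠ t in 𝓝[>] (0 : ℝ), 0 < f (q + t • w) := by
    have h4 := h1.hasDerivWithinAt (s := Ioi 0)
    rw [hasDerivWithinAt_iff_tendsto_slope' (by simp)] at h4
    have h5 := h4.eventually (lt_mem_nhds hw)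
    filter_upwards [h5, self_mem_nhdsWithin] with t ht htpos
    rw [mem_Ioi] at htpos
    rw [slope_def_field] at ht
    simp only [zero_smul, add_zero, sub_zero, hf.zero] at ht
    by_contra hcon
    push Not at hcon
    have := div_nonpos_of_nonpos_of_nonneg hcon htpos.le
    linarith
  have h6 : Tendsto (fun t : ℝ => q + t • w) (𝓝[>] 0) (𝓝 q) := by
    have h7 : Continuous fun t : ℝ => q + t • w := by fun_prop
    have h8 := (h7.tendsto 0).mono_left (nhdsWithin_le_nhds (s := Ioi 0))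
    simpa using h8
  filter_upwards [h3, h6.eventually hf.mem] with t ht1 ht2 hcon
  have := ht2.1 hcon
  linarith

/-- Near `q` the table is a finite union of products of a subset of `F` and a subset of `Fᗮ`. -/
def ProdAt (F : Submodule ℝ E) (Ω : Set E) (q : E) : Prop :=
  ∃ (r : ℕ) (A B : Fin r → Set E), ∀ᶠ x in 𝓝 q,
    (x ∈ Ω ↔ ∃ i, F.starProjection x ∈ A i ∧ Fᗮ.starProjection x ∈ B i)

theorem splitAt_of_prodAt {F : Submodule ℝ E} {Ω : Set E} {q : E} (h : ProdAt F Ω q) :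
    SplitAt F Ω q := by
  intro f hf
  by_contra hcon
  push Not at hcon
  obtain ⟨hcon1, hcon2⟩ := hcon
  obtain ⟨r, A, B, hAB⟩ := h
  obtain ⟨ν, hν⟩ : ∃ ν, ν = gradient f q := ⟨_, rfl⟩
  obtain ⟨ν1, hν1⟩ : ∃ ν1, ν1 = F.starProjection ν := ⟨_, rfl⟩
  obtain ⟨ν2, hν2⟩ : ∃ ν2, ν2 = Fᗮ.starProjection ν := ⟨_, rfl⟩
  rw [← hν] at hcon1 hcon2
  have hm1 : ν1 ∈ F := by rw [hν1]; exact F.starProjection_apply_mem ν
  have hm2 : ν2 ∈ Fᗮ := by rw [hν2]; exact Fᗮ.starProjection_apply_mem ν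
  have hadd : ν1 + ν2 = ν := by
    rw [hν1, hν2]; exact F.starProjection_add_starProjection_orthogonal ν
  have h10 : ν1 ≠ 0 := by
    intro h0
    apply hcon2
    rw [← hadd, h0, zero_add]; exact hm2
  have h20 : ν2 ≠ 0 := by
    intro h0
    apply hcon1
    rw [← hadd, h0, add_zero]; exact hm1
  have h12 : ⟪ν1, ν2⟫_ℝ = 0 := Submodule.inner_right_of_mem_orthogonal hm1 hm2
  have hi1 : ⟪ν, ν1⟫_ℝ = ‖ν1‖ ^ 2 := by
    rw [← hadd, inner_add_left, real_inner_comm ν1 ν2, h12, real_inner_self_eq_norm_sq, add_zero]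
  have hi2 : ⟪ν, ν2⟫_ℝ = ‖ν2‖ ^ 2 := by
    rw [← hadd, inner_add_left, h12, real_inner_self_eq_norm_sq, zero_add]
  have hn1 : ‖ν1‖ ^ 2 ≠ 0 := pow_ne_zero 2 (norm_ne_zero_iff.2 h10)
  have hn2 : ‖ν2‖ ^ 2 ≠ 0 := pow_ne_zero 2 (norm_ne_zero_iff.2 h20)
  obtain ⟨w, hw⟩ : ∃ w : ℕ → ℕ → E, ∀ i j, w i j =
      ((i : ℝ) / ‖ν1‖ ^ 2) • ν1 - (((j : ℝ) + 1 / 2) / ‖ν2‖ ^ 2) • ν2 := ⟨_, fun _ _ => rfl⟩
  have hwi : ∀ i j, ⟪ν, w i j⟫_ℝ = (i : ℝ) - ((j : ℝ) + 1 / 2) := by
    intro i j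
    rw [hw, inner_sub_right, inner_smul_right, inner_smul_right, hi1, hi2]
    field_simp
  have hle : ∀ i j : ℕ, i ≤ j → ∀ᶠ t in 𝓝[>] (0 : ℝ), q + t • w i j ∈ Ω := by
    intro i j hij
    refine ray_in hf ?_
    rw [← hν, hwi]
    have : (i : ℝ) ≤ j := by exact_mod_cast hij
    linarith
  have hlt : ∀ i j : ℕ, j < i → ∀ᶠ t in 𝓝[>] (0 : ℝ), q + t • w i j ∉ Ω := by
    intro i j hij
    refine ray_out hf ?_
    rw [← hν, hwi]
    have : (j : ℝ) + 1 ≤ i := by exact_mod_cast hij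
    linarith
  have hnear : ∀ i j : ℕ, ∀ᶠ t in 𝓝[>] (0 : ℝ), (q + t • w i j ∈ Ω ↔
      ∃ m, F.starProjection (q + t • w i j) ∈ A m ∧ Fᗮ.starProjection (q + t • w i j) ∈ B m) := by
    intro i j
    have h7 : Continuous fun t : ℝ => q + t • w i j := by fun_prop
    have h8 := (h7.tendsto 0).mono_left (nhdsWithin_le_nhds (s := Ioi 0))
    have h9 : Tendsto (fun t : ℝ => q + t • w i j) (𝓝[>] 0) (𝓝 q) := by simpa using h8
    exact h9.eventually hAB
  have hall : ∀ᶠ t in 𝓝[>] (0 : ℝ), ∀ i ∈ Finset.range (r + 1), ∀ j ∈ Finset.range (r + 1),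
      (i ≤ j → q + t • w i j ∈ Ω) ∧ (j < i → q + t • w i j ∉ Ω) ∧ (q + t • w i j ∈ Ω ↔
      ∃ m, F.starProjection (q + t • w i j) ∈ A m ∧
        Fᗮ.starProjection (q + t • w i j) ∈ B m) := by
    rw [Filter.eventually_all_finset]
    intro i _
    rw [Filter.eventually_all_finset]
    intro j _
    refine Filter.Eventually.and ?_ (Filter.Eventually.and ?_ (hnear i j))
    · by_cases hij : i ≤ j
      · filter_upwards [hle i j hij] with t ht _
        exact ht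
      · exact Eventually.of_forall fun t hcon => absurd hcon hij
    · by_cases hij : j < i
      · filter_upwards [hlt i j hij] with t ht _
        exact ht
      · exact Eventually.of_forall fun t hcon => absurd hcon hij
  obtain ⟨t, ht⟩ := hall.exists
  -- the pigeonhole principle on the diagonal
  have hdiag : ∀ i : Fin (r + 1), ∃ m, F.starProjection (q + t • w i i) ∈ A m ∧
      Fᗮ.starProjection (q + t • w i i) ∈ B m := by
    intro i
    have h1 := ht i (Finset.mem_range.2 i.2) i (Finset.mem_range.2 i.2)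
    exact h1.2.2.1 (h1.1 le_rfl)
  choose φ hφ using hdiag
  obtain ⟨i, j, hij, hφij⟩ := Fintype.exists_ne_map_eq_of_card_lt φ (by simp)
  have key : ∀ i j : Fin (r + 1), (i : ℕ) < (j : ℕ) → φ i = φ j → False := by
    intro i j hlt hφij
    have h1 := ht j (Finset.mem_range.2 j.2) i (Finset.mem_range.2 i.2)
    apply h1.2.1 hlt
    apply h1.2.2.2
    refine ⟨φ j, ?_, ?_⟩
    · have h2 := (hφ j).1
      have h3 : F.starProjection (q + t • w j i) = F.starProjection (q + t • w j j) := by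
        rw [hw, hw]
        simp only [map_add, map_smul, map_sub,
          F.starProjection_apply_eq_zero_iff.2 hm2, smul_zero, sub_zero]
      rw [h3]; exact h2
    · have h2 := (hφ i).2
      rw [hφij] at h2
      have hm1' : ν1 ∈ Fᗮᗮ := by rw [Submodule.orthogonal_orthogonal]; exact hm1
      have h3 : Fᗮ.starProjection (q + t • w j i) = Fᗮ.starProjection (q + t • w i i) := by
        rw [hw, hw]
        simp only [map_add, map_smul, map_sub,
          Fᗮ.starProjection_apply_eq_zero_iff.2 hm1', smul_zero, zero_sub]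
      rw [h3]; exact h2
  rcases lt_or_gt_of_ne (fun h0 => hij (Fin.ext h0)) with h1 | h1
  · exact key i j h1 hφij
  · exact key j i h1 hφij.symm

theorem localDef_frontier {Ω : Set E} {q : E} {f : E → ℝ} (hf : LocalDef Ω q f) :
    q ∈ frontier Ω := by
  have hg : 0 < ⟪gradient f q, gradient f q⟫_ℝ := by
    rw [real_inner_self_eq_norm_sq]
    exact pow_pos (norm_pos_iff.2 hf.grad) 2
  have hlim : ∀ w : E, Tendsto (fun t : ℝ => q + t • w) (𝓝[>] 0) (𝓝 q) := by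
    intro w
    have h7 : Continuous fun t : ℝ => q + t • w := by fun_prop
    have h8 := (h7.tendsto 0).mono_left (nhdsWithin_le_nhds (s := Ioi 0))
    simpa using h8
  rw [frontier_eq_closure_inter_closure]
  constructor
  · refine mem_closure_of_tendsto (hlim (-gradient f q)) (ray_in hf ?_)
    rw [inner_neg_right]; linarith
  · exact mem_closure_of_tendsto (hlim (gradient f q)) (ray_out hf hg)

/-- The phase points whose orbit is periodic modulo `Γ`. -/
def PerSet (Γ : Set (E ≃ᵃⁱ[ℝ] E)) (Ω : Set E) : Set (E × E) :=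
  {z | ∃ g ∈ Γ, ∃ (n : ℕ) (p u : ℕ → E), OrbitMod Ω g n p u ∧ (p 0, u 0) = z}

/-- **Tables which are locally finite unions of products.** -/
theorem prod_dim {d : ℕ} (hd : Module.finrank ℝ E = d + 2) {F : Submodule ℝ E} (hF0 : F ≠ ⊥)
    (hF1 : F ≠ ⊤) {Γ : Set (E ≃ᵃⁱ[ℝ] E)} {Ω : Set E} (hΓ : Γ.Countable)
    (hinv : ∀ g ∈ Γ, g ⁻¹' Ω = Ω) (hΩ : ∀ q ∈ frontier Ω, ProdAt F Ω q) :
    dimH (PerSet Γ Ω) ≤ ((2 * d + 1 : ℕ) : ℝ≥0∞) := by
  refine (dimH_mono ?_).trans (split_dim hd hF0 hF1 hΓ hinv)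
  rintro z ⟨g, hg, n, p, u, h, hz⟩
  refine ⟨g, hg, n, p, u, h, hz, 0, n, h.pos, h.pos, by omega, ⟨g, hg, ?_⟩, fun k _ _ => ?_⟩
  · have h1 := h.perp 0
    rw [zero_add] at h1
    exact h1
  · intro f hf
    exact splitAt_of_prodAt (hΩ _ (localDef_frontier hf)) f hf

/-- Sets of dimension at most `2 d + 1` are negligible for the measure of dimension `2 d + 2`. -/
theorem null_of_dim' {Z : Type*} [EMetricSpace Z] [MeasurableSpace Z] [BorelSpace Z] {d : ℕ}
    {A : Set Z} (h : dimH A ≤ ((2 * d + 1 : ℕ) : ℝ≥0∞)) :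
    μH[((2 * d + 2 : ℕ) : ℝ)] A = 0 := by
  have h1 : dimH A < ((2 * d + 2 : ℕ) : NNReal) := by
    refine h.trans_lt ?_
    have : ((2 * d + 1 : ℕ) : ℝ≥0∞) < ((2 * d + 2 : ℕ) : ℝ≥0∞) := by
      exact_mod_cast (by omega : 2 * d + 1 < 2 * d + 2)
    simpa using this
  have h2 := hausdorffMeasure_of_dimH_lt h1
  exact_mod_cast h2

end Pool.Agent.V7H61.IV
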