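import Pool.Agent.V7H61.IV.Polar2
import Pool.Agent.V7H61.IV.SplitMain

/-!
Ivrii's conjecture for orbits with a loop all the mirrors of which are radial or tangential with
respect to a point, and for tables which are locally finite unions of polar products.
-/

set_option autoImplicit false

open MeasureTheory Set Filter Topology
open scoped InnerProductSpace ENNReal
open Pool.Agent.H721R2.Quart Pool.Agent.H721R2.Ivrii Pool.Agent.TH746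

namespace Pool.Agent.V7H61.IV

variable {E : Type*} [NormedAddCommGroup E] [InnerProductSpace ℝ E] [FiniteDimensional ℝ E]

/-- The phase points whose orbit is periodic modulo `Γ` and has a loop modulo the elements of `Γ`
which fix the point `o`, all the bounces inside the loop satisfying `S`. -/
def LoopSetAt (o : E) (Γ : Set (E ≃ᵃⁱ[ℝ] E)) (Ω : Set E) (S : E → Prop) : Set (E × E) :=
  {z | ∃ g ∈ Γ, ∃ (n : ℕ) (p u : ℕ → E), OrbitMod Ω g n p u ∧ (p 0, u 0) = z ∧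
    ∃ a b : ℕ, a < n ∧ a < b ∧ b ≤ a + n ∧ (∃ h ∈ Γ, h o = o ∧ p b = h (p a)) ∧
      ∀ k, a < k → k < b → S (p k)}

theorem loopSetAt_dim {r : ℝ≥0∞} {o : E} {Γ : Set (E ≃ᵃⁱ[ℝ] E)} {Ω : Set E} {S : E → Prop}
    (hΓ : Γ.Countable)
    (H : ∀ g ∈ Γ, ∀ h ∈ Γ, h o = o → ∀ n c l : ℕ, 1 ≤ c → c ≤ n → l ≤ n →
      dimH (Lp Ω g h n c l S) ≤ r) :
    dimH (LoopSetAt o Γ Ω S) ≤ r := by
  refine (dimH_mono (t := ⋃ g ∈ Γ, ⋃ h ∈ Γ, ⋃ n : ℕ, ⋃ c : ℕ, ⋃ l : ℕ,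
    ⋃ (_ : h o = o ∧ 1 ≤ c ∧ c ≤ n ∧ l ≤ n),
    {z : E × E | (g z.1, g.linearIsometryEquiv z.2) ∈ Lp Ω g h n c l S}) ?_).trans ?_
  · rintro z ⟨g, hgΓ, n, p, u, hor, rfl, a, b, han, hab, hbn, ⟨h, hhΓ, hho, hpb⟩, ha⟩
    refine mem_iUnion₂.2 ⟨g, hgΓ, mem_iUnion₂.2 ⟨h, hhΓ, mem_iUnion.2 ⟨n, mem_iUnion.2 ⟨b - a,
      mem_iUnion.2 ⟨n - a, mem_iUnion.2 ⟨⟨hho, by omega, by omega, Nat.sub_le _ _⟩, ?_⟩⟩⟩⟩⟩⟩
    refine ⟨(fun k => p (k + a), fun k => u (k + a)), ⟨shift_orbit hor a, ?_, ?_⟩, ?_⟩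
    · simp only
      rw [show b - a + a = b by omega, hpb, zero_add]
    · intro k hk1 hk
      exact ha (k + a) (by omega) (by omega)
    · simp only
      have h1 : n - a + a = 0 + n := by omega
      rw [h1, hor.perp, hor.peru]
  · rw [dimH_bUnion hΓ]
    refine iSup₂_le fun g hg => ?_
    rw [dimH_bUnion hΓ]
    refine iSup₂_le fun h hh => ?_
    rw [dimH_iUnion]
    refine iSup_le fun n => ?_
    rw [dimH_iUnion]
    refine iSup_le fun c => ?_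
    rw [dimH_iUnion]
    refine iSup_le fun l => ?_
    rw [dimH_iUnion]
    refine iSup_le fun hc => ?_
    exact (pull_dim g _).trans (H g hg h hh hc.1 n c l hc.2.1 hc.2.2.1 hc.2.2.2)

/-- If the boundary of `Ω` is regular of class `C³` at `q`, then its normal at `q` is parallel or
orthogonal to `q - o`. -/
def PolarAt (o : E) (Ω : Set E) (q : E) : Prop :=
  ∀ f : E → ℝ, LocalDef Ω q f →
    ((∃ l : ℝ, q - o = l • gradient f q) ∨ ⟪q - o, gradient f q⟫_ℝ = 0)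

theorem polar_step {o : E} {Ω : Set E} {q v q' v' : E} (h : Step Ω q v q' v')
    (hs : PolarAt o Ω q') :
    (∃ l : ℝ, q' - o = l • (v' - v)) ∨ ⟪q' - o, v' - v⟫_ℝ = 0 := by
  obtain ⟨t, -, -, -, f, hf, hfv, hv⟩ := h
  have h1 : v' - v = (-(2 * ⟪v, gradient f q'⟫_ℝ / ‖gradient f q'‖ ^ 2)) • gradient f q' := by
    rw [hv, neg_smul]; abel
  have h2 : -(2 * ⟪v, gradient f q'⟫_ℝ / ‖gradient f q'‖ ^ 2) ≠ 0 :=
    neg_ne_zero.2 (div_ne_zero (mul_ne_zero two_ne_zero hfv)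
      (pow_ne_zero 2 (norm_ne_zero_iff.2 hf.grad)))
  obtain ⟨s, hs'⟩ : ∃ s, s = -(2 * ⟪v, gradient f q'⟫_ℝ / ‖gradient f q'‖ ^ 2) := ⟨_, rfl⟩
  rw [← hs'] at h1 h2
  rw [h1]
  rcases hs f hf with ⟨l, hl⟩ | h3
  · left
    refine ⟨l * s⁻¹, ?_⟩
    rw [smul_smul, mul_assoc, inv_mul_cancel₀ h2, mul_one]
    exact hl
  · right
    rw [inner_smul_right, h3, mul_zero]

theorem polar_lp {d : ℕ} (hd : Module.finrank ℝ E = d + 2) {o : E} {Ω : Set E}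
    {g h : E ≃ᵃⁱ[ℝ] E} (hg : g ⁻¹' Ω = Ω) (ho : h o = o) {n c l : ℕ} (hc : 1 ≤ c)
    (hcn : c ≤ n) (hl : l ≤ n) :
    dimH (Lp Ω g h n c l (PolarAt o Ω)) ≤ ((2 * d + 1 : ℕ) : ℝ≥0∞) := by
  apply dim_of_locally
  rintro ⟨p, u⟩ ⟨hor, -⟩
  obtain ⟨a, b, C, ha, hb, hCN, hCg, hlip, hC1, hev⟩ := exists_chn2 hg hor
  have hfr : Module.finrank ℝ ((ℝ ∙ a)ᗮ × (ℝ ∙ b)ᗮ) = (2 * d + 1) + 1 := by
    have h1 := Submodule.finrank_add_finrank_orthogonal (ℝ ∙ a)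
    have h2 := Submodule.finrank_add_finrank_orthogonal (ℝ ∙ b)
    rw [finrank_span_singleton ha, hd] at h1
    rw [finrank_span_singleton hb, hd] at h2
    rw [Module.finrank_prod]
    omega
  have hIs : IsC1 C := fun m hm z hz => hC1 m (by omega) z hz
  have hdim := PA_dim (C := C) (o := o) (h := h) (c := c) (by omega) hfr hIs hc (by omega) ho
  obtain ⟨K, hK⟩ := hlip l hl
  refine ⟨(fun z => (C.x l z, C.e l z)) '' PA C o h c, ?_, ?_⟩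
  · have hK' : LipschitzOnWith K (fun z => (C.x l z, C.e l z)) (PA C o h c) :=
      hK.mono fun z hz => hz.1
    exact hK'.dimH_image_le.trans hdim
  · filter_upwards [hev] with w hw hor'
    obtain ⟨z, hzU, hz, -, -⟩ := hw hor'.1
    refine ⟨z, ⟨hzU, ?_, ?_⟩, Prod.ext (hz l hl).1 (hz l hl).2⟩
    · rw [(hz c hcn).1, (hz 0 (Nat.zero_le _)).1]
      exact hor'.2.1
    · intro k hk1 hk
      rw [(hz k (by omega)).2, (hz (k - 1) (by omega)).2, (hz k (by omega)).1]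
      have h1 := hor'.1.step (k - 1)
      rw [Nat.sub_add_cancel hk1] at h1
      exact polar_step h1 (hor'.2.2 k hk1 hk)

/-- **Orbits with a loop the mirrors of which are radial or tangential.** -/
theorem polar_dim {d : ℕ} (hd : Module.finrank ℝ E = d + 2) {o : E}
    {Γ : Set (E ≃ᵃⁱ[ℝ] E)} {Ω : Set E} (hΓ : Γ.Countable)
    (hinv : ∀ g ∈ Γ, g ⁻¹' Ω = Ω) :
    dimH (LoopSetAt o Γ Ω (PolarAt o Ω)) ≤ ((2 * d + 1 : ℕ) : ℝ≥0∞) :=
  loopSetAt_dim hΓ fun g hg _ _ ho _ _ _ h1 h2 h3 => polar_lp hd (hinv g hg) ho h1 h2 h3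

/-! ### Unions of polar products -/

theorem curve_in {Ω : Set E} {q : E} {f : E → ℝ} (hf : LocalDef Ω q f) {γ : ℝ → E} {w : E}
    (hγ : HasDerivAt γ w 0) (h0 : γ 0 = q) (hw : ⟪gradient f q, w⟫_ℝ < 0) :
    ∀ᶠ t in 𝓝[>] (0 : ℝ), γ t ∈ Ω := by
  have hd : DifferentiableAt ℝ f q := hf.smooth.differentiableAt (by norm_num)
  have h1 : HasDerivAt (fun t => f (γ t)) (fderiv ℝ f q w) 0 := by
    have h2 : HasFDerivAt f (fderiv ℝ f q) (γ 0) := by rw [h0]; exact hd.hasFDerivAt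
    exact h2.comp_hasDerivAt (0 : ℝ) hγ
  have h2 : fderiv ℝ f q w = ⟪gradient f q, w⟫_ℝ := by
    rw [inner_gradient_left]
  rw [h2] at h1
  have h3 : ∀ᶠ t in 𝓝[>] (0 : ℝ), f (γ t) < 0 := by
    have h4 := h1.hasDerivWithinAt (s := Ioi 0)
    rw [hasDerivWithinAt_iff_tendsto_slope' (by simp)] at h4
    have h5 := h4.eventually (gt_mem_nhds hw)
    filter_upwards [h5, self_mem_nhdsWithin] with t ht htpos
    rw [mem_Ioi] at htpos
    rw [slope_def_field] at ht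
    simp only [sub_zero, h0, hf.zero] at ht
    by_contra hcon
    push Not at hcon
    have := div_nonneg hcon htpos.le
    linarith
  have h6 : Tendsto γ (𝓝[>] 0) (𝓝 q) := by
    have h8 := hγ.continuousAt.tendsto.mono_left (nhdsWithin_le_nhds (s := Ioi 0))
    rwa [h0] at h8
  filter_upwards [h3, h6.eventually hf.mem] with t ht1 ht2
  exact ht2.2 ht1

theorem curve_out {Ω : Set E} {q : E} {f : E → ℝ} (hf : LocalDef Ω q f) {γ : ℝ → E} {w : E}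
    (hγ : HasDerivAt γ w 0) (h0 : γ 0 = q) (hw : 0 < ⟪gradient f q, w⟫_ℝ) :
    ∀ᶠ t in 𝓝[>] (0 : ℝ), γ t ∉ Ω := by
  have hd : DifferentiableAt ℝ f q := hf.smooth.differentiableAt (by norm_num)
  have h1 : HasDerivAt (fun t => f (γ t)) (fderiv ℝ f q w) 0 := by
    have h2 : HasFDerivAt f (fderiv ℝ f q) (γ 0) := by rw [h0]; exact hd.hasFDerivAt
    exact h2.comp_hasDerivAt (0 : ℝ) hγ
  have h2 : fderiv ℝ f q w = ⟪gradient f q, w⟫_ℝ := by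
    rw [inner_gradient_left]
  rw [h2] at h1
  have h3 : ∀ᶠ t in 𝓝[>] (0 : ℝ), 0 < f (γ t) := by
    have h4 := h1.hasDerivWithinAt (s := Ioi 0)
    rw [hasDerivWithinAt_iff_tendsto_slope' (by simp)] at h4
    have h5 := h4.eventually (lt_mem_nhds hw)
    filter_upwards [h5, self_mem_nhdsWithin] with t ht htpos
    rw [mem_Ioi] at htpos
    rw [slope_def_field] at ht
    simp only [sub_zero, h0, hf.zero] at ht
    by_contra hcon
    push Not at hcon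
    have := div_nonpos_of_nonpos_of_nonneg hcon htpos.le
    linarith
  have h6 : Tendsto γ (𝓝[>] 0) (𝓝 q) := by
    have h8 := hγ.continuousAt.tendsto.mono_left (nhdsWithin_le_nhds (s := Ioi 0))
    rwa [h0] at h8
  filter_upwards [h3, h6.eventually hf.mem] with t ht1 ht2 hcon
  have := ht2.1 hcon
  linarith

/-- A staircase is not a union of `r` products. -/
theorem stair {α β : Type*} (r : ℕ) (A : Fin r → Set α) (B : Fin r → Set β) (a : ℕ → α)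
    (b : ℕ → β) (T : ℕ → ℕ → Prop) (h1 : ∀ i ≤ r, ∀ j ≤ r, i ≤ j → T i j)
    (h2 : ∀ i ≤ r, ∀ j ≤ r, j < i → ¬ T i j)
    (h3 : ∀ i ≤ r, ∀ j ≤ r, (T i j ↔ ∃ m, a i ∈ A m ∧ b j ∈ B m)) : False := by
  have hdiag : ∀ i : Fin (r + 1), ∃ m, a i ∈ A m ∧ b i ∈ B m := fun i =>
    (h3 i (by omega) i (by omega)).1 (h1 i (by omega) i (by omega) le_rfl)
  choose φ hφ using hdiag
  obtain ⟨i, j, hij, hφij⟩ := Fintype.exists_ne_map_eq_of_card_lt φ (by simp)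
  have key : ∀ i j : Fin (r + 1), (i : ℕ) < (j : ℕ) → φ i = φ j → False := by
    intro i j hlt hφij
    refine h2 j (by omega) i (by omega) hlt ((h3 j (by omega) i (by omega)).2 ⟨φ j, (hφ j).1, ?_⟩)
    have h4 := (hφ i).2
    rwa [hφij] at h4
  rcases lt_or_gt_of_ne (fun h0 => hij (Fin.ext h0)) with h4 | h4
  · exact key i j h4 hφij
  · exact key j i h4 hφij.symm

/-- Near `q` the table is a finite union of polar products: sets of the form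
`{x | ‖x - o‖ ∈ A i, (x - o) / ‖x - o‖ ∈ B i}`. -/
def PolarProdAt (o : E) (Ω : Set E) (q : E) : Prop :=
  ∃ (r : ℕ) (A : Fin r → Set ℝ) (B : Fin r → Set E), ∀ᶠ x in 𝓝 q,
    (x ∈ Ω ↔ ∃ i, ‖x - o‖ ∈ A i ∧ ‖x - o‖⁻¹ • (x - o) ∈ B i)

theorem polarAt_of_prodAt {o : E} {Ω : Set E} {q : E} (hqo : q ≠ o) (h : PolarProdAt o Ω q) :
    PolarAt o Ω q := by
  intro f hf
  by_contra hcon
  push Not at hcon
  obtain ⟨hcon1, hcon2⟩ := hcon
  obtain ⟨r, A, B, hAB⟩ := h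
  obtain ⟨ν, hν⟩ : ∃ ν, ν = gradient f q := ⟨_, rfl⟩
  obtain ⟨y, hy⟩ : ∃ y, y = q - o := ⟨_, rfl⟩
  have hq : q = o + y := by rw [hy]; abel
  rw [← hν, ← hy] at hcon1 hcon2
  have hy0 : y ≠ 0 := by rw [hy]; exact sub_ne_zero.2 hqo
  obtain ⟨ρ, hρ⟩ : ∃ ρ, ρ = ‖y‖ := ⟨_, rfl⟩
  have hρ0 : 0 < ρ := by rw [hρ]; exact norm_pos_iff.2 hy0
  obtain ⟨ν2, hν2⟩ : ∃ ν2, ν2 = ν - (⟪y, ν⟫_ℝ / ρ ^ 2) • y := ⟨_, rfl⟩
  have hyy : ⟪y, y⟫_ℝ = ρ ^ 2 := by rw [real_inner_self_eq_norm_sq, hρ]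
  have hyν2 : ⟪y, ν2⟫_ℝ = 0 := by
    rw [hν2, inner_sub_right, inner_smul_right, hyy]
    field_simp
    ring
  have hν20 : ν2 ≠ 0 := by
    intro h0
    rw [hν2, sub_eq_zero] at h0
    refine hcon1 (⟪y, ν⟫_ℝ / ρ ^ 2)⁻¹ ?_
    nth_rewrite 2 [h0]
    rw [smul_smul, inv_mul_cancel₀ (div_ne_zero hcon2 (pow_ne_zero 2 hρ0.ne')), one_smul]
  have hνy : ⟪ν, y⟫_ℝ = ⟪y, ν⟫_ℝ := real_inner_comm _ _
  have hνν2 : ⟪ν, ν2⟫_ℝ = ‖ν2‖ ^ 2 := by
    have h1 : ν = ν2 + (⟪y, ν⟫_ℝ / ρ ^ 2) • y := by rw [hν2]; abel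
    nth_rewrite 1 [h1]
    rw [inner_add_left, real_inner_smul_left, hyν2, real_inner_self_eq_norm_sq]
    ring
  have hn2 : ‖ν2‖ ^ 2 ≠ 0 := pow_ne_zero 2 (norm_ne_zero_iff.2 hν20)
  -- the points of the staircase
  obtain ⟨yj, hyj⟩ : ∃ yj : ℕ → ℝ → E, ∀ j t, yj j t =
      y + t • (-((((j : ℝ) + 1 / 2) / ‖ν2‖ ^ 2)) • ν2) := ⟨_, fun _ _ => rfl⟩
  obtain ⟨si, hsi⟩ : ∃ si : ℕ → ℝ → ℝ, ∀ i t, si i t = 1 + t * ((i : ℝ) / ⟪y, ν⟫_ℝ) :=
    ⟨_, fun _ _ => rfl⟩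
  obtain ⟨γ, hγ⟩ : ∃ γ : ℕ → ℕ → ℝ → E, ∀ i j t, γ i j t =
      o + si i t • ((ρ * ‖yj j t‖⁻¹) • yj j t) := ⟨_, fun _ _ _ => rfl⟩
  have hyj0 : ∀ j, yj j 0 = y := by intro j; rw [hyj, zero_smul, add_zero]
  have hsi0 : ∀ i, si i 0 = 1 := by intro i; rw [hsi, zero_mul, add_zero]
  have hγ0 : ∀ i j, γ i j 0 = q := by
    intro i j
    rw [hγ, hsi0, hyj0, ← hρ, mul_inv_cancel₀ hρ0.ne', one_smul, one_smul, hq]
  have dyj : ∀ j, HasDerivAt (yj j) (-((((j : ℝ) + 1 / 2) / ‖ν2‖ ^ 2)) • ν2) 0 := by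
    intro j
    have h1 : yj j = fun t => y + t • (-((((j : ℝ) + 1 / 2) / ‖ν2‖ ^ 2)) • ν2) := by
      funext t; exact hyj j t
    rw [h1]
    have h2 := ((hasDerivAt_id (0 : ℝ)).smul_const
      (-((((j : ℝ) + 1 / 2) / ‖ν2‖ ^ 2)) • ν2)).const_add y
    simpa using h2
  have dsi : ∀ i, HasDerivAt (si i) ((i : ℝ) / ⟪y, ν⟫_ℝ) 0 := by
    intro i
    have h1 : si i = fun t => 1 + t * ((i : ℝ) / ⟪y, ν⟫_ℝ) := by
      funext t; exact hsi i t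
    rw [h1]
    have h2 := ((hasDerivAt_id (0 : ℝ)).mul_const ((i : ℝ) / ⟪y, ν⟫_ℝ)).const_add 1
    simpa using h2
  have dγ : ∀ i j, HasDerivAt (γ i j) (((i : ℝ) / ⟪y, ν⟫_ℝ) • y -
      ((((j : ℝ) + 1 / 2) / ‖ν2‖ ^ 2)) • ν2) 0 := by
    intro i j
    have h1 : γ i j = fun t => o + si i t • ((ρ * ‖yj j t‖⁻¹) • yj j t) := by
      funext t; exact hγ i j t
    rw [h1]
    obtain ⟨v, hv⟩ : ∃ v, v = -((((j : ℝ) + 1 / 2) / ‖ν2‖ ^ 2)) • ν2 := ⟨_, rfl⟩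
    have hyv : ⟪y, v⟫_ℝ = 0 := by rw [hv, inner_smul_right, hyν2, mul_zero]
    have hdy := dyj j
    rw [← hv] at hdy
    have h2 : HasDerivAt (fun t => ‖yj j t‖) 0 0 := by
      have h2' := hasDerivAt_norm' hdy (by rw [hyj0]; exact hy0)
      rw [hyj0, hyv, zero_div] at h2'
      exact h2'
    have h3 : HasDerivAt (fun t => ‖yj j t‖⁻¹) 0 0 := by
      have h3' := h2.inv (by rw [hyj0]; exact norm_ne_zero_iff.2 hy0)
      rw [neg_zero, zero_div] at h3'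
      exact h3'
    have h4 : HasDerivAt (fun t => (ρ * ‖yj j t‖⁻¹) • yj j t) v 0 := by
      have h4' : HasDerivAt (fun t => (ρ * ‖yj j t‖⁻¹) • yj j t)
        ((ρ * ‖yj j 0‖⁻¹) • v + (ρ * 0) • yj j 0) 0 := (h3.const_mul ρ).smul hdy
      rw [hyj0, ← hρ, mul_inv_cancel₀ hρ0.ne', mul_zero, zero_smul, add_zero, one_smul] at h4'
      exact h4'
    have h5 : HasDerivAt (fun t => o + si i t • ((ρ * ‖yj j t‖⁻¹) • yj j t))
      (si i 0 • v + ((i : ℝ) / ⟪y, ν⟫_ℝ) • ((ρ * ‖yj j 0‖⁻¹) • yj j 0)) 0 :=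
      ((dsi i).smul h4).const_add o
    rw [hsi0, hyj0, ← hρ, mul_inv_cancel₀ hρ0.ne', one_smul, one_smul] at h5
    have h6 : v + ((i : ℝ) / ⟪y, ν⟫_ℝ) • y =
        ((i : ℝ) / ⟪y, ν⟫_ℝ) • y - ((((j : ℝ) + 1 / 2) / ‖ν2‖ ^ 2)) • ν2 := by
      rw [hv, neg_smul]; abel
    rw [h6] at h5
    exact h5
  have hin : ∀ i j : ℕ, ⟪ν, ((i : ℝ) / ⟪y, ν⟫_ℝ) • y - ((((j : ℝ) + 1 / 2) / ‖ν2‖ ^ 2)) • ν2⟫_ℝ =
      (i : ℝ) - ((j : ℝ) + 1 / 2) := by
    intro i j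
    rw [inner_sub_right, inner_smul_right, inner_smul_right, hνν2, hνy, div_mul_cancel₀ _ hcon2,
      div_mul_cancel₀ _ hn2]
  have hle : ∀ i j : ℕ, i ≤ j → ∀ᶠ t in 𝓝[>] (0 : ℝ), γ i j t ∈ Ω := by
    intro i j hij
    refine curve_in hf (dγ i j) (hγ0 i j) ?_
    rw [← hν, hin]
    have : (i : ℝ) ≤ j := by exact_mod_cast hij
    linarith
  have hlt : ∀ i j : ℕ, j < i → ∀ᶠ t in 𝓝[>] (0 : ℝ), γ i j t ∉ Ω := by
    intro i j hij
    refine curve_out hf (dγ i j) (hγ0 i j) ?_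
    rw [← hν, hin]
    have : (j : ℝ) + 1 ≤ i := by exact_mod_cast hij
    linarith
  have hnear : ∀ i j : ℕ, ∀ᶠ t in 𝓝[>] (0 : ℝ), (γ i j t ∈ Ω ↔
      ∃ m, ‖γ i j t - o‖ ∈ A m ∧ ‖γ i j t - o‖⁻¹ • (γ i j t - o) ∈ B m) := by
    intro i j
    have h8 := (dγ i j).continuousAt.tendsto.mono_left (nhdsWithin_le_nhds (s := Ioi 0))
    rw [hγ0] at h8
    exact h8.eventually hAB
  have hsp : ∀ i : ℕ, ∀ᶠ t in 𝓝[>] (0 : ℝ), 0 < si i t := by
    intro i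
    have h8 := (dsi i).continuousAt.tendsto.mono_left (nhdsWithin_le_nhds (s := Ioi 0))
    rw [hsi0] at h8
    exact h8.eventually (lt_mem_nhds one_pos)
  have hyp : ∀ j : ℕ, ∀ᶠ t in 𝓝[>] (0 : ℝ), yj j t ≠ 0 := by
    intro j
    have h8 := (dyj j).continuousAt.tendsto.mono_left (nhdsWithin_le_nhds (s := Ioi 0))
    rw [hyj0] at h8
    exact h8.eventually_ne hy0
  have hall : ∀ᶠ t in 𝓝[>] (0 : ℝ), ∀ i ∈ Finset.range (r + 1), ∀ j ∈ Finset.range (r + 1),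
      (i ≤ j → γ i j t ∈ Ω) ∧ (j < i → γ i j t ∉ Ω) ∧ (γ i j t ∈ Ω ↔
      ∃ m, ‖γ i j t - o‖ ∈ A m ∧ ‖γ i j t - o‖⁻¹ • (γ i j t - o) ∈ B m) ∧ 0 < si i t ∧
      yj j t ≠ 0 := by
    rw [Filter.eventually_all_finset]
    intro i _
    rw [Filter.eventually_all_finset]
    intro j _
    refine Filter.Eventually.and ?_ (Filter.Eventually.and ?_
      (Filter.Eventually.and (hnear i j) (Filter.Eventually.and (hsp i) (hyp j))))
    · by_cases hij : i ≤ j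
      · filter_upwards [hle i j hij] with t ht _
        exact ht
      · exact Eventually.of_forall fun t hcon => absurd hcon hij
    · by_cases hij : j < i
      · filter_upwards [hlt i j hij] with t ht _
        exact ht
      · exact Eventually.of_forall fun t hcon => absurd hcon hij
  obtain ⟨t, ht⟩ := hall.exists
  have hnorm : ∀ i ≤ r, ∀ j ≤ r, ‖γ i j t - o‖ = si i t * ρ ∧
      ‖γ i j t - o‖⁻¹ • (γ i j t - o) = ‖yj j t‖⁻¹ • yj j t := by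
    intro i hi j hj
    obtain ⟨-, -, -, h4, h5⟩ := ht i (Finset.mem_range.2 (by omega)) j
      (Finset.mem_range.2 (by omega))
    have h6 : 0 < ‖yj j t‖ := norm_pos_iff.2 h5
    have h7 : γ i j t - o = si i t • ((ρ * ‖yj j t‖⁻¹) • yj j t) := by rw [hγ]; abel
    have h8 : ‖γ i j t - o‖ = si i t * ρ := by
      rw [h7, norm_smul, norm_smul, Real.norm_eq_abs, Real.norm_eq_abs, abs_of_pos h4, abs_mul,
        abs_of_pos hρ0, abs_of_pos (inv_pos.2 h6), mul_assoc, inv_mul_cancel₀ h6.ne', mul_one]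
    refine ⟨h8, ?_⟩
    rw [h8, h7, smul_smul, smul_smul]
    congr 1
    field_simp
  refine stair r A B (fun i => si i t * ρ) (fun j => ‖yj j t‖⁻¹ • yj j t)
    (fun i j => γ i j t ∈ Ω) ?_ ?_ ?_
  · intro i hi j hj hij
    exact (ht i (Finset.mem_range.2 (by omega)) j (Finset.mem_range.2 (by omega))).1 hij
  · intro i hi j hj hij
    exact (ht i (Finset.mem_range.2 (by omega)) j (Finset.mem_range.2 (by omega))).2.1 hij
  · intro i hi j hj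
    have h1 := (ht i (Finset.mem_range.2 (by omega)) j (Finset.mem_range.2 (by omega))).2.2.1
    obtain ⟨h2, h3⟩ := hnorm i hi j hj
    rw [h3, h2] at h1
    exact h1

/-- **Tables which are locally finite unions of polar products.** -/
theorem polarProd_dim {d : ℕ} (hd : Module.finrank ℝ E = d + 2) {o : E}
    {Γ : Set (E ≃ᵃⁱ[ℝ] E)} {Ω : Set E} (hΓ : Γ.Countable)
    (hinv : ∀ g ∈ Γ, g ⁻¹' Ω = Ω) (hfix : ∀ g ∈ Γ, g o = o)
    (hΩ : ∀ q ∈ frontier Ω, q ≠ o → PolarProdAt o Ω q) :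
    dimH (PerSet Γ Ω) ≤ ((2 * d + 1 : ℕ) : ℝ≥0∞) := by
  refine (dimH_mono ?_).trans (polar_dim hd (o := o) hΓ hinv)
  rintro z ⟨g, hg, n, p, u, h, hz⟩
  refine ⟨g, hg, n, p, u, h, hz, 0, n, h.pos, h.pos, by omega, ⟨g, hg, hfix g hg, ?_⟩,
    fun k _ _ => ?_⟩
  · have h1 := h.perp 0
    rw [zero_add] at h1
    exact h1
  · intro f hf
    rcases eq_or_ne (p k) o with h0 | h0
    · left; exact ⟨0, by rw [h0, sub_self, zero_smul]⟩
    · exact polarAt_of_prodAt h0 (hΩ _ (localDef_frontier hf) h0) f hf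

end Pool.Agent.V7H61.IV
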