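import Pool.Agent.V7H61.IV.Chain
import Pool.Agent.V7H61.IV.Dim
import Pool.Agent.V7H61.IV.Calc

/-!
Loops of billiard trajectories all of whose mirrors have normals in a subspace or in its orthogonal
complement.
-/

set_option autoImplicit false

open MeasureTheory Set Filter Topology
open scoped InnerProductSpace ENNReal
open Pool.Agent.H721R2.Quart Pool.Agent.H721R2.Ivrii Pool.Agent.TH746

namespace Pool.Agent.V7H61.IV

/-- A symmetric idempotent operator. -/
structure Proj (E : Type*) [NormedAddCommGroup E] [InnerProductSpace ℝ E] where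
  P : E →L[ℝ] E
  idem : ∀ v, P (P v) = P v
  symm : ∀ v w, ⟪P v, w⟫_ℝ = ⟪v, P w⟫_ℝ

namespace Proj

variable {E : Type*} [NormedAddCommGroup E] [InnerProductSpace ℝ E] (D : Proj E)

/-- The complementary projection. -/
def compl : Proj E where
  P := ContinuousLinearMap.id ℝ E - D.P
  idem v := by
    change (v - D.P v) - D.P (v - D.P v) = v - D.P v
    rw [map_sub, D.idem]; simp
  symm v w := by
    change ⟪v - D.P v, w⟫_ℝ = ⟪v, w - D.P w⟫_ℝ
    rw [inner_sub_left, inner_sub_right, D.symm]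

theorem compl_apply (v : E) : D.compl.P v = v - D.P v := rfl

theorem inner_self (v : E) : ⟪D.P v, v⟫_ℝ = ‖D.P v‖ ^ 2 := by
  rw [← real_inner_self_eq_norm_sq, D.symm, D.symm, D.idem]

theorem norm_add (v : E) : ‖D.P v‖ ^ 2 + ‖D.compl.P v‖ ^ 2 = ‖v‖ ^ 2 := by
  rw [← D.inner_self, ← D.compl.inner_self, D.compl_apply, inner_sub_left,
    real_inner_self_eq_norm_sq]
  ring

theorem norm_eq {v w : E} (hvw : ‖v‖ = ‖w‖) (h : D.P (w - v) = 0 ∨ D.compl.P (w - v) = 0) :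
    ‖D.P w‖ = ‖D.P v‖ := by
  rcases h with h | h
  · rw [map_sub, sub_eq_zero] at h
    rw [h]
  · rw [map_sub, sub_eq_zero] at h
    have h1 := D.norm_add v
    have h2 := D.norm_add w
    rw [h, hvw.symm] at h2
    have h3 : ‖D.P w‖ ^ 2 = ‖D.P v‖ ^ 2 := by linarith
    exact (sq_eq_sq₀ (norm_nonneg _) (norm_nonneg _)).1 h3

theorem orth (v w : E) : ⟪D.P v, D.compl.P w⟫_ℝ = 0 := by
  rw [D.compl_apply, inner_sub_right, D.symm, D.symm, D.idem, ← D.symm, D.symm, sub_self]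

end Proj

section

variable {E Z : Type*} [NormedAddCommGroup E] [InnerProductSpace ℝ E]
  [NormedAddCommGroup Z] [NormedSpace ℝ Z]

/-- The trajectories of the family which come back to the initial point modulo `h` after `c` bounces,
with all mirrors in between of the split kind. -/
def SA (C : Chn E Z) (D : Proj E) (h : E ≃ᵃⁱ[ℝ] E) (c : ℕ) : Set Z :=
  {z | z ∈ C.U ∧ C.x c z = h (C.x 0 z) ∧ ∀ k, 1 ≤ k → k < c →
    (D.P (C.e k z - C.e (k - 1) z) = 0 ∨ D.compl.P (C.e k z - C.e (k - 1) z) = 0)}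

theorem SA_compl (C : Chn E Z) (D : Proj E) (h : E ≃ᵃⁱ[ℝ] E) (c : ℕ) :
    SA C D.compl h c = SA C D h c := by
  have h1 : D.compl.compl.P = D.P := by
    ext v
    rw [D.compl.compl_apply, D.compl_apply]; abel
  unfold SA
  rw [h1]
  ext z
  constructor
  · rintro ⟨h2, h3, h4⟩
    exact ⟨h2, h3, fun k a b => (h4 k a b).symm⟩
  · rintro ⟨h2, h3, h4⟩
    exact ⟨h2, h3, fun k a b => (h4 k a b).symm⟩

variable (C : Chn E Z) (D : Proj E) (h : E ≃ᵃⁱ[ℝ] E) (c : ℕ)

/-- The vertices of the closed polygon. -/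
noncomputable def yv (k : ℕ) (z : Z) : E := if k < c then C.x k z else h (C.x 0 z)

/-- The normalised component of the direction. -/
noncomputable def wv (k : ℕ) (z : Z) : E := ‖D.P (C.e k z)‖⁻¹ • D.P (C.e k z)

/-- The length of the projection of the polygon. -/
noncomputable def SP (z : Z) : ℝ :=
  ∑ k ∈ Finset.range c, ⟪wv C D k z, yv C h c (k + 1) z - yv C h c k z⟫_ℝ

/-- The total length. -/
noncomputable def TL (z : Z) : ℝ := ∑ k ∈ Finset.range c, C.L k z

variable {C D h c}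

theorem yv_step (hcN : c ≤ C.N) {z : Z} (hz : C.x c z = h (C.x 0 z)) {k : ℕ} (hk : k < c) :
    yv C h c (k + 1) z - yv C h c k z = C.L k z • C.e k z := by
  have h1 := C.step k (by omega) z
  unfold yv
  rw [if_pos hk]
  by_cases h2 : k + 1 < c
  · rw [if_pos h2, h1]; simp
  · have h3 : k + 1 = c := by omega
    rw [if_neg h2, ← hz, ← h3, h1]; simp

theorem e_norm (hcN : c ≤ C.N) {z : Z} (hz : z ∈ C.U) {k : ℕ} (hk : k < c) : ‖C.e k z‖ = 1 := by
  have h1 := C.ee k (by omega) z hz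
  rw [real_inner_self_eq_norm_sq] at h1
  nlinarith [norm_nonneg (C.e k z)]

theorem P_norm (hcN : c ≤ C.N) {z : Z} (hz : z ∈ SA C D h c) {k : ℕ} (hk : k < c) :
    ‖D.P (C.e k z)‖ = ‖D.P (C.e 0 z)‖ := by
  induction k with
  | zero => rfl
  | succ k ih =>
    rw [← ih (by omega)]
    refine D.norm_eq ?_ (hz.2.2 (k + 1) (by omega) hk)
    rw [e_norm hcN hz.1 hk, e_norm hcN hz.1 (by omega)]

theorem SP_eq (hcN : c ≤ C.N) {z : Z} (hz : z ∈ SA C D h c) :
    SP C D h c z = ‖D.P (C.e 0 z)‖ * TL C c z := by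
  unfold SP TL
  rw [Finset.mul_sum]
  refine Finset.sum_congr rfl fun k hk => ?_
  rw [Finset.mem_range] at hk
  rw [yv_step hcN hz.2.1 hk, ← P_norm hcN hz hk]
  unfold wv
  rw [real_inner_smul_left, inner_smul_right, D.inner_self]
  rcases eq_or_ne ‖D.P (C.e k z)‖ 0 with h0 | h0
  · rw [h0]; simp
  · field_simp

theorem TL_pos (hc : 1 ≤ c) (hcN : c ≤ C.N) {z : Z} (hz : z ∈ C.U) : 0 < TL C c z := by
  unfold TL
  refine Finset.sum_pos (fun k hk => C.Lpos k (by rw [Finset.mem_range] at hk; omega) z hz) ?_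
  exact ⟨0, Finset.mem_range.2 (by omega)⟩

theorem isom_eq (h : E ≃ᵃⁱ[ℝ] E) (v : E) : h v = h.linearIsometryEquiv v + h 0 := by
  have h1 := h.map_vadd (0 : E) v
  rw [vadd_eq_add, vadd_eq_add, add_zero] at h1
  exact h1

theorem isom_cd (h : E ≃ᵃⁱ[ℝ] E) : ContDiff ℝ 1 (h : E → E) := by
  have h1 : (h : E → E) = fun v => (h.linearIsometryEquiv : E → E) v + h 0 := by
    funext v; exact isom_eq h v
  rw [h1]
  exact h.linearIsometryEquiv.contDiff.add contDiff_const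

/-- continuous differentiability of the family -/
def IsC1 (C : Chn E Z) : Prop :=
  ∀ m ≤ C.N, ∀ z ∈ C.U, ContDiffAt ℝ 1 (C.x m) z ∧ ContDiffAt ℝ 1 (C.e m) z

theorem yv_cd (h : E ≃ᵃⁱ[ℝ] E) (hC : IsC1 C) (hcN : c ≤ C.N) {z : Z} (hz : z ∈ C.U) (k : ℕ) :
    ContDiffAt ℝ 1 (yv C h c k) z := by
  unfold yv
  by_cases hk : k < c
  · simp only [if_pos hk]
    exact (hC k (by omega) z hz).1
  · simp only [if_neg hk]
    exact (isom_cd h).contDiffAt.comp z (hC 0 (Nat.zero_le _) z hz).1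

theorem wv_cd (D : Proj E) (hC : IsC1 C) {k : ℕ} (hk : k ≤ C.N) {z : Z} (hz : z ∈ C.U)
    (h0 : D.P (C.e k z) ≠ 0) : ContDiffAt ℝ 1 (wv C D k) z := by
  have h1 : ContDiffAt ℝ 1 (fun z => D.P (C.e k z)) z :=
    D.P.contDiff.contDiffAt.comp z (hC k hk z hz).2
  have h2 := (h1.norm ℝ h0).inv (norm_ne_zero_iff.2 h0)
  exact h2.smul h1

theorem SP_cd (h : E ≃ᵃⁱ[ℝ] E) (D : Proj E) (hC : IsC1 C) (hcN : c ≤ C.N) {z : Z} (hz : z ∈ C.U)
    (h0 : ∀ k < c, D.P (C.e k z) ≠ 0) : ContDiffAt ℝ 1 (SP C D h c) z := by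
  unfold SP
  refine ContDiffAt.sum fun k hk => ?_
  rw [Finset.mem_range] at hk
  exact (wv_cd D hC (by omega) hz (h0 k hk)).inner ℝ
    ((yv_cd h hC hcN hz (k + 1)).sub (yv_cd h hC hcN hz k))

end

end Pool.Agent.V7H61.IV
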