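import Pool.Agent.V7H61.IV.Split

/-!
The derivative of the length of the projected polygon.
-/

set_option autoImplicit false

open MeasureTheory Set Filter Topology
open scoped InnerProductSpace ENNReal
open Pool.Agent.H721R2.Quart Pool.Agent.H721R2.Ivrii Pool.Agent.TH746

namespace Pool.Agent.V7H61.IV

variable {E Z : Type*} [NormedAddCommGroup E] [InnerProductSpace ℝ E]
  [NormedAddCommGroup Z] [NormedSpace ℝ Z]

variable {C : Chn E Z} {D : Proj E} {h : E ≃ᵃⁱ[ℝ] E} {c : ℕ}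

/-- Restriction to a line. -/
theorem line_deriv {F : Type*} [NormedAddCommGroup F] [NormedSpace ℝ F] {f : Z → F} {z : Z}
    (hf : DifferentiableAt ℝ f z) (ζ : Z) :
    HasDerivAt (fun t : ℝ => f (z + t • ζ)) (fderiv ℝ f z ζ) 0 := by
  have h1 : HasDerivAt (fun t : ℝ => z + t • ζ) ζ 0 := by
    have h2 := ((hasDerivAt_id (0 : ℝ)).smul_const ζ).const_add z
    simpa using h2
  have h3 : HasFDerivAt f (fderiv ℝ f z) (z + (0 : ℝ) • ζ) := by
    rw [zero_smul, add_zero]; exact hf.hasFDerivAt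
  exact h3.comp_hasDerivAt (0 : ℝ) h1

theorem line_fderiv {F : Type*} [NormedAddCommGroup F] [NormedSpace ℝ F] {f : Z → F} {z : Z}
    (hf : DifferentiableAt ℝ f z) (ζ : Z) {a : F}
    (ha : HasDerivAt (fun t : ℝ => f (z + t • ζ)) a 0) : fderiv ℝ f z ζ = a :=
  (line_deriv hf ζ).unique ha

/-- A vector whose component is nonzero keeps a nonzero component. -/
theorem P_ne (hcN : c ≤ C.N) {z : Z} (hz : z ∈ SA C D h c) (h0 : D.P (C.e 0 z) ≠ 0) {k : ℕ}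
    (hk : k < c) : D.P (C.e k z) ≠ 0 := by
  rw [← norm_ne_zero_iff, P_norm hcN hz hk]
  exact norm_ne_zero_iff.2 h0

theorem e_sub_par (hcN : c ≤ C.N) (z : Z) {k : ℕ} (hk : k < c) (hk1 : 1 ≤ k) :
    C.e (k - 1) z - C.e k z = (2 * ⟪C.n k z, C.e (k - 1) z⟫_ℝ) • C.n k z := by
  obtain ⟨j, rfl⟩ : ∃ j, k = j + 1 := ⟨k - 1, by omega⟩
  have h1 := C.refl j (by omega) z
  rw [Nat.add_sub_cancel, h1]
  unfold rf
  rw [sub_sub_cancel]

theorem P_sub_par (hcN : c ≤ C.N) {z : Z} (hz : z ∈ SA C D h c) {k : ℕ} (hk : k < c)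
    (hk1 : 1 ≤ k) {Y : E} (hY : ⟪C.n k z, Y⟫_ℝ = 0) :
    ⟪D.P (C.e (k - 1) z) - D.P (C.e k z), Y⟫_ℝ = 0 := by
  rw [← map_sub]
  rcases hz.2.2 k hk1 hk with h1 | h1
  · have h2 : D.P (C.e (k - 1) z - C.e k z) = 0 := by
      rw [← neg_sub, map_neg, h1, neg_zero]
    rw [h2, inner_zero_left]
  · have h2 : D.P (C.e (k - 1) z - C.e k z) = C.e (k - 1) z - C.e k z := by
      rw [D.compl_apply, sub_eq_zero] at h1
      rw [← neg_sub, map_neg, ← h1]
    rw [h2, e_sub_par hcN z hk hk1, real_inner_smul_left, hY, mul_zero]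

/-- The length of the projection of the polygon is stationary if the initial point is fixed. -/
theorem SP_deriv (hC : IsC1 C) (hc : 1 ≤ c) (hcN : c ≤ C.N) {z : Z} (hz : z ∈ SA C D h c)
    (h0 : D.P (C.e 0 z) ≠ 0) {ζ : Z} (hζ : fderiv ℝ (C.x 0) z ζ = 0) :
    fderiv ℝ (SP C D h c) z ζ = 0 := by
  have hne : ∀ k < c, D.P (C.e k z) ≠ 0 := fun k hk => P_ne hcN hz h0 hk
  have hSP := (SP_cd h D hC hcN hz.1 hne).differentiableAt one_ne_zero
  have hw : ∀ k, ∃ w' : E, k < c → (HasDerivAt (fun t : ℝ => wv C D k (z + t • ζ)) w' 0 ∧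
      ⟪w', C.e k z⟫_ℝ = 0) := by
    intro k
    by_cases hk : k < c
    · have he := line_deriv (((hC k (by omega) z hz.1).2).differentiableAt one_ne_zero) ζ
      have h1 : HasDerivAt (fun t : ℝ => D.P (C.e k (z + t • ζ))) (D.P (fderiv ℝ (C.e k) z ζ)) 0 :=
        D.P.hasFDerivAt.comp_hasDerivAt (0 : ℝ) he
      have h2 : D.P (C.e k (z + (0 : ℝ) • ζ)) ≠ 0 := by
        rw [zero_smul, add_zero]; exact hne k hk
      obtain ⟨w', hw1, hw2⟩ := hasDerivAt_unit h1 h2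
      refine ⟨w', fun _ => ⟨hw1, ?_⟩⟩
      have h3 : HasDerivAt (fun t : ℝ => D.P (wv C D k (z + t • ζ))) (D.P w') 0 :=
        D.P.hasFDerivAt.comp_hasDerivAt (0 : ℝ) hw1
      have h4 : (fun t : ℝ => D.P (wv C D k (z + t • ζ))) = fun t : ℝ => wv C D k (z + t • ζ) := by
        funext t
        unfold wv
        rw [map_smul, D.idem]
      rw [h4] at h3
      have h5 : D.P w' = w' := h3.unique hw1
      rw [zero_smul, add_zero, ← D.symm, h5] at hw2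
      exact hw2
    · exact ⟨0, fun hk' => absurd hk' hk⟩
  choose w' hw' using hw
  obtain ⟨Y, hYdef⟩ : ∃ Y : ℕ → E, ∀ k, Y k = fderiv ℝ (yv C h c k) z ζ := ⟨_, fun _ => rfl⟩
  have hYd : ∀ k, HasDerivAt (fun t : ℝ => yv C h c k (z + t • ζ)) (Y k) 0 := by
    intro k
    rw [hYdef]
    exact line_deriv ((yv_cd h hC hcN hz.1 k).differentiableAt one_ne_zero) ζ
  have hY0 : Y 0 = 0 := by
    rw [hYdef, ← hζ]
    unfold yv
    simp only [if_pos (show 0 < c by omega)]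
  have hYc : Y c = 0 := by
    refine (hYd c).unique ?_
    unfold yv
    simp only [if_neg (lt_irrefl c)]
    have h1 := line_deriv (((hC 0 (Nat.zero_le _) z hz.1).1).differentiableAt one_ne_zero) ζ
    rw [hζ] at h1
    have h2 := (((isom_cd h).differentiable one_ne_zero) (C.x 0 (z + (0 : ℝ) • ζ))).hasFDerivAt
    have h3 := h2.comp_hasDerivAt (0 : ℝ) h1
    rw [map_zero] at h3
    exact h3
  have hYt : ∀ k, 1 ≤ k → k < c → ⟪C.n k z, Y k⟫_ℝ = 0 := by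
    intro k h1 h2
    rw [hYdef]
    have h3 : yv C h c k = C.x k := by
      funext z; unfold yv; rw [if_pos h2]
    rw [h3]
    exact C.tan k (by omega) z hz.1 ζ
  refine line_fderiv hSP ζ ?_
  have hsum : HasDerivAt (fun t : ℝ => SP C D h c (z + t • ζ))
      (∑ k ∈ Finset.range c, (⟪wv C D k (z + (0 : ℝ) • ζ), Y (k + 1) - Y k⟫_ℝ +
        ⟪w' k, yv C h c (k + 1) (z + (0 : ℝ) • ζ) - yv C h c k (z + (0 : ℝ) • ζ)⟫_ℝ)) 0 := by
    unfold SP
    refine HasDerivAt.fun_sum fun k hk => ?_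
    rw [Finset.mem_range] at hk
    exact (hw' k hk).1.inner ℝ ((hYd (k + 1)).sub (hYd k))
  have heq : (∑ k ∈ Finset.range c, (⟪wv C D k (z + (0 : ℝ) • ζ), Y (k + 1) - Y k⟫_ℝ +
        ⟪w' k, yv C h c (k + 1) (z + (0 : ℝ) • ζ) - yv C h c k (z + (0 : ℝ) • ζ)⟫_ℝ)) = 0 := by
    rw [zero_smul, add_zero, Finset.sum_add_distrib]
    rw [sum_parts (fun k => wv C D k z) Y c hY0 hYc ?_]
    · rw [zero_add]
      refine Finset.sum_eq_zero fun k hk => ?_
      rw [Finset.mem_range] at hk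
      rw [yv_step hcN hz.2.1 hk, inner_smul_right, (hw' k hk).2, mul_zero]
    · intro k h1 h2
      have h3 := P_sub_par hcN hz h2 h1 (hYt k h1 h2)
      unfold wv
      rw [P_norm hcN hz h2, P_norm hcN hz (show k - 1 < c by omega), ← smul_sub,
        real_inner_smul_left, h3, mul_zero]
  rw [heq] at hsum
  exact hsum

/-- The equation satisfied by the closed polygons. -/
noncomputable def psi (C : Chn E Z) (D : Proj E) (h : E ≃ᵃⁱ[ℝ] E) (c : ℕ) (z : Z) : ℝ :=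
  ‖D.compl.P (C.e 0 z)‖ * SP C D h c z - ‖D.P (C.e 0 z)‖ * SP C D.compl h c z

theorem psi_zero (hcN : c ≤ C.N) {z : Z} (hz : z ∈ SA C D h c) : psi C D h c z = 0 := by
  have hz' : z ∈ SA C D.compl h c := by rw [SA_compl]; exact hz
  unfold psi
  rw [SP_eq hcN hz, SP_eq hcN hz']
  ring

theorem psi_cd (hC : IsC1 C) (hcN : c ≤ C.N) {z : Z} (hz : z ∈ SA C D h c)
    (h0 : D.P (C.e 0 z) ≠ 0) (h1 : D.compl.P (C.e 0 z) ≠ 0) :
    ContDiffAt ℝ 1 (psi C D h c) z := by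
  have hz' : z ∈ SA C D.compl h c := by rw [SA_compl]; exact hz
  have e0 := (hC 0 (Nat.zero_le _) z hz.1).2
  have a1 := (D.P.contDiff.contDiffAt.comp z e0).norm ℝ h0
  have a2 := (D.compl.P.contDiff.contDiffAt.comp z e0).norm ℝ h1
  have a3 := SP_cd h D hC hcN hz.1 (fun k hk => P_ne hcN hz h0 hk)
  have a4 := SP_cd h D.compl hC hcN hz.1 (fun k hk => P_ne hcN hz' h1 hk)
  exact (a2.mul a3).sub (a1.mul a4)

theorem psi_deriv (hC : IsC1 C) (hc : 1 ≤ c) (hcN : c ≤ C.N) {z : Z} (hz : z ∈ SA C D h c)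
    (h0 : D.P (C.e 0 z) ≠ 0) (h1 : D.compl.P (C.e 0 z) ≠ 0) : fderiv ℝ (psi C D h c) z ≠ 0 := by
  have hz' : z ∈ SA C D.compl h c := by rw [SA_compl]; exact hz
  obtain ⟨a, ha⟩ : ∃ a, a = ‖D.P (C.e 0 z)‖ := ⟨_, rfl⟩
  obtain ⟨b, hb⟩ : ∃ b, b = ‖D.compl.P (C.e 0 z)‖ := ⟨_, rfl⟩
  have ha0 : 0 < a := by rw [ha]; exact norm_pos_iff.2 h0
  have hb0 : 0 < b := by rw [hb]; exact norm_pos_iff.2 h1
  have hab : a ^ 2 + b ^ 2 = 1 := by
    rw [ha, hb, D.norm_add, e_norm hcN hz.1 (by omega)]; norm_num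
  have hee : ⟪C.e 0 z, D.P (C.e 0 z)⟫_ℝ = a ^ 2 := by
    rw [real_inner_comm, D.inner_self, ha]
  have hee' : ⟪C.e 0 z, D.compl.P (C.e 0 z)⟫_ℝ = b ^ 2 := by
    rw [real_inner_comm, D.compl.inner_self, hb]
  obtain ⟨ζ, hζ1, hζ2⟩ := C.surj z hz.1 0
    (a ^ 2 • D.compl.P (C.e 0 z) - b ^ 2 • D.P (C.e 0 z)) (inner_zero_right _) (by
      rw [inner_sub_right, inner_smul_right, inner_smul_right, hee, hee']; ring)
  have hT := TL_pos hc hcN hz.1
  have e0 := (hC 0 (Nat.zero_le _) z hz.1).2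
  have hE := line_deriv (e0.differentiableAt one_ne_zero) ζ
  rw [hζ2] at hE
  have hPP : D.P (a ^ 2 • D.compl.P (C.e 0 z) - b ^ 2 • D.P (C.e 0 z)) =
      -(b ^ 2 • D.P (C.e 0 z)) := by
    rw [map_sub, map_smul, map_smul, D.idem, D.compl_apply, map_sub, D.idem, sub_self, smul_zero,
      zero_sub]
  have hQQ : D.compl.P (a ^ 2 • D.compl.P (C.e 0 z) - b ^ 2 • D.P (C.e 0 z)) =
      a ^ 2 • D.compl.P (C.e 0 z) := by
    rw [map_sub, map_smul, map_smul, D.compl.idem, D.compl_apply (D.P (C.e 0 z)), D.idem, sub_self,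
      smul_zero, sub_zero]
  have d1 : HasDerivAt (fun t : ℝ => ‖D.P (C.e 0 (z + t • ζ))‖) (-(b ^ 2 * a)) 0 := by
    have h2 : HasDerivAt (fun t : ℝ => D.P (C.e 0 (z + t • ζ))) (-(b ^ 2 • D.P (C.e 0 z))) 0 := by
      rw [← hPP]; exact D.P.hasFDerivAt.comp_hasDerivAt (0 : ℝ) hE
    have h3 := hasDerivAt_norm' h2 (by rw [zero_smul, add_zero]; exact h0)
    rw [zero_smul, add_zero, inner_neg_right, inner_smul_right, real_inner_self_eq_norm_sq,
      ← ha] at h3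
    convert h3 using 1
    field_simp
  have d2 : HasDerivAt (fun t : ℝ => ‖D.compl.P (C.e 0 (z + t • ζ))‖) (a ^ 2 * b) 0 := by
    have h2 : HasDerivAt (fun t : ℝ => D.compl.P (C.e 0 (z + t • ζ)))
        (a ^ 2 • D.compl.P (C.e 0 z)) 0 := by
      rw [← hQQ]; exact D.compl.P.hasFDerivAt.comp_hasDerivAt (0 : ℝ) hE
    have h3 := hasDerivAt_norm' h2 (by rw [zero_smul, add_zero]; exact h1)
    rw [zero_smul, add_zero, inner_smul_right, real_inner_self_eq_norm_sq, ← hb] at h3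
    convert h3 using 1
    field_simp
  have a3 := SP_cd h D hC hcN hz.1 (fun k hk => P_ne hcN hz h0 hk)
  have a4 := SP_cd h D.compl hC hcN hz.1 (fun k hk => P_ne hcN hz' h1 hk)
  have d3 := line_deriv (a3.differentiableAt one_ne_zero) ζ
  have d4 := line_deriv (a4.differentiableAt one_ne_zero) ζ
  rw [SP_deriv hC hc hcN hz h0 hζ1] at d3
  rw [SP_deriv hC hc hcN hz' h1 hζ1] at d4
  have d5 := (d2.mul d3).sub (d1.mul d4)
  have d6 : fderiv ℝ (psi C D h c) z ζ = a * b * TL C c z := by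
    refine line_fderiv ((psi_cd hC hcN hz h0 h1).differentiableAt one_ne_zero) ζ ?_
    have heq : (a ^ 2 * b * SP C D h c (z + (0 : ℝ) • ζ) +
        ‖D.compl.P (C.e 0 (z + (0 : ℝ) • ζ))‖ * 0 -
        (-(b ^ 2 * a) * SP C D.compl h c (z + (0 : ℝ) • ζ) +
          ‖D.P (C.e 0 (z + (0 : ℝ) • ζ))‖ * 0)) = a * b * TL C c z := by
      rw [zero_smul, add_zero, SP_eq hcN hz, SP_eq hcN hz', ← ha, ← hb]
      linear_combination (a * b * TL C c z) * hab
    rw [heq] at d5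
    exact d5
  intro hcon
  rw [hcon, _root_.zero_apply] at d6
  have := mul_pos (mul_pos ha0 hb0) hT
  linarith

/-- If the initial direction is orthogonal to a fixed nonzero vector `f` which moves it, the function
`⟪f, e 0⟫` is an equation. -/
theorem lin_deriv (hC : IsC1 C) {z : Z} (hz : z ∈ C.U) {f : E} (hf : f ≠ 0)
    (h0 : ⟪C.e 0 z, f⟫_ℝ = 0) :
    ContDiffAt ℝ 1 (fun z => ⟪C.e 0 z, f⟫_ℝ) z ∧ fderiv ℝ (fun z => ⟪C.e 0 z, f⟫_ℝ) z ≠ 0 := by
  have e0 := (hC 0 (Nat.zero_le _) z hz).2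
  have h1 : ContDiffAt ℝ 1 (fun z => ⟪C.e 0 z, f⟫_ℝ) z := e0.inner ℝ contDiffAt_const
  refine ⟨h1, ?_⟩
  obtain ⟨ζ, -, hζ2⟩ := C.surj z hz 0 f (inner_zero_right _) h0
  have hE := line_deriv (e0.differentiableAt one_ne_zero) ζ
  rw [hζ2] at hE
  have h2 := hE.inner ℝ (hasDerivAt_const (0 : ℝ) f)
  intro hcon
  have h3 := line_fderiv (h1.differentiableAt one_ne_zero) ζ h2
  rw [hcon, _root_.zero_apply, inner_zero_right, zero_add,
    real_inner_self_eq_norm_sq] at h3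
  exact hf (norm_eq_zero.1 (pow_eq_zero_iff two_ne_zero |>.1 h3.symm))

/-- **The closed polygons with split mirrors form a set of codimension one.** -/
theorem SA_dim [FiniteDimensional ℝ Z] {d' : ℕ} (hd : Module.finrank ℝ Z = d' + 1) (hC : IsC1 C)
    (hc : 1 ≤ c) (hcN : c ≤ C.N) (hP : ∃ v, D.P v ≠ 0) (hQ : ∃ v, D.compl.P v ≠ 0) :
    dimH (SA C D h c) ≤ (d' : ℝ≥0∞) := by
  obtain ⟨f, hf⟩ := hP
  obtain ⟨f2, hf2⟩ := hQ
  have hcase : SA C D h c ⊆ ({z | z ∈ SA C D h c ∧ D.P (C.e 0 z) ≠ 0 ∧ D.compl.P (C.e 0 z) ≠ 0}) ∪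
      ({z | z ∈ C.U ∧ ⟪C.e 0 z, D.P f⟫_ℝ = 0} ∪ {z | z ∈ C.U ∧ ⟪C.e 0 z, D.compl.P f2⟫_ℝ = 0}) := by
    intro z hz
    by_cases h1 : D.P (C.e 0 z) = 0
    · exact Or.inr (Or.inl ⟨hz.1, by rw [← D.symm, h1, inner_zero_left]⟩)
    · by_cases h2 : D.compl.P (C.e 0 z) = 0
      · exact Or.inr (Or.inr ⟨hz.1, by rw [← D.compl.symm, h2, inner_zero_left]⟩)
      · exact Or.inl ⟨hz, h1, h2⟩
  refine (dimH_mono hcase).trans ?_
  rw [dimH_union, dimH_union]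
  refine max_le ?_ (max_le ?_ ?_)
  · refine dim_hyper hd _ fun z hz => ⟨psi C D h c, psi_cd hC hcN hz.1 hz.2.1 hz.2.2,
      psi_deriv hC hc hcN hz.1 hz.2.1 hz.2.2, Eventually.of_forall fun z' hz' => ?_⟩
    exact psi_zero hcN hz'.1
  · refine dim_hyper hd _ fun z hz => ⟨fun z => ⟪C.e 0 z, D.P f⟫_ℝ,
      (lin_deriv hC hz.1 hf hz.2).1, (lin_deriv hC hz.1 hf hz.2).2,
      Eventually.of_forall fun z' hz' => hz'.2⟩
  · refine dim_hyper hd _ fun z hz => ⟨fun z => ⟪C.e 0 z, D.compl.P f2⟫_ℝ,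
      (lin_deriv hC hz.1 hf2 hz.2).1, (lin_deriv hC hz.1 hf2 hz.2).2,
      Eventually.of_forall fun z' hz' => hz'.2⟩

end Pool.Agent.V7H61.IV
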