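import Pool.Agent.V7H61.IV.Mv7

/-!
The local reflection map of a mirror, with its derivative.
-/

set_option autoImplicit false

open MeasureTheory Set Filter Topology
open scoped InnerProductSpace ENNReal
open Pool.Agent.H721R2.Quart Pool.Agent.H721R2.Ivrii Pool.Agent.TH746

namespace Pool.Agent.V7H61.IV

variable {E : Type*} [NormedAddCommGroup E] [InnerProductSpace ℝ E] [FiniteDimensional ℝ E]

/-- The derivative of the gradient. -/
theorem grad_deriv {F : E → ℝ} {x : E} (hF : ContDiffAt ℝ 3 F x) :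
    ContDiffAt ℝ 2 (gradient F) x ∧
    (∀ X Y, ⟪fderiv ℝ (gradient F) x X, Y⟫_ℝ = fderiv ℝ (fderiv ℝ F) x X Y) ∧
    ∀ X Y, fderiv ℝ (fderiv ℝ F) x X Y = fderiv ℝ (fderiv ℝ F) x Y X := by
  have h1 : ContDiffAt ℝ 2 (fderiv ℝ F) x := hF.fderiv_right (by norm_num)
  have h2 : ContDiffAt ℝ 2 (gradient F) x :=
    (InnerProductSpace.toDual ℝ E).symm.contDiff.contDiffAt.comp x h1
  refine ⟨h2, ?_, ?_⟩
  · intro X Y
    have h3 : (fun z => fderiv ℝ F z Y) = fun z => ⟪gradient F z, Y⟫_ℝ := by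
      funext z
      exact G4_fderiv_eq F z Y
    have h4 : HasFDerivAt (fun z => fderiv ℝ F z Y)
        ((ContinuousLinearMap.apply ℝ ℝ Y).comp (fderiv ℝ (fderiv ℝ F) x)) x := by
      have h5 := (h1.differentiableAt (by norm_num)).hasFDerivAt
      exact (ContinuousLinearMap.apply ℝ ℝ Y).hasFDerivAt.comp x h5
    have h6 := ((h2.differentiableAt (by norm_num)).hasFDerivAt).inner ℝ
      (hasFDerivAt_const Y x)
    rw [h3] at h4
    have h7 := h4.unique h6
    have h8 := congrArg (fun f : E →L[ℝ] ℝ => f X) h7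
    simp only [ContinuousLinearMap.comp_apply, ContinuousLinearMap.apply_apply,
      fderivInnerCLM_apply, ContinuousLinearMap.prod_apply] at h8
    rw [h8]
    simp
  · intro X Y
    exact (hF.isSymmSndFDerivAt (by norm_num)) X Y

/-- The point where the ray meets the boundary. -/
def hitX (T : E × E → ℝ) (z : E × E) : E := z.1 + T z • z.2

/-- The factor of the gradient in the reflection. -/
noncomputable def muR (F : E → ℝ) (T : E × E → ℝ) (z : E × E) : ℝ :=
  -(2 * ⟪gradient F (hitX T z), z.2⟫_ℝ / ‖gradient F (hitX T z)‖ ^ 2)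

/-- The reflection map. -/
noncomputable def RR (F : E → ℝ) (T : E × E → ℝ) (z : E × E) : E × E :=
  (hitX T z, z.2 + muR F T z • gradient F (hitX T z))

/-- The points near which the reflection map is regular. -/
structure Good (F : E → ℝ) (T : E × E → ℝ) (z : E × E) : Prop where
  cT : ContDiffAt ℝ 3 T z
  cF : ContDiffAt ℝ 3 F (hitX T z)
  z0 : ∀ᶠ z' in 𝓝 z, F (hitX T z') = 0
  g0 : gradient F (hitX T z) ≠ 0
  tr : ⟪gradient F (hitX T z), z.2⟫_ℝ ≠ 0

omit [FiniteDimensional ℝ E] in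
theorem rf_dir' (g v : E) : rf (dir g) v = v + (-(2 * ⟪g, v⟫_ℝ / ‖g‖ ^ 2)) • g := by
  rw [rf_dir, real_inner_comm, neg_smul, ← sub_eq_add_neg]

theorem RR_eq (F : E → ℝ) (T : E × E → ℝ) (z : E × E) :
    RR F T z = (z.1 + T z • z.2, rf (dir (gradient F (z.1 + T z • z.2))) z.2) := by
  rw [rf_dir']
  rfl

/-- The local reflection map of a mirror. -/
theorem exists_bounceC {Ω : Set E} {F : E → ℝ} {q v : E} {τ : ℝ}
    (hF : LocalDef Ω (q + τ • v) F) (ht : ⟪gradient F (q + τ • v), v⟫_ℝ ≠ 0) :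
    ∃ T : E × E → ℝ, T (q, v) = τ ∧ (∀ᶠ z in 𝓝 (q, v), Good F T z) ∧
      ∀ᶠ y : (E × E) × ℝ in 𝓝 ((q, v), τ), ∀ F' : E → ℝ, LocalDef Ω (y.1.1 + y.2 • y.1.2) F' →
        T y.1 = y.2 ∧ LocalDef Ω (y.1.1 + y.2 • y.1.2) F ∧
        RR F T y.1 = (y.1.1 + y.2 • y.1.2, rf (dir (gradient F' (y.1.1 + y.2 • y.1.2))) y.1.2) := by
  obtain ⟨T, hT1, hT2, hT3, hT4⟩ := exists_hit hF.smooth hF.zero (by rw [G4_fderiv_eq]; exact ht)
  have hTc : ContinuousAt T (q, v) := hT1.continuousAt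
  have hxc : ContinuousAt (fun z : E × E => z.1 + T z • z.2) (q, v) :=
    continuousAt_fst.add (hTc.smul continuousAt_snd)
  have hx : Tendsto (hitX T) (𝓝 (q, v)) (𝓝 (q + τ • v)) := by
    have h2 := hxc.tendsto
    simp only [hT2] at h2
    exact h2
  refine ⟨T, hT2, ?_, ?_⟩
  · have h1 : ∀ᶠ z in 𝓝 (q, v), ContDiffAt ℝ 3 T z := hT1.eventually (by simp)
    have h3 : ∀ᶠ x in 𝓝 (q + τ • v), ContDiffAt ℝ 3 F x := hF.smooth.eventually (by simp)
    have h4 : ContinuousAt (gradient F) (q + τ • v) := (grad_deriv hF.smooth).1.continuousAt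
    have h5 := h4.eventually_ne hF.grad
    have h7 : Tendsto (fun z : E × E => ⟪gradient F (hitX T z), z.2⟫_ℝ) (𝓝 (q, v))
        (𝓝 ⟪gradient F (q + τ • v), v⟫_ℝ) :=
      (h4.tendsto.comp hx).inner (continuous_snd.tendsto ((q, v) : E × E))
    filter_upwards [h1, hx.eventually h3, hx.eventually h5, eventually_eventually_nhds.2 hT3,
      h7.eventually_ne ht] with z k1 k2 k3 k4 k5
    exact ⟨k1, k2, k4, k3, k5⟩
  · have hφ : Tendsto (fun y : (E × E) × ℝ => y.1.1 + y.2 • y.1.2)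
        (𝓝 ((q, v), τ)) (𝓝 (q + τ • v)) := by
      have c1 : Continuous (fun y : (E × E) × ℝ => y.1.1 + y.2 • y.1.2) := by fun_prop
      exact c1.tendsto ((q, v), τ)
    filter_upwards [hT4, hφ.eventually (localDef_near hF)] with y h1 h2 F' hF'
    have h3 := h2 F' hF'
    have h4 := h1 h3.zero
    obtain ⟨l, hl, hl2⟩ := grad_parallel h3 hF'
    refine ⟨h4.symm, h3, ?_⟩
    rw [RR_eq, ← h4, hl2, rf_dir_smul _ hl]

/-- The reflection map is continuously differentiable. -/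
theorem good_contDiff {F : E → ℝ} {T : E × E → ℝ} {z : E × E} (h : Good F T z) :
    ContDiffAt ℝ 1 (hitX T) z ∧ ContDiffAt ℝ 1 (fun z => gradient F (hitX T z)) z ∧
    ContDiffAt ℝ 1 (muR F T) z ∧ ContDiffAt ℝ 1 (RR F T) z := by
  have cT : ContDiffAt ℝ 1 T z := h.cT.of_le (by norm_num)
  have c1 : ContDiffAt ℝ 1 (hitX T) z := contDiffAt_fst.add (cT.smul contDiffAt_snd)
  have c2 : ContDiffAt ℝ 1 (gradient F) (hitX T z) := (grad_deriv h.cF).1.of_le (by norm_num)
  have c3 : ContDiffAt ℝ 1 (fun z => gradient F (hitX T z)) z := c2.comp z c1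
  have c4 : ContDiffAt ℝ 1 (muR F T) z := by
    unfold muR
    refine ((contDiffAt_const.mul (c3.inner ℝ contDiffAt_snd)).div (c3.norm_sq ℝ) ?_).neg
    exact pow_ne_zero 2 (norm_ne_zero_iff.2 h.g0)
  exact ⟨c1, c3, c4, c1.prodMk (contDiffAt_snd.add (c4.smul c3))⟩

/-- The speed is preserved. -/
theorem RR_norm (F : E → ℝ) (T : E × E → ℝ) (z : E × E) :
    ⟪(RR F T z).2, (RR F T z).2⟫_ℝ = ⟪z.2, z.2⟫_ℝ := by
  by_cases h : gradient F (hitX T z) = 0
  · simp only [RR, h, smul_zero, add_zero]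
  · have h1 : (RR F T z).2 = rf (dir (gradient F (hitX T z))) z.2 := by
      rw [RR_eq]; rfl
    rw [h1, G3_rf_inner (dir_unit h)]

end Pool.Agent.V7H61.IV
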