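import Pool.Agent.V7H61.IV.Tw9

/-!
Periodic orbits with few bounces.
-/

set_option autoImplicit false

open MeasureTheory Set Filter Topology
open scoped InnerProductSpace ENNReal NNReal
open Pool.Agent.H721R2.Quart Pool.Agent.H721R2.Ivrii Pool.Agent.TH746

namespace Pool.Agent.V7H61.IV

variable {E : Type*} [NormedAddCommGroup E] [InnerProductSpace ℝ E] [FiniteDimensional ℝ E]
  {ι : Type*} {V : Type*} [NormedAddCommGroup V] [NormedSpace ℝ V]

/-- Among `n` things of more than `n / 3` kinds there are at most two of some kind. -/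
theorem exists_few {i : ℕ → ι} {n : ℕ} (h : n < 3 * (i '' Set.Ioc 0 n).ncard) :
    ∃ k0, 0 < k0 ∧ k0 ≤ n ∧ ((∀ k, 0 < k → k ≤ n → k ≠ k0 → i k ≠ i k0) ∨
      ∃ k1, k0 < k1 ∧ k1 ≤ n ∧ i k1 = i k0 ∧
        ∀ k, 0 < k → k ≤ n → k ≠ k0 → k ≠ k1 → i k ≠ i k0) := by
  classical
  obtain ⟨J, hJ⟩ : ∃ J : Finset ι, J = (Finset.Ioc 0 n).image i := ⟨_, rfl⟩
  have hJc : (i '' Set.Ioc 0 n).ncard = J.card := by
    rw [hJ, ← Set.ncard_coe_finset, Finset.coe_image, Finset.coe_Ioc]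
  rw [hJc] at h
  have h1 := Finset.card_eq_sum_card_image i (Finset.Ioc 0 n)
  rw [Nat.card_Ioc, Nat.sub_zero, ← hJ] at h1
  obtain ⟨j, hj, hj3⟩ : ∃ j ∈ J, (Finset.filter (fun k => i k = j) (Finset.Ioc 0 n)).card < 3 := by
    by_contra hcon
    push Not at hcon
    have h2 := Finset.card_nsmul_le_sum J _ 3 hcon
    rw [← h1, smul_eq_mul] at h2
    omega
  obtain ⟨S, hS⟩ : ∃ S : Finset ℕ, S = Finset.filter (fun k => i k = j) (Finset.Ioc 0 n) :=
    ⟨_, rfl⟩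
  rw [← hS] at hj3
  have hmem : ∀ k, k ∈ S ↔ (0 < k ∧ k ≤ n) ∧ i k = j := by
    intro k
    rw [hS, Finset.mem_filter, Finset.mem_Ioc]
  have hne : S.Nonempty := by
    rw [hJ] at hj
    obtain ⟨k, hk, hk2⟩ := Finset.mem_image.1 hj
    exact ⟨k, (hmem k).2 ⟨Finset.mem_Ioc.1 hk, hk2⟩⟩
  obtain ⟨k0, hk0, hmin⟩ : ∃ k0 ∈ S, ∀ k ∈ S, k0 ≤ k := ⟨S.min' hne, S.min'_mem hne,
    fun k hk => S.min'_le k hk⟩
  obtain ⟨⟨a1, a2⟩, a3⟩ := (hmem k0).1 hk0
  refine ⟨k0, a1, a2, ?_⟩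
  by_cases hone : ∀ k ∈ S, k = k0
  · left
    intro k hk hkn hkk hik
    exact hkk (hone k ((hmem k).2 ⟨⟨hk, hkn⟩, hik.trans a3⟩))
  · right
    push Not at hone
    obtain ⟨k1, hk1, hk10⟩ := hone
    obtain ⟨⟨b1, b2⟩, b3⟩ := (hmem k1).1 hk1
    refine ⟨k1, lt_of_le_of_ne (hmin k1 hk1) (Ne.symm hk10), b2, b3.trans a3.symm, ?_⟩
    intro k hk hkn hk0' hk1' hik
    have hkS : k ∈ S := (hmem k).2 ⟨⟨hk, hkn⟩, hik.trans a3⟩
    have h3 : ({k0, k1, k} : Finset ℕ) ⊆ S := by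
      intro m hm
      simp only [Finset.mem_insert, Finset.mem_singleton] at hm
      rcases hm with rfl | rfl | rfl
      · exact hk0
      · exact hk1
      · exact hkS
    have h4 := Finset.card_le_card h3
    have h5 : ({k0, k1, k} : Finset ℕ).card = 3 := by
      rw [Finset.card_eq_three]
      exact ⟨k0, k1, k, Ne.symm hk10, Ne.symm hk0', Ne.symm hk1', rfl⟩
    omega

/-- The phase points whose orbit is periodic modulo `Γ`, with `n` bounces in a period, all at parts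
which can be moved and scaled independently of the other ones, at points where the second
fundamental form is nondegenerate, more than `n / 3` different parts being hit. -/
def FewSet (Γ : Set (E ≃ᵃⁱ[ℝ] E)) (Λ : Set E) (Ωs : ι → Set E) (A : V →ₗ[ℝ] (ι → E × ℝ))
    (y : ι → E × ℝ) (Ω : Set E) : Set (E × E) :=
  {z | ∃ g ∈ Γ, ∃ (n : ℕ) (p u : ℕ → E), OrbitMod Ω g n p u ∧ (p 0, u 0) = z ∧
    ∃ (i : ℕ → ι) (c : ℕ → E), (∀ m, Labels Λ Ωs y Ω p 0 m i c) ∧ (∀ k, i (k + n) = i k) ∧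
      (∀ k, 0 < k → k ≤ n → (∀ x, Motion A (i k) x) ∧
        ∀ X, Still (Ωs (i k)) ((y (i k)).2⁻¹ • (p k - ((y (i k)).1 + c k))) X → X = 0) ∧
      n < 3 * (i '' Set.Ioc 0 n).ncard}

theorem few_sub [Nontrivial E] (Γ : Set (E ≃ᵃⁱ[ℝ] E)) (Λ : Set E) (Ωs : ι → Set E)
    (A : V →ₗ[ℝ] (ι → E × ℝ)) (y : ι → E × ℝ) (Ω : Set E) :
    FewSet Γ Λ Ωs A y Ω ⊆ OneSet Γ Λ Ωs A y Ω ∪ TwiceSet Γ Λ Ωs A y Ω := by
  rintro z ⟨g, hg, n, p, u, hor, rfl, i, c, hlab, hper, hnd, hcard⟩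
  obtain ⟨k0, h0, h0n, hk⟩ := exists_few hcard
  have hw : ∀ k, n < k → k ≤ k0 - 1 + n → 0 < k - n ∧ k - n ≤ n ∧ k - n < k0 ∧
      i (k - n) = i k := by
    intro k h1 h2
    refine ⟨by omega, by omega, by omega, ?_⟩
    have h3 := hper (k - n)
    rw [show k - n + n = k by omega] at h3
    exact h3.symm
  have e0 : k0 - 1 + 1 = k0 := by omega
  have hlab' : Labels Λ Ωs y Ω p (k0 - 1) n i c := by
    intro k h1 h2
    exact hlab k k (by omega) (by omega)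
  rcases hk with hk | ⟨k1, h01, h1n, hik, hk⟩
  · left
    obtain ⟨X, hX⟩ := exists_ne (0 : E)
    refine ⟨g, hg, n, p, u, hor, rfl, i, c, k0 - 1, i k0, _, by omega, hlab', by rw [e0], ?_, rfl,
      (X, 0), (hnd k0 h0 h0n).1 _, ?_⟩
    · intro k h1 h2
      by_cases hkn : k ≤ n
      · exact hk k (by omega) hkn (by omega)
      · obtain ⟨w1, w2, w3, w4⟩ := hw k (by omega) h2
        rw [← w4]
        exact hk (k - n) w1 w2 (by omega)
    · rw [e0]
      intro hst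
      simp only [zero_smul, zero_add] at hst
      exact hX ((hnd k0 h0 h0n).2 X hst)
  · right
    refine ⟨g, hg, n, p, u, hor, rfl, i, c, k0 - 1, k1, i k0, _, _, by omega, hlab', by omega,
      by omega, by rw [e0], hik, ?_, rfl, rfl, (hnd k0 h0 h0n).1, ?_⟩
    · intro k h1 h2 h3
      by_cases hkn : k ≤ n
      · exact hk k (by omega) hkn (by omega) h3
      · obtain ⟨w1, w2, w3, w4⟩ := hw k (by omega) h2
        rw [← w4]
        exact hk (k - n) w1 w2 (by omega) (by omega)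
    · rw [e0]
      rintro ⟨w, hw0, -, hst⟩
      exact hw0 ((hnd k0 h0 h0n).2 w hst)

end Pool.Agent.V7H61.IV
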