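import Pool.Agent.V7H61.IV.Tw1

/-!
The variation of the symplectic form at a bounce off a moving mirror.
-/

set_option autoImplicit false

open MeasureTheory Set Filter Topology
open scoped InnerProductSpace ENNReal
open Pool.Agent.H721R2.Quart Pool.Agent.H721R2.Ivrii Pool.Agent.TH746

namespace Pool.Agent.V7H61.IV

variable {E Z : Type*} [NormedAddCommGroup E] [InnerProductSpace ℝ E] [FiniteDimensional ℝ E]
  [NormedAddCommGroup Z] [NormedSpace ℝ Z]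

/-- The derivatives at a bounce off a mirror moved by `a` and scaled by `s`. -/
theorem step_deriv {F : E → ℝ} {T : E × E → ℝ} {x e a : Z → E} {s : Z → ℝ} {y : Z}
    (hx : ContDiffAt ℝ 1 x y) (he : ContDiffAt ℝ 1 e y) (ha : ContDiffAt ℝ 1 a y)
    (hs : ContDiffAt ℝ 1 s y) (hs0 : s y ≠ 0)
    {w : Z → E × E} (hw : w = fun z => ((s z)⁻¹ • (x z - a z), e z))
    (hg : Good F T (w y)) {ρ m : Z → E} {μ : Z → ℝ} (hρ : ρ = fun z => hitX T (w z))
    (hm : m = fun z => gradient F (ρ z)) (hμ : μ = fun z => muR F T (w z))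
    {x' e' : Z → E} (hx' : x' = fun z => s z • ρ z + a z) (he' : e' = fun z => e z + μ z • m z) :
    (ContDiffAt ℝ 1 ρ y ∧ ContDiffAt ℝ 1 m y ∧ ContDiffAt ℝ 1 μ y ∧ ContDiffAt ℝ 1 x' y ∧
      ContDiffAt ℝ 1 e' y) ∧
    (∀ ζ, ⟪m y, fderiv ℝ ρ y ζ⟫_ℝ = 0) ∧
    (∀ ζ, fderiv ℝ m y ζ = fderiv ℝ (gradient F) (ρ y) (fderiv ℝ ρ y ζ)) ∧
    (∀ ζ, fderiv ℝ e' y ζ = fderiv ℝ e y ζ + (μ y • fderiv ℝ m y ζ + fderiv ℝ μ y ζ • m y)) ∧
    (∀ ζ, fderiv ℝ x' y ζ = s y • fderiv ℝ ρ y ζ + (fderiv ℝ s y ζ • ρ y + fderiv ℝ a y ζ)) ∧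
    (∀ ζ, ∃ l : ℝ, fderiv ℝ x' y ζ = fderiv ℝ x y ζ + (s y * T (w y)) • fderiv ℝ e y ζ +
      l • e y) := by
  obtain ⟨g1, g2, g3, g4⟩ := good_contDiff hg
  have cw : ContDiffAt ℝ 1 w y := by
    rw [hw]
    exact ((hs.inv hs0).smul (hx.sub ha)).prodMk he
  have cρ : ContDiffAt ℝ 1 ρ y := by rw [hρ]; exact g1.comp y cw
  have cm : ContDiffAt ℝ 1 m y := by
    rw [hm, hρ]; exact g2.comp y cw
  have cμ : ContDiffAt ℝ 1 μ y := by rw [hμ]; exact g3.comp y cw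
  have cT : ContDiffAt ℝ 1 (fun z => T (w z)) y := (hg.cT.of_le (by norm_num)).comp y cw
  have cx' : ContDiffAt ℝ 1 x' y := by rw [hx']; exact (hs.smul cρ).add ha
  have ce' : ContDiffAt ℝ 1 e' y := by rw [he']; exact he.add (cμ.smul cm)
  have dx := (hx.differentiableAt one_ne_zero)
  have de := (he.differentiableAt one_ne_zero)
  have da := (ha.differentiableAt one_ne_zero)
  have ds := (hs.differentiableAt one_ne_zero)
  have dρ := (cρ.differentiableAt one_ne_zero)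
  have dm := (cm.differentiableAt one_ne_zero)
  have dμ := (cμ.differentiableAt one_ne_zero)
  have dT := (cT.differentiableAt one_ne_zero)
  have dx' := (cx'.differentiableAt one_ne_zero)
  have de' := (ce'.differentiableAt one_ne_zero)
  refine ⟨⟨cρ, cm, cμ, cx', ce'⟩, ?_, ?_, ?_, ?_, ?_⟩
  · intro ζ
    have h1 : HasFDerivAt F (innerSL ℝ (gradient F (ρ y))) (ρ y) := by
      have h2 : DifferentiableAt ℝ F (ρ y) := by
        rw [hρ]; exact hg.cF.differentiableAt (by norm_num)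
      exact h2.hasGradientAt.hasFDerivAt
    have h2 : HasFDerivAt (fun z => F (ρ z)) ((innerSL ℝ (gradient F (ρ y))).comp (fderiv ℝ ρ y)) y :=
      h1.comp y dρ.hasFDerivAt
    have h3 : (fun z => F (ρ z)) =ᶠ[𝓝 y] fun _ => (0 : ℝ) := by
      have h4 := cw.continuousAt.eventually hg.z0
      filter_upwards [h4] with z hz
      rw [hρ]; exact hz
    have h4 := ((hasFDerivAt_const (0 : ℝ) y).congr_of_eventuallyEq h3).unique h2
    have h5 := congrArg (fun f : Z →L[ℝ] ℝ => f ζ) h4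
    simp only [ContinuousLinearMap.comp_apply, innerSL_apply_apply, _root_.zero_apply] at h5
    rw [hm]
    exact h5.symm
  · intro ζ
    have h1 : DifferentiableAt ℝ (gradient F) (ρ y) := by
      rw [hρ]; exact (grad_deriv hg.cF).1.differentiableAt (by norm_num)
    have h2 : HasFDerivAt m ((fderiv ℝ (gradient F) (ρ y)).comp (fderiv ℝ ρ y)) y := by
      rw [hm]
      exact h1.hasFDerivAt.comp y dρ.hasFDerivAt
    rw [h2.fderiv]
    rfl
  · intro ζ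
    have h1 := (line_deriv de ζ).add ((line_deriv dμ ζ).smul (line_deriv dm ζ))
    refine line_fderiv de' ζ ?_
    have h2 : (fun t : ℝ => e' (y + t • ζ)) = fun t : ℝ => e (y + t • ζ) +
        μ (y + t • ζ) • m (y + t • ζ) := by
      funext t; rw [he']
    rw [h2]
    refine h1.congr_deriv ?_
    rw [zero_smul, add_zero]
  · intro ζ
    have h1 := ((line_deriv ds ζ).smul (line_deriv dρ ζ)).add (line_deriv da ζ)
    refine line_fderiv dx' ζ ?_
    have h2 : (fun t : ℝ => x' (y + t • ζ)) = fun t : ℝ => s (y + t • ζ) • ρ (y + t • ζ) +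
        a (y + t • ζ) := by
      funext t; rw [hx']
    rw [h2]
    refine h1.congr_deriv ?_
    rw [zero_smul, add_zero, add_assoc]
  · intro ζ
    have h1 := (line_deriv dx ζ).add (((line_deriv ds ζ).mul (line_deriv dT ζ)).smul
      (line_deriv de ζ))
    have h0 : ∀ᶠ t : ℝ in 𝓝 0, s (y + t • ζ) ≠ 0 := by
      have h3 : Tendsto (fun t : ℝ => y + t • ζ) (𝓝 0) (𝓝 y) := by
        have h4 : Continuous fun t : ℝ => y + t • ζ := by fun_prop
        have h5 := h4.tendsto 0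
        simpa using h5
      exact h3.eventually (hs.continuousAt.eventually_ne hs0)
    have h2 : (fun t : ℝ => x' (y + t • ζ)) =ᶠ[𝓝 0] fun t : ℝ => x (y + t • ζ) +
        (s (y + t • ζ) * T (w (y + t • ζ))) • e (y + t • ζ) := by
      filter_upwards [h0] with t ht
      rw [hx', hρ, hw]
      simp only [hitX]
      rw [smul_add, smul_inv_smul₀ ht, mul_smul]
      abel
    have h3 := h1.congr_of_eventuallyEq h2
    have h4 := line_fderiv dx' ζ h3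
    simp only [Pi.mul_apply, zero_smul, add_zero] at h4
    exact ⟨_, by rw [h4, ← add_assoc]⟩

/-- The variation of the symplectic form at a bounce off a moving mirror. -/
theorem omega_move {F : E → ℝ} {r m : E} {xζ xη eζ eη e ρζ ρη mζ mη x'ζ x'η e'ζ e'η X : E}
    {μ μζ μη s L : ℝ} (hF : ContDiffAt ℝ 3 F r)
    (t1 : ⟪m, ρζ⟫_ℝ = 0) (t2 : ⟪m, ρη⟫_ℝ = 0)
    (m1 : mζ = fderiv ℝ (gradient F) r ρζ) (m2 : mη = fderiv ℝ (gradient F) r ρη)
    (e1 : e'ζ = eζ + (μ • mζ + μζ • m)) (e2 : e'η = eη + (μ • mη + μη • m))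
    (x1 : x'ζ = s • ρζ) (x2 : x'η = s • ρη + X)
    (y1 : ∃ l : ℝ, x'ζ = xζ + L • eζ + l • e) (y2 : ∃ l : ℝ, x'η = xη + L • eη + l • e)
    (n1 : ⟪e, eζ⟫_ℝ = 0) (n2 : ⟪e, eη⟫_ℝ = 0) :
    ⟪x'ζ, e'η⟫_ℝ - ⟪x'η, e'ζ⟫_ℝ = ⟪xζ, eη⟫_ℝ - ⟪xη, eζ⟫_ℝ - ⟪X, μ • mζ + μζ • m⟫_ℝ := by
  obtain ⟨l1, y1⟩ := y1
  obtain ⟨l2, y2⟩ := y2
  obtain ⟨-, g2, g3⟩ := grad_deriv hF
  have hsym : ⟪ρζ, mη⟫_ℝ = ⟪ρη, mζ⟫_ℝ := by
    rw [m1, m2, real_inner_comm, g2, real_inner_comm (fderiv ℝ (gradient F) r ρζ) ρη, g2, g3]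
  rw [real_inner_comm] at t1 t2
  have a1 : ⟪x'ζ, eη⟫_ℝ = ⟪xζ, eη⟫_ℝ + L * ⟪eζ, eη⟫_ℝ := by
    rw [y1, inner_add_left, inner_add_left, real_inner_smul_left, real_inner_smul_left, n2,
      mul_zero, add_zero]
  have a2 : ⟪x'η, eζ⟫_ℝ = ⟪xη, eζ⟫_ℝ + L * ⟪eη, eζ⟫_ℝ := by
    rw [y2, inner_add_left, inner_add_left, real_inner_smul_left, real_inner_smul_left, n1,
      mul_zero, add_zero]
  have b1 : ⟪x'ζ, μ • mη + μη • m⟫_ℝ = s * μ * ⟪ρζ, mη⟫_ℝ := by
    rw [x1, real_inner_smul_left, inner_add_right, inner_smul_right, inner_smul_right, t1]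
    ring
  have b2 : ⟪x'η, μ • mζ + μζ • m⟫_ℝ = s * μ * ⟪ρη, mζ⟫_ℝ + ⟪X, μ • mζ + μζ • m⟫_ℝ := by
    rw [x2, inner_add_left (s • ρη) X, real_inner_smul_left, inner_add_right ρη,
      inner_smul_right ρη, inner_smul_right ρη, t2]
    ring
  rw [e1, e2, inner_add_right x'ζ, inner_add_right x'η, a1, a2, b1, b2, hsym,
    real_inner_comm eζ eη]
  ring

end Pool.Agent.V7H61.IV
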