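import Pool.Agent.V7H61.IV.Tw2

/-!
The total momentum transferred to a part of the table.
-/

set_option autoImplicit false

open MeasureTheory Set Filter Topology
open scoped InnerProductSpace ENNReal
open Pool.Agent.H721R2.Quart Pool.Agent.H721R2.Ivrii Pool.Agent.TH746

namespace Pool.Agent.V7H61.IV

variable {E : Type*} [NormedAddCommGroup E] [InnerProductSpace ℝ E] [FiniteDimensional ℝ E]
  {ι : Type*} [Fintype ι]

/-- The reflection maps with given defining functions and hitting times. -/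
noncomputable def RF (F : ℕ → E → ℝ) (T : ℕ → E × E → ℝ) (k : ℕ) : E × E → E × E := RR (F k) (T k)

/-- The argument of the reflection map `k`. -/
noncomputable def Wk (F : ℕ → E → ℝ) (T : ℕ → E × E → ℝ) (i : ℕ → ι) (c : ℕ → E) (k : ℕ)
    (y : (ι → E × ℝ) × (E × E)) : E × E :=
  rel i c k y (st (RF F T) i c k y)

/-- The position of the bounce `k + 1` relative to its part. -/
noncomputable def rh (F : ℕ → E → ℝ) (T : ℕ → E × E → ℝ) (i : ℕ → ι) (c : ℕ → E) (k : ℕ)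
    (y : (ι → E × ℝ) × (E × E)) : E := hitX (T k) (Wk F T i c k y)

/-- The gradient at the bounce `k + 1`. -/
noncomputable def mk (F : ℕ → E → ℝ) (T : ℕ → E × E → ℝ) (i : ℕ → ι) (c : ℕ → E) (k : ℕ)
    (y : (ι → E × ℝ) × (E × E)) : E := gradient (F k) (rh F T i c k y)

/-- The factor of the gradient at the bounce `k + 1`. -/
noncomputable def mu (F : ℕ → E → ℝ) (T : ℕ → E × E → ℝ) (i : ℕ → ι) (c : ℕ → E) (k : ℕ)
    (y : (ι → E × ℝ) × (E × E)) : ℝ := muR (F k) (T k) (Wk F T i c k y)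

/-- The derivative of the momentum transferred at the bounce `k + 1`. -/
noncomputable def df (F : ℕ → E → ℝ) (T : ℕ → E × E → ℝ) (i : ℕ → ι) (c : ℕ → E) (k : ℕ)
    (y ζ : (ι → E × ℝ) × (E × E)) : E :=
  mu F T i c k y • fderiv ℝ (mk F T i c k) y ζ + fderiv ℝ (mu F T i c k) y ζ • mk F T i c k y

/-- All reflections are regular. -/
def Reg (F : ℕ → E → ℝ) (T : ℕ → E × E → ℝ) (i : ℕ → ι) (c : ℕ → E) (n : ℕ)
    (y : (ι → E × ℝ) × (E × E)) : Prop :=
  ∀ k < n, (y.1 (i k)).2 ≠ 0 ∧ Good (F k) (T k) (Wk F T i c k y)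

variable {F : ℕ → E → ℝ} {T : ℕ → E × E → ℝ} {i : ℕ → ι} {c : ℕ → E} {n : ℕ}
  {y : (ι → E × ℝ) × (E × E)}

omit [FiniteDimensional ℝ E] in
theorem a_smooth (k : ℕ) (ζ : (ι → E × ℝ) × (E × E)) :
    ContDiffAt ℝ 1 (fun y : (ι → E × ℝ) × (E × E) => (y.1 (i k)).1 + c k) y ∧
    fderiv ℝ (fun y : (ι → E × ℝ) × (E × E) => (y.1 (i k)).1 + c k) y ζ = (ζ.1 (i k)).1 ∧
    ContDiffAt ℝ 1 (fun y : (ι → E × ℝ) × (E × E) => (y.1 (i k)).2) y ∧
    fderiv ℝ (fun y : (ι → E × ℝ) × (E × E) => (y.1 (i k)).2) y ζ = (ζ.1 (i k)).2 := by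
  obtain ⟨P, hP⟩ : ∃ P : ((ι → E × ℝ) × (E × E)) →L[ℝ] E × ℝ, ∀ y, P y = y.1 (i k) :=
    ⟨(ContinuousLinearMap.proj (R := ℝ) (φ := fun _ : ι => E × ℝ) (i k)).comp
      (ContinuousLinearMap.fst ℝ (ι → E × ℝ) (E × E)), fun _ => rfl⟩
  have e1 : (fun y : (ι → E × ℝ) × (E × E) => (y.1 (i k)).1 + c k) = fun y =>
      ((ContinuousLinearMap.fst ℝ E ℝ).comp P) y + c k := by
    funext y
    simp only [ContinuousLinearMap.comp_apply, hP]
    rfl
  have e2 : (fun y : (ι → E × ℝ) × (E × E) => (y.1 (i k)).2) = fun y =>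
      ((ContinuousLinearMap.snd ℝ E ℝ).comp P) y := by
    funext y
    simp only [ContinuousLinearMap.comp_apply, hP]
    rfl
  rw [e1, e2]
  refine ⟨((ContinuousLinearMap.fst ℝ E ℝ).comp P).contDiff.contDiffAt.add contDiffAt_const, ?_,
    ((ContinuousLinearMap.snd ℝ E ℝ).comp P).contDiff.contDiffAt, ?_⟩
  · have h := (((ContinuousLinearMap.fst ℝ E ℝ).comp P).hasFDerivAt (x := y)).add_const (c k)
    rw [h.fderiv]
    simp only [ContinuousLinearMap.comp_apply, hP]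
    rfl
  · have h := (((ContinuousLinearMap.snd ℝ E ℝ).comp P).hasFDerivAt (x := y))
    rw [h.fderiv]
    simp only [ContinuousLinearMap.comp_apply, hP]
    rfl

theorem step_deriv' {k : ℕ} (hst : ContDiffAt ℝ 1 (st (RF F T) i c k) y)
    (h0 : (y.1 (i k)).2 ≠ 0) (hg : Good (F k) (T k) (Wk F T i c k y)) :
    (ContDiffAt ℝ 1 (rh F T i c k) y ∧ ContDiffAt ℝ 1 (mk F T i c k) y ∧
      ContDiffAt ℝ 1 (mu F T i c k) y ∧
      ContDiffAt ℝ 1 (fun y => (st (RF F T) i c (k + 1) y).1) y ∧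
      ContDiffAt ℝ 1 (fun y => (st (RF F T) i c (k + 1) y).2) y) ∧
    (∀ ζ, ⟪mk F T i c k y, fderiv ℝ (rh F T i c k) y ζ⟫_ℝ = 0) ∧
    (∀ ζ, fderiv ℝ (mk F T i c k) y ζ =
      fderiv ℝ (gradient (F k)) (rh F T i c k y) (fderiv ℝ (rh F T i c k) y ζ)) ∧
    (∀ ζ, fderiv ℝ (fun y => (st (RF F T) i c (k + 1) y).2) y ζ =
      fderiv ℝ (fun y => (st (RF F T) i c k y).2) y ζ + df F T i c k y ζ) ∧
    (∀ ζ, fderiv ℝ (fun y => (st (RF F T) i c (k + 1) y).1) y ζ =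
      (y.1 (i k)).2 • fderiv ℝ (rh F T i c k) y ζ +
        ((ζ.1 (i k)).2 • rh F T i c k y + (ζ.1 (i k)).1)) ∧
    (∀ ζ, ∃ l : ℝ, fderiv ℝ (fun y => (st (RF F T) i c (k + 1) y).1) y ζ =
      fderiv ℝ (fun y => (st (RF F T) i c k y).1) y ζ +
        ((y.1 (i k)).2 * T k (Wk F T i c k y)) • fderiv ℝ (fun y => (st (RF F T) i c k y).2) y ζ +
      l • (st (RF F T) i c k y).2) := by
  have ha := fun ζ => a_smooth (i := i) (c := c) (y := y) k ζ
  have h := step_deriv (F := F k) (T := T k) (x := fun y => (st (RF F T) i c k y).1)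
    (e := fun y => (st (RF F T) i c k y).2)
    (a := fun y : (ι → E × ℝ) × (E × E) => (y.1 (i k)).1 + c k)
    (s := fun y : (ι → E × ℝ) × (E × E) => (y.1 (i k)).2) (y := y)
    (contDiffAt_fst.comp y hst) (contDiffAt_snd.comp y hst) (ha 0).1 (ha 0).2.2.1 h0
    (w := Wk F T i c k) rfl hg (ρ := rh F T i c k) (m := mk F T i c k) (μ := mu F T i c k)
    rfl rfl rfl (x' := fun y => (st (RF F T) i c (k + 1) y).1)
    (e' := fun y => (st (RF F T) i c (k + 1) y).2) rfl rfl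
  obtain ⟨h1, h2, h3, h4, h5, h6⟩ := h
  refine ⟨h1, h2, h3, h4, fun ζ => ?_, h6⟩
  rw [h5 ζ, (ha ζ).2.1, (ha ζ).2.2.2]

theorem st_smooth (hr : Reg F T i c n y) : ∀ k ≤ n, ContDiffAt ℝ 1 (st (RF F T) i c k) y := by
  intro k
  induction k with
  | zero =>
    intro _
    exact contDiffAt_snd
  | succ k ih =>
    intro hk
    obtain ⟨h0, hg⟩ := hr k (by omega)
    obtain ⟨⟨-, -, -, h1, h2⟩, -⟩ := step_deriv' (ih (by omega)) h0 hg
    exact h1.prodMk h2

omit [FiniteDimensional ℝ E] [Fintype ι] in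
theorem st_norm [FiniteDimensional ℝ E] (k : ℕ) (y : (ι → E × ℝ) × (E × E)) :
    ⟪(st (RF F T) i c k y).2, (st (RF F T) i c k y).2⟫_ℝ = ⟪y.2.2, y.2.2⟫_ℝ := by
  induction k with
  | zero => rfl
  | succ k ih =>
    have h1 := RR_norm (F k) (T k) (Wk F T i c k y)
    have h2 : (st (RF F T) i c (k + 1) y).2 = (RR (F k) (T k) (Wk F T i c k y)).2 := rfl
    rw [h2, h1]
    exact ih

theorem st_orth {k : ℕ} (hst : ContDiffAt ℝ 1 (st (RF F T) i c k) y)
    (ζ : (ι → E × ℝ) × (E × E)) :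
    ⟪(st (RF F T) i c k y).2, fderiv ℝ (fun y => (st (RF F T) i c k y).2) y ζ⟫_ℝ =
      ⟪y.2.2, ζ.2.2⟫_ℝ := by
  have h1 : DifferentiableAt ℝ (fun y => (st (RF F T) i c k y).2) y :=
    (contDiffAt_snd.comp y hst).differentiableAt one_ne_zero
  have h2 : HasDerivAt (fun t : ℝ => y.2.2 + t • ζ.2.2) ζ.2.2 0 := by
    have h3 := ((hasDerivAt_id (0 : ℝ)).smul_const ζ.2.2).const_add y.2.2
    simpa using h3
  have h4 := (line_deriv h1 ζ).inner ℝ (line_deriv h1 ζ)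
  have h5 := h2.inner ℝ h2
  have h6 : (fun t : ℝ => ⟪(st (RF F T) i c k (y + t • ζ)).2,
      (st (RF F T) i c k (y + t • ζ)).2⟫_ℝ) = fun t : ℝ => ⟪y.2.2 + t • ζ.2.2, y.2.2 + t • ζ.2.2⟫_ℝ := by
    funext t
    exact st_norm k _
  rw [h6] at h4
  have h7 := h4.unique h5
  simp only [zero_smul, add_zero] at h7
  rw [real_inner_comm (st (RF F T) i c k y).2
    (fderiv ℝ (fun y => (st (RF F T) i c k y).2) y ζ), real_inner_comm y.2.2 ζ.2.2] at h7
  linarith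

/-- **The law of momentum.** -/
theorem law (hr : Reg F T i c n y) {ζ η : (ι → E × ℝ) × (E × E)} (hζ : ζ.1 = 0)
    (hζ2 : ⟪y.2.2, ζ.2.2⟫_ℝ = 0) (hη : η.2 = 0) :
    ∀ k ≤ n, ⟪fderiv ℝ (fun y => (st (RF F T) i c k y).1) y ζ,
        fderiv ℝ (fun y => (st (RF F T) i c k y).2) y η⟫_ℝ -
      ⟪fderiv ℝ (fun y => (st (RF F T) i c k y).1) y η,
        fderiv ℝ (fun y => (st (RF F T) i c k y).2) y ζ⟫_ℝ =
      -∑ l ∈ Finset.range k, ⟪(η.1 (i l)).2 • rh F T i c l y + (η.1 (i l)).1,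
        df F T i c l y ζ⟫_ℝ := by
  intro k
  induction k with
  | zero =>
    intro _
    have h1 : (fun y : (ι → E × ℝ) × (E × E) => (st (RF F T) i c 0 y).1) =
        ((ContinuousLinearMap.fst ℝ E E).comp (ContinuousLinearMap.snd ℝ (ι → E × ℝ) (E × E))) :=
      rfl
    have h2 : (fun y : (ι → E × ℝ) × (E × E) => (st (RF F T) i c 0 y).2) =
        ((ContinuousLinearMap.snd ℝ E E).comp (ContinuousLinearMap.snd ℝ (ι → E × ℝ) (E × E))) :=
      rfl
    rw [h1, h2, ContinuousLinearMap.fderiv, ContinuousLinearMap.fderiv]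
    simp only [ContinuousLinearMap.comp_apply, ContinuousLinearMap.coe_snd', hη, map_zero,
      inner_zero_right, inner_zero_left, sub_zero, Finset.range_zero, Finset.sum_empty, neg_zero]
  | succ k ih =>
    intro hk
    obtain ⟨h0, hg⟩ := hr k (by omega)
    have hst := st_smooth hr k (by omega)
    obtain ⟨-, h2, h3, h4, h5, h6⟩ := step_deriv' hst h0 hg
    have hF : ContDiffAt ℝ 3 (F k) (rh F T i c k y) := hg.cF
    have hz : (ζ.1 (i k)).2 • rh F T i c k y + (ζ.1 (i k)).1 = 0 := by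
      rw [hζ]; simp
    have h := omega_move (m := mk F T i c k y) (s := (y.1 (i k)).2)
      (L := (y.1 (i k)).2 * T k (Wk F T i c k y)) (e := (st (RF F T) i c k y).2)
      (μ := mu F T i c k y) (X := (η.1 (i k)).2 • rh F T i c k y + (η.1 (i k)).1)
      hF (h2 ζ) (h2 η) (h3 ζ) (h3 η) (h4 ζ) (h4 η)
      (by rw [h5 ζ, hz, add_zero]) (h5 η) (h6 ζ) (h6 η)
      (by rw [st_orth hst]; exact hζ2) (by rw [st_orth hst, hη]; simp)
    rw [h, ih (by omega), Finset.sum_range_succ]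
    have h7 : df F T i c k y ζ = mu F T i c k y • fderiv ℝ (mk F T i c k) y ζ +
      fderiv ℝ (mu F T i c k) y ζ • mk F T i c k y := rfl
    rw [h7]
    ring

end Pool.Agent.V7H61.IV
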