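import Pool.Agent.V7H61.IV.Tw3

/-!
A part which is hit twice in a period.
-/

set_option autoImplicit false

open MeasureTheory Set Filter Topology
open scoped InnerProductSpace ENNReal
open Pool.Agent.H721R2.Quart Pool.Agent.H721R2.Ivrii Pool.Agent.TH746

namespace Pool.Agent.V7H61.IV

variable {E : Type*} [NormedAddCommGroup E] [InnerProductSpace ℝ E] [FiniteDimensional ℝ E]
  {ι : Type*} [Fintype ι] {F : ℕ → E → ℝ} {T : ℕ → E × E → ℝ} {i : ℕ → ι} {c : ℕ → E} {n : ℕ}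
  {y : (ι → E × ℝ) × (E × E)}

/-- The trajectory closes up modulo `g`. -/
def Cl (F : ℕ → E → ℝ) (T : ℕ → E × E → ℝ) (i : ℕ → ι) (c : ℕ → E) (n : ℕ) (g : E ≃ᵃⁱ[ℝ] E)
    (y : (ι → E × ℝ) × (E × E)) : Prop :=
  (st (RF F T) i c n y).2 = g.linearIsometryEquiv y.2.2 ∧
    Par (g.linearIsometryEquiv y.2.2) ((st (RF F T) i c n y).1 - g y.2.1)

/-- The first closing equation. -/
noncomputable def c1 (F : ℕ → E → ℝ) (T : ℕ → E × E → ℝ) (i : ℕ → ι) (c : ℕ → E) (n : ℕ)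
    (g : E ≃ᵃⁱ[ℝ] E) (f : E) (y : (ι → E × ℝ) × (E × E)) : ℝ :=
  ⟪(st (RF F T) i c n y).2 - g.linearIsometryEquiv y.2.2, f⟫_ℝ

/-- The second closing equation. -/
noncomputable def c2 (F : ℕ → E → ℝ) (T : ℕ → E × E → ℝ) (i : ℕ → ι) (c : ℕ → E) (n : ℕ)
    (g : E ≃ᵃⁱ[ℝ] E) (f : E) (y : (ι → E × ℝ) × (E × E)) : ℝ :=
  ⟪‖g.linearIsometryEquiv y.2.2‖ ^ 2 • ((st (RF F T) i c n y).1 - g y.2.1) -
    ⟪g.linearIsometryEquiv y.2.2, (st (RF F T) i c n y).1 - g y.2.1⟫_ℝ •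
      g.linearIsometryEquiv y.2.2, f⟫_ℝ

omit [Fintype ι] in
theorem cl_zero {g : E ≃ᵃⁱ[ℝ] E} (h : Cl F T i c n g y) (f : E) :
    c1 F T i c n g f y = 0 ∧ c2 F T i c n g f y = 0 := by
  obtain ⟨h1, h2⟩ := h
  unfold c1 c2
  unfold Par at h2
  rw [h1, h2, sub_self, sub_self, inner_zero_left]
  exact ⟨rfl, rfl⟩

theorem c_smooth {g : E ≃ᵃⁱ[ℝ] E} (hr : Reg F T i c n y) (f : E) :
    ContDiffAt ℝ 1 (c1 F T i c n g f) y ∧ ContDiffAt ℝ 1 (c2 F T i c n g f) y := by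
  have hst := st_smooth hr n le_rfl
  have s1 : ContDiffAt ℝ 1 (fun y => (st (RF F T) i c n y).1) y := contDiffAt_fst.comp y hst
  have s2 : ContDiffAt ℝ 1 (fun y => (st (RF F T) i c n y).2) y := contDiffAt_snd.comp y hst
  have s3 : ContDiffAt ℝ 1 (fun y : (ι → E × ℝ) × (E × E) => g.linearIsometryEquiv y.2.2) y := by
    have h1 : ContDiff ℝ 1 g.linearIsometryEquiv := g.linearIsometryEquiv.contDiff
    exact h1.contDiffAt.comp y (contDiffAt_snd.comp y contDiffAt_snd)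
  have s4 : ContDiffAt ℝ 1 (fun y : (ι → E × ℝ) × (E × E) => g y.2.1) y := by
    have h1 : (fun y : (ι → E × ℝ) × (E × E) => g y.2.1) = fun y =>
        g.linearIsometryEquiv y.2.1 + g 0 := by
      funext y
      exact isom_eq g y.2.1
    rw [h1]
    have h2 : ContDiff ℝ 1 g.linearIsometryEquiv := g.linearIsometryEquiv.contDiff
    exact (h2.contDiffAt.comp y (contDiffAt_fst.comp y contDiffAt_snd)).add contDiffAt_const
  refine ⟨(s2.sub s3).inner ℝ contDiffAt_const, ?_⟩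
  exact (((s3.norm_sq ℝ).smul (s1.sub s4)).sub ((s3.inner ℝ (s1.sub s4)).smul s3)).inner ℝ
    contDiffAt_const

/-- The law of momentum for closed trajectories. -/
theorem closed_law {g : E ≃ᵃⁱ[ℝ] E} (hr : Reg F T i c n y) (hcl : Cl F T i c n g y)
    (hy : y.2.2 ≠ 0) {ζ η : (ι → E × ℝ) × (E × E)}
    (h1 : ∀ f, fderiv ℝ (c1 F T i c n g f) y η = 0)
    (h2 : ∀ f, fderiv ℝ (c2 F T i c n g f) y η = 0) (hζ : ζ.1 = 0)
    (hζ2 : ⟪y.2.2, ζ.2.2⟫_ℝ = 0) (hη : η.2 = 0) :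
    ∑ l ∈ Finset.range n, ⟪(η.1 (i l)).2 • rh F T i c l y + (η.1 (i l)).1,
        df F T i c l y ζ⟫_ℝ = 0 := by
  have hst := st_smooth hr n le_rfl
  have s1 : DifferentiableAt ℝ (fun y => (st (RF F T) i c n y).1) y :=
    (contDiffAt_fst.comp y hst).differentiableAt one_ne_zero
  have s2 : DifferentiableAt ℝ (fun y => (st (RF F T) i c n y).2) y :=
    (contDiffAt_snd.comp y hst).differentiableAt one_ne_zero
  obtain ⟨v, hv⟩ : ∃ v, v = g.linearIsometryEquiv y.2.2 := ⟨_, rfl⟩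
  have hvn : v ≠ 0 := by
    rw [hv]
    intro h
    exact hy ((LinearIsometryEquiv.map_eq_zero_iff _).1 h)
  have hyt : ∀ t : ℝ, (y + t • η).2 = y.2 := by
    intro t
    rw [Prod.snd_add, Prod.smul_snd, hη, smul_zero, add_zero]
  have e1 : fderiv ℝ (fun y => (st (RF F T) i c n y).2) y η = 0 := by
    refine ext_inner_right ℝ fun f => ?_
    have k1 := ((line_deriv s2 η).sub_const (g.linearIsometryEquiv y.2.2)).inner ℝ
      (hasDerivAt_const (0 : ℝ) f)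
    have k2 : (fun t : ℝ => c1 F T i c n g f (y + t • η)) = fun t : ℝ =>
        ⟪(st (RF F T) i c n (y + t • η)).2 - g.linearIsometryEquiv y.2.2, f⟫_ℝ := by
      funext t
      unfold c1
      rw [hyt]
    have k3 := line_fderiv ((c_smooth (g := g) hr f).1.differentiableAt one_ne_zero) η (by
      rw [k2]; exact k1)
    rw [h1 f, inner_zero_right, zero_add] at k3
    rw [← k3, inner_zero_left]
  have e2 : ‖v‖ ^ 2 • fderiv ℝ (fun y => (st (RF F T) i c n y).1) y η =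
      ⟪v, fderiv ℝ (fun y => (st (RF F T) i c n y).1) y η⟫_ℝ • v := by
    rw [← sub_eq_zero]
    refine ext_inner_right ℝ fun f => ?_
    have k0 := (line_deriv s1 η).sub_const (g y.2.1)
    have k1 := (((k0.const_smul (‖v‖ ^ 2)).sub
      (((hasDerivAt_const (0 : ℝ) v).inner ℝ k0).smul_const v))).inner ℝ
      (hasDerivAt_const (0 : ℝ) f)
    have k2 : (fun t : ℝ => c2 F T i c n g f (y + t • η)) = fun t : ℝ =>
        ⟪‖v‖ ^ 2 • ((st (RF F T) i c n (y + t • η)).1 - g y.2.1) -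
          ⟪v, (st (RF F T) i c n (y + t • η)).1 - g y.2.1⟫_ℝ • v, f⟫_ℝ := by
      funext t
      unfold c2
      rw [hyt, hv]
    have k3 := line_fderiv ((c_smooth (g := g) hr f).2.differentiableAt one_ne_zero) η (by
      rw [k2]; exact k1)
    rw [h2 f, inner_zero_right, zero_add] at k3
    simp only [inner_zero_left, add_zero] at k3
    rw [inner_zero_left, ← k3]
  have h3 := law hr hζ hζ2 hη n le_rfl
  have h4 : ⟪fderiv ℝ (fun y => (st (RF F T) i c n y).1) y η,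
      fderiv ℝ (fun y => (st (RF F T) i c n y).2) y ζ⟫_ℝ = 0 := by
    have k1 := st_orth hst ζ
    rw [hcl.1, ← hv, hζ2] at k1
    have k2 := congrArg (fun x => ⟪x, fderiv ℝ (fun y => (st (RF F T) i c n y).2) y ζ⟫_ℝ) e2
    simp only [real_inner_smul_left, k1, mul_zero] at k2
    exact (mul_eq_zero.1 k2).resolve_left (pow_ne_zero 2 (norm_ne_zero_iff.2 hvn))
  rw [e1, h4, inner_zero_right, sub_zero] at h3
  linarith

/-- The infinitesimal motion `η` of the parts preserves the closing equations. -/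
def Kills (F : ℕ → E → ℝ) (T : ℕ → E × E → ℝ) (i : ℕ → ι) (c : ℕ → E) (n : ℕ) (g : E ≃ᵃⁱ[ℝ] E)
    (y η : (ι → E × ℝ) × (E × E)) : Prop :=
  (∀ f, fderiv ℝ (c1 F T i c n g f) y η = 0) ∧ ∀ f, fderiv ℝ (c2 F T i c n g f) y η = 0

/-- A part which is hit at the bounces `1` and `r + 1` only. -/
theorem two_hits {g : E ≃ᵃⁱ[ℝ] E} (hr : Reg F T i c n y) (hcl : Cl F T i c n g y)
    (hy : y.2.2 ≠ 0) {r : ℕ} (hr0 : 0 < r) (hrn : r < n)
    (hir : i r = i 0) (hi : ∀ k < n, k ≠ 0 → k ≠ r → i k ≠ i 0)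
    (hη : ∀ x : E × ℝ, ∃ η : (ι → E × ℝ) × (E × E), Kills F T i c n g y η ∧ η.2 = 0 ∧
      η.1 (i 0) = x ∧ ∀ j, j ≠ i 0 → η.1 j = 0)
    {ζ : (ι → E × ℝ) × (E × E)} (hζ : ζ.1 = 0) (hζ2 : ⟪y.2.2, ζ.2.2⟫_ℝ = 0) :
    df F T i c r y ζ = -df F T i c 0 y ζ ∧
      ⟪rh F T i c 0 y - rh F T i c r y, df F T i c 0 y ζ⟫_ℝ = 0 := by
  have key : ∀ (τ : E) (σ : ℝ), ⟪σ • rh F T i c 0 y + τ, df F T i c 0 y ζ⟫_ℝ +
      ⟪σ • rh F T i c r y + τ, df F T i c r y ζ⟫_ℝ = 0 := by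
    intro τ σ
    obtain ⟨η, ⟨h1, h2⟩, hη2, hη0, hηj⟩ := hη (τ, σ)
    have h3 := closed_law hr hcl hy h1 h2 hζ hζ2 hη2
    rw [Finset.sum_eq_add (0 : ℕ) r hr0.ne] at h3
    · simp only [hir, hη0] at h3
      exact h3
    · intro l hl hl2
      have h4 : i l ≠ i 0 := hi l (Finset.mem_range.1 hl) hl2.1 hl2.2
      simp only [hηj _ h4, Prod.fst_zero, Prod.snd_zero, zero_smul, add_zero,
        inner_zero_left]
    · intro h4
      exact absurd (Finset.mem_range.2 (by omega)) h4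
    · intro h4
      exact absurd (Finset.mem_range.2 hrn) h4
  have h3 : df F T i c r y ζ = -df F T i c 0 y ζ := by
    rw [← add_eq_zero_iff_eq_neg]
    refine ext_inner_left ℝ fun τ => ?_
    have h4 := key τ 0
    simp only [zero_smul, zero_add] at h4
    rw [inner_add_right, inner_zero_right, add_comm]
    exact h4
  refine ⟨h3, ?_⟩
  have h4 := key 0 1
  rw [h3, one_smul, one_smul, add_zero, add_zero, inner_neg_right] at h4
  rw [inner_sub_left]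
  linarith

/-- The variations of the first bounce. -/
theorem first_hit (hn : 0 < n) (hr : Reg F T i c n y) :
    (∀ b : E, ⟪y.2.2, b⟫_ℝ = 0 → ⟪mk F T i c 0 y, b⟫_ℝ ≠ 0 →
      ∃ ζ : (ι → E × ℝ) × (E × E), ζ.1 = 0 ∧ ⟪y.2.2, ζ.2.2⟫_ℝ = 0 ∧
        fderiv ℝ (rh F T i c 0) y ζ = 0 ∧
        ∃ κ : ℝ, κ ≠ 0 ∧ df F T i c 0 y ζ = κ • mk F T i c 0 y) ∧
    (∀ Y : E, ⟪mk F T i c 0 y, Y⟫_ℝ = 0 →
      ∃ ζ : (ι → E × ℝ) × (E × E), ζ.1 = 0 ∧ ⟪y.2.2, ζ.2.2⟫_ℝ = 0 ∧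
        fderiv ℝ (rh F T i c 0) y ζ = Y) := by
  obtain ⟨h0, hg⟩ := hr 0 hn
  have hst : ContDiffAt ℝ 1 (st (RF F T) i c 0) y := contDiffAt_snd
  obtain ⟨-, h2, h3, h4, h5, h6⟩ := step_deriv' hst h0 hg
  have f1 : ∀ ζ, fderiv ℝ (fun y : (ι → E × ℝ) × (E × E) => (st (RF F T) i c 0 y).1) y ζ =
      ζ.2.1 := by
    intro ζ
    have h1 : (fun y : (ι → E × ℝ) × (E × E) => (st (RF F T) i c 0 y).1) =
        ((ContinuousLinearMap.fst ℝ E E).comp (ContinuousLinearMap.snd ℝ (ι → E × ℝ) (E × E))) :=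
      rfl
    rw [h1, ContinuousLinearMap.fderiv]
    rfl
  have f2 : ∀ ζ, fderiv ℝ (fun y : (ι → E × ℝ) × (E × E) => (st (RF F T) i c 0 y).2) y ζ =
      ζ.2.2 := by
    intro ζ
    have h1 : (fun y : (ι → E × ℝ) × (E × E) => (st (RF F T) i c 0 y).2) =
        ((ContinuousLinearMap.snd ℝ E E).comp (ContinuousLinearMap.snd ℝ (ι → E × ℝ) (E × E))) :=
      rfl
    rw [h1, ContinuousLinearMap.fderiv]
    rfl
  have htr : ⟪mk F T i c 0 y, y.2.2⟫_ℝ ≠ 0 := hg.tr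
  have hm0 : mk F T i c 0 y ≠ 0 := hg.g0
  obtain ⟨s, hs⟩ : ∃ s, s = (y.1 (i 0)).2 := ⟨_, rfl⟩
  obtain ⟨L, hL⟩ : ∃ L, L = T 0 (Wk F T i c 0 y) := ⟨_, rfl⟩
  rw [← hs] at h0
  -- the variation of the relative position
  have hrel : ∀ ζ : (ι → E × ℝ) × (E × E), ζ.1 = 0 →
      ⟪mk F T i c 0 y, ζ.2.1 + (s * L) • ζ.2.2⟫_ℝ = 0 →
      s • fderiv ℝ (rh F T i c 0) y ζ = ζ.2.1 + (s * L) • ζ.2.2 := by
    intro ζ hζ hm
    obtain ⟨l, hl⟩ := h6 ζ
    rw [h5 ζ, f1, f2, ← hs, ← hL, hζ] at hl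
    simp only [Pi.zero_apply, Prod.fst_zero, Prod.snd_zero, zero_smul, add_zero] at hl
    have h7 := congrArg (fun x => ⟪mk F T i c 0 y, x⟫_ℝ) hl
    simp only [inner_smul_right, h2 ζ, mul_zero] at h7
    rw [inner_add_right, hm, zero_add, inner_smul_right] at h7
    have h8 : l = 0 := (mul_eq_zero.1 h7.symm).resolve_right htr
    rw [hl, h8, zero_smul, add_zero]
  refine ⟨?_, ?_⟩
  · intro b hb hmb
    obtain ⟨ζ, hζd⟩ : ∃ ζ : (ι → E × ℝ) × (E × E), ζ = (0, (-((s * L) • b), b)) := ⟨_, rfl⟩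
    have hz1 : ζ.1 = 0 := by rw [hζd]
    have hz2 : ζ.2.2 = b := by rw [hζd]
    have hz3 : ζ.2.1 = -((s * L) • b) := by rw [hζd]
    have k1 := hrel ζ hz1 (by rw [hz2, hz3, neg_add_cancel, inner_zero_right])
    rw [hz2, hz3, neg_add_cancel] at k1
    have k2 : fderiv ℝ (rh F T i c 0) y ζ = 0 := (smul_eq_zero.1 k1).resolve_left h0
    have k3 : df F T i c 0 y ζ = fderiv ℝ (mu F T i c 0) y ζ • mk F T i c 0 y := by
      unfold df
      rw [h3 ζ, k2, map_zero, smul_zero, zero_add]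
    refine ⟨ζ, hz1, by rw [hz2]; exact hb, k2, _, ?_, k3⟩
    intro hκ
    rw [hκ, zero_smul] at k3
    have h1st := st_smooth hr 1 (by omega)
    have k4 := st_orth h1st ζ
    have k5 : fderiv ℝ (fun y => (st (RF F T) i c 1 y).2) y ζ = b := by
      have k6 := h4 ζ
      rw [f2, k3, add_zero, hz2] at k6
      exact k6
    have k6 : (st (RF F T) i c 1 y).2 = y.2.2 + mu F T i c 0 y • mk F T i c 0 y := rfl
    rw [k5, hz2, hb, k6, inner_add_left, hb, real_inner_smul_left, zero_add] at k4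
    rcases mul_eq_zero.1 k4 with k7 | k7
    · have k8 : mu F T i c 0 y = -(2 * ⟪mk F T i c 0 y, y.2.2⟫_ℝ / ‖mk F T i c 0 y‖ ^ 2) := rfl
      rw [k8, neg_eq_zero, div_eq_zero_iff] at k7
      rcases k7 with k7 | k7
      · exact htr (by linarith)
      · exact (pow_ne_zero 2 (norm_ne_zero_iff.2 hm0)) k7
    · exact hmb k7
  · intro Y hY
    obtain ⟨ζ, hζd⟩ : ∃ ζ : (ι → E × ℝ) × (E × E), ζ = (0, (s • Y, 0)) := ⟨_, rfl⟩
    have hz1 : ζ.1 = 0 := by rw [hζd]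
    have hz2 : ζ.2.2 = 0 := by rw [hζd]
    have hz3 : ζ.2.1 = s • Y := by rw [hζd]
    have k1 := hrel ζ hz1 (by rw [hz2, hz3, smul_zero, add_zero, inner_smul_right, hY, mul_zero])
    rw [hz2, hz3, smul_zero, add_zero] at k1
    exact ⟨ζ, hz1, by rw [hz2, inner_zero_right], smul_right_injective E h0 k1⟩

end Pool.Agent.V7H61.IV
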