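import Pool.Agent.V7H61.IV.Tw4

/-!
The set of parameters and closed rays which hit a part exactly once or twice is a null set.
-/

set_option autoImplicit false

open MeasureTheory Set Filter Topology
open scoped InnerProductSpace ENNReal NNReal
open Pool.Agent.H721R2.Quart Pool.Agent.H721R2.Ivrii Pool.Agent.TH746

namespace Pool.Agent.V7H61.IV

/-- A set which locally satisfies an equation with nonzero derivative is a null set. -/
theorem vol_hyper {V : Type*} [NormedAddCommGroup V] [NormedSpace ℝ V] [FiniteDimensional ℝ V]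
    [Nontrivial V] [MeasurableSpace V] [BorelSpace V] (μ : Measure V) [μ.IsAddHaarMeasure]
    (A : Set V) (h : ∀ z ∈ A, ∃ ψ : V → ℝ, ContDiffAt ℝ 1 ψ z ∧ fderiv ℝ ψ z ≠ 0 ∧
      ∀ z' ∈ A, ψ z' = 0) : μ A = 0 := by
  obtain ⟨D, hD⟩ : ∃ D, Module.finrank ℝ V = D + 1 := by
    have h1 : 0 < Module.finrank ℝ V := Module.finrank_pos
    exact ⟨Module.finrank ℝ V - 1, by omega⟩
  have h1 := dim_hyper hD A fun z hz => by
    obtain ⟨ψ, h1, h2, h3⟩ := h z hz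
    exact ⟨ψ, h1, h2, Eventually.of_forall h3⟩
  have h2 : dimH A < ((Module.finrank ℝ V : ℕ) : NNReal) := by
    refine h1.trans_lt ?_
    rw [hD]
    have : ((D : ℕ) : ℝ≥0∞) < ((D + 1 : ℕ) : ℝ≥0∞) := by
      exact_mod_cast (by omega : D < D + 1)
    simpa using this
  have h3 := hausdorffMeasure_of_dimH_lt h2
  exact haar_null μ μH[(Module.finrank ℝ V : ℝ)] (by exact_mod_cast h3)

variable {E : Type*} [NormedAddCommGroup E] [InnerProductSpace ℝ E] [FiniteDimensional ℝ E]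

/-- The vector `X` is tangent at `q` to the hypersurface given by `F` and in the kernel of its second
fundamental form. -/
def StillF (F : E → ℝ) (q X : E) : Prop :=
  ⟪gradient F q, X⟫_ℝ = 0 ∧
    ∀ Y : E, ⟪gradient F q, Y⟫_ℝ = 0 → fderiv ℝ (fderiv ℝ F) q X Y = 0

/-- The points `q` and `q'` are on a line whose direction is in the kernel of the second fundamental
form at `q` of the hypersurface given by `F`. -/
def FlatF (F : E → ℝ) (q q' : E) : Prop :=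
  ∃ w : E, w ≠ 0 ∧ (∃ κ : ℝ, q' = q + κ • w) ∧ StillF F q w

variable {ι : Type*} [Fintype ι] {F : ℕ → E → ℝ} {T : ℕ → E × E → ℝ} {i : ℕ → ι} {c : ℕ → E}
  {n : ℕ} {y : (ι → E × ℝ) × (E × E)}

omit [Fintype ι] in
theorem mu_ne {k : ℕ} (h : Good (F k) (T k) (Wk F T i c k y)) : mu F T i c k y ≠ 0 := by
  intro h1
  have h2 : mu F T i c k y = -(2 * ⟪mk F T i c k y, (Wk F T i c k y).2⟫_ℝ /
    ‖mk F T i c k y‖ ^ 2) := rfl
  rw [h2, neg_eq_zero, div_eq_zero_iff] at h1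
  rcases h1 with h1 | h1
  · exact h.tr (by
      have h3 : ⟪mk F T i c k y, (Wk F T i c k y).2⟫_ℝ = 0 := by linarith
      exact h3)
  · exact (pow_ne_zero 2 (norm_ne_zero_iff.2 h.g0)) h1

/-- A vector orthogonal to all variations of the momentum transferred at the first bounce. -/
theorem still_of_orth (h0n : 0 < n) (hr : Reg F T i c n y) {X : E}
    (key : ∀ ζ : (ι → E × ℝ) × (E × E), ζ.1 = 0 → ⟪y.2.2, ζ.2.2⟫_ℝ = 0 →
      ⟪X, df F T i c 0 y ζ⟫_ℝ = 0)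
    (hb : ∃ b, ⟪y.2.2, b⟫_ℝ = 0 ∧ ⟪mk F T i c 0 y, b⟫_ℝ ≠ 0) :
    StillF (F 0) (rh F T i c 0 y) X := by
  obtain ⟨k1, k2⟩ := first_hit h0n hr
  obtain ⟨h0, hg⟩ := hr 0 h0n
  have hst : ContDiffAt ℝ 1 (st (RF F T) i c 0) y := contDiffAt_snd
  obtain ⟨-, -, h3, -⟩ := step_deriv' hst h0 hg
  have hwm : ⟪X, mk F T i c 0 y⟫_ℝ = 0 := by
    obtain ⟨b, hb1, hb2⟩ := hb
    obtain ⟨ζ, hz1, hz2, -, κ, hκ, hdf⟩ := k1 b hb1 hb2
    have h4 := key ζ hz1 hz2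
    rw [hdf, inner_smul_right] at h4
    exact (mul_eq_zero.1 h4).resolve_left hκ
  refine ⟨?_, ?_⟩
  · rw [real_inner_comm]; exact hwm
  · intro Y hY
    obtain ⟨ζ, hz1, hz2, hz3⟩ := k2 Y hY
    have h4 := key ζ hz1 hz2
    have h5 : df F T i c 0 y ζ = mu F T i c 0 y • fderiv ℝ (mk F T i c 0) y ζ +
      fderiv ℝ (mu F T i c 0) y ζ • mk F T i c 0 y := rfl
    rw [h5, inner_add_right, inner_smul_right, inner_smul_right, hwm, mul_zero, add_zero, h3 ζ,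
      hz3] at h4
    have h6 := (mul_eq_zero.1 h4).resolve_left (mu_ne hg)
    obtain ⟨-, g2, g3⟩ := grad_deriv hg.cF
    have h7 : hitX (T 0) (Wk F T i c 0 y) = rh F T i c 0 y := rfl
    rw [h7] at g2 g3
    rw [g3, ← g2, real_inner_comm]
    exact h6

/-- A part which is hit once. -/
theorem point_one {g : E ≃ᵃⁱ[ℝ] E} (h0n : 0 < n)
    (hr : Reg F T i c n y) (hcl : Cl F T i c n g y)
    (hy : y.2.2 ≠ 0) {η : (ι → E × ℝ) × (E × E)} (hk : Kills F T i c n g y η) (hη : η.2 = 0)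
    (hi : ∀ k < n, k ≠ 0 → η.1 (i k) = 0)
    (hb : ∃ b, ⟪y.2.2, b⟫_ℝ = 0 ∧ ⟪mk F T i c 0 y, b⟫_ℝ ≠ 0) :
    StillF (F 0) (rh F T i c 0 y) ((η.1 (i 0)).2 • rh F T i c 0 y + (η.1 (i 0)).1) := by
  refine still_of_orth h0n hr (fun ζ hζ hζ2 => ?_) hb
  have h3 := closed_law hr hcl hy hk.1 hk.2 hζ hζ2 hη
  rw [Finset.sum_eq_single_of_mem (0 : ℕ) (Finset.mem_range.2 h0n)] at h3
  · exact h3
  · intro l hl hl2
    rw [hi l (Finset.mem_range.1 hl) hl2]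
    simp

/-- The two hits are at different points of the part. -/
theorem point_ne {g : E ≃ᵃⁱ[ℝ] E} (hr : Reg F T i c n y) (hcl : Cl F T i c n g y)
    (hy : y.2.2 ≠ 0) {r : ℕ} (hr0 : 0 < r) (hrn : r < n)
    (hir : i r = i 0) (hi : ∀ k < n, k ≠ 0 → k ≠ r → i k ≠ i 0)
    (hη : ∀ x : E × ℝ, ∃ η : (ι → E × ℝ) × (E × E), Kills F T i c n g y η ∧ η.2 = 0 ∧
      η.1 (i 0) = x ∧ ∀ j, j ≠ i 0 → η.1 j = 0)
    (hb : ∃ b, ⟪y.2.2, b⟫_ℝ = 0 ∧ ⟪mk F T i c 0 y, b⟫_ℝ ≠ 0)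
    (hw : rh F T i c 0 y ≠ rh F T i c r y) :
    FlatF (F 0) (rh F T i c 0 y) (rh F T i c r y) := by
  refine ⟨rh F T i c 0 y - rh F T i c r y, sub_ne_zero.2 hw, ⟨-1, by module⟩, ?_⟩
  exact still_of_orth (by omega) hr
    (fun ζ hζ hζ2 => (two_hits hr hcl hy hr0 hrn hir hi hη hζ hζ2).2) hb

/-- The two hits are at the same point of the part. -/
theorem point_eq (hdim : 2 ≤ Module.finrank ℝ E) {g : E ≃ᵃⁱ[ℝ] E} (hr : Reg F T i c n y)
    (hcl : Cl F T i c n g y) (hy : y.2.2 ≠ 0) {r : ℕ} (hr0 : 0 < r) (hrn : r < n)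
    (hir : i r = i 0) (hi : ∀ k < n, k ≠ 0 → k ≠ r → i k ≠ i 0)
    (hη : ∀ x : E × ℝ, ∃ η : (ι → E × ℝ) × (E × E), Kills F T i c n g y η ∧ η.2 = 0 ∧
      η.1 (i 0) = x ∧ ∀ j, j ≠ i 0 → η.1 j = 0)
    (hF : F r = F 0) (hmu : mu F T i c 0 y + mu F T i c r y ≠ 0)
    (hw : rh F T i c 0 y = rh F T i c r y)
    (hdw : ∀ ζ : (ι → E × ℝ) × (E × E), ζ.1 = 0 →
      fderiv ℝ (rh F T i c 0) y ζ = fderiv ℝ (rh F T i c r) y ζ) :
    FlatF (F 0) (rh F T i c 0 y) (rh F T i c r y) := by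
  obtain ⟨-, k2⟩ := first_hit (by omega) hr
  obtain ⟨h0, hg⟩ := hr 0 (by omega)
  obtain ⟨h0r, hgr⟩ := hr r hrn
  have hst : ContDiffAt ℝ 1 (st (RF F T) i c 0) y := contDiffAt_snd
  obtain ⟨-, -, h3, -⟩ := step_deriv' hst h0 hg
  obtain ⟨-, -, h3r, -⟩ := step_deriv' (st_smooth hr r hrn.le) h0r hgr
  have hmk : mk F T i c r y = mk F T i c 0 y := by
    unfold mk
    rw [hF, hw]
  obtain ⟨-, g2, g3⟩ := grad_deriv hg.cF
  have h7 : hitX (T 0) (Wk F T i c 0 y) = rh F T i c 0 y := rfl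
  rw [h7] at g2 g3
  have key : ∀ Y Y', ⟪mk F T i c 0 y, Y⟫_ℝ = 0 → ⟪mk F T i c 0 y, Y'⟫_ℝ = 0 →
      fderiv ℝ (fderiv ℝ (F 0)) (rh F T i c 0 y) Y Y' = 0 := by
    intro Y Y' hY hY'
    obtain ⟨ζ, hz1, hz2, hz3⟩ := k2 Y hY
    have h4 := (two_hits hr hcl hy hr0 hrn hir hi hη hz1 hz2).1
    have h5 : df F T i c 0 y ζ = mu F T i c 0 y • fderiv ℝ (mk F T i c 0) y ζ +
      fderiv ℝ (mu F T i c 0) y ζ • mk F T i c 0 y := rfl
    have h6 : df F T i c r y ζ = mu F T i c r y • fderiv ℝ (mk F T i c r) y ζ +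
      fderiv ℝ (mu F T i c r) y ζ • mk F T i c r y := rfl
    rw [h5, h6, h3 ζ, h3r ζ, ← hdw ζ hz1, ← hw, hF, hmk, hz3] at h4
    have h8 := congrArg (fun x => ⟪x, Y'⟫_ℝ) h4
    simp only [inner_add_left, inner_neg_left, real_inner_smul_left, hY', mul_zero, add_zero,
      g2] at h8
    have h9 : (mu F T i c 0 y + mu F T i c r y) *
        fderiv ℝ (fderiv ℝ (F 0)) (rh F T i c 0 y) Y Y' = 0 := by linarith
    exact (mul_eq_zero.1 h9).resolve_left hmu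
  obtain ⟨w, hw0, hwn⟩ := exists_perp hdim (mk F T i c 0 y)
  exact ⟨w, hw0, ⟨0, by rw [← hw]; module⟩, hwn, fun Y hY => key w Y hwn hY⟩

/-- The set of parameters and closed rays which hit the first part once, at a point which moves if
the part is moved and scaled infinitesimally by `x`. -/
def NX (F : ℕ → E → ℝ) (T : ℕ → E × E → ℝ) (i : ℕ → ι) (c : ℕ → E) (n : ℕ)
    (g : E ≃ᵃⁱ[ℝ] E) (x : E × ℝ) : Set ((ι → E × ℝ) × (E × E)) :=
  {y | Reg F T i c n y ∧ y.2.2 ≠ 0 ∧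
    (∃ b, ⟪y.2.2, b⟫_ℝ = 0 ∧ ⟪mk F T i c 0 y, b⟫_ℝ ≠ 0) ∧ Cl F T i c n g y ∧
    ¬ StillF (F 0) (rh F T i c 0 y) (x.2 • rh F T i c 0 y + x.1)}

/-- The set of parameters and closed rays which hit the first part exactly twice. -/
def NT (F : ℕ → E → ℝ) (T : ℕ → E × E → ℝ) (i : ℕ → ι) (c : ℕ → E) (n r : ℕ)
    (g : E ≃ᵃⁱ[ℝ] E) : Set ((ι → E × ℝ) × (E × E)) :=
  {y | Reg F T i c n y ∧ y.2.2 ≠ 0 ∧
    (∃ b, ⟪y.2.2, b⟫_ℝ = 0 ∧ ⟪mk F T i c 0 y, b⟫_ℝ ≠ 0) ∧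
    (0 < (y.1 (i 0)).2 * ⟪mk F T i c 0 y, y.2.2⟫_ℝ ∧
      0 < (y.1 (i r)).2 * ⟪mk F T i c r y, (st (RF F T) i c r y).2⟫_ℝ) ∧
    (F r = F 0 ∨ rh F T i c 0 y ≠ rh F T i c r y) ∧ Cl F T i c n g y ∧
    ¬ FlatF (F 0) (rh F T i c 0 y) (rh F T i c r y)}

/-- The part `j` can be moved and scaled infinitesimally by `x`, the others being fixed. -/
def Motion {V : Type*} [AddCommGroup V] [Module ℝ V] (A : V →ₗ[ℝ] (ι → E × ℝ)) (j : ι)
    (x : E × ℝ) : Prop :=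
  ∃ η : V, A η j = x ∧ ∀ i, i ≠ j → A η i = 0

section Pull

variable {V : Type*} [NormedAddCommGroup V] [NormedSpace ℝ V] [FiniteDimensional ℝ V]

/-- The positions and sizes as functions of the parameters. -/
def BA (a : ι → E × ℝ) (A : V →ₗ[ℝ] (ι → E × ℝ)) (y : V × (E × E)) :
    (ι → E × ℝ) × (E × E) := (a + A y.1, y.2)

omit [FiniteDimensional ℝ E] in
theorem BA_deriv (a : ι → E × ℝ) (A : V →ₗ[ℝ] (ι → E × ℝ)) :
    ContDiff ℝ 1 (BA a A) ∧ ∀ y η : V × (E × E), fderiv ℝ (BA a A) y η = (A η.1, η.2) := by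
  obtain ⟨L, hL⟩ : ∃ L : (V × (E × E)) →L[ℝ] ((ι → E × ℝ) × (E × E)), ∀ η, L η =
      (A η.1, η.2) := by
    refine ⟨((LinearMap.toContinuousLinearMap A).comp
        (ContinuousLinearMap.fst ℝ V (E × E))).prod
        (ContinuousLinearMap.snd ℝ V (E × E)), fun η => rfl⟩
  have h1 : BA a A = fun y => L y + (a, (0 : E × E)) := by
    funext y
    rw [hL]
    unfold BA
    refine Prod.ext ?_ ?_
    · simp [add_comm]
    · simp
  refine ⟨?_, fun y η => ?_⟩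
  · rw [h1]; exact L.contDiff.add contDiff_const
  · rw [h1, ((L.hasFDerivAt (x := y)).add_const _).fderiv, hL]

omit [FiniteDimensional ℝ E] in
theorem pull_deriv (a : ι → E × ℝ) (A : V →ₗ[ℝ] (ι → E × ℝ)) {y : V × (E × E)}
    {ψ : (ι → E × ℝ) × (E × E) → ℝ} (hψ : ContDiffAt ℝ 1 ψ (BA a A y)) :
    ContDiffAt ℝ 1 (fun y => ψ (BA a A y)) y ∧
      ∀ η : V × (E × E), fderiv ℝ (fun y => ψ (BA a A y)) y η =
        fderiv ℝ ψ (BA a A y) (A η.1, η.2) := by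
  obtain ⟨hB, hB'⟩ := BA_deriv a A
  refine ⟨hψ.comp y hB.contDiffAt, fun η => ?_⟩
  have h1 : HasFDerivAt (fun y => ψ (BA a A y))
      ((fderiv ℝ ψ (BA a A y)).comp (fderiv ℝ (BA a A) y)) y :=
    (hψ.differentiableAt one_ne_zero).hasFDerivAt.comp y
      (hB.contDiffAt.differentiableAt one_ne_zero).hasFDerivAt
  rw [h1.fderiv, ← hB' y η]
  rfl

/-- A motion of the parts preserves the closing equations if all their derivatives vanish. -/
theorem kills_of {a : ι → E × ℝ} {A : V →ₗ[ℝ] (ι → E × ℝ)} {g : E ≃ᵃⁱ[ℝ] E} {y : V × (E × E)}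
    {S : Set (V × (E × E))} (hS : ∀ z ∈ S, Cl F T i c n g (BA a A z))
    (hr : Reg F T i c n (BA a A y))
    (hcon : ¬ ∃ ψ : V × (E × E) → ℝ, ContDiffAt ℝ 1 ψ y ∧ fderiv ℝ ψ y ≠ 0 ∧
      ∀ z' ∈ S, ψ z' = 0) (η : V) : Kills F T i c n g (BA a A y) (A η, 0) := by
  refine ⟨fun f => ?_, fun f => ?_⟩
  · by_contra hf
    obtain ⟨k1, k2⟩ := pull_deriv a A (c_smooth (g := g) hr f).1
    refine hcon ⟨_, k1, ?_, fun z' hz' => (cl_zero (hS z' hz') f).1⟩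
    intro h0
    apply hf
    have h1 := k2 (η, 0)
    rw [h0] at h1
    exact h1.symm
  · by_contra hf
    obtain ⟨k1, k2⟩ := pull_deriv a A (c_smooth (g := g) hr f).2
    refine hcon ⟨_, k1, ?_, fun z' hz' => (cl_zero (hS z' hz') f).2⟩
    intro h0
    apply hf
    have h1 := k2 (η, 0)
    rw [h0] at h1
    exact h1.symm

variable [MeasurableSpace E] [BorelSpace E] [MeasureSpace V] [BorelSpace V]
  [(volume : Measure V).IsAddHaarMeasure]

omit [Fintype ι] in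
theorem haar_prod : (volume : Measure (V × (E × E))).IsAddHaarMeasure := by
  have hpE : ProperSpace E := FiniteDimensional.proper ℝ E
  have hpV : ProperSpace V := FiniteDimensional.proper ℝ V
  have hv3 : (volume : Measure (E × E)).IsAddHaarMeasure := by
    rw [Measure.volume_eq_prod]; infer_instance
  have hs2 : SFinite (volume : Measure (E × E)) := inferInstance
  rw [Measure.volume_eq_prod]
  exact Measure.prod.instIsAddHaarMeasure _ _

theorem NX_null (hdim : 2 ≤ Module.finrank ℝ E) {g : E ≃ᵃⁱ[ℝ] E} {a : ι → E × ℝ}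
    {A : V →ₗ[ℝ] (ι → E × ℝ)} {x : E × ℝ} (h0n : 0 < n) (hi : ∀ k < n, k ≠ 0 → i k ≠ i 0)
    (hm : Motion A (i 0) x) :
    volume {y : V × (E × E) | BA a A y ∈ NX F T i c n g x} = 0 := by
  have hpE : ProperSpace E := FiniteDimensional.proper ℝ E
  have hpV : ProperSpace V := FiniteDimensional.proper ℝ V
  have hnt : Nontrivial E := Module.nontrivial_of_finrank_pos (R := ℝ) (by omega)
  have hvol : (volume : Measure (V × (E × E))).IsAddHaarMeasure := haar_prod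
  refine vol_hyper volume _ fun y hy => ?_
  obtain ⟨hr, hy0, hb, hcl, hnf⟩ := hy
  by_contra hcon
  obtain ⟨η, hη0, hηj⟩ := hm
  have h3 := point_one h0n hr hcl hy0 (kills_of (fun z hz => hz.2.2.2.1) hr hcon η) rfl
    (fun k hk hk0 => hηj _ (hi k hk hk0)) hb
  apply hnf
  have h4 : ((A η, (0 : E × E)) : (ι → E × ℝ) × (E × E)).1 (i 0) = x := hη0
  rw [h4] at h3
  exact h3

theorem NT_null (hdim : 2 ≤ Module.finrank ℝ E) {g : E ≃ᵃⁱ[ℝ] E} {a : ι → E × ℝ}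
    {A : V →ₗ[ℝ] (ι → E × ℝ)} {r : ℕ} (hr0 : 0 < r)
    (hrn : r < n) (hir : i r = i 0) (hi : ∀ k < n, k ≠ 0 → k ≠ r → i k ≠ i 0)
    (hm : ∀ x, Motion A (i 0) x) :
    volume {y : V × (E × E) | BA a A y ∈ NT F T i c n r g} = 0 := by
  have hpE : ProperSpace E := FiniteDimensional.proper ℝ E
  have hpV : ProperSpace V := FiniteDimensional.proper ℝ V
  have hnt : Nontrivial E := Module.nontrivial_of_finrank_pos (R := ℝ) (by omega)
  have hvol : (volume : Measure (V × (E × E))).IsAddHaarMeasure := haar_prod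
  have hsplit : {y : V × (E × E) | BA a A y ∈ NT F T i c n r g} ⊆
      {y | BA a A y ∈ NT F T i c n r g ∧ rh F T i c 0 (BA a A y) ≠ rh F T i c r (BA a A y)} ∪
      {y | BA a A y ∈ NT F T i c n r g ∧ rh F T i c 0 (BA a A y) = rh F T i c r (BA a A y)} := by
    intro y hy
    by_cases h : rh F T i c 0 (BA a A y) = rh F T i c r (BA a A y)
    · exact Or.inr ⟨hy, h⟩
    · exact Or.inl ⟨hy, h⟩
  refine measure_mono_null hsplit (measure_union_null ?_ ?_)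
  · refine vol_hyper volume _ fun y hy => ?_
    obtain ⟨⟨hr, hy0, hb, hS, hor, hcl, hnf⟩, hne⟩ := hy
    by_contra hcon
    refine hnf (point_ne hr hcl hy0 hr0 hrn hir hi (fun x => ?_) hb hne)
    obtain ⟨η, hη0, hηj⟩ := hm x
    exact ⟨(A η, 0), kills_of (fun z hz => hz.1.2.2.2.2.2.1) hr hcon η, rfl, hη0, hηj⟩
  · refine vol_hyper volume _ fun y hy => ?_
    obtain ⟨⟨hr, hy0, hb, hS, hor, hcl, hnf⟩, heq⟩ := hy
    by_contra hcon
    obtain ⟨h0, hg⟩ := hr 0 (by omega)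
    obtain ⟨h0r, hgr⟩ := hr r hrn
    have hst : ContDiffAt ℝ 1 (st (RF F T) i c 0) (BA a A y) := contDiffAt_snd
    obtain ⟨⟨q1, -⟩, -⟩ := step_deriv' hst h0 hg
    obtain ⟨⟨q2, -⟩, -⟩ := step_deriv' (st_smooth hr r hrn.le) h0r hgr
    have q3 : ∀ f : E, ContDiffAt ℝ 1 (fun y => ⟪rh F T i c 0 y - rh F T i c r y, f⟫_ℝ)
        (BA a A y) := fun f => (q1.sub q2).inner ℝ contDiffAt_const
    have z3 : ∀ (f : E) (ζ : (ι → E × ℝ) × (E × E)), ζ.1 = 0 →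
        fderiv ℝ (fun y => ⟪rh F T i c 0 y - rh F T i c r y, f⟫_ℝ) (BA a A y) ζ = 0 := by
      intro f ζ hζ
      by_contra hf
      obtain ⟨k1, k2⟩ := pull_deriv a A (q3 f)
      refine hcon ⟨_, k1, ?_, fun z' hz' => ?_⟩
      · intro h0
        apply hf
        have h1 := k2 (0, ζ.2)
        rw [h0, map_zero, ← hζ] at h1
        exact h1.symm
      · have h5 : rh F T i c 0 (BA a A z') = rh F T i c r (BA a A z') := hz'.2
        simp only [h5, sub_self, inner_zero_left]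
    have hdw : ∀ ζ : (ι → E × ℝ) × (E × E), ζ.1 = 0 →
        fderiv ℝ (rh F T i c 0) (BA a A y) ζ = fderiv ℝ (rh F T i c r) (BA a A y) ζ := by
      intro ζ hζ
      rw [← sub_eq_zero]
      refine ext_inner_right ℝ fun f => ?_
      have k1 := ((line_deriv (q1.differentiableAt one_ne_zero) ζ).sub
        (line_deriv (q2.differentiableAt one_ne_zero) ζ)).inner ℝ (hasDerivAt_const (0 : ℝ) f)
      have k2 := line_fderiv ((q3 f).differentiableAt one_ne_zero) ζ k1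
      rw [z3 f ζ hζ, inner_zero_right, zero_add] at k2
      rw [← k2, inner_zero_left]
    rcases hor with hF | hne
    · refine hnf (point_eq hdim hr hcl hy0 hr0 hrn hir hi (fun x => ?_) hF ?_ heq hdw)
      · obtain ⟨η, hη0, hηj⟩ := hm x
        exact ⟨(A η, 0), kills_of (fun z hz => hz.1.2.2.2.2.2.1) hr hcon η, rfl, hη0, hηj⟩
      obtain ⟨Y, hY⟩ : ∃ Y, Y = BA a A y := ⟨_, rfl⟩
      rw [← hY] at hS hg hgr ⊢
      obtain ⟨hS0, hSr⟩ := hS
      rw [hir] at hSr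
      have n0 : 0 < ‖mk F T i c 0 Y‖ ^ 2 := pow_pos (norm_pos_iff.2 hg.g0) 2
      have nr : 0 < ‖mk F T i c r Y‖ ^ 2 := pow_pos (norm_pos_iff.2 hgr.g0) 2
      have m0 : mu F T i c 0 Y = -(2 * ⟪mk F T i c 0 Y, Y.2.2⟫_ℝ / ‖mk F T i c 0 Y‖ ^ 2) := rfl
      have mr : mu F T i c r Y = -(2 * ⟪mk F T i c r Y, (st (RF F T) i c r Y).2⟫_ℝ /
        ‖mk F T i c r Y‖ ^ 2) := rfl
      intro hsum
      have p0 : 0 < (Y.1 (i 0)).2 * (2 * ⟪mk F T i c 0 Y, Y.2.2⟫_ℝ / ‖mk F T i c 0 Y‖ ^ 2) := by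
        have : (Y.1 (i 0)).2 * (2 * ⟪mk F T i c 0 Y, Y.2.2⟫_ℝ / ‖mk F T i c 0 Y‖ ^ 2) =
          2 * ((Y.1 (i 0)).2 * ⟪mk F T i c 0 Y, Y.2.2⟫_ℝ) / ‖mk F T i c 0 Y‖ ^ 2 := by ring
        rw [this]; positivity
      have pr : 0 < (Y.1 (i 0)).2 * (2 * ⟪mk F T i c r Y, (st (RF F T) i c r Y).2⟫_ℝ /
          ‖mk F T i c r Y‖ ^ 2) := by
        have : (Y.1 (i 0)).2 * (2 * ⟪mk F T i c r Y, (st (RF F T) i c r Y).2⟫_ℝ /
            ‖mk F T i c r Y‖ ^ 2) =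
          2 * ((Y.1 (i 0)).2 * ⟪mk F T i c r Y, (st (RF F T) i c r Y).2⟫_ℝ) /
            ‖mk F T i c r Y‖ ^ 2 := by ring
        rw [this]; positivity
      rw [m0, mr] at hsum
      have h6 := congrArg (fun x => (Y.1 (i 0)).2 * x) hsum
      simp only [mul_add, mul_neg, mul_zero] at h6
      linarith
    · exact hne heq

end Pull

end Pool.Agent.V7H61.IV
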