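import Pool.Agent.V7H61.IV.Tw6

/-!
The orbits which hit a part twice are in the exceptional sets.
-/

set_option autoImplicit false

open MeasureTheory Set Filter Topology
open scoped InnerProductSpace ENNReal
open Pool.Agent.H721R2.Quart Pool.Agent.H721R2.Ivrii Pool.Agent.TH746

namespace Pool.Agent.V7H61.IV

variable {E : Type*} [NormedAddCommGroup E] [InnerProductSpace ℝ E] [FiniteDimensional ℝ E]
  {ι : Type*}

/-- The vector `X` is tangent to the boundary of `Ω'` at the regular boundary point `q`, and in the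
kernel of its second fundamental form at `q`. -/
def Still (Ω' : Set E) (q X : E) : Prop :=
  ∃ F : E → ℝ, LocalDef Ω' q F ∧ ⟪gradient F q, X⟫_ℝ = 0 ∧
    ∀ Y : E, ⟪gradient F q, Y⟫_ℝ = 0 → fderiv ℝ (fderiv ℝ F) q X Y = 0

/-- The points `q` and `q'` are on a line whose direction is tangent to the boundary of `Ω'` at `q`
and in the kernel of its second fundamental form at `q`. -/
def FlatLine (Ω' : Set E) (q q' : E) : Prop :=
  ∃ w : E, w ≠ 0 ∧ (∃ κ : ℝ, q' = q + κ • w) ∧ Still Ω' q w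

/-- The position of the bounce `k + 1` of an orbit relative to its part. -/
noncomputable def rp (i : ℕ → ι) (c : ℕ → E) (y : (ι → E × ℝ) × ((ℕ → E) × (ℕ → E))) (k : ℕ) : E :=
  (y.1 (i k)).2⁻¹ • (y.2.1 (k + 1) - ((y.1 (i k)).1 + c k))

/-- The closed orbits which hit the first part exactly twice. -/
def Twi (Ωs : ι → Set E) (i : ℕ → ι) (c : ℕ → E) (g : E ≃ᵃⁱ[ℝ] E) (n r : ℕ) :
    Set ((ι → E × ℝ) × ((ℕ → E) × (ℕ → E))) :=
  {y | 0 < r ∧ r < n ∧ i r = i 0 ∧ (∀ k < n, k ≠ 0 → k ≠ r → i k ≠ i 0) ∧ y ∈ Clo Ωs i c g n ∧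
    (∀ k < n, ∀ F : E → ℝ, LocalDef (Ωs (i k)) (rp i c y k) F →
      0 < (y.1 (i k)).2 * ⟪gradient F (rp i c y k), y.2.2 k⟫_ℝ) ∧
    y.2.2 1 ≠ -y.2.2 0 ∧ ¬ FlatLine (Ωs (i 0)) (rp i c y 0) (rp i c y r)}

omit [FiniteDimensional ℝ E] in
/-- Strict Cauchy-Schwarz inequality. -/
theorem exists_b {v m : E} (hv : v ≠ 0) (h : ⟪m, v⟫_ℝ ^ 2 ≠ ‖m‖ ^ 2 * ‖v‖ ^ 2) :
    ∃ b : E, ⟪v, b⟫_ℝ = 0 ∧ ⟪m, b⟫_ℝ ≠ 0 := by
  have h0 : ‖v‖ ^ 2 ≠ 0 := pow_ne_zero 2 (norm_ne_zero_iff.2 hv)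
  refine ⟨‖v‖ ^ 2 • m - ⟪m, v⟫_ℝ • v, ?_, ?_⟩
  · rw [inner_sub_right, inner_smul_right, inner_smul_right, real_inner_self_eq_norm_sq,
      real_inner_comm]
    ring
  · rw [inner_sub_right, inner_smul_right, inner_smul_right, real_inner_self_eq_norm_sq]
    intro h1
    apply h
    linarith

omit [FiniteDimensional ℝ E] in
/-- The incoming ray is not orthogonal to the mirror. -/
theorem not_normal {g v v' : E} (hg : g ≠ 0) (hv : ‖v‖ = 1) (h1 : v' = rf (dir g) v)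
    (h2 : v' ≠ -v) : ⟪g, v⟫_ℝ ^ 2 ≠ ‖g‖ ^ 2 * ‖v‖ ^ 2 := by
  intro h
  apply h2
  have hg0 : 0 < ‖g‖ := norm_pos_iff.2 hg
  have hg2 : ‖g‖ ^ 2 ≠ 0 := pow_ne_zero 2 hg0.ne'
  have h3 : ‖g‖ ^ 2 • v = ⟪g, v⟫_ℝ • g := by
    rw [← sub_eq_zero, ← norm_eq_zero, ← sq_eq_zero_iff, ← real_inner_self_eq_norm_sq]
    simp only [inner_sub_left, inner_sub_right, real_inner_smul_left, inner_smul_right,
      real_inner_self_eq_norm_sq, hv]
    rw [real_inner_comm g v]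
    rw [hv] at h
    nlinarith [h]
  rw [h1, rf_dir']
  have h4 : (‖g‖ ^ 2) • (v + -(2 * ⟪g, v⟫_ℝ / ‖g‖ ^ 2) • g) = (‖g‖ ^ 2) • (-v) := by
    rw [smul_add, smul_smul]
    have h5 : ‖g‖ ^ 2 * -(2 * ⟪g, v⟫_ℝ / ‖g‖ ^ 2) = -(2 * ⟪g, v⟫_ℝ) := by
      field_simp
    rw [h5, smul_neg, neg_smul, mul_smul, ← h3]
    module
  exact smul_right_injective E hg2 h4

/-- A defining function chosen for each boundary point. -/
noncomputable def Fc (Ω' : Set E) (q : E) : E → ℝ := by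
  classical
  exact if h : ∃ F : E → ℝ, LocalDef Ω' q F then h.choose else fun _ => 0

theorem Fc_spec {Ω' : Set E} {q : E} {F : E → ℝ} (h : LocalDef Ω' q F) :
    LocalDef Ω' q (Fc Ω' q) := by
  have h' : ∃ F : E → ℝ, LocalDef Ω' q F := ⟨F, h⟩
  unfold Fc
  rw [dif_pos h']
  exact h'.choose_spec

/-- The local reflection maps along an orbit, with their derivatives. -/
theorem exists_FT {Ωs : ι → Set E} {i : ℕ → ι} {c : ℕ → E} {g : E ≃ᵃⁱ[ℝ] E} {n : ℕ}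
    {t0 : ι → E × ℝ} {p u : ℕ → E} (h0 : (t0, (p, u)) ∈ Clo Ωs i c g n) :
    ∃ (F : ℕ → E → ℝ) (T : ℕ → E × E → ℝ),
      (∀ k, F k = Fc (Ωs (i k)) (rp i c (t0, (p, u)) k)) ∧ ∀ k < n,
      LocalDef (Ωs (i k)) (rp i c (t0, (p, u)) k) (F k) ∧
      (RF F T k ((t0 (i k)).2⁻¹ • (p k - ((t0 (i k)).1 + c k)), u k) =
        ((t0 (i k)).2⁻¹ • (p (k + 1) - ((t0 (i k)).1 + c k)), u (k + 1))) ∧
      u (k + 1) = rf (dir (gradient (F k) (rp i c (t0, (p, u)) k))) (u k) ∧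
      (∀ᶠ z in 𝓝 ((t0 (i k)).2⁻¹ • (p k - ((t0 (i k)).1 + c k)), u k), Good (F k) (T k) z) ∧
      ∀ᶠ y : (E × E) × ℝ in 𝓝 (((t0 (i k)).2⁻¹ • (p k - ((t0 (i k)).1 + c k)), u k),
          (t0 (i k)).2⁻¹ * ‖p (k + 1) - p k‖),
        ∀ F' : E → ℝ, LocalDef (Ωs (i k)) (y.1.1 + y.2 • y.1.2) F' →
          RF F T k y.1 = (y.1.1 + y.2 • y.1.2,
            rf (dir (gradient F' (y.1.1 + y.2 • y.1.2))) y.1.2) := by
  obtain ⟨F, hF⟩ : ∃ F : ℕ → E → ℝ, ∀ k, F k = Fc (Ωs (i k)) (rp i c (t0, (p, u)) k) :=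
    ⟨_, fun _ => rfl⟩
  have hT : ∀ k, ∃ Tk : E × E → ℝ, k < n →
      LocalDef (Ωs (i k)) (rp i c (t0, (p, u)) k) (F k) ∧
      (RR (F k) Tk ((t0 (i k)).2⁻¹ • (p k - ((t0 (i k)).1 + c k)), u k) =
        ((t0 (i k)).2⁻¹ • (p (k + 1) - ((t0 (i k)).1 + c k)), u (k + 1))) ∧
      u (k + 1) = rf (dir (gradient (F k) (rp i c (t0, (p, u)) k))) (u k) ∧
      (∀ᶠ z in 𝓝 ((t0 (i k)).2⁻¹ • (p k - ((t0 (i k)).1 + c k)), u k), Good (F k) Tk z) ∧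
      ∀ᶠ y : (E × E) × ℝ in 𝓝 (((t0 (i k)).2⁻¹ • (p k - ((t0 (i k)).1 + c k)), u k),
          (t0 (i k)).2⁻¹ * ‖p (k + 1) - p k‖),
        ∀ F' : E → ℝ, LocalDef (Ωs (i k)) (y.1.1 + y.2 • y.1.2) F' →
          RR (F k) Tk y.1 = (y.1.1 + y.2 • y.1.2,
            rf (dir (gradient F' (y.1.1 + y.2 • y.1.2))) y.1.2) := by
    intro k
    by_cases hk : k < n
    · obtain ⟨τ, hτ, hq, F', hF', hne, hv⟩ := h0.1 k hk
      simp only at hq hF' hne hv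
      have hu : ‖u k‖ = 1 := clo_unit h0 hk.le
      have e : (t0 (i k)).2⁻¹ • (p k - ((t0 (i k)).1 + c k)) + ((t0 (i k)).2⁻¹ * τ) • u k =
          (t0 (i k)).2⁻¹ • (p (k + 1) - ((t0 (i k)).1 + c k)) := by
        rw [hq, mul_smul, ← smul_add]
        congr 1
        abel
      have e2 : ‖p (k + 1) - p k‖ = τ := by
        rw [hq, add_sub_cancel_left, norm_smul, hu, mul_one, Real.norm_eq_abs, abs_of_pos hτ]
      have e3 : rp i c (t0, (p, u)) k =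
          (t0 (i k)).2⁻¹ • (p k - ((t0 (i k)).1 + c k)) + ((t0 (i k)).2⁻¹ * τ) • u k := by
        rw [e]; rfl
      rw [← e] at hF' hne hv
      have hFk : LocalDef (Ωs (i k))
          ((t0 (i k)).2⁻¹ • (p k - ((t0 (i k)).1 + c k)) + ((t0 (i k)).2⁻¹ * τ) • u k) (F k) := by
        rw [hF, ← e3]
        rw [← e3] at hF'
        exact Fc_spec hF'
      obtain ⟨l, hl, hl2⟩ := grad_parallel hFk hF'
      have htr : ⟪gradient (F k) ((t0 (i k)).2⁻¹ • (p k - ((t0 (i k)).1 + c k)) +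
          ((t0 (i k)).2⁻¹ * τ) • u k), u k⟫_ℝ ≠ 0 := by
        intro h
        apply hne
        rw [hl2, real_inner_smul_left, h, mul_zero]
      obtain ⟨Tk, h1, h2, h3⟩ := exists_bounceC hFk htr
      have hv' : u (k + 1) = rf (dir (gradient (F k) ((t0 (i k)).2⁻¹ •
          (p k - ((t0 (i k)).1 + c k)) + ((t0 (i k)).2⁻¹ * τ) • u k))) (u k) := by
        rw [hv, hl2, rf_dir_smul _ hl]
      refine ⟨Tk, fun _ => ⟨by rw [e3]; exact hFk, ?_, by rw [e3]; exact hv', h2, ?_⟩⟩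
      · rw [RR_eq, h1, ← hv', e]
      · rw [e2]
        filter_upwards [h3] with y hy F'' hF''
        exact (hy F'' hF'').2.2
    · exact ⟨fun _ => 0, fun h => absurd h hk⟩
  choose T hT using hT
  exact ⟨F, T, hF, fun k hk => hT k hk⟩

variable [Fintype ι]

/-- The regular rays near an orbit: they close up, and the bounces are at the same relative
positions as those of the orbit. -/
theorem exists_chart0 {Ωs : ι → Set E} {i : ℕ → ι} {c : ℕ → E} {g : E ≃ᵃⁱ[ℝ] E} {n : ℕ}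
    (h0n : 0 < n) {t0 : ι → E × ℝ} {p u : ℕ → E} (hclo : (t0, (p, u)) ∈ Clo Ωs i c g n)
    (hpos : ∀ k < n, ∀ F : E → ℝ, LocalDef (Ωs (i k)) (rp i c (t0, (p, u)) k) F →
      0 < (t0 (i k)).2 * ⟪gradient F (rp i c (t0, (p, u)) k), u k⟫_ℝ)
    (hnn : u 1 ≠ -u 0) :
    ∃ (F : ℕ → E → ℝ) (T : ℕ → E × E → ℝ),
      (∀ k, F k = Fc (Ωs (i k)) (rp i c (t0, (p, u)) k)) ∧
      ∀ᶠ y : (ι → E × ℝ) × ((ℕ → E) × (ℕ → E)) in 𝓝 (t0, (p, u)), y ∈ Clo Ωs i c g n →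
        (LocalDef (Ωs (i 0)) (rp i c y 0) (F 0)) ∧
        ∀ᶠ σ : ℝ × ℝ in 𝓝 ((0 : ℝ), (1 : ℝ)), ∀ z : (ι → E × ℝ) × (E × E),
          z = (y.1, (y.2.1 0 + σ.1 • y.2.2 0, σ.2 • y.2.2 0)) →
          Reg F T i c n z ∧ z.2.2 ≠ 0 ∧
          (∃ b, ⟪z.2.2, b⟫_ℝ = 0 ∧ ⟪mk F T i c 0 z, b⟫_ℝ ≠ 0) ∧
          (∀ k < n, 0 < (z.1 (i k)).2 * ⟪mk F T i c k z, (st (RF F T) i c k z).2⟫_ℝ) ∧
          Cl F T i c n g z ∧ (∀ k < n, rh F T i c k z = rp i c y k) ∧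
          (∀ k < n, ∀ l < n, rp i c (t0, (p, u)) k ≠ rp i c (t0, (p, u)) l →
            rh F T i c k z ≠ rh F T i c l z) := by
  obtain ⟨F, T, hFc, hFT⟩ := exists_FT hclo
  refine ⟨F, T, hFc, ?_⟩
  have hs0 : ∀ k < n, (t0 (i k)).2 ≠ 0 := hclo.2.1
  obtain ⟨hb, hc, harg, horb⟩ := st_props hclo (RF F T) fun k hk =>
    ⟨(hFT k hk).2.1, by
      filter_upwards [(hFT k hk).2.2.2.1] with z hz
      exact (good_contDiff hz).2.2.2.continuousAt, (hFT k hk).2.2.2.2⟩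
  obtain ⟨Y0, hY0⟩ : ∃ Y0 : (ι → E × ℝ) × (E × E), Y0 = (t0, (p 0, u 0)) := ⟨_, rfl⟩
  rw [← hY0] at hb hc harg
  -- regularity
  have hne : ∀ k < n, ∀ᶠ y : (ι → E × ℝ) × (E × E) in 𝓝 Y0, (y.1 (i k)).2 ≠ 0 := by
    intro k hk
    have c1 : ContinuousAt (fun y : (ι → E × ℝ) × (E × E) => (y.1 (i k)).2) Y0 := by fun_prop
    exact c1.eventually_ne (by rw [hY0]; exact hs0 k hk)
  have hReg : ∀ᶠ y in 𝓝 Y0, Reg F T i c n y := by
    have h1 : ∀ᶠ y in 𝓝 Y0, ∀ k ∈ Finset.range n,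
        (y.1 (i k)).2 ≠ 0 ∧ Good (F k) (T k) (Wk F T i c k y) := by
      refine (Filter.eventually_all_finset _).2 fun k hk => ?_
      have hk' := Finset.mem_range.1 hk
      exact (hne k hk').and ((harg k hk').eventually (hFT k hk').2.2.2.1)
    filter_upwards [h1] with y hy k hk
    exact hy k (Finset.mem_range.2 hk)
  have hR0 : Reg F T i c n Y0 := hReg.self_of_nhds
  have hcont : ∀ k < n, ContinuousAt (rh F T i c k) Y0 ∧ ContinuousAt (mk F T i c k) Y0 := by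
    intro k hk
    obtain ⟨⟨q1, q2, -⟩, -⟩ := step_deriv' (st_smooth hR0 k hk.le) (hR0 k hk).1 (hR0 k hk).2
    exact ⟨q1.continuousAt, q2.continuousAt⟩
  -- the relative positions
  have hrh : ∀ k < n, ∀ (z : (ι → E × ℝ) × (E × E)) (q : E), (z.1 (i k)).2 ≠ 0 →
      (st (RF F T) i c (k + 1) z).1 = q →
      rh F T i c k z = (z.1 (i k)).2⁻¹ • (q - ((z.1 (i k)).1 + c k)) := by
    intro k hk z q hz hq
    have h1 : (st (RF F T) i c (k + 1) z).1 =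
      (z.1 (i k)).2 • rh F T i c k z + ((z.1 (i k)).1 + c k) := rfl
    rw [← hq, h1, add_sub_cancel_right, inv_smul_smul₀ hz]
  have hrh0 : ∀ k < n, rh F T i c k Y0 = rp i c (t0, (p, u)) k := by
    intro k hk
    rw [hrh k hk Y0 (p (k + 1)) (by rw [hY0]; exact hs0 k hk) (by rw [hb (k + 1) hk]), hY0]
    rfl
  have hmk0 : ∀ k < n, mk F T i c k Y0 = gradient (F k) (rp i c (t0, (p, u)) k) := by
    intro k hk
    unfold mk
    rw [hrh0 k hk]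
  -- open conditions
  have ev1 : ∀ᶠ y in 𝓝 Y0, y.2.2 ≠ 0 := by
    have c1 : ContinuousAt (fun y : (ι → E × ℝ) × (E × E) => y.2.2) Y0 := by fun_prop
    refine c1.eventually_ne ?_
    rw [hY0]
    simp only
    intro h
    have h1 : ‖u 0‖ = 1 := hclo.2.2.1
    rw [h, norm_zero] at h1
    exact zero_ne_one h1
  have ev2 : ∀ᶠ y in 𝓝 Y0, ⟪mk F T i c 0 y, y.2.2⟫_ℝ ^ 2 ≠
      ‖mk F T i c 0 y‖ ^ 2 * ‖y.2.2‖ ^ 2 := by
    have c1 : ContinuousAt (fun y : (ι → E × ℝ) × (E × E) => ⟪mk F T i c 0 y, y.2.2⟫_ℝ ^ 2 -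
        ‖mk F T i c 0 y‖ ^ 2 * ‖y.2.2‖ ^ 2) Y0 := by
      have c2 := (hcont 0 h0n).2
      exact ((c2.inner (by fun_prop)).pow 2).sub ((c2.norm.pow 2).mul (by fun_prop))
    have h1 : ⟪mk F T i c 0 Y0, Y0.2.2⟫_ℝ ^ 2 - ‖mk F T i c 0 Y0‖ ^ 2 * ‖Y0.2.2‖ ^ 2 ≠ 0 := by
      rw [hmk0 0 h0n, hY0, sub_ne_zero]
      exact not_normal (hFT 0 h0n).1.grad hclo.2.2.1 (hFT 0 h0n).2.2.1 hnn
    filter_upwards [c1.eventually_ne h1] with y hy
    exact sub_ne_zero.1 hy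
  have ev3 : ∀ᶠ y in 𝓝 Y0, ∀ k ∈ Finset.range n,
      0 < (y.1 (i k)).2 * ⟪mk F T i c k y, (st (RF F T) i c k y).2⟫_ℝ := by
    refine (Filter.eventually_all_finset _).2 fun k hk => ?_
    have hk := Finset.mem_range.1 hk
    have c1 : ContinuousAt (fun y : (ι → E × ℝ) × (E × E) =>
        (y.1 (i k)).2 * ⟪mk F T i c k y, (st (RF F T) i c k y).2⟫_ℝ) Y0 := by
      have c2 : ContinuousAt (fun y => (st (RF F T) i c k y).2) Y0 :=
        (hc k hk.le).self_of_nhds.snd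
      exact ContinuousAt.mul (by fun_prop) ((hcont k hk).2.inner c2)
    refine c1.eventually_const_lt ?_
    simp only
    rw [hmk0 k hk, hb k hk.le, hY0]
    exact hpos k hk (F k) (hFT k hk).1
  have ev4 : ∀ᶠ y in 𝓝 Y0, ∀ k ∈ Finset.range n, ∀ l ∈ Finset.range n,
      rp i c (t0, (p, u)) k ≠ rp i c (t0, (p, u)) l → rh F T i c k y ≠ rh F T i c l y := by
    refine (Filter.eventually_all_finset _).2 fun k hk => ?_
    refine (Filter.eventually_all_finset _).2 fun l hl => ?_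
    have hk := Finset.mem_range.1 hk
    have hl := Finset.mem_range.1 hl
    by_cases h : rp i c (t0, (p, u)) k = rp i c (t0, (p, u)) l
    · exact Eventually.of_forall fun y h' => absurd h h'
    · have c1 : ContinuousAt (fun y => rh F T i c k y - rh F T i c l y) Y0 :=
        (hcont k hk).1.sub (hcont l hl).1
      have h1 : rh F T i c k Y0 - rh F T i c l Y0 ≠ 0 := by
        rw [hrh0 k hk, hrh0 l hl]
        exact sub_ne_zero.2 h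
      filter_upwards [c1.eventually_ne h1] with y hy _
      exact sub_ne_zero.1 hy
  -- the local defining function
  have ev5 : ∀ᶠ y : (ι → E × ℝ) × ((ℕ → E) × (ℕ → E)) in 𝓝 (t0, (p, u)),
      ∀ F' : E → ℝ, LocalDef (Ωs (i 0)) (rp i c y 0) F' →
        LocalDef (Ωs (i 0)) (rp i c y 0) (F 0) := by
    have c1 : ContinuousAt (fun y : (ι → E × ℝ) × ((ℕ → E) × (ℕ → E)) => rp i c y 0)
        (t0, (p, u)) := by
      unfold rp
      refine ContinuousAt.smul (ContinuousAt.inv₀ (by fun_prop) ?_) (by fun_prop)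
      exact hs0 0 h0n
    exact c1.eventually (localDef_near (hFT 0 h0n).1)
  -- the ray
  have hz : Tendsto (fun x : ((ι → E × ℝ) × ((ℕ → E) × (ℕ → E))) × (ℝ × ℝ) =>
      ((x.1.1, (x.1.2.1 0 + x.2.1 • x.1.2.2 0, x.2.2 • x.1.2.2 0)) :
        (ι → E × ℝ) × (E × E)))
      (𝓝 ((t0, (p, u)), ((0 : ℝ), (1 : ℝ)))) (𝓝 Y0) := by
    have c1 : Continuous (fun x : ((ι → E × ℝ) × ((ℕ → E) × (ℕ → E))) × (ℝ × ℝ) =>
      ((x.1.1, (x.1.2.1 0 + x.2.1 • x.1.2.2 0, x.2.2 • x.1.2.2 0)) :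
        (ι → E × ℝ) × (E × E))) := by
      fun_prop
    have c2 := c1.tendsto ((t0, (p, u)), ((0 : ℝ), (1 : ℝ)))
    simp only [zero_smul, add_zero, one_smul] at c2
    rw [hY0]
    exact c2
  have horb' : ∀ᶠ x : ((ι → E × ℝ) × ((ℕ → E) × (ℕ → E))) × (ℝ × ℝ) in
      𝓝 ((t0, (p, u)), ((0 : ℝ), (1 : ℝ))), ∀ k ∈ Finset.range n, x.1 ∈ Clo Ωs i c g n →
        st (RF F T) i c (k + 1) (x.1.1, (x.1.2.1 0 + x.2.1 • x.1.2.2 0, x.2.2 • x.1.2.2 0)) =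
          (x.1.2.1 (k + 1) + (dl (k + 1) * x.2.1) • x.1.2.2 (k + 1), x.2.2 • x.1.2.2 (k + 1)) := by
    refine (Filter.eventually_all_finset _).2 fun k hk => ?_
    exact horb (k + 1) (Finset.mem_range.1 hk)
  have hall := (hz.eventually (hReg.and (ev1.and (ev2.and (ev3.and ev4))))).and horb'
  filter_upwards [hall.curry_nhds, ev5] with y hy hy5 hyC
  refine ⟨?_, ?_⟩
  · obtain ⟨τ, -, -, F', hF', -⟩ := hyC.1 0 h0n
    exact hy5 F' hF'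
  filter_upwards [hy] with σ hσ z hzd
  simp only [← hzd] at hσ
  obtain ⟨⟨k1, k2, k3, k4, k6⟩, o1⟩ := hσ
  have hrr : ∀ k < n, rh F T i c k z = rp i c y k := by
    intro k hk
    have o2 := o1 k (Finset.mem_range.2 hk) hyC
    rw [dl_succ, zero_mul, zero_smul, add_zero] at o2
    have r0 := hrh k hk _ _ (k1 k hk).1 (by rw [o2])
    rw [r0, hzd]
    rfl
  have e0 : z.1 = y.1 := by rw [hzd]
  have e1 : z.2.2 = σ.2 • y.2.2 0 := by rw [hzd]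
  have e2 : z.2.1 = y.2.1 0 + σ.1 • y.2.2 0 := by rw [hzd]
  rw [← e1] at k2 k3
  refine ⟨k1, k2, exists_b k2 k3, fun k hk => ?_, ?_, hrr,
    fun k hk l hl => k6 k (Finset.mem_range.2 hk) l (Finset.mem_range.2 hl)⟩
  · rw [e0]
    exact k4 k (Finset.mem_range.2 hk)
  obtain ⟨m, rfl⟩ : ∃ m, n = m + 1 := ⟨n - 1, by omega⟩
  have o2 := o1 m (Finset.mem_range.2 (Nat.lt_succ_self m)) hyC
  rw [dl_succ, zero_mul, zero_smul, add_zero] at o2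
  obtain ⟨G, hG⟩ : ∃ G : E ≃ₗᵢ[ℝ] E, G = g.linearIsometryEquiv := ⟨_, rfl⟩
  have hp : y.2.1 (m + 1) = g (y.2.1 0) := hyC.2.2.2.1
  have hu : y.2.2 (m + 1) = G (y.2.2 0) := by rw [hG]; exact hyC.2.2.2.2
  unfold Cl
  rw [o2, ← hG, e1, e2]
  simp only
  rw [hp, hu]
  have hg : g (y.2.1 0 + σ.1 • y.2.2 0) = g (y.2.1 0) + σ.1 • G (y.2.2 0) := by
    rw [isom_eq g (y.2.1 0 + σ.1 • y.2.2 0), isom_eq g (y.2.1 0), map_add, map_smul, hG]
    abel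
  rw [hg, map_smul]
  refine ⟨rfl, ?_⟩
  unfold Par
  rw [sub_add_cancel_left, inner_neg_right, inner_smul_right, inner_smul_left,
    real_inner_self_eq_norm_sq, norm_smul, mul_pow, Real.norm_eq_abs, sq_abs]
  simp only [conj_trivial]
  module

/-- The orbits near a given one are in the exceptional set of a chart. -/
theorem exists_chart {Ωs : ι → Set E} {i : ℕ → ι} {c : ℕ → E} {g : E ≃ᵃⁱ[ℝ] E} {n r : ℕ}
    {t0 : ι → E × ℝ} {p u : ℕ → E} (h0 : (t0, (p, u)) ∈ Twi Ωs i c g n r) :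
    ∃ (F : ℕ → E → ℝ) (T : ℕ → E × E → ℝ),
      ∀ᶠ y : (ι → E × ℝ) × ((ℕ → E) × (ℕ → E)) in 𝓝 (t0, (p, u)), y ∈ Twi Ωs i c g n r →
        NearRays (NT F T i c n r g) y.1 y.2 := by
  obtain ⟨hr0, hrn, hir, hi, hclo, hpos, hnn, hnf⟩ := h0
  simp only at hnn hpos
  have h0n : 0 < n := by omega
  obtain ⟨F, T, hFc, hev⟩ := exists_chart0 h0n hclo hpos hnn
  refine ⟨F, T, ?_⟩
  filter_upwards [hev] with y hy hyT
  obtain ⟨-, -, -, -, hyC, -, -, hynf⟩ := hyT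
  obtain ⟨hld, hyσ⟩ := hy hyC
  filter_upwards [hyσ] with σ hσ
  obtain ⟨k1, k2, k3, k4, k5, k6, k7⟩ := hσ _ rfl
  refine ⟨k1, k2, k3, ⟨k4 0 h0n, k4 r hrn⟩, ?_, k5, ?_⟩
  · by_cases h : rp i c (t0, (p, u)) 0 = rp i c (t0, (p, u)) r
    · left
      rw [hFc r, hFc 0, hir, ← h]
    · right
      exact k7 0 h0n r hrn h
  · intro hfl
    apply hynf
    obtain ⟨w, hw0, ⟨κ, hκ⟩, hgw, hY⟩ := hfl
    rw [k6 0 h0n, k6 r hrn] at hκ
    rw [k6 0 h0n] at hgw hY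
    exact ⟨w, hw0, ⟨κ, hκ⟩, F 0, hld, hgw, hY⟩

end Pool.Agent.V7H61.IV
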