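import Pool.Agent.V7H61.IV.Tw7

/-!
Bounces at parts, and the kernel of the second fundamental form.
-/

set_option autoImplicit false

open MeasureTheory Set Filter Topology
open scoped InnerProductSpace ENNReal NNReal
open Pool.Agent.H721R2.Quart Pool.Agent.H721R2.Ivrii Pool.Agent.TH746

namespace Pool.Agent.V7H61.IV

section Step

variable {E : Type*} [NormedAddCommGroup E] [InnerProductSpace ℝ E] [CompleteSpace E]

/-- In a direction of increase of the defining function the table is left. -/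
theorem leaves {Ω : Set E} {q : E} {F : E → ℝ} (h : LocalDef Ω q F) {w : E}
    (hw : 0 < ⟪gradient F q, w⟫_ℝ) : ∀ᶠ t in 𝓝[>] (0 : ℝ), q + t • w ∉ Ω := by
  have hd := line_hasDerivAt (h.smooth.differentiableAt (by norm_num)) w
  have hc : Tendsto (fun t : ℝ => q + t • w) (𝓝[>] 0) (𝓝 q) := by
    have h1 : Continuous (fun t : ℝ => q + t • w) := by fun_prop
    have := h1.tendsto 0
    simp only [zero_smul, add_zero] at this
    exact this.mono_left nhdsWithin_le_nhds
  have h2 : ∀ᶠ t in 𝓝[>] (0 : ℝ), 0 < F (q + t • w) := by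
    have hs := hd.hasDerivWithinAt (s := Ioi 0)
    rw [hasDerivWithinAt_iff_tendsto_slope] at hs
    have hdiff : Ioi (0 : ℝ) \ {0} = Ioi 0 := by
      ext t; simp only [Set.mem_sdiff, mem_Ioi, mem_singleton_iff]
      exact ⟨fun h => h.1, fun h => ⟨h, h.ne'⟩⟩
    rw [hdiff] at hs
    have h3 := hs.eventually (lt_mem_nhds hw)
    filter_upwards [h3, self_mem_nhdsWithin] with t ht ht0
    rw [slope_def_field] at ht
    simp only [zero_smul, add_zero, sub_zero, h.zero] at ht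
    have ht0' : (0 : ℝ) < t := ht0
    by_contra hcon
    exact absurd ht (not_lt.2 (div_nonpos_of_nonpos_of_nonneg (not_lt.1 hcon) ht0'.le))
  filter_upwards [h2, hc.eventually h.mem] with t ht1 ht2 ht3
  exact absurd (ht2.1 ht3) (not_lt.2 ht1.le)

/-- The particle arrives from inside. -/
theorem step_pos {Ω : Set E} {q v q' v' : E} (h : Step Ω q v q' v') {F : E → ℝ}
    (hF : LocalDef Ω q' F) : 0 < ⟪gradient F q', v⟫_ℝ := by
  obtain ⟨τ, hτ, hq, hin, F', hF', hne, -⟩ := h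
  obtain ⟨l, hl, hl2⟩ := grad_parallel hF hF'
  have h1 : ⟪gradient F q', v⟫_ℝ ≠ 0 := by
    intro h2
    apply hne
    rw [hl2, inner_smul_right, real_inner_comm, h2, mul_zero]
  by_contra hcon
  have h2 : 0 < ⟪gradient F q', -v⟫_ℝ := by
    rw [inner_neg_right]
    have := lt_of_le_of_ne (not_lt.1 hcon) h1
    linarith
  have h3 := leaves hF h2
  have h4 : ∀ᶠ t in 𝓝[>] (0 : ℝ), t < τ := by
    have h5 : ∀ᶠ t in 𝓝 (0 : ℝ), t < τ := gt_mem_nhds hτ
    exact h5.filter_mono nhdsWithin_le_nhds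
  obtain ⟨t, ht1, ht2, ht3⟩ := (h3.and (h4.and self_mem_nhdsWithin)).exists
  have ht3' : (0 : ℝ) < t := ht3
  apply ht1
  have h6 := hin (τ - t) ⟨by linarith, by linarith⟩
  rw [hq]
  convert h6 using 1
  module

/-- A defining function at `q` is a defining function at all its zeros near `q`. -/
theorem localDef_zero {Ω : Set E} {q : E} {F : E → ℝ} (h : LocalDef Ω q F) :
    ∀ᶠ x in 𝓝 q, F x = 0 → LocalDef Ω x F := by
  have h1 : ∀ᶠ x in 𝓝 q, ContDiffAt ℝ 3 F x := h.smooth.eventually (by simp)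
  have h2 : ContinuousAt (gradient F) q := by
    have h1 : ContinuousAt (fderiv ℝ F) q :=
      (h.smooth.fderiv_right (m := 2) (by norm_num)).continuousAt
    exact (InnerProductSpace.toDual ℝ E).symm.continuous.continuousAt.comp h1
  filter_upwards [h1, h2.eventually_ne h.grad, eventually_eventually_nhds.2 h.mem] with x h3 h4 h5 h6
  exact ⟨h3, h6, h4, h5⟩

end Step

variable {E : Type*} [NormedAddCommGroup E] [InnerProductSpace ℝ E] [FiniteDimensional ℝ E]
  {ι : Type*}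

/-- The particle arrives at a part from inside. -/
theorem part_pos {Ω Ω' : Set E} {q v q' v' a : E} {s : ℝ} (hs : s ≠ 0) (h : Step Ω q v q' v')
    (hp : PartAt Ω' a s Ω q') {F : E → ℝ} (hF : LocalDef Ω' (s⁻¹ • (q' - a)) F) :
    0 < s * ⟪gradient F (s⁻¹ • (q' - a)), v⟫_ℝ := by
  obtain ⟨ρ, hρ⟩ : ∃ ρ, ρ = s⁻¹ • (q' - a) := ⟨_, rfl⟩
  rw [← hρ] at hF ⊢
  have hq : s • ρ + a = q' := by rw [hρ, smul_inv_smul₀ hs, sub_add_cancel]
  have hc : Tendsto (fun x : E => s • x + a) (𝓝 ρ) (𝓝 q') := by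
    have h1 : Continuous fun x : E => s • x + a := by fun_prop
    have h2 := h1.tendsto ρ
    rwa [hq] at h2
  have h1 : ∀ᶠ x in 𝓝 ρ, (x ∈ Ω' ↔ (s⁻¹)⁻¹ • (x - (-(s⁻¹ • a))) ∈ Ω) := by
    have hp' : ∀ᶠ x in 𝓝 q', (x ∈ Ω ↔ s⁻¹ • (x - a) ∈ Ω') := hp
    filter_upwards [hc.eventually hp'] with x hx
    rw [add_sub_cancel_right, inv_smul_smul₀ hs] at hx
    rw [← hx, inv_inv, sub_neg_eq_add, smul_add, smul_inv_smul₀ hs]
  obtain ⟨h2, h3⟩ := localDef_homothety (inv_ne_zero hs) h1 hF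
  have e : (s⁻¹)⁻¹ • (ρ - (-(s⁻¹ • a))) = q' := by
    rw [inv_inv, sub_neg_eq_add, smul_add, smul_inv_smul₀ hs, hq]
  rw [e] at h2 h3
  have h4 := step_pos h h2
  rw [h3, real_inner_smul_left] at h4
  have h5 : s * ⟪gradient F ρ, v⟫_ℝ = s ^ 2 * (s⁻¹ * ⟪gradient F ρ, v⟫_ℝ) := by
    field_simp
  rw [h5]
  have h6 : 0 < s ^ 2 := by positivity
  exact mul_pos h6 h4

/-- There are no bounces at parts of size zero. -/
theorem part_size_ne {Ω Ω' : Set E} {q v q' v' a : E} {s : ℝ} (h : Step Ω q v q' v')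
    (hp : PartAt Ω' a s Ω q') : s ≠ 0 := by
  rintro rfl
  obtain ⟨τ, -, -, -, F, hF, -⟩ := h
  have hp' : ∀ᶠ x in 𝓝 q', (x ∈ Ω ↔ (0 : E) ∈ Ω') := by
    have hp'' : ∀ᶠ x in 𝓝 q', (x ∈ Ω ↔ (0 : ℝ)⁻¹ • (x - a) ∈ Ω') := hp
    simpa using hp''
  have h1 : q' ∉ Ω := by
    intro hq
    have := (hF.mem.self_of_nhds).1 hq
    rw [hF.zero] at this
    exact lt_irrefl _ this
  have h2 : (0 : E) ∉ Ω' := fun h2 => h1 (hp'.self_of_nhds.2 h2)
  have h3 := enters hF (w := -gradient F q') (by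
    rw [inner_neg_right, real_inner_self_eq_norm_sq]
    have : 0 < ‖gradient F q'‖ := norm_pos_iff.2 hF.grad
    nlinarith)
  have hc : Tendsto (fun t : ℝ => q' + t • (-gradient F q')) (𝓝[>] 0) (𝓝 q') := by
    have h1 : Continuous (fun t : ℝ => q' + t • (-gradient F q')) := by fun_prop
    have := h1.tendsto 0
    simp only [zero_smul, add_zero] at this
    exact this.mono_left nhdsWithin_le_nhds
  obtain ⟨t, ht1, ht2⟩ := (h3.and (hc.eventually hp')).exists
  exact h2 (ht2.1 ht1)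

/-- The kernel of the second fundamental form does not depend on the defining function. -/
theorem still_indep {Ω' : Set E} {q : E} {F F' : E → ℝ} (hF : LocalDef Ω' q F)
    (hF' : LocalDef Ω' q F') {X : E} (h : StillF F q X) : StillF F' q X := by
  obtain ⟨l, hl, hl2⟩ := grad_parallel hF hF'
  obtain ⟨h1, h2⟩ := h
  have hX' : ⟪gradient F' q, X⟫_ℝ = 0 := by rw [hl2, real_inner_smul_left, h1, mul_zero]
  refine ⟨hX', fun Y hY => ?_⟩
  have hY0 : ⟪gradient F q, Y⟫_ℝ = 0 := by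
    rw [hl2, real_inner_smul_left] at hY
    exact (mul_eq_zero.1 hY).resolve_left hl
  obtain ⟨N, hN⟩ : ∃ N, N = gradient F q := ⟨_, rfl⟩
  have hN0 : N ≠ 0 := by rw [hN]; exact hF.grad
  have hNN : ⟪N, N⟫_ℝ ≠ 0 := by
    rw [real_inner_self_eq_norm_sq]
    exact pow_ne_zero 2 (norm_ne_zero_iff.2 hN0)
  have e0 : q + (0 : ℝ) • N = q := by rw [zero_smul, add_zero]
  obtain ⟨T, hT0, hTg, -⟩ := exists_bounceC (Ω := Ω') (F := F) (q := q) (v := N) (τ := 0)
    (by rw [e0]; exact hF) (by rw [e0, ← hN]; exact hNN)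
  have hg := hTg.self_of_nhds
  have hx0 : hitX T (q, N) = q := by
    unfold hitX
    rw [hT0]
    exact e0
  -- the curve
  obtain ⟨γ, hγ⟩ : ∃ γ : ℝ → E, γ = fun t => hitX T (q + t • Y, N) := ⟨_, rfl⟩
  have hγ0 : γ 0 = q := by rw [hγ]; simp only [zero_smul, add_zero]; exact hx0
  have hTd : DifferentiableAt ℝ T (q, N) := hg.cT.differentiableAt (by norm_num)
  obtain ⟨κ, hκ⟩ : ∃ κ : ℝ, HasDerivAt γ (Y + κ • N) 0 := by
    have k1 : HasDerivAt (fun t : ℝ => T (q + t • Y, N)) (fderiv ℝ T (q, N) (Y, 0)) 0 := by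
      have k2 := line_deriv hTd (Y, (0 : E))
      have k3 : (fun t : ℝ => T ((q, N) + t • (Y, (0 : E)))) = fun t : ℝ => T (q + t • Y, N) := by
        funext t
        simp only [Prod.smul_mk, Prod.mk_add_mk, smul_zero, add_zero]
      rwa [k3] at k2
    have k4 : HasDerivAt (fun t : ℝ => q + t • Y) Y 0 := by
      have k5 := ((hasDerivAt_id (0 : ℝ)).smul_const Y).const_add q
      simpa using k5
    refine ⟨fderiv ℝ T (q, N) (Y, 0), ?_⟩
    rw [hγ]
    exact k4.add (k1.smul_const N)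
  have hz0 : ∀ᶠ t : ℝ in 𝓝 0, F (γ t) = 0 := by
    have k1 : Tendsto (fun t : ℝ => ((q + t • Y, N) : E × E)) (𝓝 0) (𝓝 (q, N)) := by
      have k2 : Continuous fun t : ℝ => ((q + t • Y, N) : E × E) := by fun_prop
      have k3 := k2.tendsto 0
      simpa using k3
    rw [hγ]
    exact k1.eventually hg.z0
  have hκ0 : κ = 0 := by
    have k1 : HasDerivAt (fun t => F (γ t)) ⟪gradient F q, Y + κ • N⟫_ℝ 0 := by
      have k2 : HasFDerivAt F (innerSL ℝ (gradient F q)) (γ 0) := by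
        rw [hγ0]; exact hasFDerivAt_grad' (hF.smooth.differentiableAt (by norm_num))
      exact k2.comp_hasDerivAt (0 : ℝ) hκ
    have k3 := (hasDerivAt_const (0 : ℝ) (0 : ℝ)).congr_of_eventuallyEq hz0
    have k4 := k1.unique k3
    rw [inner_add_right, hY0, zero_add, inner_smul_right, ← hN] at k4
    exact (mul_eq_zero.1 k4).resolve_right hNN
  rw [hκ0, zero_smul, add_zero] at hκ
  -- the gradients are parallel along the curve
  have hγc : Tendsto γ (𝓝 0) (𝓝 q) := by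
    have k1 := hκ.continuousAt.tendsto
    rwa [hγ0] at k1
  have hpar : ∀ᶠ t : ℝ in 𝓝 0, ⟪gradient F (γ t), gradient F (γ t)⟫_ℝ *
      ⟪gradient F' (γ t), X⟫_ℝ = ⟪gradient F' (γ t), gradient F (γ t)⟫_ℝ *
      ⟪gradient F (γ t), X⟫_ℝ := by
    filter_upwards [hz0, hγc.eventually (localDef_zero hF), hγc.eventually (localDef_near hF')]
      with t t1 t2 t3
    obtain ⟨l', -, hl'⟩ := grad_parallel (t2 t1) (t3 _ (t2 t1))
    rw [hl', real_inner_smul_left, real_inner_smul_left]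
    ring
  -- the derivative
  obtain ⟨c1, c2, c3⟩ := grad_deriv hF.smooth
  obtain ⟨c1', c2', c3'⟩ := grad_deriv hF'.smooth
  have d1 : HasDerivAt (fun t => gradient F (γ t)) (fderiv ℝ (gradient F) q Y) 0 := by
    have k2 : HasFDerivAt (gradient F) (fderiv ℝ (gradient F) q) (γ 0) := by
      rw [hγ0]; exact (c1.differentiableAt (by norm_num)).hasFDerivAt
    exact k2.comp_hasDerivAt (0 : ℝ) hκ
  have d1' : HasDerivAt (fun t => gradient F' (γ t)) (fderiv ℝ (gradient F') q Y) 0 := by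
    have k2 : HasFDerivAt (gradient F') (fderiv ℝ (gradient F') q) (γ 0) := by
      rw [hγ0]; exact (c1'.differentiableAt (by norm_num)).hasFDerivAt
    exact k2.comp_hasDerivAt (0 : ℝ) hκ
  have dl := (d1.inner ℝ d1).mul (d1'.inner ℝ (hasDerivAt_const (0 : ℝ) X))
  have dr := (d1'.inner ℝ d1).mul (d1.inner ℝ (hasDerivAt_const (0 : ℝ) X))
  have heq := dl.unique (dr.congr_of_eventuallyEq hpar)
  simp only [hγ0, inner_zero_right, zero_add, h1, hX', mul_zero] at heq
  rw [c2', c2, c3 Y X, h2 Y hY0, mul_zero] at heq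
  rw [c3']
  rw [← hN] at heq
  exact (mul_eq_zero.1 heq).resolve_left hNN

theorem still_iff {Ω' : Set E} {q : E} {F : E → ℝ} (hF : LocalDef Ω' q F) {X : E} :
    Still Ω' q X ↔ StillF F q X := by
  constructor
  · rintro ⟨F', hF', h1, h2⟩
    exact still_indep hF' hF ⟨h1, h2⟩
  · rintro ⟨h1, h2⟩
    exact ⟨F, hF, h1, h2⟩

/-- The vectors in the kernel of the second fundamental form form a subspace. -/
theorem still_span {Ω' : Set E} {q : E} {F : E → ℝ} (hF : LocalDef Ω' q F) (S : Set (E × ℝ))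
    (hS : ∀ x ∈ S, Still Ω' q (x.2 • q + x.1)) {x : E × ℝ} (hx : x ∈ Submodule.span ℝ S) :
    Still Ω' q (x.2 • q + x.1) := by
  rw [still_iff hF]
  refine Submodule.span_induction (p := fun x _ => StillF F q (x.2 • q + x.1)) ?_ ?_ ?_ ?_ hx
  · intro x hx
    exact (still_iff hF).1 (hS x hx)
  · unfold StillF
    simp
  · rintro x y - - ⟨h1, h2⟩ ⟨h3, h4⟩
    have e : (x + y).2 • q + (x + y).1 = (x.2 • q + x.1) + (y.2 • q + y.1) := by
      simp only [Prod.fst_add, Prod.snd_add]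
      module
    rw [e]
    refine ⟨by rw [inner_add_right, h1, h3, add_zero], fun Y hY => ?_⟩
    rw [map_add, add_apply, h2 Y hY, h4 Y hY, add_zero]
  · rintro a x - ⟨h1, h2⟩
    have e : (a • x).2 • q + (a • x).1 = a • (x.2 • q + x.1) := by
      simp only [Prod.smul_fst, Prod.smul_snd, smul_eq_mul]
      module
    rw [e]
    refine ⟨by rw [inner_smul_right, h1, mul_zero], fun Y hY => ?_⟩
    rw [map_smul, smul_apply, h2 Y hY, smul_zero]

section Glue

variable [MeasurableSpace E] [BorelSpace E]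

/-- Exceptional null sets near the points of a set can be glued together. -/
theorem glue_null {V : Type*} [TopologicalSpace V] [SecondCountableTopology V] [MeasureSpace V]
    (W : Set (V × ((ℕ → E) × (ℕ → E))))
    (h : ∀ y ∈ W, ∃ N : Set (V × (E × E)), volume N = 0 ∧
      ∀ᶠ y' in 𝓝 y, y' ∈ W → NearRays N y'.1 y'.2) :
    ∃ N : Set (V × (E × E)), volume N = 0 ∧ ∀ y ∈ W, NearRays N y.1 y.2 := by
  classical
  have hpE : ProperSpace E := FiniteDimensional.proper ℝ E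
  choose! N hN1 hN2 using h
  obtain ⟨t, htW, htc, hcov⟩ := TopologicalSpace.countable_cover_nhdsWithin
    (f := fun y => {y' | y' ∈ W → NearRays (N y) y'.1 y'.2}) (s := W)
    (fun y hy => mem_nhdsWithin_of_mem_nhds (hN2 y hy))
  refine ⟨⋃ y ∈ t, N y, ?_, ?_⟩
  · rw [measure_biUnion_null_iff htc]
    exact fun y hy => hN1 y (htW hy)
  · intro y hy
    obtain ⟨y0, hy0, h1⟩ := mem_iUnion₂.1 (hcov hy)
    filter_upwards [h1 hy] with σ hσ
    exact mem_iUnion₂.2 ⟨y0, hy0, hσ⟩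

theorem glue_count_null {V K : Type*} [MeasureSpace V] [Countable K]
    (Q : K → Set (V × ((ℕ → E) × (ℕ → E))))
    (h : ∀ κ, ∃ N : Set (V × (E × E)), volume N = 0 ∧ ∀ y ∈ Q κ, NearRays N y.1 y.2) :
    ∃ N : Set (V × (E × E)), volume N = 0 ∧ ∀ κ, ∀ y ∈ Q κ, NearRays N y.1 y.2 := by
  choose N hN1 hN2 using h
  refine ⟨⋃ κ, N κ, ?_, ?_⟩
  · rw [measure_iUnion_null_iff]
    exact hN1
  · intro κ y hy
    filter_upwards [hN2 κ y hy] with σ hσ
    exact mem_iUnion.2 ⟨κ, hσ⟩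

end Glue

end Pool.Agent.V7H61.IV
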