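import Pool.Agent.V7H61.IV.Tw8

/-!
Parts whose positions and sizes are affine functions of parameters.
-/

set_option autoImplicit false

open MeasureTheory Set Filter Topology
open scoped InnerProductSpace ENNReal NNReal
open Pool.Agent.H721R2.Quart Pool.Agent.H721R2.Ivrii Pool.Agent.TH746

namespace Pool.Agent.V7H61.IV

variable {E : Type*} [NormedAddCommGroup E] [InnerProductSpace ℝ E] [FiniteDimensional ℝ E]
  {ι : Type*} {V : Type*} [NormedAddCommGroup V] [NormedSpace ℝ V] [FiniteDimensional ℝ V]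

/-- The closed orbits which hit the first part exactly once, at a point which moves if the part is
moved and scaled infinitesimally by `x`. -/
def One (Ωs : ι → Set E) (i : ℕ → ι) (c : ℕ → E) (g : E ≃ᵃⁱ[ℝ] E) (n : ℕ) (x : E × ℝ) :
    Set ((ι → E × ℝ) × ((ℕ → E) × (ℕ → E))) :=
  {y | 0 < n ∧ (∀ k < n, k ≠ 0 → i k ≠ i 0) ∧ y ∈ Clo Ωs i c g n ∧
    (∀ k < n, ∀ F : E → ℝ, LocalDef (Ωs (i k)) (rp i c y k) F →
      0 < (y.1 (i k)).2 * ⟪gradient F (rp i c y k), y.2.2 k⟫_ℝ) ∧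
    y.2.2 1 ≠ -y.2.2 0 ∧ ¬ Still (Ωs (i 0)) (rp i c y 0) (x.2 • rp i c y 0 + x.1)}

theorem one_congr {Ωs : ι → Set E} {i i' : ℕ → ι} {c c' : ℕ → E} {g : E ≃ᵃⁱ[ℝ] E} {n : ℕ}
    {x : E × ℝ} (hi : ∀ k < n, i k = i' k) (hc : ∀ k < n, c k = c' k) :
    One Ωs i c g n x ⊆ One Ωs i' c' g n x := by
  rintro y ⟨h0, h4, h5, h6, h7, h8⟩
  have hrp : ∀ k < n, rp i c y k = rp i' c' y k := by
    intro k hk
    unfold rp
    rw [hi k hk, hc k hk]
  refine ⟨h0, fun k hk h9 => ?_, clo_congr hi hc h5, fun k hk F hF => ?_, h7, ?_⟩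
  · rw [← hi k hk, ← hi 0 h0]; exact h4 k hk h9
  · rw [← hi k hk, ← hrp k hk] at hF ⊢
    exact h6 k hk F hF
  · rw [← hi 0 h0, ← hrp 0 h0]; exact h8

theorem twi_congr {Ωs : ι → Set E} {i i' : ℕ → ι} {c c' : ℕ → E} {g : E ≃ᵃⁱ[ℝ] E} {n r : ℕ}
    (hi : ∀ k < n, i k = i' k) (hc : ∀ k < n, c k = c' k) :
    Twi Ωs i c g n r ⊆ Twi Ωs i' c' g n r := by
  rintro y ⟨h1, h2, h3, h4, h5, h6, h7, h8⟩
  have hrp : ∀ k < n, rp i c y k = rp i' c' y k := by
    intro k hk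
    unfold rp
    rw [hi k hk, hc k hk]
  have h0 : 0 < n := by omega
  refine ⟨h1, h2, ?_, fun k hk h9 h10 => ?_, clo_congr hi hc h5, fun k hk F hF => ?_, h7, ?_⟩
  · rw [← hi r h2, ← hi 0 h0]; exact h3
  · rw [← hi k hk, ← hi 0 h0]; exact h4 k hk h9 h10
  · rw [← hi k hk, ← hrp k hk] at hF ⊢
    exact h6 k hk F hF
  · rw [← hi 0 h0, ← hrp 0 h0, ← hrp r h2]; exact h8

section Charts

variable [Fintype ι]

omit [FiniteDimensional ℝ E] [Fintype ι] in
theorem BA_tendsto (a : ι → E × ℝ) (A : V →ₗ[ℝ] (ι → E × ℝ)) (l0 : V) (w : (ℕ → E) × (ℕ → E)) :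
    Tendsto (fun y : V × ((ℕ → E) × (ℕ → E)) =>
      ((a + A y.1, y.2) : (ι → E × ℝ) × ((ℕ → E) × (ℕ → E)))) (𝓝 (l0, w))
      (𝓝 (a + A l0, w)) := by
  have c0 : Continuous A := A.continuous_of_finiteDimensional
  have c1 : Continuous (fun y : V × ((ℕ → E) × (ℕ → E)) =>
    ((a + A y.1, y.2) : (ι → E × ℝ) × ((ℕ → E) × (ℕ → E)))) :=
    (continuous_const.add (c0.comp continuous_fst)).prodMk continuous_snd
  exact c1.tendsto (l0, w)

theorem exists_chart1 {Ωs : ι → Set E} {i : ℕ → ι} {c : ℕ → E} {g : E ≃ᵃⁱ[ℝ] E}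
    {n : ℕ} {x : E × ℝ} {t0 : ι → E × ℝ} {p u : ℕ → E} (h0 : (t0, (p, u)) ∈ One Ωs i c g n x) :
    ∃ (F : ℕ → E → ℝ) (T : ℕ → E × E → ℝ),
      ∀ᶠ y : (ι → E × ℝ) × ((ℕ → E) × (ℕ → E)) in 𝓝 (t0, (p, u)), y ∈ One Ωs i c g n x →
        NearRays (NX F T i c n g x) y.1 y.2 := by
  obtain ⟨h0n, hi, hclo, hpos, hnn, hnf⟩ := h0
  simp only at hclo hnn hpos
  obtain ⟨F, T, hFc, hev⟩ := exists_chart0 h0n hclo hpos hnn
  refine ⟨F, T, ?_⟩
  filter_upwards [hev] with y hy hyT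
  obtain ⟨-, -, hyC, -, -, hynf⟩ := hyT
  obtain ⟨hld, hyσ⟩ := hy hyC
  filter_upwards [hyσ] with σ hσ
  obtain ⟨k1, k2, k3, k4, k5, k6, k7⟩ := hσ _ rfl
  refine ⟨k1, k2, k3, k5, ?_⟩
  intro hfl
  apply hynf
  rw [k6 0 h0n] at hfl
  exact (still_iff hld).2 hfl

variable [MeasurableSpace E] [BorelSpace E] [MeasureSpace V] [BorelSpace V]
  [(volume : Measure V).IsAddHaarMeasure]

/-- A universal exceptional set: one hit. -/
theorem exists_univ4 (hdim : 2 ≤ Module.finrank ℝ E) (Ωs : ι → Set E)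
    (a : ι → E × ℝ) (A : V →ₗ[ℝ] (ι → E × ℝ)) (D : Set (E × ℝ)) (hD : D.Countable)
    {Γ : Set (E ≃ᵃⁱ[ℝ] E)} (hΓ : Γ.Countable) {Λ : Set E} (hΛ : Λ.Countable) :
    ∃ N : Set (V × (E × E)), volume N = 0 ∧
      ∀ g ∈ Γ, ∀ (n : ℕ) (i : ℕ → ι) (c : ℕ → E), (∀ k < n, c k ∈ Λ) → ∀ x ∈ D,
        Motion A (i 0) x → ∀ y : V × ((ℕ → E) × (ℕ → E)),
        (a + A y.1, y.2) ∈ One Ωs i c g n x → NearRays N y.1 y.2 := by
  classical
  have hpE : ProperSpace E := FiniteDimensional.proper ℝ E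
  have hpV : ProperSpace V := FiniteDimensional.proper ℝ V
  have hΓ' : Countable Γ := hΓ.to_subtype
  have hΛ' : Countable Λ := hΛ.to_subtype
  have hD' : Countable D := hD.to_subtype
  rcases isEmpty_or_nonempty ι with hι | ⟨⟨j⟩⟩
  · refine ⟨∅, measure_empty, fun g _ n i => (hι.false (i 0)).elim⟩
  obtain ⟨N, hN1, hN2⟩ := glue_count_null (V := V) (K := Dat ι Γ Λ × D)
    (fun κ => {y | Motion A (κ.1.i j 0) (κ.2 : E × ℝ) ∧
      (a + A y.1, y.2) ∈ One Ωs (κ.1.i j) κ.1.c κ.1.1 κ.1.2.2.1 (κ.2 : E × ℝ)}) (fun κ => by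
      refine glue_null _ ?_
      rintro ⟨l0, p, u⟩ ⟨hm, h0⟩
      obtain ⟨F, T, hFT⟩ := exists_chart1 h0
      obtain ⟨h0n, hi, -⟩ := h0
      refine ⟨_, NX_null (F := F) (T := T) (c := κ.1.c) (g := κ.1.1) (a := a) hdim h0n hi hm, ?_⟩
      filter_upwards [(BA_tendsto a A l0 (p, u)).eventually hFT] with y hy hyT
      exact hy hyT.2)
  refine ⟨N, hN1, fun g hg n i c hc x hx hm y hy => ?_⟩
  have h0n : 0 < n := hy.1
  obtain ⟨κ, hκ⟩ : ∃ κ : Dat ι Γ Λ, κ =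
    (⟨g, hg⟩, (0, ∅), ⟨n, fun k => (i k, ⟨c k, hc k k.2⟩)⟩) := ⟨_, rfl⟩
  have e1 : ∀ k < n, Dat.i j κ k = i k := by
    intro k hk
    rw [hκ]
    simp only [Dat.i, dif_pos hk]
  have e2 : ∀ k < n, Dat.c κ k = c k := by
    intro k hk
    rw [hκ]
    simp only [Dat.c, dif_pos hk]
  have e3 : κ.2.2.1 = n := by rw [hκ]
  have e4 : (κ.1 : E ≃ᵃⁱ[ℝ] E) = g := by rw [hκ]
  refine hN2 (κ, ⟨x, hx⟩) y ⟨?_, ?_⟩
  · simp only
    rw [e1 0 h0n]
    exact hm
  · simp only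
    rw [e3, e4]
    exact one_congr (fun k hk => (e1 k hk).symm) (fun k hk => (e2 k hk).symm) hy

/-- A universal exceptional set: two hits. -/
theorem exists_univ3 (hdim : 2 ≤ Module.finrank ℝ E) (Ωs : ι → Set E)
    (a : ι → E × ℝ) (A : V →ₗ[ℝ] (ι → E × ℝ))
    {Γ : Set (E ≃ᵃⁱ[ℝ] E)} (hΓ : Γ.Countable) {Λ : Set E} (hΛ : Λ.Countable) :
    ∃ N : Set (V × (E × E)), volume N = 0 ∧
      ∀ g ∈ Γ, ∀ (n r : ℕ) (i : ℕ → ι) (c : ℕ → E), (∀ k < n, c k ∈ Λ) →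
        (∀ x, Motion A (i 0) x) → ∀ y : V × ((ℕ → E) × (ℕ → E)),
        (a + A y.1, y.2) ∈ Twi Ωs i c g n r → NearRays N y.1 y.2 := by
  classical
  have hpE : ProperSpace E := FiniteDimensional.proper ℝ E
  have hpV : ProperSpace V := FiniteDimensional.proper ℝ V
  have hΓ' : Countable Γ := hΓ.to_subtype
  have hΛ' : Countable Λ := hΛ.to_subtype
  rcases isEmpty_or_nonempty ι with hι | ⟨⟨j⟩⟩
  · refine ⟨∅, measure_empty, fun g _ n r i => (hι.false (i 0)).elim⟩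
  obtain ⟨N, hN1, hN2⟩ := glue_count_null (V := V) (K := Dat ι Γ Λ)
    (fun κ => {y | (∀ x, Motion A (κ.i j 0) x) ∧
      (a + A y.1, y.2) ∈ Twi Ωs (κ.i j) κ.c κ.1 κ.2.2.1 κ.2.1.1}) (fun κ => by
      refine glue_null _ ?_
      rintro ⟨l0, p, u⟩ ⟨hm, h0⟩
      obtain ⟨F, T, hFT⟩ := exists_chart h0
      obtain ⟨hr0, hrn, hir, hi, -⟩ := h0
      refine ⟨_, NT_null (F := F) (T := T) (c := κ.c) (g := κ.1) (a := a) hdim hr0 hrn hir hi hm,
        ?_⟩
      filter_upwards [(BA_tendsto a A l0 (p, u)).eventually hFT] with y hy hyT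
      exact hy hyT.2)
  refine ⟨N, hN1, fun g hg n r i c hc hm y hy => ?_⟩
  have h0n : 0 < n := by
    have h1 := hy.1
    have h2 := hy.2.1
    omega
  obtain ⟨κ, hκ⟩ : ∃ κ : Dat ι Γ Λ, κ =
    (⟨g, hg⟩, (r, ∅), ⟨n, fun k => (i k, ⟨c k, hc k k.2⟩)⟩) := ⟨_, rfl⟩
  have e1 : ∀ k < n, Dat.i j κ k = i k := by
    intro k hk
    rw [hκ]
    simp only [Dat.i, dif_pos hk]
  have e2 : ∀ k < n, Dat.c κ k = c k := by
    intro k hk
    rw [hκ]
    simp only [Dat.c, dif_pos hk]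
  have e3 : κ.2.2.1 = n := by rw [hκ]
  have e4 : (κ.1 : E ≃ᵃⁱ[ℝ] E) = g := by rw [hκ]
  have e5 : κ.2.1.1 = r := by rw [hκ]
  refine hN2 κ y ⟨?_, ?_⟩
  · rw [e1 0 h0n]
    exact hm
  · rw [e3, e4, e5]
    exact twi_congr (fun k hk => (e1 k hk).symm) (fun k hk => (e2 k hk).symm) hy

end Charts

/-- The bounces `a + 1, …, a + n` are at parts: the bounce `k` is at the part `i k`, with the position
and size `y (i k)`, moved in addition by the vector `c k ∈ Λ`. -/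
def Labels (Λ : Set E) (Ωs : ι → Set E) (y : ι → E × ℝ) (Ω : Set E) (p : ℕ → E) (a n : ℕ)
    (i : ℕ → ι) (c : ℕ → E) : Prop :=
  ∀ k, a < k → k ≤ a + n → c k ∈ Λ ∧ PartAt (Ωs (i k)) ((y (i k)).1 + c k) (y (i k)).2 Ω (p k)

/-- The phase points whose orbit is periodic modulo `Γ` and hits a part `j` exactly once in a period,
at a point `q` of the part which moves under some motion of the part `j` alone. -/
def OneSet (Γ : Set (E ≃ᵃⁱ[ℝ] E)) (Λ : Set E) (Ωs : ι → Set E) (A : V →ₗ[ℝ] (ι → E × ℝ))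
    (y : ι → E × ℝ) (Ω : Set E) : Set (E × E) :=
  {z | ∃ g ∈ Γ, ∃ (n : ℕ) (p u : ℕ → E), OrbitMod Ω g n p u ∧ (p 0, u 0) = z ∧
    ∃ (i : ℕ → ι) (c : ℕ → E) (a : ℕ) (j : ι) (q : E), a < n ∧ Labels Λ Ωs y Ω p a n i c ∧
      i (a + 1) = j ∧ (∀ k, a + 1 < k → k ≤ a + n → i k ≠ j) ∧
      q = (y j).2⁻¹ • (p (a + 1) - ((y j).1 + c (a + 1))) ∧
      ∃ x, Motion A j x ∧ ¬ Still (Ωs j) q (x.2 • q + x.1)}

/-- The phase points whose orbit is periodic modulo `Γ` and hits a part `j` exactly twice in a period,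
at the points `q` and `q'` of the part, if the part `j` can be moved and scaled independently of the
other ones, and the line through `q` and `q'` is not degenerate at `q`. -/
def TwiceSet (Γ : Set (E ≃ᵃⁱ[ℝ] E)) (Λ : Set E) (Ωs : ι → Set E) (A : V →ₗ[ℝ] (ι → E × ℝ))
    (y : ι → E × ℝ) (Ω : Set E) : Set (E × E) :=
  {z | ∃ g ∈ Γ, ∃ (n : ℕ) (p u : ℕ → E), OrbitMod Ω g n p u ∧ (p 0, u 0) = z ∧
    ∃ (i : ℕ → ι) (c : ℕ → E) (a b : ℕ) (j : ι) (q q' : E), a < n ∧ Labels Λ Ωs y Ω p a n i c ∧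
      a + 1 < b ∧ b ≤ a + n ∧ i (a + 1) = j ∧ i b = j ∧
      (∀ k, a + 1 < k → k ≤ a + n → k ≠ b → i k ≠ j) ∧
      q = (y j).2⁻¹ • (p (a + 1) - ((y j).1 + c (a + 1))) ∧
      q' = (y j).2⁻¹ • (p b - ((y j).1 + c b)) ∧
      (∀ x, Motion A j x) ∧ ¬ FlatLine (Ωs j) q q'}

/-- The motions of a part form a subspace. -/
def MotionSpace (A : V →ₗ[ℝ] (ι → E × ℝ)) (j : ι) : Submodule ℝ (E × ℝ) where
  carrier := {x | Motion A j x}
  add_mem' := by
    rintro x x' ⟨η, h1, h2⟩ ⟨η', h1', h2'⟩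
    refine ⟨η + η', ?_, fun i hi => ?_⟩
    · rw [map_add, Pi.add_apply, h1, h1']
    · rw [map_add, Pi.add_apply, h2 i hi, h2' i hi, add_zero]
  zero_mem' := ⟨0, by rw [map_zero]; rfl, fun i _ => by rw [map_zero]; rfl⟩
  smul_mem' := by
    rintro r x ⟨η, h1, h2⟩
    refine ⟨r • η, ?_, fun i hi => ?_⟩
    · rw [map_smul, Pi.smul_apply, h1]
    · rw [map_smul, Pi.smul_apply, h2 i hi, smul_zero]

/-- The labelled orbit, starting at the bounce `a`. -/
theorem clo_of_labels {Λ : Set E} {Ωs : ι → Set E} {Ω : Set E} {g : E ≃ᵃⁱ[ℝ] E} {n a : ℕ}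
    {p u : ℕ → E} (hor : OrbitMod Ω g n p u) {i : ℕ → ι} {c : ℕ → E} {y : ι → E × ℝ}
    (h : Labels Λ Ωs y Ω p a n i c) :
    (y, ((fun m => p (m + a)), fun m => u (m + a))) ∈
      Clo Ωs (fun k => i (k + 1 + a)) (fun k => c (k + 1 + a)) g n ∧
    ∀ k < n, ∀ F : E → ℝ, LocalDef (Ωs (i (k + 1 + a)))
        (rp (fun k => i (k + 1 + a)) (fun k => c (k + 1 + a))
          (y, ((fun m => p (m + a)), fun m => u (m + a))) k) F →
      0 < (y (i (k + 1 + a))).2 * ⟪gradient F (rp (fun k => i (k + 1 + a))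
        (fun k => c (k + 1 + a)) (y, ((fun m => p (m + a)), fun m => u (m + a))) k),
          u (k + a)⟫_ℝ := by
  have hun : ‖u a‖ = 1 := by
    have h3 := unit_steps hor.step hor.unit a
    rw [real_inner_self_eq_norm_sq] at h3
    nlinarith [norm_nonneg (u a)]
  have hst : ∀ k, Step Ω (p (k + a)) (u (k + a)) (p (k + 1 + a)) (u (k + 1 + a)) := by
    intro k
    have h3 := hor.step (k + a)
    rw [show k + a + 1 = k + 1 + a by ring] at h3
    exact h3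
  have hs : ∀ k < n, (y (i (k + 1 + a))).2 ≠ 0 := fun k hk =>
    part_size_ne (hst k) (h (k + 1 + a) (by omega) (by omega)).2
  refine ⟨⟨fun k hk => ?_, fun k hk => hs k hk, ?_, ?_, ?_⟩, fun k hk F hF => ?_⟩
  · exact bounce_of_step (hs k hk) (hst k) (h (k + 1 + a) (by omega) (by omega)).2
  · simp only [zero_add]
    exact hun
  · simp only [zero_add]
    rw [add_comm n a]
    exact hor.perp a
  · simp only [zero_add]
    rw [add_comm n a]
    exact hor.peru a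
  · exact part_pos (hs k hk) (hst k) (h (k + 1 + a) (by omega) (by omega)).2 hF

variable [MeasurableSpace E] [BorelSpace E] [Fintype ι] [MeasureSpace V] [BorelSpace V]
  [(volume : Measure V).IsAddHaarMeasure]

/-- **Affine families of positions and sizes: one hit.** -/
theorem one_null {d : ℕ} (hE : Module.finrank ℝ E = d + 2) (Ωs : ι → Set E)
    (x0 : ι → E × ℝ) (A : V →ₗ[ℝ] (ι → E × ℝ))
    {Γ : Set (E ≃ᵃⁱ[ℝ] E)} (hΓ : Γ.Countable) {Λ : Set E} (hΛ : Λ.Countable) :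
    ∀ᵐ l : V, ∀ Ω : Set E, (∀ g ∈ Γ, g ⁻¹' Ω = Ω) →
      μH[((2 * d + 2 : ℕ) : ℝ)] (OneSet Γ Λ Ωs A (x0 + A l) Ω) = 0 := by
  classical
  have hpE : ProperSpace E := FiniteDimensional.proper ℝ E
  have hpV : ProperSpace V := FiniteDimensional.proper ℝ V
  have hfg : ∀ j, ∃ S : Finset (E × ℝ), Submodule.span ℝ (S : Set (E × ℝ)) = MotionSpace A j :=
    fun j => IsNoetherian.noetherian (MotionSpace A j)
  choose S hS using hfg
  obtain ⟨N, hN0, hN⟩ := exists_univ4 (by omega) Ωs x0 A (⋃ j, (S j : Set (E × ℝ)))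
    (Set.countable_iUnion fun j => (S j).countable_toSet) hΓ hΛ
  have hgood : ∀ᵐ l : V, volume {z : E × E | (l, z) ∈ N} = 0 := by
    rw [Measure.volume_eq_prod] at hN0
    exact Measure.measure_ae_null_of_prod_null hN0
  filter_upwards [hgood] with l ht Ω hinv
  refine measure_mono_null (t := RetroSet Γ Ω ∪ Shifted Γ Ω {z : E × E | (l, z) ∈ N}) ?_
    (measure_union_null (retro_null hE hΓ hinv) (shifted_null hE hΓ hinv ht))
  rintro z ⟨g, hgΓ, n, p, u, hor, rfl, i, c, a, j, q, han, hpart, rfl, hi, hq, x, hx, hnst⟩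
  by_cases hret : u (a + 1) = -u a
  · left
    obtain ⟨τ, -, hq, -⟩ := hor.step a
    exact ⟨g, hgΓ, n, p, u, hor, rfl, a, 1, by omega, le_rfl, by omega, hret, τ, hq⟩
  · right
    obtain ⟨hclo, hpos⟩ := clo_of_labels hor hpart
    -- a motion in the spanning set
    obtain ⟨x', hx'S, hx'⟩ : ∃ x' ∈ S (i (a + 1)),
        ¬ Still (Ωs (i (a + 1))) q (x'.2 • q + x'.1) := by
      by_contra hcon
      push Not at hcon
      apply hnst
      obtain ⟨τ, -, -, F, hF, -⟩ := hclo.1 0 (by omega)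
      have hq' : ((x0 + A l) (i (0 + 1 + a))).2⁻¹ • (p (0 + 1 + a) -
          (((x0 + A l) (i (0 + 1 + a))).1 + c (0 + 1 + a))) = q := by
        rw [show 0 + 1 + a = a + 1 by ring, hq]
      have hF' : LocalDef (Ωs (i (a + 1))) q F := by
        have h1 := hF
        simp only at h1
        rw [hq', show 0 + 1 + a = a + 1 by ring] at h1
        exact h1
      have hx2 : x ∈ Submodule.span ℝ (S (i (a + 1)) : Set (E × ℝ)) := by
        rw [hS]; exact hx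
      exact still_span hF' _ (fun x' hx' => hcon x' hx') hx2
    have hm : Motion A (i (a + 1)) x' := by
      have h1 : x' ∈ MotionSpace A (i (a + 1)) := by
        rw [← hS]; exact Submodule.subset_span hx'S
      exact h1
    refine ⟨g, hgΓ, n, p, u, hor, rfl, a, han, ?_⟩
    have e0 : 0 + 1 + a = a + 1 := by ring
    have h5 := hN g hgΓ n (fun k => i (k + 1 + a)) (fun k => c (k + 1 + a))
      (fun k hk => (hpart (k + 1 + a) (by omega) (by omega)).1) x'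
      (mem_iUnion.2 ⟨i (a + 1), hx'S⟩) (by rw [e0]; exact hm)
      (l, ((fun m => p (m + a)), fun m => u (m + a))) ⟨by omega, ?_, hclo, hpos, ?_, ?_⟩
    · unfold NearRays at h5
      simp only [zero_add] at h5
      exact h5
    · intro k hk hk0
      simp only
      rw [e0]
      exact hi (k + 1 + a) (by omega) (by omega)
    · simp only [zero_add]
      rw [add_comm 1 a]
      exact hret
    · unfold rp
      simp only
      rw [e0, ← hq]
      exact hx'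

/-- **Affine families of positions and sizes: two hits.** -/
theorem twice_null {d : ℕ} (hE : Module.finrank ℝ E = d + 2) (Ωs : ι → Set E)
    (x0 : ι → E × ℝ) (A : V →ₗ[ℝ] (ι → E × ℝ))
    {Γ : Set (E ≃ᵃⁱ[ℝ] E)} (hΓ : Γ.Countable) {Λ : Set E} (hΛ : Λ.Countable) :
    ∀ᵐ l : V, ∀ Ω : Set E, (∀ g ∈ Γ, g ⁻¹' Ω = Ω) →
      μH[((2 * d + 2 : ℕ) : ℝ)] (TwiceSet Γ Λ Ωs A (x0 + A l) Ω) = 0 := by
  have hpE : ProperSpace E := FiniteDimensional.proper ℝ E
  have hpV : ProperSpace V := FiniteDimensional.proper ℝ V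
  obtain ⟨N, hN0, hN⟩ := exists_univ3 (by omega) Ωs x0 A hΓ hΛ
  have hgood : ∀ᵐ l : V, volume {z : E × E | (l, z) ∈ N} = 0 := by
    rw [Measure.volume_eq_prod] at hN0
    exact Measure.measure_ae_null_of_prod_null hN0
  filter_upwards [hgood] with l ht Ω hinv
  refine measure_mono_null (t := RetroSet Γ Ω ∪ Shifted Γ Ω {z : E × E | (l, z) ∈ N}) ?_
    (measure_union_null (retro_null hE hΓ hinv) (shifted_null hE hΓ hinv ht))
  rintro z ⟨g, hgΓ, n, p, u, hor, rfl, i, c, a, b, j, q, q', han, hpart, hab, hbn, rfl, hib, hi,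
    hq, hq', hm, hflat⟩
  by_cases hret : u (a + 1) = -u a
  · left
    obtain ⟨τ, -, hq, -⟩ := hor.step a
    exact ⟨g, hgΓ, n, p, u, hor, rfl, a, 1, by omega, le_rfl, by omega, hret, τ, hq⟩
  · right
    obtain ⟨hclo, hpos⟩ := clo_of_labels hor hpart
    refine ⟨g, hgΓ, n, p, u, hor, rfl, a, han, ?_⟩
    have e0 : 0 + 1 + a = a + 1 := by ring
    have e1 : b - (a + 1) + 1 + a = b := by omega
    have h5 := hN g hgΓ n (b - (a + 1)) (fun k => i (k + 1 + a)) (fun k => c (k + 1 + a))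
      (fun k hk => (hpart (k + 1 + a) (by omega) (by omega)).1)
      (by rw [e0]; exact hm)
      (l, ((fun m => p (m + a)), fun m => u (m + a)))
      ⟨by omega, by omega, ?_, ?_, hclo, hpos, ?_, ?_⟩
    · unfold NearRays at h5
      simp only [zero_add] at h5
      exact h5
    · simp only
      rw [e0, e1]
      exact hib
    · intro k hk hk0 hkr
      simp only
      rw [e0]
      exact hi (k + 1 + a) (by omega) (by omega) (by omega)
    · simp only [zero_add]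
      rw [add_comm 1 a]
      exact hret
    · unfold rp
      simp only
      rw [e0, e1, hib, ← hq, ← hq']
      exact hflat

end Pool.Agent.V7H61.IV
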